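import Pool.Agent.Lib.K5L.Pc

/-!
# K5L.Box: the box of the critical point and the arc through it (interfaces)
-/

set_option autoImplicit false

namespace K5L

open K5N K5C Filter Topology
open scoped ContDiff

noncomputable section

/-- A critical point in a small box. -/
structure Box (r s y t : ℝ) : Prop where
  crit : K5N.Crit r s y t
  M : fM (jet r s y t) = 0
  Net : fNet (jet r s y t) = 0
  r1 : |r - 150590228048589430 / 10 ^ 18| ≤ 1 / 10 ^ 12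
  s1 : |s - 1728695357158073024 / 10 ^ 18| ≤ 1 / 10 ^ 12
  y1 : |y - 205212204790913531 / 10 ^ 18| ≤ 1 / 10 ^ 12
  t1 : |t - 1076957403474882 / 10 ^ 18| ≤ 1 / 10 ^ 12

/-- The arc of the singular expansion: `px = R (1 - v ^ 2)`. -/
structure Arc (R : ℝ) (r s y t : ℝ → ℝ) : Prop where
  R_pos : 0 < R
  an_r : ContDiffAt ℝ ω r 0
  an_s : ContDiffAt ℝ ω s 0
  an_y : ContDiffAt ℝ ω y 0
  an_t : ContDiffAt ℝ ω t 0
  x_eq : ∀ᶠ v in 𝓝 (0 : ℝ), px (r v) (s v) (y v) (t v) = R * (1 - v ^ 2)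
  M : ∀ᶠ v in 𝓝 (0 : ℝ), fM (jet (r v) (s v) (y v) (t v)) = 0
  Net : ∀ᶠ v in 𝓝 (0 : ℝ), fNet (jet (r v) (s v) (y v) (t v)) = 0
  good : ∀ᶠ v in 𝓝[≥] (0 : ℝ), Good (r v) (s v) (y v) (t v)
  j_pos : ∀ᶠ v in 𝓝 (0 : ℝ), 0 < pj (r v) (s v) (y v) (t v)
  strict : ∀ᶠ v in 𝓝[>] (0 : ℝ), 0 < chi (r v) (s v) (y v) (t v)
  y_pos : ∀ᶠ v in 𝓝 (0 : ℝ), 0 < y v
  t_pos : ∀ᶠ v in 𝓝 (0 : ℝ), 0 < t v
  D_one : ∀ᶠ v in 𝓝 (0 : ℝ), 1 < fD (jet (r v) (s v) (y v) (t v))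
  A_pos : ∀ᶠ v in 𝓝 (0 : ℝ), 0 < fA (jet (r v) (s v) (y v) (t v))
  u_pos : ∀ᶠ v in 𝓝 (0 : ℝ), 0 < pw1 (r v) (s v) (y v) (t v)
  anti : ∃ ε > 0, StrictAntiOn (fun v => fD (jet (r v) (s v) (y v) (t v))) (Set.Icc 0 ε) ∧
    StrictAntiOn (fun v => fA (jet (r v) (s v) (y v) (t v))) (Set.Icc 0 ε)

end

end K5L
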