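import Pool.Agent.Lib.K5S.Iv
import Pool.Agent.Lib.K5L.Box

/-!
# K5L.BoxNum : numerical values at the critical point

`px ≤ 0.0374`, `fD ≤ 1.1`, `pBx 1` and `exp (pBx 1) / px` on the box of the critical point.
Generated file.
-/

namespace K5L

open K5N K5C K5S

theorem Box.num {r s y t : ℝ} (h : Box r s y t) :
    In (37382006738494476657/1000000000000000000000) (93455016866136459679/2500000000000000000000) (px r s y t) ∧
    In (5459898406883688538349/5000000000000000000000) (10919797158782448717417/10000000000000000000000) (fD (jet r s y t)) ∧
    In (76408941800241420967/2000000000000000000000) (95511327402433791853/2500000000000000000000) (pBx 1 r s y t) ∧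
    In (27792612 / 1000000) (27792615 / 1000000) (Real.exp (pBx 1 r s y t) / px r s y t) := by
  have hr : In (15059022804758943/100000000000000000) (15059022804958943/100000000000000000) r := by
    have h0 := abs_le.1 h.r1
    constructor
    · have := h0.1
      norm_num at this ⊢
      linarith
    · have := h0.2
      norm_num at this ⊢
      linarith
  have hs : In (13505432477789633/7812500000000000) (6752716238902629/3906250000000000) s := by
    have h0 := abs_le.1 h.s1
    constructor
    · have := h0.1
      norm_num at this ⊢
      linarith
    · have := h0.2
      norm_num at this ⊢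
      linarith
  have hy : In (205212204789913531/1000000000000000000) (205212204791913531/1000000000000000000) y := by
    have h0 := abs_le.1 h.y1
    constructor
    · have := h0.1
      norm_num at this ⊢
      linarith
    · have := h0.2
      norm_num at this ⊢
      linarith
  have ht : In (538478701237441/500000000000000000) (538478702237441/500000000000000000) t := by
    have h0 := abs_le.1 h.t1
    constructor
    · have := h0.1
      norm_num at this ⊢
      linarith
    · have := h0.2
      norm_num at this ⊢
      linarith
  have hM : pM r s y t = 0 := h.M
  unfold pM at hM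
  have h1 : In (939642792602331227/500000000000000000) (939642792604331227/500000000000000000) (r + s) := hr.add' hs (by norm_num)
  have h2 : In (4165194048945482963/16000000000000000000) (130162314031425628179/500000000000000000000) (r * s) := hr.mul' hs (by norm_num)
  have h3 : In (7086692744820309447/312500000000000000000) (226774167840273511427/10000000000000000000000) (r ^ 2) := hr.pow' 2 (by norm_num)
  have h4 : In (29883876378564202636221/10000000000000000000000) (29883876378633350450509/10000000000000000000000) (s ^ 2) := hs.pow' 2 (by norm_num)
  have h5 : In (13505432477789633/3906250000000000) (6752716238902629/1953125000000000) (2 * s) := (In.const (c := 2) (le_refl _) (le_refl _)).mul' hs (by norm_num)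
  have h6 : In (1803990471180867739/500000000000000000) (1803990471183867739/500000000000000000) (r + (2 * s)) := hr.add' h5 (by norm_num)
  have h7 : In (45177068414276829/50000000000000000) (45177068414876829/50000000000000000) (6 * r) := (In.const (c := 6) (le_refl _) (le_refl _)).mul' hr (by norm_num)
  have h8 : In (15619477683545561111253/10000000000000000000000) (15619477683771075381479/10000000000000000000000) ((6 * r) * s) := h7.mul' hs (by norm_num)
  have h9 : In (15846251851379811013557/10000000000000000000000) (7923125925805674446453/5000000000000000000000) ((r ^ 2) + ((6 * r) * s)) := h3.add' h8 (by norm_num)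
  have h10 : In (89651629135692607908663/10000000000000000000000) (89651629135900051351527/10000000000000000000000) (3 * (s ^ 2)) := (In.const (c := 3) (le_refl _) (le_refl _)).mul' h4 (by norm_num)
  have h11 : In (5274894049353620946111/500000000000000000000) (105497880987511400244433/10000000000000000000000) (((r ^ 2) + ((6 * r) * s)) + (3 * (s ^ 2))) := h9.add' h10 (by norm_num)
  have h12 : In (61805905434923405177/2000000000000000000000) (309029527181733074543/10000000000000000000000) (y * r) := hy.mul' hr (by norm_num)
  have h13 : In (111497264467307627927/1000000000000000000000) (1114972644700605024377/10000000000000000000000) ((y * r) * (r + (2 * s))) := h12.mul' h6 (by norm_num)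
  have h14 : In (390929635775289275623/10000000000000000000000) (39092963582281802073/1000000000000000000000) (r - ((y * r) * (r + (2 * s)))) := hr.sub' h13 (by norm_num)
  have h15 : In (324358521672464067/2000000000000000000000) (324358522279132809/2000000000000000000000) (t * r) := ht.mul' hr (by norm_num)
  have h16 : In (8554784179136091007/5000000000000000000000) (17109568390344509053/10000000000000000000000) ((t * r) * (((r ^ 2) + ((6 * r) * s)) + (3 * (s ^ 2)))) := h15.mul' h11 (by norm_num)
  have h17 : In (37382006738494476657/1000000000000000000000) (93455016866136459679/2500000000000000000000) ((r - ((y * r) * (r + (2 * s)))) - ((t * r) * (((r ^ 2) + ((6 * r) * s)) + (3 * (s ^ 2))))) := h14.sub' h16 (by norm_num)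
  have h18 : In (37382006738494476657/1000000000000000000000) (93455016866136459679/2500000000000000000000) (px r s y t) := In.congr h17 (by unfold px; ring)
  have h19 : In (35317143107580306242277/10000000000000000000000) (17658571553865324544547/5000000000000000000000) ((r + s) ^ 2) := h1.pow' 2 (by norm_num)
  have h20 : In (205212204789913531/500000000000000000) (205212204791913531/500000000000000000) (2 * y) := (In.const (c := 2) (le_refl _) (le_refl _)).mul' hy (by norm_num)
  have h21 : In (1928261691848758428139/2500000000000000000000) (1928261691871655528087/2500000000000000000000) ((2 * y) * (r + s)) := h20.mul' h1 (by norm_num)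
  have h22 : In (571738308128344471913/2500000000000000000000) (571738308151241571861/2500000000000000000000) (1 - ((2 * y) * (r + s))) := (In.const (c := 1) (le_refl _) (le_refl _)).sub' h21 (by norm_num)
  have h23 : In (1615436103712323/500000000000000000) (1615436106712323/500000000000000000) (3 * t) := (In.const (c := 3) (le_refl _) (le_refl _)).mul' ht (by norm_num)
  have h24 : In (4740048673521404136769/1250000000000000000000) (18960194694179580826337/5000000000000000000000) (((r + s) ^ 2) + (r * s)) := h19.add' h2 (by norm_num)
  have h25 : In (7657245760560182077/625000000000000000000) (382862288740913821/31250000000000000000) ((3 * t) * (((r + s) ^ 2) + (r * s))) := h23.mul' h24 (by norm_num)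
  have h26 : In (541109325029071366233/2500000000000000000000) (541109325109000843553/2500000000000000000000) ((1 - ((2 * y) * (r + s))) - ((3 * t) * (((r + s) ^ 2) + (r * s)))) := h22.sub' h25 (by norm_num)
  have h27 : In (35216020944374923899/625000000000000000000) (440200261876065953/7812500000000000000) ((r * s) * ((1 - ((2 * y) * (r + s))) - ((3 * t) * (((r + s) ^ 2) + (r * s))))) := h2.mul' h26 (by norm_num)
  have h28 : In (35216020944374923899/625000000000000000000) (440200261876065953/7812500000000000000) (pw1 r s y t) := In.congr h27 (by unfold pw1; ring)
  have h29 : In (35317143107580306242277/5000000000000000000000) (17658571553865324544547/2500000000000000000000) (2 * ((r + s) ^ 2)) := (In.const (c := 2) (le_refl _) (le_refl _)).mul' h19 (by norm_num)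
  have h30 : In (73237532495751539336429/10000000000000000000000) (9154691562011226342721/1250000000000000000000) ((2 * ((r + s) ^ 2)) + (r * s)) := h29.add' h2 (by norm_num)
  have h31 : In (15029235516826111919067/10000000000000000000000) (15029235517042004404967/10000000000000000000000) (y * ((2 * ((r + s) ^ 2)) + (r * s))) := hy.mul' h30 (by norm_num)
  have h32 : In (3763620335004620135033/10000000000000000000000) (3763620335260512620933/10000000000000000000000) ((r + s) - (y * ((2 * ((r + s) ^ 2)) + (r * s)))) := h1.sub' h31 (by norm_num)
  have h33 : In (1615436103712323/500000000000000000) (1615436106712323/500000000000000000) (3 * t) := (In.const (c := 3) (le_refl _) (le_refl _)).mul' ht (by norm_num)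
  have h34 : In (1517932891762876359/250000000000000000000) (30358657891700712181/5000000000000000000000) ((3 * t) * (r + s)) := h33.mul' h1 (by norm_num)
  have h35 : In (4165194048945482963/8000000000000000000) (130162314031425628179/250000000000000000000) (2 * (r * s)) := (In.const (c := 2) (le_refl _) (le_refl _)).mul' h2 (by norm_num)
  have h36 : In (40523635668762159946027/10000000000000000000000) (20261817834493837108127/5000000000000000000000) (((r + s) ^ 2) + (2 * (r * s))) := h19.add' h35 (by norm_num)
  have h37 : In (123024318950858774941/5000000000000000000000) (7689019948766982031/312500000000000000000) (((3 * t) * (r + s)) * (((r + s) ^ 2) + (2 * (r * s)))) := h34.mul' h36 (by norm_num)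
  have h38 : In (3517571696644076710041/10000000000000000000000) (3517571697358795071051/10000000000000000000000) (((r + s) - (y * ((2 * ((r + s) ^ 2)) + (r * s)))) - (((3 * t) * (r + s)) * (((r + s) ^ 2) + (2 * (r * s))))) := h32.sub' h37 (by norm_num)
  have h39 : In (915710543600060874839/10000000000000000000000) (228927635949835177477/2500000000000000000000) ((r * s) * (((r + s) - (y * ((2 * ((r + s) ^ 2)) + (r * s)))) - (((3 * t) * (r + s)) * (((r + s) ^ 2) + (2 * (r * s)))))) := h2.mul' h38 (by norm_num)
  have h40 : In (915710543600060874839/10000000000000000000000) (228927635949835177477/2500000000000000000000) (pw2 r s y t) := In.congr h39 (by unfold pw2; ring)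
  have h41 : In (4740048673521404136769/1250000000000000000000) (18960194694179580826337/5000000000000000000000) (((r + s) ^ 2) + (r * s)) := h19.add' h2 (by norm_num)
  have h42 : In (205212204789913531/500000000000000000) (205212204791913531/500000000000000000) (2 * y) := (In.const (c := 2) (le_refl _) (le_refl _)).mul' hy (by norm_num)
  have h43 : In (1928261691848758428139/2500000000000000000000) (1928261691871655528087/2500000000000000000000) ((2 * y) * (r + s)) := h42.mul' h1 (by norm_num)
  have h44 : In (4165194048945482963/8000000000000000000) (130162314031425628179/250000000000000000000) (2 * (r * s)) := (In.const (c := 2) (le_refl _) (le_refl _)).mul' h2 (by norm_num)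
  have h45 : In (40523635668762159946027/10000000000000000000000) (20261817834493837108127/5000000000000000000000) (((r + s) ^ 2) + (2 * (r * s))) := h19.add' h44 (by norm_num)
  have h46 : In (31256069709804006290813/10000000000000000000000) (1562803485517454799829/500000000000000000000) (((2 * y) * (r + s)) * (((r + s) ^ 2) + (2 * (r * s)))) := h43.mul' h45 (by norm_num)
  have h47 : In (1666079919455534274393/2500000000000000000000) (6664319678555155361861/10000000000000000000000) ((((r + s) ^ 2) + (r * s)) - (((2 * y) * (r + s)) * (((r + s) ^ 2) + (2 * (r * s))))) := h41.sub' h46 (by norm_num)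
  have h48 : In (31182514932032678266453/2500000000000000000000) (6236502986459632451653/500000000000000000000) ((r + s) ^ 4) := h1.pow' 4 (by norm_num)
  have h49 : In (93547544796098034799359/2500000000000000000000) (18709508959378897354959/500000000000000000000) (3 * ((r + s) ^ 4)) := (In.const (c := 3) (le_refl _) (le_refl _)).mul' h48 (by norm_num)
  have h50 : In (105951429322740918726831/2500000000000000000000) (52975714661595973633641/1250000000000000000000) (12 * ((r + s) ^ 2)) := (In.const (c := 12) (le_refl _) (le_refl _)).mul' h19 (by norm_num)
  have h51 : In (110327065723087104264299/10000000000000000000000) (55163532862574831781679/5000000000000000000000) ((12 * ((r + s) ^ 2)) * (r * s)) := h50.mul' h2 (by norm_num)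
  have h52 : In (96903448981495848692347/2000000000000000000000) (242258622456363805331269/5000000000000000000000) ((3 * ((r + s) ^ 4)) + ((12 * ((r + s) ^ 2)) * (r * s))) := h49.add' h51 (by norm_num)
  have h53 : In (338844559870524732907/5000000000000000000000) (135537823952123687731/2000000000000000000000) ((r * s) ^ 2) := h2.pow' 2 (by norm_num)
  have h54 : In (338844559870524732907/1250000000000000000000) (135537823952123687731/500000000000000000000) (4 * ((r * s) ^ 2)) := (In.const (c := 4) (le_refl _) (le_refl _)).mul' h53 (by norm_num)
  have h55 : In (487228001386443441324991/10000000000000000000000) (243614000695885042208579/5000000000000000000000) (((3 * ((r + s) ^ 4)) + ((12 * ((r + s) ^ 2)) * (r * s))) + (4 * ((r * s) ^ 2))) := h52.add' h54 (by norm_num)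
  have h56 : In (524723802786172334343/10000000000000000000000) (131180950941591226209/2500000000000000000000) (t * (((3 * ((r + s) ^ 4)) + ((12 * ((r + s) ^ 2)) * (r * s))) + (4 * ((r * s) ^ 2)))) := ht.mul' h55 (by norm_num)
  have h57 : In (191862371064242881023/312500000000000000000) (3069797937884491513759/5000000000000000000000) (((((r + s) ^ 2) + (r * s)) - (((2 * y) * (r + s)) * (((r + s) ^ 2) + (2 * (r * s))))) - (t * (((3 * ((r + s) ^ 4)) + ((12 * ((r + s) ^ 2)) * (r * s))) + (4 * ((r * s) ^ 2))))) := h47.sub' h56 (by norm_num)
  have h58 : In (159828801234670895349/1000000000000000000000) (15982880128157760349/100000000000000000000) ((r * s) * (((((r + s) ^ 2) + (r * s)) - (((2 * y) * (r + s)) * (((r + s) ^ 2) + (2 * (r * s))))) - (t * (((3 * ((r + s) ^ 4)) + ((12 * ((r + s) ^ 2)) * (r * s))) + (4 * ((r * s) ^ 2)))))) := h2.mul' h57 (by norm_num)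
  have h59 : In (159828801234670895349/1000000000000000000000) (15982880128157760349/100000000000000000000) (pw3 r s y t) := In.congr h58 (by unfold pw3; ring)
  have h60 : In (753646452064051628407/500000000000000000000) (15072929046934762453247/10000000000000000000000) ((pw1 r s y t) / (px r s y t)) := h28.div' h18 (by norm_num)
  have h61 : In (753646452064051628407/500000000000000000000) (15072929046934762453247/10000000000000000000000) (pkap r s y t) := In.congr h60 (by unfold pkap; ring)
  have h62 : In (1419957436771832172479/625000000000000000000) (22719319005392968638219/10000000000000000000000) ((pkap r s y t) ^ 2) := h61.pow' 2 (by norm_num)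
  have h63 : In (8561167074440449891377/2500000000000000000000) (8561167084074116850019/2500000000000000000000) ((pkap r s y t) ^ 3) := h61.pow' 3 (by norm_num)
  have h64 : In (7376009803714297329/2000000000000000000000) (7376009825712203819/2000000000000000000000) (t * ((pkap r s y t) ^ 3)) := ht.mul' h63 (by norm_num)
  have h65 : In (7376009803714297329/2000000000000000000000) (7376009825712203819/2000000000000000000000) (pT r s y t) := In.congr h64 (by unfold pT; ring)
  have h66 : In (2331140770462255343861/5000000000000000000000) (1165570386116878778957/2500000000000000000000) (y * ((pkap r s y t) ^ 2)) := hy.mul' h62 (by norm_num)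
  have h67 : In (7376009803714297329/1000000000000000000000) (7376009825712203819/1000000000000000000000) (2 * (pT r s y t)) := (In.const (c := 2) (le_refl _) (le_refl _)).mul' h65 (by norm_num)
  have h68 : In (1184010409740413415253/2500000000000000000000) (2368020821362318577009/5000000000000000000000) ((y * ((pkap r s y t) ^ 2)) + (2 * (pT r s y t))) := h66.add' h67 (by norm_num)
  have h69 : In (1184010409740413415253/2500000000000000000000) (2368020821362318577009/5000000000000000000000) (pY r s y t) := In.congr h68 (by unfold pY; ring)
  have h70 : In (69870721389842323/50000000000000000000) (13974144283919760233/10000000000000000000000) ((px r s y t) ^ 2) := h18.pow' 2 (by norm_num)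
  have h71 : In (65297694445463897/1250000000000000000000) (522381555897418237/10000000000000000000000) ((px r s y t) ^ 3) := h18.pow' 3 (by norm_num)
  have h72 : In (201526846685566429621/5000000000000000000000) (50381711720151354559/1250000000000000000000) ((pw2 r s y t) / ((pkap r s y t) ^ 2)) := h40.div' h62 (by norm_num)
  have h73 : In (14616812953293510263/5000000000000000000000) (14616813188133034951/5000000000000000000000) (((pw2 r s y t) / ((pkap r s y t) ^ 2)) - (px r s y t)) := h72.sub' h18 (by norm_num)
  have h74 : In (10459898406883688538349/5000000000000000000000) (20919797158782448717417/10000000000000000000000) ((((pw2 r s y t) / ((pkap r s y t) ^ 2)) - (px r s y t)) / ((px r s y t) ^ 2)) := h73.div' h70 (by norm_num)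
  have h75 : In (5459898406883688538349/5000000000000000000000) (10919797158782448717417/10000000000000000000000) (((((pw2 r s y t) / ((pkap r s y t) ^ 2)) - (px r s y t)) / ((px r s y t) ^ 2)) - 1) := h74.sub' (In.const (c := 1) (le_refl _) (le_refl _)) (by norm_num)
  have h76 : In (5459898406883688538349/5000000000000000000000) (10919797158782448717417/10000000000000000000000) (pD r s y t) := In.congr h75 (by unfold pD; ring)
  have h77 : In (10459898406883688538349/5000000000000000000000) (20919797158782448717417/10000000000000000000000) (1 + (pD r s y t)) := (In.const (c := 1) (le_refl _) (le_refl _)).add' h76 (by norm_num)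
  have h78 : In (466726089051549705297/10000000000000000000000) (233363044856860051493/5000000000000000000000) ((pw3 r s y t) / ((pkap r s y t) ^ 3)) := h59.div' h63 (by norm_num)
  have h79 : In (209612164169526969/50000000000000000000) (41922432851759280699/10000000000000000000000) (3 * ((px r s y t) ^ 2)) := (In.const (c := 3) (le_refl _) (le_refl _)).mul' h70 (by norm_num)
  have h80 : In (87700877682411092951/10000000000000000000000) (87700879166148178949/10000000000000000000000) ((3 * ((px r s y t) ^ 2)) * (1 + (pD r s y t))) := h79.mul' h77 (by norm_num)
  have h81 : In (94756302471350381587/2500000000000000000000) (75805042406261802007/2000000000000000000000) (((pw3 r s y t) / ((pkap r s y t) ^ 3)) - ((3 * ((px r s y t) ^ 2)) * (1 + (pD r s y t)))) := h78.sub' h80 (by norm_num)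
  have h82 : In (325321401303480477/625000000000000000000) (1041028929272848693/2000000000000000000000) ((((pw3 r s y t) / ((pkap r s y t) ^ 3)) - ((3 * ((px r s y t) ^ 2)) * (1 + (pD r s y t)))) - (px r s y t)) := h81.sub' h18 (by norm_num)
  have h83 : In (99642538334141306421069/10000000000000000000000) (9964258100091761114019/1000000000000000000000) (((((pw3 r s y t) / ((pkap r s y t) ^ 3)) - ((3 * ((px r s y t) ^ 2)) * (1 + (pD r s y t)))) - (px r s y t)) / ((px r s y t) ^ 3)) := h82.div' h71 (by norm_num)
  have h84 : In (99642538334141306421069/10000000000000000000000) (9964258100091761114019/1000000000000000000000) (pN r s y t) := In.congr h83 (by unfold pN; ring)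
  have h85 : In (91552959194213049849083/10000000000000000000000) (1430515058186925844353/156250000000000000000) ((1 + (pD r s y t)) ^ 3) := h77.pow' 3 (by norm_num)
  have h86 : In (5441797527962531217503/5000000000000000000000) (5441800127374577333917/5000000000000000000000) ((pN r s y t) / ((1 + (pD r s y t)) ^ 3)) := h84.div' h85 (by norm_num)
  have h87 : In (441797527962531217503/5000000000000000000000) (441800127374577333917/5000000000000000000000) (((pN r s y t) / ((1 + (pD r s y t)) ^ 3)) - 1) := h86.sub' (In.const (c := 1) (le_refl _) (le_refl _)) (by norm_num)
  have h88 : In (846715006796501415911/10000000000000000000000) (846720205730583181189/10000000000000000000000) ((((pN r s y t) / ((1 + (pD r s y t)) ^ 3)) - 1) - (pT r s y t)) := h87.sub' h65 (by norm_num)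
  have h89 : In (846715006796501415911/10000000000000000000000) (846720205730583181189/10000000000000000000000) (pA r s y t) := In.congr h88 (by unfold pA; ring)
  have h90 : In (408203918075242605669/10000000000000000000000) (408203931059521094771/10000000000000000000000) ((px r s y t) * (pD r s y t)) := h18.mul' h76 (by norm_num)
  have h91 : In (10408203918075242605669/10000000000000000000000) (10408203931059521094771/10000000000000000000000) (1 + ((px r s y t) * (pD r s y t))) := (In.const (c := 1) (le_refl _) (le_refl _)).add' h90 (by norm_num)
  have h92 : In (5962098122698208024129/5000000000000000000000) (372631156215478873519/312500000000000000000) ((pD r s y t) ^ 2) := h76.pow' 2 (by norm_num)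
  have h93 : In (445750384396539362893/10000000000000000000000) (222875206329379251091/5000000000000000000000) ((px r s y t) * ((pD r s y t) ^ 2)) := h18.mul' h92 (by norm_num)
  have h94 : In (428268303877442793989/10000000000000000000000) (428268331565500079073/10000000000000000000000) (((px r s y t) * ((pD r s y t) ^ 2)) / (1 + ((px r s y t) * (pD r s y t)))) := h93.div' h91 (by norm_num)
  have h95 : In (7376009803714297329/1000000000000000000000) (7376009825712203819/1000000000000000000000) (2 * (pT r s y t)) := (In.const (c := 2) (le_refl _) (le_refl _)).mul' h65 (by norm_num)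
  have h96 : In (136013801561223567/10000000000000000000000) (136013802372507439/10000000000000000000000) ((pT r s y t) ^ 2) := h65.pow' 2 (by norm_num)
  have h97 : In (73896111838704196857/10000000000000000000000) (73896112059494545629/10000000000000000000000) ((2 * (pT r s y t)) + ((pT r s y t) ^ 2)) := h95.add' h96 (by norm_num)
  have h98 : In (1304959690919264058349/2500000000000000000000) (5219839014686844146561/10000000000000000000000) ((pD r s y t) / (1 + (pD r s y t))) := h76.div' h77 (by norm_num)
  have h99 : In (241898560476209539689/5000000000000000000000) (483797375725190485549/10000000000000000000000) (((pD r s y t) / (1 + (pD r s y t))) - (pY r s y t)) := h98.sub' h69 (by norm_num)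
  have h100 : In (11105757877383800061/2000000000000000000000) (1388226796193692289/250000000000000000000) ((((pD r s y t) / (1 + (pD r s y t))) - (pY r s y t)) - (((px r s y t) * ((pD r s y t) ^ 2)) / (1 + ((px r s y t) * (pD r s y t))))) := h99.sub' h94 (by norm_num)
  have h101 : In (21881894936465585100827/5000000000000000000000) (21881895658230110693721/5000000000000000000000) ((1 + (pD r s y t)) ^ 2) := h77.pow' 2 (by norm_num)
  have h102 : In (817989143965984670401/5000000000000000000000) (1635978342242346530439/10000000000000000000000) ((px r s y t) * ((1 + (pD r s y t)) ^ 2)) := h18.mul' h101 (by norm_num)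
  have h103 : In (12089243453071262291/10000000000000000000000) (12089243890524655849/10000000000000000000000) (((px r s y t) * ((1 + (pD r s y t)) ^ 2)) * ((2 * (pT r s y t)) + ((pT r s y t) ^ 2))) := h102.mul' h97 (by norm_num)
  have h104 : In (5429943187049293057/1250000000000000000000) (43439828394676429269/10000000000000000000000) (((((pD r s y t) / (1 + (pD r s y t))) - (pY r s y t)) - (((px r s y t) * ((pD r s y t) ^ 2)) / (1 + ((px r s y t) * (pD r s y t))))) - (((px r s y t) * ((1 + (pD r s y t)) ^ 2)) * ((2 * (pT r s y t)) + ((pT r s y t) ^ 2)))) := h100.sub' h103 (by norm_num)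
  have h105 : In (5429943187049293057/2500000000000000000000) (4343982839467642927/2000000000000000000000) ((((((pD r s y t) / (1 + (pD r s y t))) - (pY r s y t)) - (((px r s y t) * ((pD r s y t) ^ 2)) / (1 + ((px r s y t) * (pD r s y t))))) - (((px r s y t) * ((1 + (pD r s y t)) ^ 2)) * ((2 * (pT r s y t)) + ((pT r s y t) ^ 2)))) / 2) := h104.div' (In.const (c := 2) (le_refl _) (le_refl _)) (by norm_num)
  have h106 : In (5429943187049293057/2500000000000000000000) (4343982839467642927/2000000000000000000000) (pK r s y t) := In.congr h105 (by unfold pK; ring)
  have h107 : In (40284147683396327216049/10000000000000000000000) (20142073846254715868471/5000000000000000000000) (r / (px r s y t)) := hr.div' h18 (by norm_num)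
  have h108 : In (13933729408410427/10000000000000000) (6966864705336327/5000000000000000) (Real.log (r / px r s y t)) := In.log h107 (by norm_num) ((exp_hiR2 17 (13933729408410427/10000000000000000) (13933729408410427/20000000000000000) (200709112108534537303/100000000000000000000) (2014207384169814261/500000000000000000) (by norm_num) (by norm_num) (by norm_num) (by norm_num [tayR, Nat.factorial]) (by norm_num)).trans (by norm_num)) (le_trans (by norm_num) (exp_loR2 17 (6966864705336327/5000000000000000) (6966864705336327/10000000000000000) (100354556065618507953/50000000000000000000) (2014207384625473693/500000000000000000) (by norm_num) (by norm_num) (by norm_num) (by norm_num [tayR, Nat.factorial]) (by norm_num)))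
  have h109 : In (2406544983133863540321/2500000000000000000000) (962617993261505523343/1000000000000000000000) (1 - (px r s y t)) := (In.const (c := 1) (le_refl _) (le_refl _)).sub' h18 (by norm_num)
  have h110 : In (789052564553741797/500000000000000000) (789052564555741797/500000000000000000) (s - r) := hs.sub' hr (by norm_num)
  have h111 : In (2049235963999343163411/1250000000000000000000) (3278777542434372688493/2000000000000000000000) ((s - r) / (1 - (px r s y t))) := h110.div' h109 (by norm_num)
  have h112 : In (2471617359389461/5000000000000000) (2471617359443491/5000000000000000) (Real.log ((s - r) / (1 - px r s y t))) := In.log h111 (by norm_num) ((exp_hiR 17 (2471617359389461/5000000000000000) (819694385599736377/500000000000000000) (by norm_num) (by norm_num) (by norm_num [tayR, Nat.factorial])).trans (by norm_num)) (le_trans (by norm_num) (exp_loR 17 (2471617359443491/5000000000000000) (409847192804296997/250000000000000000) (by norm_num) (by norm_num [tayR, Nat.factorial])))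
  have h113 : In (2051576315763317/5000000000000000) (1025788158819393/2500000000000000) (Real.log (pkap r s y t)) := In.log h61 (by norm_num) ((exp_hiR 17 (2051576315763317/5000000000000000) (30145858082562033/20000000000000000) (by norm_num) (by norm_num) (by norm_num [tayR, Nat.factorial])).trans (by norm_num)) (le_trans (by norm_num) (exp_loR 17 (1025788158819393/2500000000000000) (94205806543342367/62500000000000000) (by norm_num) (by norm_num [tayR, Nat.factorial])))
  have h114 : In (3690554168102441/5000000000000000) (3690554250563833/5000000000000000) (Real.log (1 + pD r s y t)) := In.log h77 (by norm_num) ((exp_hiR 17 (3690554168102441/5000000000000000) (1045989840688367727/500000000000000000) (by norm_num) (by norm_num) (by norm_num [tayR, Nat.factorial])).trans (by norm_num)) (le_trans (by norm_num) (exp_loR 17 (3690554250563833/5000000000000000) (2091979715878247049/1000000000000000000) (by norm_num) (by norm_num [tayR, Nat.factorial])))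
  have h115 : In (10459898406883688538349/10000000000000000000000) (10459898579391224358709/10000000000000000000000) ((1 + (pD r s y t)) / 2) := h77.div' (In.const (c := 2) (le_refl _) (le_refl _)) (by norm_num)
  have h116 : In (449636530605429/10000000000000000) (449636695528213/10000000000000000) (Real.log ((1 + pD r s y t) / 2)) := In.log h115 (by norm_num) ((exp_hiR 17 (449636530605429/10000000000000000) (1045989840688367737/1000000000000000000) (by norm_num) (by norm_num) (by norm_num [tayR, Nat.factorial])).trans (by norm_num)) (le_trans (by norm_num) (exp_loR 17 (449636695528213/10000000000000000) (522994928969561767/500000000000000000) (by norm_num) (by norm_num [tayR, Nat.factorial])))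
  have h117 : In (-449636695528213/10000000000000000) (-449636530605429/10000000000000000) (-(Real.log ((1 + pD r s y t) / 2))) := h116.neg (by norm_num) (by norm_num)
  have h118 : In (-449636695528213/10000000000000000) (-449636530605429/10000000000000000) (Real.log ((1 + 1) / (1 + pD r s y t))) := In.congr h117 (by rw [← Real.log_inv]; congr 1; norm_num)
  have h119 : In (15059022804758943/50000000000000000) (15059022804958943/50000000000000000) (2 * r) := (In.const (c := 2) (le_refl _) (le_refl _)).mul' hr (by norm_num)
  have h120 : In (507468953313062971/250000000000000000) (507468953314562971/250000000000000000) (s + (2 * r)) := hs.add' h119 (by norm_num)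
  have h121 : In (8772592234936514084993/2500000000000000000000) (8772592234972593894417/2500000000000000000000) (s * (s + (2 * r))) := hs.mul' h120 (by norm_num)
  have h122 : In (45177068414276829/50000000000000000) (45177068414876829/50000000000000000) (6 * r) := (In.const (c := 6) (le_refl _) (le_refl _)).mul' hr (by norm_num)
  have h123 : In (15619477683545561111253/10000000000000000000000) (15619477683771075381479/10000000000000000000000) ((6 * r) * s) := h122.mul' hs (by norm_num)
  have h124 : In (22751677031054881873737/5000000000000000000000) (11375838515601106457997/2500000000000000000000) ((s ^ 2) + ((6 * r) * s)) := h4.add' h123 (by norm_num)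
  have h125 : In (21260078234460928341/312500000000000000000) (680322503520820534281/10000000000000000000000) (3 * (r ^ 2)) := (In.const (c := 3) (le_refl _) (le_refl _)).mul' h3 (by norm_num)
  have h126 : In (23091838282806256727193/5000000000000000000000) (46183676565925246366269/10000000000000000000000) (((s ^ 2) + ((6 * r) * s)) + (3 * (r ^ 2))) := h124.add' h125 (by norm_num)
  have h127 : In (15967501451083653521459/2000000000000000000000) (79837507256051254893231/10000000000000000000000) (s * (((s ^ 2) + ((6 * r) * s)) + (3 * (r ^ 2)))) := hs.mul' h126 (by norm_num)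
  have h128 : In (6510884582969465499/125000000000000000000) (65108845854129725611/1250000000000000000000) ((px r s y t) * (Real.log (r / px r s y t))) := h18.mul' h108 (by norm_num)
  have h129 : In (594805835646527476267/1250000000000000000000) (4758446685315588988837/10000000000000000000000) ((1 - (px r s y t)) * (Real.log ((s - r) / (1 - px r s y t)))) := h109.mul' h112 (by norm_num)
  have h130 : In (659914681476222131257/1250000000000000000000) (211172698085945071749/400000000000000000000) (((px r s y t) * (Real.log (r / px r s y t))) + ((1 - (px r s y t)) * (Real.log ((s - r) / (1 - px r s y t))))) := h128.add' h129 (by norm_num)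
  have h131 : In (1909914681476222131257/1250000000000000000000) (611172698085945071749/400000000000000000000) ((((px r s y t) * (Real.log (r / px r s y t))) + ((1 - (px r s y t)) * (Real.log ((s - r) / (1 - px r s y t))))) + 1) := h130.add' (In.const (c := 1) (le_refl _) (le_refl _)) (by norm_num)
  have h132 : In (-250954514972619148743/1250000000000000000000) (-80305444776884137851/400000000000000000000) (((((px r s y t) * (Real.log (r / px r s y t))) + ((1 - (px r s y t)) * (Real.log ((s - r) / (1 - px r s y t))))) + 1) - s) := h131.sub' hs (by norm_num)
  have h133 : In (7200971977016788655121/10000000000000000000000) (7200971977116585461963/10000000000000000000000) (y * (s * (s + (2 * r)))) := hy.mul' h121 (by norm_num)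
  have h134 : In (90012149712709858189/250000000000000000000) (1800242994279146365491/5000000000000000000000) ((y * (s * (s + (2 * r)))) / 2) := h133.div' (In.const (c := 2) (le_refl _) (le_refl _)) (by norm_num)
  have h135 : In (99553116795465071101/625000000000000000000) (1592849869136189284707/10000000000000000000000) ((((((px r s y t) * (Real.log (r / px r s y t))) + ((1 - (px r s y t)) * (Real.log ((s - r) / (1 - px r s y t))))) + 1) - s) + ((y * (s * (s + (2 * r)))) / 2)) := h132.add' h134 (by norm_num)
  have h136 : In (42990797216932401513/5000000000000000000000) (42990797297110758941/5000000000000000000000) (t * (s * (((s ^ 2) + ((6 * r) * s)) + (3 * (r ^ 2))))) := ht.mul' h127 (by norm_num)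
  have h137 : In (14330265738977467171/5000000000000000000000) (7165132882851793157/2500000000000000000000) ((t * (s * (((s ^ 2) + ((6 * r) * s)) + (3 * (r ^ 2))))) / 3) := h136.div' (In.const (c := 3) (le_refl _) (le_refl _)) (by norm_num)
  have h138 : In (810755200102698035979/5000000000000000000000) (324302080133519291467/2000000000000000000000) (((((((px r s y t) * (Real.log (r / px r s y t))) + ((1 - (px r s y t)) * (Real.log ((s - r) / (1 - px r s y t))))) + 1) - s) + ((y * (s * (s + (2 * r)))) / 2)) + ((t * (s * (((s ^ 2) + ((6 * r) * s)) + (3 * (r ^ 2))))) / 3)) := h135.add' h137 (by norm_num)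
  have h139 : In (810755200102698035979/5000000000000000000000) (324302080133519291467/2000000000000000000000) (cf (px r s y t) r s y t) := In.congr h138 (by unfold cf; ring)
  have h140 : In (37382006738494476657/500000000000000000000) (93455016866136459679/1250000000000000000000) (2 * (px r s y t)) := (In.const (c := 2) (le_refl _) (le_refl _)).mul' h18 (by norm_num)
  have h141 : In (-462617993261505523343/500000000000000000000) (-1156544983133863540321/1250000000000000000000) ((2 * (px r s y t)) - 1) := h140.sub' (In.const (c := 1) (le_refl _) (le_refl _)) (by norm_num)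
  have h142 : In (5962098122698208024129/5000000000000000000000) (372631156215478873519/312500000000000000000) ((pD r s y t) ^ 2) := h76.pow' 2 (by norm_num)
  have h143 : In (-3538688822577566717417/10000000000000000000000) (-1769344156319855538349/5000000000000000000000) ((Real.log (1 + pD r s y t)) - (pD r s y t)) := h114.sub' h76 (by norm_num)
  have h144 : In (5962098122698208024129/10000000000000000000000) (372631156215478873519/625000000000000000000) (((pD r s y t) ^ 2) / 2) := h142.div' (In.const (c := 2) (le_refl _) (le_refl _)) (by norm_num)
  have h145 : In (-9500787322025228693721/10000000000000000000000) (-9500786435337919100827/10000000000000000000000) (((Real.log (1 + pD r s y t)) - (pD r s y t)) - (((pD r s y t) ^ 2) / 2)) := h143.sub' h144 (by norm_num)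
  have h146 : In (-71031699153715455619/2000000000000000000000) (-355158462546799010249/10000000000000000000000) ((px r s y t) * (((Real.log (1 + pD r s y t)) - (pD r s y t)) - (((pD r s y t) ^ 2) / 2))) := h18.mulN' h145 (by norm_num)
  have h147 : In (10491528496267441505519/10000000000000000000000) (1311441105104930232867/1250000000000000000000) ((pD r s y t) / (1 + ((px r s y t) * (pD r s y t)))) := h76.div' h91 (by norm_num)
  have h148 : In (5245764248133720752759/10000000000000000000000) (1311441105104930232867/2500000000000000000000) (((pD r s y t) / (1 + ((px r s y t) * (pD r s y t)))) / 2) := h147.div' (In.const (c := 2) (le_refl _) (le_refl _)) (by norm_num)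
  have h149 : In (-89961480796644343529/2500000000000000000000) (-359845923101025006337/10000000000000000000000) (((px r s y t) ^ 2) - (px r s y t)) := h70.sub' h18 (by norm_num)
  have h150 : In (-4815022416043268828457/5000000000000000000000) (-240751120497682877539/250000000000000000000) ((1 + ((px r s y t) * (pD r s y t))) * ((2 * (px r s y t)) - 1)) := h91.mulN' h141 (by norm_num)
  have h151 : In (-10515813619636617734357/10000000000000000000000) (-10515813274086093404377/10000000000000000000000) ((pD r s y t) * ((1 + ((px r s y t) * (pD r s y t))) * ((2 * (px r s y t)) - 1))) := h76.mulN' h150 (by norm_num)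
  have h152 : In (-429087367732610319261/10000000000000000000000) (-429087340516244983503/10000000000000000000000) (((pD r s y t) ^ 2) * (((px r s y t) ^ 2) - (px r s y t))) := h142.mulN' h149 (by norm_num)
  have h153 : In (-5043363139560186375427/5000000000000000000000) (-2521681476588370771279/2500000000000000000000) (((pD r s y t) * ((1 + ((px r s y t) * (pD r s y t))) * ((2 * (px r s y t)) - 1))) - (((pD r s y t) ^ 2) * (((px r s y t) ^ 2) - (px r s y t)))) := h151.sub' h152 (by norm_num)
  have h154 : In (433322835200947325961/400000000000000000000) (2166614181410457362923/2000000000000000000000) ((1 + ((px r s y t) * (pD r s y t))) ^ 2) := h91.pow' 2 (by norm_num)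
  have h155 : In (-372441993256793728383/400000000000000000000) (-4655524732043922997187/5000000000000000000000) ((((pD r s y t) * ((1 + ((px r s y t) * (pD r s y t))) * ((2 * (px r s y t)) - 1))) - (((pD r s y t) ^ 2) * (((px r s y t) ^ 2) - (px r s y t)))) / ((1 + ((px r s y t) * (pD r s y t))) ^ 2)) := h153.divN' h154 (by norm_num)
  have h156 : In (-1163881228927480401197/2500000000000000000000) (-4655524732043922997187/10000000000000000000000) (((((pD r s y t) * ((1 + ((px r s y t) * (pD r s y t))) * ((2 * (px r s y t)) - 1))) - (((pD r s y t) ^ 2) * (((px r s y t) ^ 2) - (px r s y t)))) / ((1 + ((px r s y t) * (pD r s y t))) ^ 2)) / 2) := h155.divN' (In.const (c := 2) (le_refl _) (le_refl _)) (by norm_num)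
  have h157 : In (91552959194213049849083/10000000000000000000000) (1430515058186925844353/156250000000000000000) ((1 + (pD r s y t)) ^ 3) := h77.pow' 3 (by norm_num)
  have h158 : In (127937426085489262207/10000000000000000000000) (63968716234956713589/5000000000000000000000) (((px r s y t) ^ 2) * ((1 + (pD r s y t)) ^ 3)) := h70.mul' h157 (by norm_num)
  have h159 : In (47270391731846331/500000000000000000000) (472703942320036933/5000000000000000000000) ((((px r s y t) ^ 2) * ((1 + (pD r s y t)) ^ 3)) * ((2 * (pT r s y t)) + ((pT r s y t) ^ 2))) := h158.mul' h97 (by norm_num)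
  have h160 : In (611325719045642934333/1250000000000000000000) (4890605957872921921219/10000000000000000000000) (((px r s y t) * (((Real.log (1 + pD r s y t)) - (pD r s y t)) - (((pD r s y t) ^ 2) / 2))) + (((pD r s y t) / (1 + ((px r s y t) * (pD r s y t)))) / 2)) := h146.add' h148 (by norm_num)
  have h161 : In (58770209163805467469/2500000000000000000000) (918286038394527047/39062500000000000000) ((((px r s y t) * (((Real.log (1 + pD r s y t)) - (pD r s y t)) - (((pD r s y t) ^ 2) / 2))) + (((pD r s y t) / (1 + ((px r s y t) * (pD r s y t)))) / 2)) + (((((pD r s y t) * ((1 + ((px r s y t) * (pD r s y t))) * ((2 * (px r s y t)) - 1))) - (((pD r s y t) ^ 2) * (((px r s y t) ^ 2) - (px r s y t)))) / ((1 + ((px r s y t) * (pD r s y t))) ^ 2)) / 2)) := h160.add' h156 (by norm_num)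
  have h162 : In (23413542877058179601/1000000000000000000000) (58533954498590499353/2500000000000000000000) (((((px r s y t) * (((Real.log (1 + pD r s y t)) - (pD r s y t)) - (((pD r s y t) ^ 2) / 2))) + (((pD r s y t) / (1 + ((px r s y t) * (pD r s y t)))) / 2)) + (((((pD r s y t) * ((1 + ((px r s y t) * (pD r s y t))) * ((2 * (px r s y t)) - 1))) - (((pD r s y t) ^ 2) * (((px r s y t) ^ 2) - (px r s y t)))) / ((1 + ((px r s y t) * (pD r s y t))) ^ 2)) / 2)) - ((((px r s y t) ^ 2) * ((1 + (pD r s y t)) ^ 3)) * ((2 * (pT r s y t)) + ((pT r s y t) ^ 2)))) := h161.sub' h159 (by norm_num)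
  have h163 : In (23413542877058179601/1000000000000000000000) (58533954498590499353/2500000000000000000000) (cEx (px r s y t) (pD r s y t) (pT r s y t)) := In.congr h162 (by unfold cEx; ring)
  have h164 : In (71692630273439943893/10000000000000000000000) (71693510679244110743/10000000000000000000000) ((pA r s y t) ^ 2) := h89.pow' 2 (by norm_num)
  have h165 : In (17923157568359985973/5000000000000000000000) (8961688834905513843/2500000000000000000000) (((pA r s y t) ^ 2) / 2) := h164.div' (In.const (c := 2) (le_refl _) (le_refl _)) (by norm_num)
  have h166 : In (1033293678949431273/10000000000000000000000) (1033733991841047149/10000000000000000000000) ((pT r s y t) - (((pA r s y t) ^ 2) / 2)) := h65.sub' h165 (by norm_num)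
  have h167 : In (390336136942688271/1250000000000000000000) (1561354139274460053/5000000000000000000000) ((pA r s y t) * (pT r s y t)) := h89.mul' h65 (by norm_num)
  have h168 : In (-2089414599599488833/10000000000000000000000) (-2088955103700459019/10000000000000000000000) (((pT r s y t) - (((pA r s y t) ^ 2) / 2)) - ((pA r s y t) * (pT r s y t))) := h166.sub' h167 (by norm_num)
  have hG : cG (pA r s y t) (pT r s y t) = pT r s y t - pA r s y t ^ 2 / 2 - pA r s y t * pT r s y t := by unfold cG; linarith [hM]
  have h169 : In (-2089414599599488833/10000000000000000000000) (-2088955103700459019/10000000000000000000000) (cG (pA r s y t) (pT r s y t)) := In.congr h168 (by rw [hG])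
  have h170 : In (91552959194213049849083/10000000000000000000000) (1430515058186925844353/156250000000000000000) ((1 + (pD r s y t)) ^ 3) := h77.pow' 3 (by norm_num)
  have h171 : In (21881894936465585100827/5000000000000000000000) (21881895658230110693721/5000000000000000000000) ((1 + (pD r s y t)) ^ 2) := h77.pow' 2 (by norm_num)
  have h172 : In (433322835200947325961/400000000000000000000) (2166614181410457362923/2000000000000000000000) ((1 + ((px r s y t) * (pD r s y t))) ^ 2) := h91.pow' 2 (by norm_num)
  have h173 : In (8347219720743214320049/5000000000000000000000) (8347219723801179455291/5000000000000000000000) ((cf (px r s y t) r s y t) + (pkap r s y t)) := h139.add' h61 (by norm_num)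
  have h174 : In (3347219720743214320049/5000000000000000000000) (3347219723801179455291/5000000000000000000000) (((cf (px r s y t) r s y t) + (pkap r s y t)) - 1) := h173.sub' (In.const (c := 1) (le_refl _) (le_refl _)) (by norm_num)
  have h175 : In (1295643403104428320049/5000000000000000000000) (1295643408037862455291/5000000000000000000000) ((((cf (px r s y t) r s y t) + (pkap r s y t)) - 1) - (Real.log (pkap r s y t))) := h174.sub' h113 (by norm_num)
  have h176 : In (1184010409740413415253/5000000000000000000000) (2368020821362318577009/10000000000000000000000) ((pY r s y t) / 2) := h69.div' (In.const (c := 2) (le_refl _) (le_refl _)) (by norm_num)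
  have h177 : In (223265984846538063089/10000000000000000000000) (55816499148724520019/2500000000000000000000) (((((cf (px r s y t) r s y t) + (pkap r s y t)) - 1) - (Real.log (pkap r s y t))) - ((pY r s y t) / 2)) := h175.sub' h176 (by norm_num)
  have h178 : In (7376009803714297329/1000000000000000000000) (7376009825712203819/1000000000000000000000) (2 * (pT r s y t)) := (In.const (c := 2) (le_refl _) (le_refl _)).mul' h65 (by norm_num)
  have h179 : In (2458669934571432443/1000000000000000000000) (24586699419040679397/10000000000000000000000) ((2 * (pT r s y t)) / 3) := h178.div' (In.const (c := 3) (le_refl _) (le_refl _)) (by norm_num)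
  have h180 : In (247852684192252387519/10000000000000000000000) (247852696013938759473/10000000000000000000000) ((((((cf (px r s y t) r s y t) + (pkap r s y t)) - 1) - (Real.log (pkap r s y t))) - ((pY r s y t) / 2)) + ((2 * (pT r s y t)) / 3)) := h177.add' h179 (by norm_num)
  have h181 : In (-372631156215478873519/312500000000000000000) (-5962098122698208024129/5000000000000000000000) (-((pD r s y t) ^ 2)) := h142.neg (by norm_num) (by norm_num)
  have h182 : In (-11007217741816580262969/10000000000000000000000) (-11007217018799176236841/10000000000000000000000) ((-((pD r s y t) ^ 2)) / ((1 + ((px r s y t) * (pD r s y t))) ^ 2)) := h181.divN' h172 (by norm_num)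
  have h183 : In (323397391093567188537/10000000000000000000000) (323397402726947884257/10000000000000000000000) (((1 + (pD r s y t)) ^ 2) * ((2 * (pT r s y t)) + ((pT r s y t) ^ 2))) := h171.mul' h97 (by norm_num)
  have h184 : In (-5665307572271764073613/5000000000000000000000) (-5665307204946371712689/5000000000000000000000) (((-((pD r s y t) ^ 2)) / ((1 + ((px r s y t) * (pD r s y t))) ^ 2)) - (((1 + (pD r s y t)) ^ 2) * ((2 * (pT r s y t)) + ((pT r s y t) ^ 2)))) := h182.sub' h183 (by norm_num)
  have h185 : In (29233625894137030983/10000000000000000000000) (584672527774321193/200000000000000000000) (((px r s y t) ^ 2) * (1 + (pD r s y t))) := h70.mul' h77 (by norm_num)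
  have h186 : In (14616812947068515491/10000000000000000000000) (584672527774321193/400000000000000000000) ((((px r s y t) ^ 2) * (1 + (pD r s y t))) / 2) := h185.div' (In.const (c := 2) (le_refl _) (le_refl _)) (by norm_num)
  have h187 : In (-16561748494495675749/10000000000000000000000) (-16561747140476133959/10000000000000000000000) (((((px r s y t) ^ 2) * (1 + (pD r s y t))) / 2) * (((-((pD r s y t) ^ 2)) / ((1 + ((px r s y t) * (pD r s y t))) ^ 2)) - (((1 + (pD r s y t)) ^ 2) * ((2 * (pT r s y t)) + ((pT r s y t) ^ 2))))) := h186.mulN' h184 (by norm_num)
  have h188 : In (23129093569775671177/1000000000000000000000) (115645474436731312757/5000000000000000000000) (((((((cf (px r s y t) r s y t) + (pkap r s y t)) - 1) - (Real.log (pkap r s y t))) - ((pY r s y t) / 2)) + ((2 * (pT r s y t)) / 3)) + (((((px r s y t) ^ 2) * (1 + (pD r s y t))) / 2) * (((-((pD r s y t) ^ 2)) / ((1 + ((px r s y t) * (pD r s y t))) ^ 2)) - (((1 + (pD r s y t)) ^ 2) * ((2 * (pT r s y t)) + ((pT r s y t) ^ 2)))))) := h180.add' h187 (by norm_num)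
  have h189 : In (37382006738494476657/500000000000000000000) (93455016866136459679/1250000000000000000000) (2 * (px r s y t)) := (In.const (c := 2) (le_refl _) (le_refl _)).mul' h18 (by norm_num)
  have h190 : In (782023985460187372239/5000000000000000000000) (1564047997048133866973/10000000000000000000000) ((2 * (px r s y t)) * (1 + (pD r s y t))) := h189.mul' h77 (by norm_num)
  have h191 : In (3397076649566943867/10000000000000000000000) (42463735370505201/125000000000000000000) (((2 * (px r s y t)) * (1 + (pD r s y t))) * (pK r s y t)) := h190.mul' h106 (by norm_num)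
  have h192 : In (234688012347323655637/10000000000000000000000) (117344023851551520797/5000000000000000000000) ((((((((cf (px r s y t) r s y t) + (pkap r s y t)) - 1) - (Real.log (pkap r s y t))) - ((pY r s y t) / 2)) + ((2 * (pT r s y t)) / 3)) + (((((px r s y t) ^ 2) * (1 + (pD r s y t))) / 2) * (((-((pD r s y t) ^ 2)) / ((1 + ((px r s y t) * (pD r s y t))) ^ 2)) - (((1 + (pD r s y t)) ^ 2) * ((2 * (pT r s y t)) + ((pT r s y t) ^ 2)))))) + (((2 * (px r s y t)) * (1 + (pD r s y t))) * (pK r s y t))) := h188.add' h191 (by norm_num)
  have h193 : In (22087774118466329/400000000000000000000) (34538683282577849/625000000000000000000) (((((((((cf (px r s y t) r s y t) + (pkap r s y t)) - 1) - (Real.log (pkap r s y t))) - ((pY r s y t) / 2)) + ((2 * (pT r s y t)) / 3)) + (((((px r s y t) ^ 2) * (1 + (pD r s y t))) / 2) * (((-((pD r s y t) ^ 2)) / ((1 + ((px r s y t) * (pD r s y t))) ^ 2)) - (((1 + (pD r s y t)) ^ 2) * ((2 * (pT r s y t)) + ((pT r s y t) ^ 2)))))) + (((2 * (px r s y t)) * (1 + (pD r s y t))) * (pK r s y t))) - (cEx (px r s y t) (pD r s y t) (pT r s y t))) := h192.sub' h163 (by norm_num)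
  have h194 : In (34512147060103639/1250000000000000000000) (34538683282577849/1250000000000000000000) ((((((((((cf (px r s y t) r s y t) + (pkap r s y t)) - 1) - (Real.log (pkap r s y t))) - ((pY r s y t) / 2)) + ((2 * (pT r s y t)) / 3)) + (((((px r s y t) ^ 2) * (1 + (pD r s y t))) / 2) * (((-((pD r s y t) ^ 2)) / ((1 + ((px r s y t) * (pD r s y t))) ^ 2)) - (((1 + (pD r s y t)) ^ 2) * ((2 * (pT r s y t)) + ((pT r s y t) ^ 2)))))) + (((2 * (px r s y t)) * (1 + (pD r s y t))) * (pK r s y t))) - (cEx (px r s y t) (pD r s y t) (pT r s y t))) / 2) := h193.div' (In.const (c := 2) (le_refl _) (le_refl _)) (by norm_num)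
  have h195 : In (69870721389842323/100000000000000000000) (6987072141959880117/10000000000000000000000) (((px r s y t) ^ 2) / 2) := h70.div' (In.const (c := 2) (le_refl _) (le_refl _)) (by norm_num)
  have h196 : In (63968713042744631103/10000000000000000000000) (31984358117478356797/5000000000000000000000) ((((px r s y t) ^ 2) / 2) * ((1 + (pD r s y t)) ^ 3)) := h195.mul' h170 (by norm_num)
  have h197 : In (-13365716961895541/10000000000000000000000) (-13362776958779151/10000000000000000000000) (((((px r s y t) ^ 2) / 2) * ((1 + (pD r s y t)) ^ 3)) * (cG (pA r s y t) (pT r s y t))) := h196.mulN' h169 (by norm_num)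
  have h198 : In (262731459518933571/10000000000000000000000) (262946689301843641/10000000000000000000000) (((((((((((cf (px r s y t) r s y t) + (pkap r s y t)) - 1) - (Real.log (pkap r s y t))) - ((pY r s y t) / 2)) + ((2 * (pT r s y t)) / 3)) + (((((px r s y t) ^ 2) * (1 + (pD r s y t))) / 2) * (((-((pD r s y t) ^ 2)) / ((1 + ((px r s y t) * (pD r s y t))) ^ 2)) - (((1 + (pD r s y t)) ^ 2) * ((2 * (pT r s y t)) + ((pT r s y t) ^ 2)))))) + (((2 * (px r s y t)) * (1 + (pD r s y t))) * (pK r s y t))) - (cEx (px r s y t) (pD r s y t) (pT r s y t))) / 2) + (((((px r s y t) ^ 2) / 2) * ((1 + (pD r s y t)) ^ 3)) * (cG (pA r s y t) (pT r s y t)))) := h194.add' h197 (by norm_num)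
  have h199 : In (510044753239/5000000000000000000000) (255022377/2500000000000000000) ((px r s y t) ^ 7) := h18.pow' 7 (by norm_num)
  have h200 : In (510044753239/10000000000000000000000) (255022377/5000000000000000000) (((px r s y t) ^ 7) / 2) := h199.div' (In.const (c := 2) (le_refl _) (le_refl _)) (by norm_num)
  have h201 : In (3593227398837423082041/1250000000000000000000) (28745830089520408575967/10000000000000000000000) ((pD r s y t) ^ 12) := h76.pow' 12 (by norm_num)
  have h202 : In (1466165425577/10000000000000000000000) (733082991827/5000000000000000000000) ((((px r s y t) ^ 7) / 2) * ((pD r s y t) ^ 12)) := h200.mul' h201 (by norm_num)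
  have h203 : In (65683231421089787/2500000000000000000000) (52589631093565459/2000000000000000000000) ((((((((((((cf (px r s y t) r s y t) + (pkap r s y t)) - 1) - (Real.log (pkap r s y t))) - ((pY r s y t) / 2)) + ((2 * (pT r s y t)) / 3)) + (((((px r s y t) ^ 2) * (1 + (pD r s y t))) / 2) * (((-((pD r s y t) ^ 2)) / ((1 + ((px r s y t) * (pD r s y t))) ^ 2)) - (((1 + (pD r s y t)) ^ 2) * ((2 * (pT r s y t)) + ((pT r s y t) ^ 2)))))) + (((2 * (px r s y t)) * (1 + (pD r s y t))) * (pK r s y t))) - (cEx (px r s y t) (pD r s y t) (pT r s y t))) / 2) + (((((px r s y t) ^ 2) / 2) * ((1 + (pD r s y t)) ^ 3)) * (cG (pA r s y t) (pT r s y t)))) + ((((px r s y t) ^ 7) / 2) * ((pD r s y t) ^ 12))) := h198.add' h202 (by norm_num)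
  have h204 : In (72998352255969/1000000000000000000000) (364991761668451/5000000000000000000000) ((px r s y t) ^ 5) := h18.pow' 5 (by norm_num)
  have h205 : In (60831960213307/10000000000000000000000) (15207990069519/2500000000000000000000) (((px r s y t) ^ 5) / 12) := h204.div' (In.const (c := 12) (le_refl _) (le_refl _)) (by norm_num)
  have h206 : In (11038270219977191122161/5000000000000000000000) (22076546717604274991311/10000000000000000000000) ((pD r s y t) ^ 9) := h76.pow' 9 (by norm_num)
  have h207 : In (33573980742269/2500000000000000000000) (1678699516253/125000000000000000000) ((((px r s y t) ^ 5) / 12) * ((pD r s y t) ^ 9)) := h205.mul' h206 (by norm_num)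
  have h208 : In (65649657430764727/2500000000000000000000) (262813859544858219/10000000000000000000000) (((((((((((((cf (px r s y t) r s y t) + (pkap r s y t)) - 1) - (Real.log (pkap r s y t))) - ((pY r s y t) / 2)) + ((2 * (pT r s y t)) / 3)) + (((((px r s y t) ^ 2) * (1 + (pD r s y t))) / 2) * (((-((pD r s y t) ^ 2)) / ((1 + ((px r s y t) * (pD r s y t))) ^ 2)) - (((1 + (pD r s y t)) ^ 2) * ((2 * (pT r s y t)) + ((pT r s y t) ^ 2)))))) + (((2 * (px r s y t)) * (1 + (pD r s y t))) * (pK r s y t))) - (cEx (px r s y t) (pD r s y t) (pT r s y t))) / 2) + (((((px r s y t) ^ 2) / 2) * ((1 + (pD r s y t)) ^ 3)) * (cG (pA r s y t) (pT r s y t)))) + ((((px r s y t) ^ 7) / 2) * ((pD r s y t) ^ 12))) - ((((px r s y t) ^ 5) / 12) * ((pD r s y t) ^ 9))) := h203.sub' h207 (by norm_num)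
  have h209 : In (5459898406883688538349/10000000000000000000000) (5459898579391224358709/10000000000000000000000) ((pD r s y t) / 2) := h76.div' (In.const (c := 2) (le_refl _) (le_refl _)) (by norm_num)
  have h210 : In (-5459635980761501299801/10000000000000000000000) (-545963559302414368013/1000000000000000000000) ((((((((((((((cf (px r s y t) r s y t) + (pkap r s y t)) - 1) - (Real.log (pkap r s y t))) - ((pY r s y t) / 2)) + ((2 * (pT r s y t)) / 3)) + (((((px r s y t) ^ 2) * (1 + (pD r s y t))) / 2) * (((-((pD r s y t) ^ 2)) / ((1 + ((px r s y t) * (pD r s y t))) ^ 2)) - (((1 + (pD r s y t)) ^ 2) * ((2 * (pT r s y t)) + ((pT r s y t) ^ 2)))))) + (((2 * (px r s y t)) * (1 + (pD r s y t))) * (pK r s y t))) - (cEx (px r s y t) (pD r s y t) (pT r s y t))) / 2) + (((((px r s y t) ^ 2) / 2) * ((1 + (pD r s y t)) ^ 3)) * (cG (pA r s y t) (pT r s y t)))) + ((((px r s y t) ^ 7) / 2) * ((pD r s y t) ^ 12))) - ((((px r s y t) ^ 5) / 12) * ((pD r s y t) ^ 9))) - ((pD r s y t) / 2)) := h208.sub' h209 (by norm_num)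
  have h211 : In (10491528496267441505519/10000000000000000000000) (1311441105104930232867/1250000000000000000000) ((pD r s y t) / (1 + ((px r s y t) * (pD r s y t)))) := h76.div' h91 (by norm_num)
  have h212 : In (5245764248133720752759/10000000000000000000000) (1311441105104930232867/2500000000000000000000) (((pD r s y t) / (1 + ((px r s y t) * (pD r s y t)))) / 2) := h211.div' (In.const (c := 2) (le_refl _) (le_refl _)) (by norm_num)
  have h213 : In (-106935866313890273521/5000000000000000000000) (-106935586302211374331/5000000000000000000000) (((((((((((((((cf (px r s y t) r s y t) + (pkap r s y t)) - 1) - (Real.log (pkap r s y t))) - ((pY r s y t) / 2)) + ((2 * (pT r s y t)) / 3)) + (((((px r s y t) ^ 2) * (1 + (pD r s y t))) / 2) * (((-((pD r s y t) ^ 2)) / ((1 + ((px r s y t) * (pD r s y t))) ^ 2)) - (((1 + (pD r s y t)) ^ 2) * ((2 * (pT r s y t)) + ((pT r s y t) ^ 2)))))) + (((2 * (px r s y t)) * (1 + (pD r s y t))) * (pK r s y t))) - (cEx (px r s y t) (pD r s y t) (pT r s y t))) / 2) + (((((px r s y t) ^ 2) / 2) * ((1 + (pD r s y t)) ^ 3)) * (cG (pA r s y t) (pT r s y t)))) + ((((px r s y t) ^ 7) / 2) * ((pD r s y t) ^ 12))) - ((((px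 r s y t) ^ 5) / 12) * ((pD r s y t) ^ 9))) - ((pD r s y t) / 2)) + (((pD r s y t) / (1 + ((px r s y t) * (pD r s y t)))) / 2)) := h210.add' h212 (by norm_num)
  have h214 : In (5962098122698208024129/10000000000000000000000) (372631156215478873519/625000000000000000000) (((pD r s y t) ^ 2) / 2) := h142.div' (In.const (c := 2) (le_refl _) (le_refl _)) (by norm_num)
  have h215 : In (16881894936465585100827/10000000000000000000000) (16881895658230110693721/10000000000000000000000) ((pD r s y t) + (((pD r s y t) ^ 2) / 2)) := h76.add' h214 (by norm_num)
  have h216 : In (-470315423279771964097/5000000000000000000000) (-940630486031287132113/10000000000000000000000) ((1 + (pD r s y t)) * (Real.log ((1 + 1) / (1 + pD r s y t)))) := h77.mulN' h118 (by norm_num)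
  have h217 : In (15941264089906041172633/10000000000000000000000) (1992658146524852945201/1250000000000000000000) (((pD r s y t) + (((pD r s y t) ^ 2) / 2)) + ((1 + (pD r s y t)) * (Real.log ((1 + 1) / (1 + pD r s y t))))) := h215.add' h216 (by norm_num)
  have h218 : In (595916441628987651877/10000000000000000000000) (297958241107078958037/5000000000000000000000) ((px r s y t) * (((pD r s y t) + (((pD r s y t) ^ 2) / 2)) + ((1 + (pD r s y t)) * (Real.log ((1 + 1) / (1 + pD r s y t)))))) := h18.mul' h217 (by norm_num)
  have h219 : In (76408941800241420967/2000000000000000000000) (95511327402433791853/2500000000000000000000) ((((((((((((((((cf (px r s y t) r s y t) + (pkap r s y t)) - 1) - (Real.log (pkap r s y t))) - ((pY r s y t) / 2)) + ((2 * (pT r s y t)) / 3)) + (((((px r s y t) ^ 2) * (1 + (pD r s y t))) / 2) * (((-((pD r s y t) ^ 2)) / ((1 + ((px r s y t) * (pD r s y t))) ^ 2)) - (((1 + (pD r s y t)) ^ 2) * ((2 * (pT r s y t)) + ((pT r s y t) ^ 2)))))) + (((2 * (px r s y t)) * (1 + (pD r s y t))) * (pK r s y t))) - (cEx (px r s y t) (pD r s y t) (pT r s y t))) / 2) + (((((px r s y t) ^ 2) / 2) * ((1 + (pD r s y t)) ^ 3)) * (cG (pA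 r s y t) (pT r s y t)))) + ((((px r s y t) ^ 7) / 2) * ((pD r s y t) ^ 12))) - ((((px r s y t) ^ 5) / 12) * ((pD r s y t) ^ 9))) - ((pD r s y t) / 2)) + (((pD r s y t) / (1 + ((px r s y t) * (pD r s y t)))) / 2)) + ((px r s y t) * (((pD r s y t) + (((pD r s y t) ^ 2) / 2)) + ((1 + (pD r s y t)) * (Real.log ((1 + 1) / (1 + pD r s y t))))))) := h213.add' h218 (by norm_num)
  have h220 : In (76408941800241420967/2000000000000000000000) (95511327402433791853/2500000000000000000000) (pBx 1 r s y t) := In.congr h219 (by unfold pBx cBx; ring)
  refine ⟨h18, h76, h220, ?_, ?_⟩
  · rw [le_div_iff₀ (lt_of_lt_of_le (by norm_num) h18.1)]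
    refine (mul_le_mul_of_nonneg_left h18.2 (by norm_num)).trans ?_
    refine le_trans ?_ (Real.exp_le_exp.2 h220.1)
    refine exp_loR 10 _ _ (by norm_num) ?_
    norm_num [tayR, Nat.factorial]
  · rw [div_le_iff₀ (lt_of_lt_of_le (by norm_num) h18.1)]
    refine le_trans ?_ (mul_le_mul_of_nonneg_left h18.1 (by norm_num))
    refine le_trans (Real.exp_le_exp.2 h220.2) ?_
    refine exp_hiR 10 _ _ (by norm_num) (by norm_num) ?_
    norm_num [tayR, Nat.factorial]

/-- The growth constant. -/
theorem Box.gamma {r s y t : ℝ} (h : Box r s y t) :
    27792612 / 1000000 ≤ Real.exp (pBx 1 r s y t) / px r s y t ∧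
    Real.exp (pBx 1 r s y t) / px r s y t ≤ 27792615 / 1000000 := h.num.2.2.2

theorem Box.px_le {r s y t : ℝ} (h : Box r s y t) : px r s y t ≤ 374 / 10000 :=
  h.num.1.2.trans (by norm_num)

theorem Box.fD_le {r s y t : ℝ} (h : Box r s y t) : fD (jet r s y t) ≤ 11 / 10 :=
  h.num.2.1.2.trans (by norm_num)

end K5L
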