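import Pool.Agent.Lib.K5L.ArcEx
import Pool.Agent.Lib.K5S.Sys2
import Pool.Agent.Lib.K5F.Glue

/-!
# K5L.Glue: the networks near `R`
-/

set_option autoImplicit false

namespace K5L

open K5N K5C Filter Topology
open scoped ENNReal

noncomputable section

/-- The value of the networks on the arc. -/
def DArc (G : ℝ≥0∞ → ℝ≥0∞) (R : ℝ) (r s y t : ℝ → ℝ) : Prop :=
  ∀ᶠ v in 𝓝[≥] (0 : ℝ), G (.ofReal (R * (1 - v ^ 2))) = .ofReal (fD (jet (r v) (s v) (y v) (t v)))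

theorem sys_mono (S : K5S.Sys2) : Monotone S.Dg := by
  intro a b hab
  rw [S.hDg, S.hDg]
  unfold K5S.ser2
  refine ENNReal.tsum_le_tsum fun m => ?_
  gcongr

theorem DArc.fin {G : ℝ≥0∞ → ℝ≥0∞} (hG : Monotone G) {R : ℝ} {r s y t : ℝ → ℝ}
    (h : DArc G R r s y t) {x : ℝ} (hx : x ≤ R) : G (.ofReal x) ≠ ∞ := by
  have h0 := h.self_of_nhdsWithin (Set.mem_Ici.2 le_rfl)
  have h1 : G (.ofReal x) ≤ G (.ofReal (R * (1 - 0 ^ 2))) :=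
    hG (ENNReal.ofReal_le_ofReal (by linarith))
  rw [h0] at h1
  exact ne_top_of_le_ne_top ENNReal.ofReal_ne_top h1

/-- `v = √(1 - x / R)` on the left of `R`. -/
theorem ev_sqrt {R : ℝ} (hR : 0 < R) {p : ℝ → Prop} (h : ∀ᶠ v in 𝓝[≥] (0 : ℝ), p v) :
    ∀ᶠ x in 𝓝[<] R, p (√(1 - x / R)) := by
  rw [eventually_nhdsWithin_iff] at h
  have h1 := eventually_sqrt hR h
  filter_upwards [h1] with x hx
  exact hx (Real.sqrt_nonneg _)

theorem sq_sqrt_arc {R x : ℝ} (hR : 0 < R) (hx : x ≤ R) : R * (1 - √(1 - x / R) ^ 2) = x := by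
  rw [Real.sq_sqrt]
  · field_simp
    ring
  · rw [sub_nonneg, div_le_one hR]
    exact hx

/-- The networks near `R`. -/
theorem DArc.heD {R : ℝ} {r s y t : ℝ → ℝ} (hR : 0 < R) (h : DArc K5.D R r s y t)
    (h1 : ∀ᶠ v in 𝓝 (0 : ℝ), 1 < fD (jet (r v) (s v) (y v) (t v))) {ζ : ℂ → ℂ}
    (hζ : ∀ᶠ v : ℝ in 𝓝 (0 : ℝ), ζ (v : ℂ) = ((fD (jet (r v) (s v) (y v) (t v)) : ℝ) : ℂ)) :
    ∀ᶠ x in 𝓝[<] R, (K5F.dr x : ℂ) = ζ ((Real.sqrt (1 - x / R) : ℝ) : ℂ) := by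
  have h2 := ev_sqrt hR (h.and ((hζ.and h1).filter_mono nhdsWithin_le_nhds))
  filter_upwards [h2, self_mem_nhdsWithin] with x hx hxR
  have h3 : x < R := hxR
  rw [hx.2.1]
  have h4 := hx.1
  rw [sq_sqrt_arc hR h3.le] at h4
  unfold K5F.dr
  rw [h4, ENNReal.toReal_ofReal (zero_lt_one.trans hx.2.2).le]

end

end K5L
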