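import Pool.Agent.Lib.K5L.Stat

/-!
# K5L.Smooth: the functions of a point are analytic
-/

set_option autoImplicit false

namespace K5L

open scoped ContDiff

noncomputable section

variable {E : Type} [NormedAddCommGroup E] [NormedSpace ℝ E] {β : E → J} {p : E} {n : WithTop ℕ∞}

/-- All components are `C^n`. -/
structure SmJ (n : WithTop ℕ∞) (β : E → J) (p : E) : Prop where
  x : ContDiffAt ℝ n (fun e => (β e).x) p
  y : ContDiffAt ℝ n (fun e => (β e).y) p
  t : ContDiffAt ℝ n (fun e => (β e).t) p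
  u : ContDiffAt ℝ n (fun e => (β e).u) p
  v : ContDiffAt ℝ n (fun e => (β e).v) p
  w : ContDiffAt ℝ n (fun e => (β e).w) p

theorem smJ_jet {r s y t : E → ℝ} (hr : ContDiffAt ℝ n r p) (hs : ContDiffAt ℝ n s p)
    (hy : ContDiffAt ℝ n y p) (ht : ContDiffAt ℝ n t p) :
    SmJ n (fun e => jet (r e) (s e) (y e) (t e)) p := by
  constructor <;> simp only [jet, K5N.px, K5N.pw1, K5N.pw2, K5N.pw3] <;> fun_prop

theorem SmJ.k (h : SmJ n β p) (hb : Reg (β p)) : ContDiffAt ℝ n (fun e => fk (β e)) p := by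
  unfold fk
  exact h.u.div h.x hb.x.ne'

theorem SmJ.T (h : SmJ n β p) (hb : Reg (β p)) : ContDiffAt ℝ n (fun e => fT (β e)) p := by
  unfold fT
  exact h.t.mul ((h.k hb).pow 3)

theorem SmJ.Y (h : SmJ n β p) (hb : Reg (β p)) : ContDiffAt ℝ n (fun e => fY (β e)) p := by
  unfold fY
  exact (h.y.mul ((h.k hb).pow 2)).add (contDiffAt_const.mul (h.T hb))

theorem SmJ.D (h : SmJ n β p) (hb : Reg (β p)) : ContDiffAt ℝ n (fun e => fD (β e)) p := by
  unfold fD
  exact (((h.v.div ((h.k hb).pow 2) (pow_ne_zero 2 hb.k.ne')).sub h.x).div (h.x.pow 2)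
    (pow_ne_zero 2 hb.x.ne')).sub contDiffAt_const

theorem SmJ.N (h : SmJ n β p) (hb : Reg (β p)) : ContDiffAt ℝ n (fun e => fN (β e)) p := by
  unfold fN
  exact (((h.w.div ((h.k hb).pow 3) (pow_ne_zero 3 hb.k.ne')).sub
    ((contDiffAt_const.mul (h.x.pow 2)).mul (contDiffAt_const.add (h.D hb)))).sub h.x).div
    (h.x.pow 3) (pow_ne_zero 3 hb.x.ne')

theorem SmJ.A (h : SmJ n β p) (hb : Reg (β p)) : ContDiffAt ℝ n (fun e => fA (β e)) p := by
  have hD : 1 + fD (β p) ≠ 0 := by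
    have := hb.D
    positivity
  unfold fA
  exact (((h.N hb).div ((contDiffAt_const.add (h.D hb)).pow 3) (pow_ne_zero 3 hD)).sub
    contDiffAt_const).sub (h.T hb)

theorem SmJ.S (h : SmJ n β p) (hb : Reg (β p)) : ContDiffAt ℝ n (fun e => fS (β e)) p := by
  have h1 : 1 + (β p).x * fD (β p) ≠ 0 := by
    have := hb.D
    have := hb.x
    positivity
  unfold fS
  exact (h.x.mul ((h.D hb).pow 2)).div (contDiffAt_const.add (h.x.mul (h.D hb))) h1

theorem SmJ.K (h : SmJ n β p) (hb : Reg (β p)) : ContDiffAt ℝ n (fun e => fK (β e)) p := by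
  have hD : 1 + fD (β p) ≠ 0 := by
    have := hb.D
    positivity
  unfold fK
  exact (((((h.D hb).div (contDiffAt_const.add (h.D hb)) hD).sub (h.Y hb)).sub (h.S hb)).sub
    ((h.x.mul ((contDiffAt_const.add (h.D hb)).pow 2)).mul ((contDiffAt_const.mul (h.T hb)).add
      ((h.T hb).pow 2)))).div_const 2

theorem SmJ.M (h : SmJ n β p) (hb : Reg (β p)) : ContDiffAt ℝ n (fun e => fM (β e)) p := by
  unfold fM
  exact (((h.A hb).exp.sub contDiffAt_const).sub (h.A hb)).sub (h.T hb)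

theorem SmJ.G (h : SmJ n β p) (hb : Reg (β p)) : ContDiffAt ℝ n (fun e => fG (β e)) p := by
  unfold fG
  exact ((((h.A hb).exp.sub contDiffAt_const).sub (h.A hb)).sub (((h.A hb).pow 2).div_const 2)).sub
    ((h.A hb).mul (h.T hb))

theorem SmJ.T0 (h : SmJ n β p) (hb : Reg (β p)) : ContDiffAt ℝ n (fun e => fT0 (β e)) p := by
  unfold fT0
  exact (((h.K hb).add ((h.x.mul ((contDiffAt_const.add (h.D hb)).pow 2)).mul (h.G hb))).add
    ((contDiffAt_const.mul (h.x.pow 6)).mul ((h.D hb).pow 11))).sub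
    (((h.x.pow 4).mul ((h.D hb).pow 8)).div_const 4)

theorem SmJ.Net (h : SmJ n β p) (hb : Reg (β p)) : ContDiffAt ℝ n (fun e => fNet (β e)) p := by
  have hD : 0 < 1 + fD (β p) := by
    have := hb.D
    positivity
  unfold fNet
  exact ((((contDiffAt_const.add (h.D hb)).div_const (1 + 1)).log (by positivity)).sub
    (h.S hb)).sub (h.T0 hb)

end

end K5L
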