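import Pool.Agent.Lib.K5L.Box
import Pool.Agent.Lib.K5L.Smooth
import Pool.Agent.Lib.K5P.RId

/-!
# K5L.Ident: on the arc the values of the graph side are the values at the points
-/

set_option autoImplicit false

namespace K5L

open K5N K5C K5P Filter Topology
open scoped ContDiff

theorem ident (S : K5S.Sys2) {R : ℝ} {r s y t : ℝ → ℝ} (A : Arc R r s y t) :
    ∀ᶠ v in 𝓝[≥] (0 : ℝ),
      K5S.ser2 S.rc (.ofReal (R * (1 - v ^ 2))) (.ofReal (fD (jet (r v) (s v) (y v) (t v)))) =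
        .ofReal (fA (jet (r v) (s v) (y v) (t v))) ∧
      K5S.ser2 S.tc (.ofReal (R * (1 - v ^ 2))) (.ofReal (fD (jet (r v) (s v) (y v) (t v)))) =
        .ofReal (fT0 (jet (r v) (s v) (y v) (t v))) ∧
      S.Dg (.ofReal (R * (1 - v ^ 2))) = .ofReal (fD (jet (r v) (s v) (y v) (t v))) := by
  have hω : (ω : WithTop ℕ∞) ≠ ∞ := by decide
  obtain ⟨ε0, hε0, aD, aA⟩ := A.anti
  have hev : ∀ᶠ v in 𝓝[≥] (0 : ℝ), (px (r v) (s v) (y v) (t v) = R * (1 - v ^ 2) ∧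
      fM (jet (r v) (s v) (y v) (t v)) = 0 ∧ fNet (jet (r v) (s v) (y v) (t v)) = 0) ∧
      Good (r v) (s v) (y v) (t v) ∧ 1 < fD (jet (r v) (s v) (y v) (t v)) ∧
      0 < pw1 (r v) (s v) (y v) (t v) ∧ (ContDiffAt ℝ ω r v ∧ ContDiffAt ℝ ω s v ∧
      ContDiffAt ℝ ω y v ∧ ContDiffAt ℝ ω t v) := by
    refine (A.x_eq.and (A.M.and A.Net)).filter_mono nhdsWithin_le_nhds |>.and
      (A.good.and ((A.D_one.filter_mono nhdsWithin_le_nhds).and
      ((A.u_pos.filter_mono nhdsWithin_le_nhds).and ?_)))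
    exact ((A.an_r.eventually hω).and ((A.an_s.eventually hω).and ((A.an_y.eventually hω).and
      (A.an_t.eventually hω)))).filter_mono nhdsWithin_le_nhds
  obtain ⟨δ0, hδ0, hsub⟩ := mem_nhdsGE_iff_exists_Ico_subset.1 hev
  set δ := min δ0 ε0 with hδ
  have hδpos : 0 < δ := lt_min hδ0 hε0
  have hall : ∀ v, 0 ≤ v → v < δ → (px (r v) (s v) (y v) (t v) = R * (1 - v ^ 2) ∧
      fM (jet (r v) (s v) (y v) (t v)) = 0 ∧ fNet (jet (r v) (s v) (y v) (t v)) = 0) ∧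
      Good (r v) (s v) (y v) (t v) ∧ 1 < fD (jet (r v) (s v) (y v) (t v)) ∧
      0 < pw1 (r v) (s v) (y v) (t v) ∧ (ContDiffAt ℝ ω r v ∧ ContDiffAt ℝ ω s v ∧
      ContDiffAt ℝ ω y v ∧ ContDiffAt ℝ ω t v) := fun v h0 h1 =>
    hsub ⟨h0, h1.trans_le (min_le_left _ _)⟩
  have hcont : ∀ v, 0 ≤ v → v < δ →
      ContinuousAt (fun e => fD (jet (r e) (s e) (y e) (t e))) v ∧
      ContinuousAt (fun e => fA (jet (r e) (s e) (y e) (t e))) v := by
    intro v h0 h1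
    obtain ⟨⟨k1, -, -⟩, kg, kd, ku, c1, c2, c3, c4⟩ := hall v h0 h1
    have hsm := smJ_jet c1 c2 c3 c4
    have hreg : Reg (jet (r v) (s v) (y v) (t v)) := ⟨kg.x_pos, ku, by linarith⟩
    exact ⟨(hsm.D hreg).continuousAt, (hsm.A hreg).continuousAt⟩
  have key := K5P.ident S ((fun v => (r v, s v, y v, t v)) '' Set.Ico 0 δ)
    (by
      rintro _ ⟨v, hv, rfl⟩
      exact (hall v hv.1 hv.2).2.1)
    (by
      rintro _ ⟨v, hv, rfl⟩
      exact (hall v hv.1 hv.2).1.2.1)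
    (by
      rintro _ ⟨v, hv, rfl⟩
      exact (hall v hv.1 hv.2).1.2.2)
    (by
      rintro _ ⟨v, hv, rfl⟩
      exact (hall v hv.1 hv.2).2.2.1.le)
    (by
      rintro _ ⟨v, hv, rfl⟩ ε hε
      obtain ⟨cD, cA⟩ := hcont v hv.1 hv.2
      have e1 : ∀ᶠ v' in 𝓝[>] v, fD (jet (r v) (s v) (y v) (t v)) - ε <
          fD (jet (r v') (s v') (y v') (t v')) :=
        (cD.eventually (lt_mem_nhds (by linarith))).filter_mono nhdsWithin_le_nhds
      have e2 : ∀ᶠ v' in 𝓝[>] v, fA (jet (r v) (s v) (y v) (t v)) - ε <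
          fA (jet (r v') (s v') (y v') (t v')) :=
        (cA.eventually (lt_mem_nhds (by linarith))).filter_mono nhdsWithin_le_nhds
      have e3 : ∀ᶠ v' in 𝓝[>] v, v' ∈ Set.Ioo v δ := Ioo_mem_nhdsGT hv.2
      obtain ⟨v', f1, f2, f3⟩ := (e1.and (e2.and e3)).exists
      have h0' : 0 ≤ v' := hv.1.trans f3.1.le
      have hle : δ ≤ ε0 := min_le_right _ _
      refine ⟨_, ⟨v', ⟨h0', f3.2⟩, rfl⟩, ?_, ?_, f1, ?_, f2⟩
      · show px (r v') (s v') (y v') (t v') < px (r v) (s v) (y v) (t v)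
        rw [(hall v' h0' f3.2).1.1, (hall v hv.1 hv.2).1.1]
        have : v ^ 2 < v' ^ 2 := pow_lt_pow_left₀ f3.1 hv.1 (by norm_num)
        exact mul_lt_mul_of_pos_left (by linarith) A.R_pos
      · exact (aD ⟨hv.1, by linarith [hv.2]⟩ ⟨h0', by linarith [f3.2]⟩ f3.1).le
      · exact (aA ⟨hv.1, by linarith [hv.2]⟩ ⟨h0', by linarith [f3.2]⟩ f3.1).le)
  filter_upwards [Ico_mem_nhdsGE hδpos] with v hv
  have h := key _ ⟨v, hv, rfl⟩
  simp only [(hall v hv.1 hv.2).1.1] at h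
  exact h

end K5L
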