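import Pool.Agent.Lib.K5L.BoxVZ

/-!
# K5L.BoxPC: the conditions `PC` hold at a critical point in the box
-/

set_option autoImplicit false

namespace K5L

open K5N K5C

variable {r s y t : ℝ}

theorem BV.I.pos {a b x : ℝ} (h : BV.I a b x) (ha : 0 < a) : 0 < x := ha.trans_le h.1

/-- The conditions at the critical point. -/
theorem Box.pc (h : Box r s y t) : PC r s y t where
  crit := h.crit
  M := h.M
  Net := h.Net
  D := lt_of_lt_of_le (by norm_num) (BV.vD h).1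
  A := (BV.vA h).pos (by norm_num)
  u := (BV.vu h).pos (by norm_num)
  j := (BV.vj h).pos (by norm_num)
  del := ((BV.vDel h).pos (by norm_num)).ne'
  om := (BV.vom h).pos (by norm_num)
  hd := (BV.vHD h).pos (by norm_num)
  ha := (BV.vHA h).pos (by norm_num)
  third := ((BV.vThird h).pos (by norm_num)).ne'

/-- Numerical bounds. -/
theorem Box.px_bd (h : Box r s y t) :
    37382006 / 10 ^ 9 ≤ px r s y t ∧ px r s y t ≤ 37382007 / 10 ^ 9 :=
  ⟨le_trans (by norm_num) (BV.vx h).1, le_trans (BV.vx h).2 (by norm_num)⟩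

theorem Box.fD_bd (h : Box r s y t) :
    109197 / 10 ^ 5 ≤ fD (jet r s y t) ∧ fD (jet r s y t) ≤ 109198 / 10 ^ 5 :=
  ⟨le_trans (by norm_num) (BV.vD h).1, le_trans (BV.vD h).2 (by norm_num)⟩

theorem Box.fA_bd (h : Box r s y t) :
    84671 / 10 ^ 6 ≤ fA (jet r s y t) ∧ fA (jet r s y t) ≤ 84673 / 10 ^ 6 :=
  ⟨le_trans (by norm_num) (BV.vA h).1, le_trans (BV.vA h).2 (by norm_num)⟩

theorem Box.HD_bd (h : Box r s y t) : 376 / 100 ≤ HH dD r s y t ∧ HH dD r s y t ≤ 380 / 100 :=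
  ⟨le_trans (by norm_num) (BV.vHD h).1, le_trans (BV.vHD h).2 (by norm_num)⟩

theorem Box.HD_le (h : Box r s y t) : HH dD r s y t ≤ 2500 :=
  h.HD_bd.2.trans (by norm_num)

theorem Box.HA_bd (h : Box r s y t) : 11 ≤ HH dA r s y t ∧ HH dA r s y t ≤ 12 :=
  ⟨le_trans (by norm_num) (BV.vHA h).1, le_trans (BV.vHA h).2 (by norm_num)⟩

theorem Box.Del_bd (h : Box r s y t) : 102 ≤ Del r s y t ∧ Del r s y t ≤ 103 :=
  ⟨le_trans (by norm_num) (BV.vDel h).1, le_trans (BV.vDel h).2 (by norm_num)⟩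

theorem Box.Third_bd (h : Box r s y t) : 5000 ≤ Third r s y t ∧ Third r s y t ≤ 6500 :=
  ⟨le_trans (by norm_num) (BV.vThird h).1, le_trans (BV.vThird h).2 (by norm_num)⟩

end K5L
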