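import Mathlib

/-!
# K5L.Real1 : real analytic functions of one variable

`complexify`: a real analytic function extends to a complex analytic one.
`cplx_deriv`: the derivative of the extension extends the derivative.
`real_fold`: at a nondegenerate minimum `f q = f q0 + V q ^ 2` with `V` analytic, strictly decreasing,
and with an analytic inverse `W`.
-/

namespace K5L

open Filter Topology

/-- A real analytic function extends to a complex analytic function. -/
theorem complexify {f : ℝ → ℝ} {x0 : ℝ} (hf : AnalyticAt ℝ f x0) :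
    ∃ h : ℂ → ℂ, AnalyticAt ℂ h x0 ∧ ∀ᶠ v : ℝ in 𝓝 x0, h (v : ℂ) = (f v : ℂ) := by
  obtain ⟨p, r, hp⟩ := hf
  obtain ⟨r0, hr0, hr0r⟩ : ∃ r0 : NNReal, 0 < r0 ∧ (r0 : ENNReal) < p.radius := by
    obtain ⟨r0, h1, h2⟩ := ENNReal.lt_iff_exists_nnreal_btwn.1 (hp.r_pos.trans_le hp.r_le)
    exact ⟨r0, by exact_mod_cast h1, h2⟩
  obtain ⟨C, hC, hCb⟩ := p.norm_mul_pow_le_of_lt_radius hr0r
  let q : FormalMultilinearSeries ℂ ℂ ℂ := fun n =>
    ContinuousMultilinearMap.mkPiRing ℂ (Fin n) ((p.coeff n : ℝ) : ℂ)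
  have hqn : ∀ n, ‖q n‖ * (r0 : ℝ) ^ n ≤ C := by
    intro n
    have h1 : ‖q n‖ = ‖p n‖ := by
      rw [ContinuousMultilinearMap.norm_mkPiRing, Complex.norm_real,
        FormalMultilinearSeries.norm_apply_eq_norm_coef]
    rw [h1]
    exact hCb n
  have hq : (r0 : ENNReal) ≤ q.radius := q.le_radius_of_bound C hqn
  have hqpos : 0 < q.radius := lt_of_lt_of_le (by exact_mod_cast hr0) hq
  have hsum := q.hasFPowerSeriesOnBall hqpos
  refine ⟨fun z => q.sum (z - x0), ?_, ?_⟩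
  · have h1 : AnalyticAt ℂ q.sum ((x0 : ℂ) - x0) := by
      rw [sub_self]
      exact hsum.analyticAt
    exact AnalyticAt.comp (g := q.sum) (f := fun z : ℂ => z - x0) h1
      (analyticAt_id.sub analyticAt_const)
  · have h2 : ∀ᶠ v : ℝ in 𝓝 x0, |v - x0| < r0 := by
      have : Metric.ball x0 (r0 : ℝ) ∈ 𝓝 x0 := Metric.ball_mem_nhds x0 (by exact_mod_cast hr0)
      filter_upwards [this] with v hv
      rwa [Metric.mem_ball, Real.dist_eq] at hv
    have h3 : ∀ᶠ v : ℝ in 𝓝 x0, v ∈ Metric.eball x0 r := Metric.eball_mem_nhds x0 hp.r_pos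
    filter_upwards [h2, h3] with v hv hv2
    have h4 : HasSum (fun n : ℕ => p n fun _ => v - x0) (f (x0 + (v - x0))) := by
      apply hp.hasSum
      rw [Metric.mem_eball, edist_zero_right] 
      rw [Metric.mem_eball, edist_eq_enorm_sub] at hv2
      exact hv2
    rw [add_sub_cancel] at h4
    have h5 : HasSum (fun n : ℕ => ((p n fun _ => v - x0 : ℝ) : ℂ)) (f v : ℂ) :=
      Complex.hasSum_ofReal.2 h4
    have h6 : ∀ n, ((p n fun _ => v - x0 : ℝ) : ℂ) = q n fun _ => ((v : ℂ) - x0) := by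
      intro n
      rw [FormalMultilinearSeries.apply_eq_pow_smul_coeff]
      simp only [q, ContinuousMultilinearMap.mkPiRing_apply, Finset.prod_const, Finset.card_univ,
        Fintype.card_fin, smul_eq_mul]
      push_cast
      ring
    simp_rw [h6] at h5
    exact h5.tsum_eq

/-- The derivative of the extension extends the derivative. -/
theorem cplx_deriv {f : ℝ → ℝ} {h : ℂ → ℂ} {x0 : ℝ} (hh : AnalyticAt ℂ h x0)
    (he : ∀ᶠ v : ℝ in 𝓝 x0, h (v : ℂ) = (f v : ℂ)) :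
    ∀ᶠ v : ℝ in 𝓝 x0, deriv h (v : ℂ) = ((deriv f v : ℝ) : ℂ) := by
  have h1 : ∀ᶠ v : ℝ in 𝓝 x0, AnalyticAt ℂ h (v : ℂ) :=
    (Complex.continuous_ofReal.tendsto x0).eventually hh.eventually_analyticAt
  filter_upwards [he.eventually_nhds, h1] with v hv hv1
  have h2 : HasDerivAt (fun u : ℝ => h (u : ℂ)) (deriv h (v : ℂ)) v :=
    hv1.differentiableAt.hasDerivAt.comp_ofReal
  have h3 : HasDerivAt (fun u : ℝ => (f u : ℂ)) (deriv h (v : ℂ)) v := by
    refine h2.congr_of_eventuallyEq ?_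
    filter_upwards [hv] with u hu
    exact hu.symm
  have h4 : HasDerivAt f (deriv h (v : ℂ)).re v := by
    have := Complex.reCLM.hasFDerivAt.comp_hasDerivAt v h3
    simpa [Function.comp_def] using this
  have h5 : HasDerivAt (fun _ : ℝ => (0 : ℝ)) (deriv h (v : ℂ)).im v := by
    have := Complex.imCLM.hasFDerivAt.comp_hasDerivAt v h3
    simpa [Function.comp_def] using this
  have h6 : (deriv h (v : ℂ)).im = 0 := h5.unique (hasDerivAt_const v (0 : ℝ))
  rw [h4.deriv]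
  apply Complex.ext
  · simp
  · simp [h6]

/-- A real analytic function with vanishing first derivative is `f q0 + (q - q0) ^ 2 * k q`. -/
theorem real_sq_factor {f : ℝ → ℝ} {q0 : ℝ} (hf : AnalyticAt ℝ f q0) (h1 : deriv f q0 = 0) :
    ∃ k : ℝ → ℝ, AnalyticAt ℝ k q0 ∧ (∀ᶠ q in 𝓝 q0, f q = f q0 + (q - q0) ^ 2 * k q) ∧
      k q0 = deriv (deriv f) q0 / 2 := by
  have hg : AnalyticAt ℝ (fun s => f s - f q0) q0 := hf.sub analyticAt_const
  have hord : ((2 : ℕ) : ℕ∞) ≤ analyticOrderAt (fun s => f s - f q0) q0 := by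
    rw [natCast_le_analyticOrderAt_iff_iteratedDeriv_eq_zero hg]
    intro i hi
    interval_cases i
    · simp
    · rw [iteratedDeriv_one]
      have : deriv (fun s => f s - f q0) q0 = deriv f q0 := by
        rw [deriv_sub_const]
      rw [this, h1]
  obtain ⟨k, hk, hev⟩ := (natCast_le_analyticOrderAt hg).mp hord
  have hev' : ∀ᶠ s in 𝓝 q0, f s = f q0 + (s - q0) ^ 2 * k s := by
    filter_upwards [hev] with s hs
    simp only [smul_eq_mul] at hs
    rw [← hs]
    ring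
  refine ⟨k, hk, hev', ?_⟩
  have hkan : ∀ᶠ s in 𝓝 q0, AnalyticAt ℝ k s := hk.eventually_analyticAt
  have e1 : deriv f =ᶠ[𝓝 q0] fun s => 2 * (s - q0) * k s + (s - q0) ^ 2 * deriv k s := by
    have h2 : deriv f =ᶠ[𝓝 q0] deriv (fun s => f q0 + (s - q0) ^ 2 * k s) :=
      Filter.EventuallyEq.deriv (f₁ := f) (f := fun s => f q0 + (s - q0) ^ 2 * k s) hev'
    filter_upwards [h2, hkan] with s hs hks
    rw [hs]
    have hd : HasDerivAt (fun s : ℝ => f q0 + (s - q0) ^ 2 * k s)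
        (((2 : ℕ) : ℝ) * (s - q0) ^ (2 - 1) * 1 * k s + (s - q0) ^ 2 * deriv k s) s :=
      ((((hasDerivAt_id s).sub_const q0).pow 2).mul hks.differentiableAt.hasDerivAt).const_add
        (f q0)
    rw [hd.deriv]
    norm_num
  have hd2 : HasDerivAt (fun s : ℝ => 2 * (s - q0) * k s + (s - q0) ^ 2 * deriv k s)
      ((2 * 1) * k q0 + 2 * (q0 - q0) * deriv k q0 +
        (((2 : ℕ) : ℝ) * (q0 - q0) ^ (2 - 1) * 1 * deriv k q0 +
          (q0 - q0) ^ 2 * deriv (deriv k) q0)) q0 :=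
    (((((hasDerivAt_id q0).sub_const q0).const_mul 2).mul hk.differentiableAt.hasDerivAt)).add
      ((((hasDerivAt_id q0).sub_const q0).pow 2).mul hk.deriv.differentiableAt.hasDerivAt)
  have e2 : deriv (deriv f) q0 = 2 * k q0 := by
    rw [Filter.EventuallyEq.deriv_eq e1, hd2.deriv]
    simp
  rw [e2]
  ring

/-- Nondegenerate minimum: `f q = f q0 + V q ^ 2`, `V` analytic and decreasing at `q0`, with an
analytic inverse `W`: `W v < q0` for small `v > 0`. -/
theorem real_fold {f : ℝ → ℝ} {q0 : ℝ} (hf : AnalyticAt ℝ f q0) (h1 : deriv f q0 = 0)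
    (h2 : 0 < deriv (deriv f) q0) :
    ∃ V W : ℝ → ℝ, AnalyticAt ℝ V q0 ∧ AnalyticAt ℝ W 0 ∧ V q0 = 0 ∧ W 0 = q0 ∧
      deriv V q0 = -√(deriv (deriv f) q0 / 2) ∧ deriv W 0 = -(√(deriv (deriv f) q0 / 2))⁻¹ ∧
      (∀ᶠ q in 𝓝 q0, f q = f q0 + V q ^ 2) ∧ (∀ᶠ q in 𝓝 q0, W (V q) = q) ∧
      (∀ᶠ v in 𝓝 (0 : ℝ), V (W v) = v) ∧ (∀ᶠ v in 𝓝 (0 : ℝ), f (W v) = f q0 + v ^ 2) ∧
      (∀ᶠ v in 𝓝[>] (0 : ℝ), W v < q0) := by
  obtain ⟨k, hk, hev, hk0⟩ := real_sq_factor hf h1
  have hkpos : 0 < k q0 := by rw [hk0]; positivity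
  let V : ℝ → ℝ := fun q => -((q - q0) * Real.exp (Real.log (k q) / 2))
  have hexp : AnalyticAt ℝ (fun q => Real.exp (Real.log (k q) / 2)) q0 :=
    ((hk.log hkpos).div_const (c := (2 : ℝ))).rexp'
  have hVan : AnalyticAt ℝ V q0 := ((analyticAt_id.sub analyticAt_const).mul hexp).neg
  have hV0 : V q0 = 0 := by simp [V]
  have hsqrt : Real.exp (Real.log (k q0) / 2) = √(deriv (deriv f) q0 / 2) := by
    rw [← hk0, Real.sqrt_eq_rpow, Real.rpow_def_of_pos hkpos]
    congr 1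
    ring
  have hV1 : deriv V q0 = -√(deriv (deriv f) q0 / 2) := by
    have h1 : HasDerivAt V (-(1 * Real.exp (Real.log (k q0) / 2) +
        (q0 - q0) * deriv (fun q => Real.exp (Real.log (k q) / 2)) q0)) q0 :=
      (((hasDerivAt_id q0).sub_const q0).mul hexp.differentiableAt.hasDerivAt).neg
    rw [h1.deriv, hsqrt]
    ring
  have hspos : 0 < √(deriv (deriv f) q0 / 2) := Real.sqrt_pos.mpr (by positivity)
  have hne : deriv V q0 ≠ 0 := by
    rw [hV1]
    exact (neg_neg_of_pos hspos).ne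
  have hst : HasStrictDerivAt V (deriv V q0) q0 := hVan.hasStrictDerivAt
  let W : ℝ → ℝ := hVan.hasStrictDerivAt.localInverse _ _ _ hne
  have hWan : AnalyticAt ℝ W 0 := by
    have := hVan.analyticAt_localInverse hne
    rwa [hV0] at this
  have hWV : ∀ᶠ q in 𝓝 q0, W (V q) = q :=
    (hst.hasStrictFDerivAt_equiv hne).eventually_left_inverse
  have hVW : ∀ᶠ v in 𝓝 (0 : ℝ), V (W v) = v := by
    have := (hst.hasStrictFDerivAt_equiv hne).eventually_right_inverse
    rwa [hV0] at this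
  have hW0 : W 0 = q0 := by
    have := hWV.self_of_nhds
    rwa [hV0] at this
  have hW1 : deriv W 0 = -(√(deriv (deriv f) q0 / 2))⁻¹ := by
    have h3 : HasDerivAt (fun s => W (V s)) (deriv W 0 * deriv V q0) q0 := by
      have h4 : HasDerivAt W (deriv W 0) (V q0) := by
        rw [hV0]; exact hWan.differentiableAt.hasDerivAt
      exact h4.comp q0 hVan.differentiableAt.hasDerivAt
    have h3' : HasDerivAt (fun s => W (V s)) 1 q0 :=
      (hasDerivAt_id q0).congr_of_eventuallyEq hWV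
    have h5 := h3.unique h3'
    rw [hV1] at h5
    rw [← inv_neg]
    exact eq_inv_of_mul_eq_one_left h5
  have hfV : ∀ᶠ q in 𝓝 q0, f q = f q0 + V q ^ 2 := by
    have hkp : ∀ᶠ q in 𝓝 q0, 0 < k q := hk.continuousAt.eventually_mem (Ioi_mem_nhds hkpos)
    filter_upwards [hev, hkp] with q hq hq2
    rw [hq]
    have : Real.exp (Real.log (k q) / 2) ^ 2 = k q := by
      rw [← Real.exp_nat_mul]
      have h6 : ((2 : ℕ) : ℝ) * (Real.log (k q) / 2) = Real.log (k q) := by push_cast; ring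
      rw [h6, Real.exp_log hq2]
    simp only [V]
    rw [neg_sq, mul_pow, this]
  have hWc : Tendsto W (𝓝 0) (𝓝 q0) := by
    have := hWan.continuousAt.tendsto
    rwa [hW0] at this
  refine ⟨V, W, hVan, hWan, hV0, hW0, hV1, hW1, hfV, hWV, hVW, ?_, ?_⟩
  · filter_upwards [hWc.eventually hfV, hVW] with v hv hv2
    rw [hv, hv2]
  · have h6 : HasDerivAt W (deriv W 0) 0 := hWan.differentiableAt.hasDerivAt
    have h7 : deriv W 0 < 0 := by
      rw [hW1]
      exact neg_neg_of_pos (inv_pos.mpr hspos)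
    have h8 := hasDerivAt_iff_tendsto_slope.1 h6
    have h9 : ∀ᶠ v in 𝓝[≠] (0 : ℝ), slope W 0 v < 0 := h8.eventually (Iio_mem_nhds h7)
    have h10 : ∀ᶠ v in 𝓝[>] (0 : ℝ), slope W 0 v < 0 := by
      refine h9.filter_mono (nhdsWithin_mono (0 : ℝ) ?_)
      intro v hv
      exact ne_of_gt (show (0 : ℝ) < v from hv)
    filter_upwards [h10, self_mem_nhdsWithin] with v hv hv0
    rw [slope_def_field, hW0, sub_zero] at hv
    have hv0' : (0 : ℝ) < v := hv0
    have := (div_neg_iff.1 hv)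
    rcases this with h | h
    · linarith [h.2]
    · linarith [h.1]

end K5L
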