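import Mathlib

/-!
# K5L.Fold2 : inversion of a quadratic fold

If `x` is analytic at `0`, real at real points, `x 0 = R > 0`, `x' 0 = 0`, `x'' 0 = - 2 R c < 0` and
`d` is analytic at `0` with `d' 0 = 0`, then `d s = d 0 + w ^ 2 * H w` with `w = √(1 - x s / R)` and
`H` analytic at `0`; the derivative of `H` at `0` vanishes iff `d''' x'' = d'' x'''` at `0`.
-/

namespace K5L

open Filter Topology

/-- A function with vanishing first derivative is `f 0 + s ^ 2 * k s`. -/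
theorem sq_factor {f : ℂ → ℂ} (hf : AnalyticAt ℂ f 0) (h1 : deriv f 0 = 0) :
    ∃ k : ℂ → ℂ, AnalyticAt ℂ k 0 ∧ (∀ᶠ s in 𝓝 (0 : ℂ), f s = f 0 + s ^ 2 * k s) ∧
      k 0 = deriv (deriv f) 0 / 2 ∧ deriv k 0 = deriv (deriv (deriv f)) 0 / 6 := by
  have hg : AnalyticAt ℂ (fun s => f s - f 0) 0 := hf.sub analyticAt_const
  have hord : ((2 : ℕ) : ℕ∞) ≤ analyticOrderAt (fun s => f s - f 0) 0 := by
    rw [natCast_le_analyticOrderAt_iff_iteratedDeriv_eq_zero hg]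
    intro i hi
    interval_cases i
    · simp
    · rw [iteratedDeriv_one]
      have : deriv (fun s => f s - f 0) 0 = deriv f 0 := by
        rw [deriv_sub_const]
      rw [this, h1]
  obtain ⟨k, hk, hev⟩ := (natCast_le_analyticOrderAt hg).mp hord
  have hev' : ∀ᶠ s in 𝓝 (0 : ℂ), f s = f 0 + s ^ 2 * k s := by
    filter_upwards [hev] with s hs
    simp only [sub_zero, smul_eq_mul] at hs
    rw [← hs]
    ring
  refine ⟨k, hk, hev', ?_, ?_⟩
  · have hkan : ∀ᶠ s in 𝓝 (0 : ℂ), AnalyticAt ℂ k s := hk.eventually_analyticAt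
    have e1 : deriv f =ᶠ[𝓝 0] fun s => 2 * s * k s + s ^ 2 * deriv k s := by
      have h2 : deriv f =ᶠ[𝓝 0] deriv (fun s => f 0 + s ^ 2 * k s) :=
        Filter.EventuallyEq.deriv (f₁ := f) (f := fun s => f 0 + s ^ 2 * k s) hev'
      filter_upwards [h2, hkan] with s hs hks
      rw [hs]
      have hd : HasDerivAt (fun s : ℂ => f 0 + s ^ 2 * k s)
          (((2 : ℕ) : ℂ) * s ^ (2 - 1) * k s + s ^ 2 * deriv k s) s :=
        ((hasDerivAt_pow 2 s).mul hks.differentiableAt.hasDerivAt).const_add (f 0)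
      rw [hd.deriv]
      norm_num
    have hd2 : HasDerivAt (fun s : ℂ => 2 * s * k s + s ^ 2 * deriv k s)
        ((2 * 1) * k 0 + 2 * 0 * deriv k 0 +
          (((2 : ℕ) : ℂ) * 0 ^ (2 - 1) * deriv k 0 + 0 ^ 2 * deriv (deriv k) 0)) 0 :=
      ((((hasDerivAt_id (0 : ℂ)).const_mul 2).mul hk.differentiableAt.hasDerivAt)).add
        ((hasDerivAt_pow 2 (0 : ℂ)).mul hk.deriv.differentiableAt.hasDerivAt)
    have e2 : deriv (deriv f) 0 = 2 * k 0 := by
      rw [Filter.EventuallyEq.deriv_eq e1, hd2.deriv]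
      norm_num
    rw [e2]
    ring
  · have hkan : ∀ᶠ s in 𝓝 (0 : ℂ), AnalyticAt ℂ k s := hk.eventually_analyticAt
    have hkan' : ∀ᶠ s in 𝓝 (0 : ℂ), AnalyticAt ℂ (deriv k) s := hk.deriv.eventually_analyticAt
    have e1 : deriv f =ᶠ[𝓝 0] fun s => 2 * s * k s + s ^ 2 * deriv k s := by
      have h2 : deriv f =ᶠ[𝓝 0] deriv (fun s => f 0 + s ^ 2 * k s) :=
        Filter.EventuallyEq.deriv (f₁ := f) (f := fun s => f 0 + s ^ 2 * k s) hev'
      filter_upwards [h2, hkan] with s hs hks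
      rw [hs]
      have hd : HasDerivAt (fun s : ℂ => f 0 + s ^ 2 * k s)
          (((2 : ℕ) : ℂ) * s ^ (2 - 1) * k s + s ^ 2 * deriv k s) s :=
        ((hasDerivAt_pow 2 s).mul hks.differentiableAt.hasDerivAt).const_add (f 0)
      rw [hd.deriv]
      norm_num
    have e2 : deriv (deriv f) =ᶠ[𝓝 0]
        fun s => 2 * k s + 4 * (s * deriv k s) + s ^ 2 * deriv (deriv k) s := by
      have h2 : deriv (deriv f) =ᶠ[𝓝 0] deriv (fun s => 2 * s * k s + s ^ 2 * deriv k s) :=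
        Filter.EventuallyEq.deriv e1
      filter_upwards [h2, hkan, hkan'] with s hs hks hks'
      rw [hs]
      have hd : HasDerivAt (fun s : ℂ => 2 * s * k s + s ^ 2 * deriv k s)
          ((2 * 1) * k s + 2 * s * deriv k s +
            (((2 : ℕ) : ℂ) * s ^ (2 - 1) * deriv k s + s ^ 2 * deriv (deriv k) s)) s :=
        ((((hasDerivAt_id s).const_mul 2).mul hks.differentiableAt.hasDerivAt)).add
          ((hasDerivAt_pow 2 s).mul hks'.differentiableAt.hasDerivAt)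
      rw [hd.deriv]
      norm_num
      ring
    have hd3 : HasDerivAt (fun s : ℂ => 2 * k s + 4 * (s * deriv k s) + s ^ 2 * deriv (deriv k) s)
        (2 * deriv k 0 + 4 * (1 * deriv k 0 + 0 * deriv (deriv k) 0) +
          (((2 : ℕ) : ℂ) * 0 ^ (2 - 1) * deriv (deriv k) 0 +
            0 ^ 2 * deriv (deriv (deriv k)) 0)) 0 :=
      ((hk.differentiableAt.hasDerivAt.const_mul 2).add
        (((hasDerivAt_id (0 : ℂ)).mul hk.deriv.differentiableAt.hasDerivAt).const_mul 4)).add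
        ((hasDerivAt_pow 2 (0 : ℂ)).mul hk.deriv.deriv.differentiableAt.hasDerivAt)
    have e3 : deriv (deriv (deriv f)) 0 = 6 * deriv k 0 := by
      rw [Filter.EventuallyEq.deriv_eq e2, hd3.deriv]
      norm_num
      ring
    rw [e3]
    ring

/-- The coordinate `v` with `v ^ 2 = s ^ 2 * k s` and its inverse. -/
theorem invert {k : ℂ → ℂ} {c : ℝ} (hk : AnalyticAt ℂ k 0) (hc : 0 < c) (hk0 : k 0 = c)
    (hkc : ∀ᶠ s in 𝓝 (0 : ℂ), k ((starRingEnd ℂ) s) = (starRingEnd ℂ) (k s)) :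
    ∃ v σ : ℂ → ℂ, AnalyticAt ℂ v 0 ∧ AnalyticAt ℂ σ 0 ∧ v 0 = 0 ∧ σ 0 = 0 ∧
      deriv v 0 = (√c : ℝ) ∧ deriv σ 0 = ((√c : ℝ) : ℂ)⁻¹ ∧
      (∀ᶠ s in 𝓝 (0 : ℂ), v s ^ 2 = s ^ 2 * k s) ∧ (∀ᶠ s in 𝓝 (0 : ℂ), σ (v s) = s) ∧
      (∀ᶠ w in 𝓝 (0 : ℂ), v (σ w) = w) ∧
      (∀ᶠ w in 𝓝 (0 : ℂ), σ ((starRingEnd ℂ) w) = (starRingEnd ℂ) (σ w)) := by
  have hcC : (k 0) ∈ Complex.slitPlane := by
    rw [hk0]
    exact Complex.ofReal_mem_slitPlane.mpr hc
  let v : ℂ → ℂ := fun s => s * (k s) ^ (1 / 2 : ℂ)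
  have hvan : AnalyticAt ℂ v 0 := analyticAt_id.mul (hk.cpow analyticAt_const hcC)
  have hv0 : v 0 = 0 := by simp [v]
  have hsqrt : (k 0) ^ (1 / 2 : ℂ) = (√c : ℝ) := by
    rw [hk0, Real.sqrt_eq_rpow, Complex.ofReal_cpow hc.le]
    norm_num
  have hv1 : deriv v 0 = (√c : ℝ) := by
    have h1 : HasDerivAt v (1 * (k 0) ^ (1 / 2 : ℂ) +
        0 * deriv (fun s => (k s) ^ (1 / 2 : ℂ)) 0) 0 :=
      (hasDerivAt_id (0 : ℂ)).mul
        (hk.cpow analyticAt_const hcC).differentiableAt.hasDerivAt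
    rw [h1.deriv, hsqrt]
    ring
  have hne : deriv v 0 ≠ 0 := by
    rw [hv1]
    exact_mod_cast (Real.sqrt_pos.mpr hc).ne'
  have hst : HasStrictDerivAt v (deriv v 0) 0 := hvan.hasStrictDerivAt
  let σ : ℂ → ℂ := hvan.hasStrictDerivAt.localInverse _ _ _ hne
  have hσan : AnalyticAt ℂ σ 0 := by
    have := hvan.analyticAt_localInverse hne
    rwa [hv0] at this
  have hsv : ∀ᶠ s in 𝓝 (0 : ℂ), σ (v s) = s :=
    (hst.hasStrictFDerivAt_equiv hne).eventually_left_inverse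
  have hvs : ∀ᶠ w in 𝓝 (0 : ℂ), v (σ w) = w := by
    have := (hst.hasStrictFDerivAt_equiv hne).eventually_right_inverse
    rwa [hv0] at this
  have hσ0 : σ 0 = 0 := by
    have := hsv.self_of_nhds
    rwa [hv0] at this
  have hσ1 : deriv σ 0 = ((√c : ℝ) : ℂ)⁻¹ := by
    have h1 : HasDerivAt (fun s => σ (v s)) (deriv σ 0 * deriv v 0) 0 := by
      have h2 : HasDerivAt σ (deriv σ 0) (v 0) := by
        rw [hv0]; exact hσan.differentiableAt.hasDerivAt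
      exact h2.comp 0 hvan.differentiableAt.hasDerivAt
    have h1' : HasDerivAt (fun s => σ (v s)) 1 0 :=
      (hasDerivAt_id (0 : ℂ)).congr_of_eventuallyEq hsv
    have h3 := h1.unique h1'
    rw [hv1] at h3
    exact eq_inv_of_mul_eq_one_left h3
  have hvc : ∀ᶠ s in 𝓝 (0 : ℂ), v ((starRingEnd ℂ) s) = (starRingEnd ℂ) (v s) := by
    have hsl : ∀ᶠ s in 𝓝 (0 : ℂ), k s ∈ Complex.slitPlane :=
      hk.continuousAt.eventually_mem (Complex.isOpen_slitPlane.mem_nhds hcC)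
    filter_upwards [hkc, hsl] with s hs hs2
    simp only [v, map_mul]
    have h12 : (starRingEnd ℂ) (1 / 2 : ℂ) = 1 / 2 := by
      rw [map_div₀, map_one, map_ofNat]
    rw [hs, Complex.conj_cpow _ _ (Complex.mem_slitPlane_iff_arg.mp hs2).1, h12]
  have hconj : Tendsto (fun w : ℂ => (starRingEnd ℂ) w) (𝓝 0) (𝓝 0) := by
    have := (Complex.continuous_conj.tendsto (0 : ℂ))
    simpa using this
  have hσt : Tendsto σ (𝓝 0) (𝓝 0) := by
    have := hσan.continuousAt.tendsto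
    rwa [hσ0] at this
  refine ⟨v, σ, hvan, hσan, hv0, hσ0, hv1, hσ1, ?_, hsv, hvs, ?_⟩
  · filter_upwards with s
    simp only [v, mul_pow]
    congr 1
    rw [← Complex.cpow_nat_mul]
    norm_num
  · -- `v (conj (σ w)) = conj (v (σ w)) = conj w`, apply `σ`
    have h1 : ∀ᶠ w in 𝓝 (0 : ℂ), σ (v ((starRingEnd ℂ) (σ w))) = (starRingEnd ℂ) (σ w) :=
      (hconj.comp hσt).eventually hsv
    filter_upwards [h1, hσt.eventually hvc, hvs] with w h1 h2 h3
    rw [h2, h3] at h1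
    exact h1

/-- Conjugation symmetry of the square factor. -/
theorem factor_conj {f k : ℂ → ℂ} (hk : AnalyticAt ℂ k 0)
    (hf : ∀ᶠ s in 𝓝 (0 : ℂ), f s = f 0 + s ^ 2 * k s)
    (hfc : ∀ᶠ s in 𝓝 (0 : ℂ), f ((starRingEnd ℂ) s) = (starRingEnd ℂ) (f s)) :
    ∀ᶠ s in 𝓝 (0 : ℂ), k ((starRingEnd ℂ) s) = (starRingEnd ℂ) (k s) := by
  have hconj : Tendsto (fun w : ℂ => (starRingEnd ℂ) w) (𝓝 0) (𝓝 0) := by
    have := (Complex.continuous_conj.tendsto (0 : ℂ))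
    simpa using this
  have hf0 : f 0 = (starRingEnd ℂ) (f 0) := by
    have := hfc.self_of_nhds
    simpa using this
  have hne : ∀ᶠ s in 𝓝[≠] (0 : ℂ), k ((starRingEnd ℂ) s) = (starRingEnd ℂ) (k s) := by
    have h1 : ∀ᶠ s in 𝓝 (0 : ℂ), s ≠ 0 → k ((starRingEnd ℂ) s) = (starRingEnd ℂ) (k s) := by
      filter_upwards [hf, hconj.eventually hf, hfc] with s h1 h2 h3 hs
      rw [h3, h1, map_add, map_mul, map_pow, ← hf0] at h2
      have h4 := add_left_cancel h2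
      have h5 : ((starRingEnd ℂ) s) ^ 2 ≠ 0 := pow_ne_zero 2 (by simpa using hs)
      exact (mul_left_cancel₀ h5 h4).symm
    rw [eventually_nhdsWithin_iff]
    exact h1
  have hcont1 : ContinuousAt (fun s : ℂ => k ((starRingEnd ℂ) s)) 0 := by
    have h2 : ContinuousAt k ((starRingEnd ℂ) 0) := by rw [map_zero]; exact hk.continuousAt
    exact ContinuousAt.comp (f := fun s : ℂ => (starRingEnd ℂ) s) h2
      Complex.continuous_conj.continuousAt
  have hcont2 : ContinuousAt (fun s : ℂ => (starRingEnd ℂ) (k s)) 0 :=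
    Complex.continuous_conj.continuousAt.comp hk.continuousAt
  have h0 : k ((starRingEnd ℂ) 0) = (starRingEnd ℂ) (k 0) := by
    have t1 : Tendsto (fun s : ℂ => k ((starRingEnd ℂ) s)) (𝓝[≠] 0) (𝓝 (k ((starRingEnd ℂ) 0))) :=
      hcont1.tendsto.mono_left nhdsWithin_le_nhds
    have t2 : Tendsto (fun s : ℂ => (starRingEnd ℂ) (k s)) (𝓝[≠] 0) (𝓝 ((starRingEnd ℂ) (k 0))) :=
      hcont2.tendsto.mono_left nhdsWithin_le_nhds
    exact tendsto_nhds_unique (t1.congr' hne) t2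
  rw [eventually_nhdsWithin_iff] at hne
  filter_upwards [hne] with s hs
  by_cases h : s = 0
  · rw [h]; exact h0
  · exact hs h

/-- The fold: every analytic function without linear term is `d 0 + w ^ 2 * H w` in the coordinate
`w = √(1 - x / R)`; all points `y < R` near `R` are values `x s` with `s > 0` small. -/
theorem fold {x d : ℂ → ℂ} {R c : ℝ} (hx : AnalyticAt ℂ x 0) (hd : AnalyticAt ℂ d 0)
    (hR : 0 < R) (hc : 0 < c) (hx0 : x 0 = R) (hx1 : deriv x 0 = 0)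
    (hx2 : deriv (deriv x) 0 = -(2 * R * c)) (hd1 : deriv d 0 = 0)
    (hxc : ∀ᶠ s in 𝓝 (0 : ℂ), x ((starRingEnd ℂ) s) = (starRingEnd ℂ) (x s)) :
    ∃ σ H : ℂ → ℂ, AnalyticAt ℂ σ 0 ∧ AnalyticAt ℂ H 0 ∧ σ 0 = 0 ∧
      deriv σ 0 = ((√c : ℝ) : ℂ)⁻¹ ∧ H 0 = deriv (deriv d) 0 / (2 * c) ∧
      (deriv H 0 = 0 ↔ deriv (deriv (deriv d)) 0 * deriv (deriv x) 0 =
        deriv (deriv d) 0 * deriv (deriv (deriv x)) 0) ∧
      (∀ᶠ w in 𝓝 (0 : ℂ), x (σ w) = R * (1 - w ^ 2) ∧ d (σ w) = d 0 + w ^ 2 * H w) ∧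
      (∀ᶠ w in 𝓝 (0 : ℂ), σ ((starRingEnd ℂ) w) = (starRingEnd ℂ) (σ w)) ∧
      ((∀ᶠ s in 𝓝 (0 : ℂ), d ((starRingEnd ℂ) s) = (starRingEnd ℂ) (d s)) →
        ∀ᶠ w in 𝓝 (0 : ℂ), H ((starRingEnd ℂ) w) = (starRingEnd ℂ) (H w)) := by
  have hRC : (R : ℂ) ≠ 0 := by exact_mod_cast hR.ne'
  have hcC : (c : ℂ) ≠ 0 := by exact_mod_cast hc.ne'
  -- factor `x`
  obtain ⟨kx, hkx, hkxe, hkx0, hkx1⟩ := sq_factor hx hx1
  obtain ⟨kd, hkd, hkde, hkd0, hkd1⟩ := sq_factor hd hd1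
  let k : ℂ → ℂ := fun s => -(kx s / R)
  have hk : AnalyticAt ℂ k 0 := (hkx.div_const).neg
  have hk0 : k 0 = c := by
    simp only [k, hkx0, hx2]
    field_simp
  have hkxc := factor_conj hkx hkxe hxc
  have hkc : ∀ᶠ s in 𝓝 (0 : ℂ), k ((starRingEnd ℂ) s) = (starRingEnd ℂ) (k s) := by
    filter_upwards [hkxc] with s hs
    simp only [k, map_neg, map_div₀, hs, Complex.conj_ofReal]
  obtain ⟨v, σ, hvan, hσan, hv0, hσ0, hv1, hσ1, hv2, hsv, hvs, hσc⟩ := invert hk hc hk0 hkc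
  have hσt : Tendsto σ (𝓝 0) (𝓝 0) := by
    have := hσan.continuousAt.tendsto
    rwa [hσ0] at this
  -- the quotient
  let q : ℂ → ℂ := fun s => kd s / k s
  have hk0ne : k 0 ≠ 0 := by rw [hk0]; exact hcC
  have hq : AnalyticAt ℂ q 0 := hkd.div hk hk0ne
  let H : ℂ → ℂ := fun w => q (σ w)
  have hH : AnalyticAt ℂ H 0 := by
    have hq' : AnalyticAt ℂ q (σ 0) := by rw [hσ0]; exact hq
    exact hq'.comp hσan
  have hkne : ∀ᶠ s in 𝓝 (0 : ℂ), k s ≠ 0 := hk.continuousAt.eventually_ne hk0ne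
  refine ⟨σ, H, hσan, hH, hσ0, hσ1, ?_, ?_, ?_, hσc, ?_⟩
  · simp only [H, q, hσ0, hk0, hkd0]
    field_simp
  · have hq1 : HasDerivAt q ((deriv kd 0 * k 0 - kd 0 * deriv k 0) / k 0 ^ 2) 0 :=
      hkd.differentiableAt.hasDerivAt.div hk.differentiableAt.hasDerivAt hk0ne
    have hq1' : HasDerivAt q ((deriv kd 0 * k 0 - kd 0 * deriv k 0) / k 0 ^ 2) (σ 0) := by
      rw [hσ0]; exact hq1
    have hH1 : deriv H 0 = (deriv kd 0 * k 0 - kd 0 * deriv k 0) / k 0 ^ 2 * deriv σ 0 :=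
      (hq1'.comp 0 hσan.differentiableAt.hasDerivAt).deriv
    have hk1 : deriv k 0 = -(deriv kx 0 / R) := by
      have : HasDerivAt k (-(deriv kx 0 / R)) 0 :=
        (hkx.differentiableAt.hasDerivAt.div_const (R : ℂ)).neg
      exact this.deriv
    have hs0 : deriv σ 0 ≠ 0 := by
      rw [hσ1]
      exact inv_ne_zero (by exact_mod_cast (Real.sqrt_pos.mpr hc).ne')
    rw [hH1, mul_eq_zero, or_iff_left hs0, div_eq_zero_iff, or_iff_left (pow_ne_zero 2 hk0ne),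
      hk0, hk1, hkd1, hkd0, hkx1, hx2, sub_eq_zero]
    constructor
    · intro h
      field_simp at h
      linear_combination -h
    · intro h
      field_simp
      linear_combination -h
  · have h1 : ∀ᶠ w in 𝓝 (0 : ℂ), x (σ w) = x 0 + σ w ^ 2 * kx (σ w) := hσt.eventually hkxe
    have h2 : ∀ᶠ w in 𝓝 (0 : ℂ), d (σ w) = d 0 + σ w ^ 2 * kd (σ w) := hσt.eventually hkde
    have h3 : ∀ᶠ w in 𝓝 (0 : ℂ), v (σ w) ^ 2 = σ w ^ 2 * k (σ w) := hσt.eventually hv2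
    have h4 : ∀ᶠ w in 𝓝 (0 : ℂ), k (σ w) ≠ 0 := hσt.eventually hkne
    filter_upwards [h1, h2, h3, h4, hvs] with w h1 h2 h3 h4 h5
    rw [h5] at h3
    constructor
    · rw [h1, hx0, h3]
      simp only [k]
      field_simp
      ring
    · rw [h2, h3]
      simp only [H, q]
      field_simp
  · intro hdc
    have hkdc := factor_conj hkd hkde hdc
    have hconj : Tendsto (fun w : ℂ => (starRingEnd ℂ) w) (𝓝 0) (𝓝 0) := by
      have := (Complex.continuous_conj.tendsto (0 : ℂ))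
      simpa using this
    filter_upwards [hσc, hσt.eventually hkdc, hσt.eventually hkc] with w h1 h2 h3
    simp only [H, q, h1, h2, h3, map_div₀]

/-- Real points: for real `w > 0` small, `σ w` is real and positive. -/
theorem sigma_real {σ : ℂ → ℂ} {c : ℝ} (hc : 0 < c) (hσ : AnalyticAt ℂ σ 0) (hσ0 : σ 0 = 0)
    (hσ1 : deriv σ 0 = ((√c : ℝ) : ℂ)⁻¹)
    (hσc : ∀ᶠ w in 𝓝 (0 : ℂ), σ ((starRingEnd ℂ) w) = (starRingEnd ℂ) (σ w)) :
    ∀ᶠ w : ℝ in 𝓝[>] 0, ∃ s : ℝ, 0 < s ∧ σ w = s := by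
  have hof : Tendsto (fun w : ℝ => (w : ℂ)) (𝓝 0) (𝓝 0) := by
    have := Complex.continuous_ofReal.tendsto 0
    simpa using this
  have h1 : ∀ᶠ w : ℝ in 𝓝 0, σ w = (((σ w).re : ℝ) : ℂ) := by
    filter_upwards [hof.eventually hσc] with w hw
    rw [Complex.conj_ofReal] at hw
    exact (Complex.conj_eq_iff_re.mp hw.symm).symm
  -- the real function `w ↦ re (σ w)` has derivative `1 / √c > 0` at `0`
  have h2 : HasDerivAt (fun w : ℝ => (σ w).re) ((√c)⁻¹) 0 := by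
    have h3 : HasDerivAt σ ((((√c)⁻¹ : ℝ)) : ℂ) ((0 : ℝ) : ℂ) := by
      have h4 : HasDerivAt σ (deriv σ 0) 0 := hσ.differentiableAt.hasDerivAt
      rw [hσ1] at h4
      simpa using h4
    have h5 := h3.real_of_complex
    simpa using h5
  have h3 : ∀ᶠ w : ℝ in 𝓝[>] 0, 0 < (σ w).re := by
    have hpos : 0 < (√c)⁻¹ := inv_pos.mpr (Real.sqrt_pos.mpr hc)
    have h4 := (hasDerivAt_iff_tendsto_slope.mp h2).eventually (lt_mem_nhds hpos)
    have h5 : ∀ᶠ w : ℝ in 𝓝[>] 0, 0 < slope (fun w : ℝ => (σ w).re) 0 w :=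
      h4.filter_mono (nhdsWithin_mono _ fun w hw => ne_of_gt hw)
    filter_upwards [h5, self_mem_nhdsWithin] with w hw hw0
    rw [slope_def_field] at hw
    have hw0' : (0 : ℝ) < w := hw0
    have hz : (σ ((0 : ℝ) : ℂ)).re = 0 := by simp [hσ0]
    rw [hz, sub_zero, sub_zero] at hw
    exact (div_pos_iff_of_pos_right hw0').mp hw
  filter_upwards [h3, h1.filter_mono nhdsWithin_le_nhds] with w hw hw1
  exact ⟨(σ w).re, hw, hw1⟩

/-- Transfer to a real function `z` given along the curve: `z (x s) = d s` for small `s > 0`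
implies `z y = d 0 + w ^ 2 * H w`, `w = √(1 - y / R)`, for `y < R` near `R`. -/
theorem fold_real {x d σ H : ℂ → ℂ} {R c : ℝ} {z : ℝ → ℝ} (hR : 0 < R) (hc : 0 < c)
    (hσ : AnalyticAt ℂ σ 0) (hσ0 : σ 0 = 0) (hσ1 : deriv σ 0 = ((√c : ℝ) : ℂ)⁻¹)
    (hσc : ∀ᶠ w in 𝓝 (0 : ℂ), σ ((starRingEnd ℂ) w) = (starRingEnd ℂ) (σ w))
    (hev : ∀ᶠ w in 𝓝 (0 : ℂ), x (σ w) = R * (1 - w ^ 2) ∧ d (σ w) = d 0 + w ^ 2 * H w)
    (hz : ∀ᶠ s : ℝ in 𝓝[>] 0, ∀ y : ℝ, x s = y → (z y : ℂ) = d s) :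
    ∀ᶠ y in 𝓝[<] R, (z y : ℂ) = d 0 + ((√(1 - y / R) : ℝ) : ℂ) ^ 2 *
      H ((√(1 - y / R) : ℝ) : ℂ) := by
  have hof : Tendsto (fun w : ℝ => (w : ℂ)) (𝓝 0) (𝓝 0) := by
    have := Complex.continuous_ofReal.tendsto 0
    simpa using this
  have hσt : Tendsto σ (𝓝 0) (𝓝 0) := by
    have := hσ.continuousAt.tendsto
    rwa [hσ0] at this
  -- `w = √(1 - y / R) → 0+` as `y → R-`
  have hwt : Tendsto (fun y : ℝ => √(1 - y / R)) (𝓝[<] R) (𝓝[>] 0) := by
    rw [tendsto_nhdsWithin_iff]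
    constructor
    · have h1 : Tendsto (fun y : ℝ => √(1 - y / R)) (𝓝 R) (𝓝 (√(1 - R / R))) :=
        (((continuous_const.sub (continuous_id.div_const R)).sqrt).tendsto R)
      rw [div_self hR.ne', sub_self, Real.sqrt_zero] at h1
      exact h1.mono_left nhdsWithin_le_nhds
    · filter_upwards [self_mem_nhdsWithin] with y hy
      have hy' : y < R := hy
      have : y / R < 1 := (div_lt_one hR).mpr hy'
      exact Real.sqrt_pos.mpr (by linarith)
  -- `s = re (σ w) → 0+`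
  have hreal := sigma_real hc hσ hσ0 hσ1 hσc
  have hst : Tendsto (fun w : ℝ => (σ w).re) (𝓝[>] 0) (𝓝[>] 0) := by
    rw [tendsto_nhdsWithin_iff]
    constructor
    · have h1 : Tendsto (fun w : ℝ => (σ w).re) (𝓝 0) (𝓝 0) := by
        have h2 := (Complex.continuous_re.tendsto (0 : ℂ)).comp (hσt.comp hof)
        simpa [Function.comp_def] using h2
      exact h1.mono_left nhdsWithin_le_nhds
    · filter_upwards [hreal] with w hw
      obtain ⟨s, hs, he⟩ := hw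
      rw [he]
      simpa using hs
  have hz' := hst.eventually hz
  have hev' : ∀ᶠ w : ℝ in 𝓝[>] 0, x (σ w) = R * (1 - (w : ℂ) ^ 2) ∧
      d (σ w) = d 0 + (w : ℂ) ^ 2 * H w := (hof.eventually hev).filter_mono nhdsWithin_le_nhds
  have hmain : ∀ᶠ w : ℝ in 𝓝[>] 0, ∀ y : ℝ, y = R * (1 - w ^ 2) →
      (z y : ℂ) = d 0 + (w : ℂ) ^ 2 * H w := by
    filter_upwards [hz', hev', hreal] with w h1 h2 h3 y hy
    obtain ⟨s, hs, he⟩ := h3
    have he' : ((σ w).re : ℂ) = σ w := by rw [he]; simp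
    have h4 : x ((σ w).re : ℂ) = (y : ℂ) := by
      rw [he', h2.1, hy]
      push_cast
      ring
    rw [h1 y h4, he', h2.2]
  filter_upwards [hwt.eventually hmain, self_mem_nhdsWithin] with y hy hyR
  refine hy y ?_
  have hy' : y < R := hyR
  have h1 : y / R < 1 := (div_lt_one hR).mpr hy'
  rw [Real.sq_sqrt (by linarith)]
  field_simp
  ring

end K5L
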