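import Pool.Agent.Lib.K5L.Real1
import Pool.Agent.Lib.K5L.Fold2
import Pool.Agent.Lib.K5T.Defs

/-!
# K5L.Real2 : the form of `z` near the fold of `x`

`x, z, H` real analytic at `q0`, `x q0 = R > 0`, `x' q0 = 0`, `x'' q0 < 0`, `z' = x' H` near `q0`.
Then there is an analytic `W` with `W 0 = q0`, `x (W v) = R (1 - v ^ 2)`, `W v < q0` for small `v > 0`, and
a complex analytic `ζ` with `ζ v = z (W v)` for real `v` near `0`,
`ζ v = z q0 - R H(q0) v ^ 2 - (2/3) R H'(q0) W'(0) v ^ 3 + O(v ^ 4)`.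
-/

namespace K5L

open Filter Topology K5T

/-- Three derivatives give the form `T3`. -/
theorem T3_of_derivs {h : ℂ → ℂ} (hh : AnalyticAt ℂ h 0) (h1 : deriv h 0 = 0) :
    T3 h (h 0) (deriv (deriv h) 0 / 2) (deriv (deriv (deriv h)) 0 / 6) := by
  obtain ⟨k, hk, hev, hk0, hk1⟩ := sq_factor hh h1
  have hg : AnalyticAt ℂ (fun s => k s - deriv k 0 * s) 0 :=
    hk.sub (analyticAt_const.mul analyticAt_id)
  have hg1 : deriv (fun s => k s - deriv k 0 * s) 0 = 0 := by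
    have h2 : HasDerivAt (fun s => k s - deriv k 0 * s) (deriv k 0 - deriv k 0 * 1) 0 :=
      hk.differentiableAt.hasDerivAt.sub ((hasDerivAt_id (0 : ℂ)).const_mul (deriv k 0))
    rw [h2.deriv]
    ring
  obtain ⟨m, hm, hmev, -, -⟩ := sq_factor hg hg1
  refine ⟨hh, ?_⟩
  rw [← hk0, ← hk1]
  have h3 : (fun Z : ℂ => h Z - (h 0 + k 0 * Z ^ 2 + deriv k 0 * Z ^ 3)) =ᶠ[𝓝 0]
      fun Z => Z ^ 4 * m Z := by
    filter_upwards [hev, hmev] with Z hZ hZ2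
    simp only [mul_zero, sub_zero] at hZ2
    rw [hZ]
    linear_combination Z ^ 2 * hZ2
  refine h3.trans_isBigO ?_
  have h4 : m =O[𝓝 0] (fun _ => (1 : ℂ)) := hm.continuousAt.isBigO_one ℂ
  have h5 := (Asymptotics.isBigO_refl (fun v : ℂ => v ^ 4) (𝓝 0)).mul h4
  simpa using h5

/-- The second and third derivatives of a function with `ζ' v = -2 R v K v`. -/
theorem derivs_of_mul {g K : ℝ → ℝ} {R : ℝ} (hK : AnalyticAt ℝ K 0)
    (hg : ∀ᶠ v in 𝓝 (0 : ℝ), deriv g v = -(2 * R) * (v * K v)) :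
    deriv g 0 = 0 ∧ deriv (deriv g) 0 = -(2 * R) * K 0 ∧
      deriv (deriv (deriv g)) 0 = -(4 * R) * deriv K 0 := by
  have h0 : deriv g 0 = 0 := by
    have := hg.self_of_nhds
    simpa using this
  have hKan : ∀ᶠ v in 𝓝 (0 : ℝ), AnalyticAt ℝ K v := hK.eventually_analyticAt
  have e1 : deriv (deriv g) =ᶠ[𝓝 0] fun v => -(2 * R) * (K v + v * deriv K v) := by
    have h2 : deriv (deriv g) =ᶠ[𝓝 0] deriv (fun v => -(2 * R) * (v * K v)) :=
      Filter.EventuallyEq.deriv (f₁ := deriv g) (f := fun v => -(2 * R) * (v * K v)) hg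
    filter_upwards [h2, hKan] with v hv hKv
    rw [hv]
    have hd : HasDerivAt (fun v : ℝ => -(2 * R) * (v * K v)) (-(2 * R) * (1 * K v + v * deriv K v)) v :=
      ((hasDerivAt_id v).mul hKv.differentiableAt.hasDerivAt).const_mul _
    rw [hd.deriv]
    ring
  refine ⟨h0, ?_, ?_⟩
  · have := e1.self_of_nhds
    simpa using this
  · rw [Filter.EventuallyEq.deriv_eq e1]
    have hd : HasDerivAt (fun v : ℝ => -(2 * R) * (K v + v * deriv K v))
        (-(2 * R) * (deriv K 0 + (1 * deriv K 0 + 0 * deriv (deriv K) 0))) 0 :=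
      (hK.differentiableAt.hasDerivAt.add
        ((hasDerivAt_id (0 : ℝ)).mul hK.deriv.differentiableAt.hasDerivAt)).const_mul _
    rw [hd.deriv]
    ring

/-- The complex extension of a real analytic function with `g' v = -2 R v K v`. -/
theorem T3_of_real {g K : ℝ → ℝ} {R : ℝ} (hg : AnalyticAt ℝ g 0) (hK : AnalyticAt ℝ K 0)
    (hgK : ∀ᶠ v in 𝓝 (0 : ℝ), deriv g v = -(2 * R) * (v * K v)) :
    ∃ ζ : ℂ → ℂ, T3 ζ ((g 0 : ℝ) : ℂ) ((-(R * K 0) : ℝ) : ℂ) ((-(2 / 3 * R * deriv K 0) : ℝ) : ℂ) ∧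
      ∀ᶠ v : ℝ in 𝓝 (0 : ℝ), ζ (v : ℂ) = ((g v : ℝ) : ℂ) := by
  obtain ⟨ζ, hζ, he⟩ := complexify hg
  obtain ⟨d1, d2, d3⟩ := derivs_of_mul hK hgK
  rw [Complex.ofReal_zero] at hζ
  have hζ' : AnalyticAt ℂ ζ ((0 : ℝ) : ℂ) := by rwa [Complex.ofReal_zero]
  have hζ1 : AnalyticAt ℂ (deriv ζ) ((0 : ℝ) : ℂ) := hζ'.deriv
  have hζ2 : AnalyticAt ℂ (deriv (deriv ζ)) ((0 : ℝ) : ℂ) := hζ'.deriv.deriv
  have e1 := cplx_deriv hζ' he
  have e2 := cplx_deriv hζ1 e1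
  have e3 := cplx_deriv hζ2 e2
  have f0 := he.self_of_nhds
  have f1 := e1.self_of_nhds
  have f2 := e2.self_of_nhds
  have f3 := e3.self_of_nhds
  rw [Complex.ofReal_zero] at f0 f1 f2 f3
  rw [d1, Complex.ofReal_zero] at f1
  rw [d2] at f2
  rw [d3] at f3
  have ht := T3_of_derivs hζ f1
  refine ⟨ζ, ?_, he⟩
  rw [f0, f2, f3] at ht
  have c2 : ((-(2 * R) * K 0 : ℝ) : ℂ) / 2 = ((-(R * K 0) : ℝ) : ℂ) := by push_cast; ring
  have c3 : ((-(4 * R) * deriv K 0 : ℝ) : ℂ) / 6 = ((-(2 / 3 * R * deriv K 0) : ℝ) : ℂ) := by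
    push_cast; ring
  rwa [c2, c3] at ht

/-- The fold of `x` and the form of `z`. -/
theorem zeta_T3 {R q0 : ℝ} (hR : 0 < R) {x z H : ℝ → ℝ} (hx : AnalyticAt ℝ x q0)
    (hz : AnalyticAt ℝ z q0) (hH : AnalyticAt ℝ H q0) (hx0 : x q0 = R) (hx1 : deriv x q0 = 0)
    (hx2 : deriv (deriv x) q0 < 0) (hzd : ∀ᶠ q in 𝓝 q0, deriv z q = deriv x q * H q) :
    ∃ (V W : ℝ → ℝ) (ζ : ℂ → ℂ), AnalyticAt ℝ V q0 ∧ AnalyticAt ℝ W 0 ∧ V q0 = 0 ∧ W 0 = q0 ∧
      deriv W 0 < 0 ∧ (∀ᶠ q in 𝓝 q0, x q = R * (1 - V q ^ 2)) ∧ (∀ᶠ q in 𝓝 q0, W (V q) = q) ∧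
      (∀ᶠ v in 𝓝 (0 : ℝ), V (W v) = v) ∧ (∀ᶠ v in 𝓝 (0 : ℝ), x (W v) = R * (1 - v ^ 2)) ∧
      (∀ᶠ v in 𝓝[>] (0 : ℝ), W v < q0) ∧
      T3 ζ ((z q0 : ℝ) : ℂ) ((-(R * H q0) : ℝ) : ℂ)
        ((-(2 / 3 * R * (deriv H q0 * deriv W 0)) : ℝ) : ℂ) ∧
      ∀ᶠ v : ℝ in 𝓝 (0 : ℝ), ζ (v : ℂ) = ((z (W v) : ℝ) : ℂ) := by
  have hf : AnalyticAt ℝ (fun q => 1 - x q / R) q0 :=
    analyticAt_const.sub (hx.div_const (c := R))
  have hxan : ∀ᶠ q in 𝓝 q0, AnalyticAt ℝ x q := hx.eventually_analyticAt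
  have hf1 : deriv (fun q => 1 - x q / R) =ᶠ[𝓝 q0] fun q => -(deriv x q / R) := by
    filter_upwards [hxan] with q hq
    have : HasDerivAt (fun q => 1 - x q / R) (-(deriv x q / R)) q :=
      (hq.differentiableAt.hasDerivAt.div_const R).const_sub 1
    rw [this.deriv]
  have hf2 : deriv (deriv (fun q => 1 - x q / R)) q0 = -(deriv (deriv x) q0 / R) := by
    rw [Filter.EventuallyEq.deriv_eq hf1]
    have : HasDerivAt (fun q => -(deriv x q / R)) (-(deriv (deriv x) q0 / R)) q0 :=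
      (hx.deriv.differentiableAt.hasDerivAt.div_const R).neg
    rw [this.deriv]
  have hf1' : deriv (fun q => 1 - x q / R) q0 = 0 := by
    rw [hf1.self_of_nhds]
    simp [hx1]
  have hf2' : 0 < deriv (deriv (fun q => 1 - x q / R)) q0 := by
    rw [hf2]
    have : deriv (deriv x) q0 / R < 0 := div_neg_of_neg_of_pos hx2 hR
    linarith
  obtain ⟨V, W, hV, hW, hV0, hW0, -, hW1, hfV, hWV, hVW, hfW, hWlt⟩ := real_fold hf hf1' hf2'
  have hspos : 0 < √(deriv (deriv fun q => 1 - x q / R) q0 / 2) :=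
    Real.sqrt_pos.mpr (by positivity)
  have hWneg : deriv W 0 < 0 := by
    rw [hW1]
    exact neg_neg_of_pos (inv_pos.mpr hspos)
  have hxV : ∀ᶠ q in 𝓝 q0, x q = R * (1 - V q ^ 2) := by
    filter_upwards [hfV] with q hq
    rw [hx0, div_self hR.ne', sub_self, zero_add] at hq
    rw [← hq]
    field_simp
    ring
  have hxW : ∀ᶠ v in 𝓝 (0 : ℝ), x (W v) = R * (1 - v ^ 2) := by
    filter_upwards [hfW] with v hv
    rw [hx0, div_self hR.ne', sub_self, zero_add] at hv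
    rw [← hv]
    field_simp
    ring
  have hWc : Tendsto W (𝓝 0) (𝓝 q0) := by
    have := hW.continuousAt.tendsto
    rwa [hW0] at this
  have hz' : AnalyticAt ℝ z (W 0) := by rwa [hW0]
  have hH' : AnalyticAt ℝ H (W 0) := by rwa [hW0]
  have hg : AnalyticAt ℝ (fun v => z (W v)) 0 := AnalyticAt.comp (g := z) (f := W) hz' hW
  have hK : AnalyticAt ℝ (fun v => H (W v)) 0 := AnalyticAt.comp (g := H) (f := W) hH' hW
  have hzan : ∀ᶠ q in 𝓝 q0, AnalyticAt ℝ z q := hz.eventually_analyticAt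
  have hWan : ∀ᶠ v in 𝓝 (0 : ℝ), AnalyticAt ℝ W v := hW.eventually_analyticAt
  have hgK : ∀ᶠ v in 𝓝 (0 : ℝ), deriv (fun v => z (W v)) v = -(2 * R) * (v * H (W v)) := by
    filter_upwards [hWc.eventually hzd, hWc.eventually hxan, hWc.eventually hzan, hWan,
      hxW.eventually_nhds] with v h1 h2 h3 h4 h5
    have h6 : HasDerivAt (fun v => z (W v)) (deriv z (W v) * deriv W v) v :=
      h3.differentiableAt.hasDerivAt.comp v h4.differentiableAt.hasDerivAt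
    have h7 : HasDerivAt (fun v => x (W v)) (deriv x (W v) * deriv W v) v :=
      h2.differentiableAt.hasDerivAt.comp v h4.differentiableAt.hasDerivAt
    have h8 : HasDerivAt (fun v : ℝ => R * (1 - v ^ 2)) (R * (-(((2 : ℕ) : ℝ) * v ^ (2 - 1)))) v :=
      ((hasDerivAt_pow 2 v).const_sub 1).const_mul R
    have h9 : HasDerivAt (fun v => x (W v)) (R * (-(((2 : ℕ) : ℝ) * v ^ (2 - 1)))) v :=
      h8.congr_of_eventuallyEq h5
    have h10 := h7.unique h9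
    rw [h6.deriv, h1]
    norm_num at h10
    linear_combination H (W v) * h10
  obtain ⟨ζ, hT, he⟩ := T3_of_real hg hK hgK
  have hKd : deriv (fun v => H (W v)) 0 = deriv H q0 * deriv W 0 := by
    have h6 : HasDerivAt (fun v => H (W v)) (deriv H (W 0) * deriv W 0) 0 :=
      hH'.differentiableAt.hasDerivAt.comp (0 : ℝ) hW.differentiableAt.hasDerivAt
    rw [h6.deriv, hW0]
  rw [hKd, hW0] at hT
  exact ⟨V, W, ζ, hV, hW, hV0, hW0, hWneg, hxV, hWV, hVW, hxW, hWlt, hT, he⟩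

/-- Along the curve every real analytic function is an analytic function of `v`. -/
theorem comp_cplx {W F : ℝ → ℝ} {q0 : ℝ} (hW : AnalyticAt ℝ W 0) (hW0 : W 0 = q0)
    (hF : AnalyticAt ℝ F q0) :
    ∃ h : ℂ → ℂ, AnalyticAt ℂ h 0 ∧ ∀ᶠ v : ℝ in 𝓝 (0 : ℝ), h (v : ℂ) = ((F (W v) : ℝ) : ℂ) := by
  have hF' : AnalyticAt ℝ F (W 0) := by rwa [hW0]
  have hg : AnalyticAt ℝ (fun v => F (W v)) 0 := AnalyticAt.comp (g := F) (f := W) hF' hW
  obtain ⟨h, h1, h2⟩ := complexify hg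
  rw [Complex.ofReal_zero] at h1
  exact ⟨h, h1, h2⟩

/-- The same with `v = √(1 - x / R)`, `x → R` from the left. -/
theorem eventually_sqrt {R : ℝ} (hR : 0 < R) {p : ℝ → Prop} (h : ∀ᶠ v in 𝓝 (0 : ℝ), p v) :
    ∀ᶠ x in 𝓝[<] R, p (√(1 - x / R)) := by
  have h1 : ContinuousAt (fun x : ℝ => √(1 - x / R)) R := by
    refine Real.continuous_sqrt.continuousAt.comp ?_
    exact continuousAt_const.sub (continuousAt_id.div_const R)
  have h2 : Tendsto (fun x : ℝ => √(1 - x / R)) (𝓝 R) (𝓝 (√(1 - R / R))) := h1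
  rw [div_self hR.ne', sub_self, Real.sqrt_zero] at h2
  exact (h2.mono_left nhdsWithin_le_nhds).eventually h

end K5L
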