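import Mathlib

/-!
# K5L.Newton: zeros in a sup-box by a contracting Newton map (Newton-Kantorovich, Krawczyk form)

`newton`: `E : R^n -> R^n`, box `|p i - c i| ≤ ρ`, approximate inverse `A`, partial derivatives `D p j k`
along segments; `|A E(c)| ≤ ρ / 2` and `sum_k |δ_ik - (A D(p))_ik| ≤ 1 / 2` on the box give a zero.
`newton_dir`: the same with an abstract directional derivative `G p h j`.
`newton4`, `newton4_dir`: four explicit variables.
-/

set_option autoImplicit false

namespace K5L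

open Set

noncomputable section

/-- The closed sup-box is closed, nonempty and complete. -/
theorem newton_dir {n : ℕ} (E : (Fin n → ℝ) → Fin n → ℝ)
    (G : (Fin n → ℝ) → (Fin n → ℝ) → Fin n → ℝ) (A : Fin n → Fin n → ℝ) (c : Fin n → ℝ) {ρ : ℝ}
    (hρ : 0 ≤ ρ)
    (hE : ∀ p h : Fin n → ℝ, (∀ i, |p i - c i| ≤ ρ) → (∀ i, |p i + h i - c i| ≤ ρ) →
      ∀ u ∈ Icc (0 : ℝ) 1, ∀ j, HasDerivAt (fun u => E (fun i => p i + u * h i) j)
        (G (fun i => p i + u * h i) h j) u)
    (hc : ∀ i, |∑ j, A i j * E c j| ≤ ρ / 2)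
    (hG : ∀ p : Fin n → ℝ, (∀ i, |p i - c i| ≤ ρ) → ∀ (h : Fin n → ℝ) (η : ℝ), 0 ≤ η →
      (∀ i, |h i| ≤ η) → ∀ i, |h i - ∑ j, A i j * G p h j| ≤ 1 / 2 * η)
    (hA : ∀ v : Fin n → ℝ, (∀ i, ∑ j, A i j * v j = 0) → ∀ j, v j = 0) :
    ∃ p : Fin n → ℝ, (∀ i, |p i - c i| ≤ ρ) ∧ ∀ j, E p j = 0 := by
  classical
  -- the Newton map
  set N : (Fin n → ℝ) → (Fin n → ℝ) := fun p i => p i - ∑ j, A i j * E p j with hN
  -- segments stay in the box
  have hseg : ∀ p h : Fin n → ℝ, (∀ i, |p i - c i| ≤ ρ) → (∀ i, |p i + h i - c i| ≤ ρ) →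
      ∀ u ∈ Icc (0 : ℝ) 1, ∀ i, |p i + u * h i - c i| ≤ ρ := by
    intro p h hp hq u hu i
    have h1 := abs_le.1 (hp i)
    have h2 := abs_le.1 (hq i)
    rw [abs_le]
    constructor
    · nlinarith [hu.1, hu.2, mul_nonneg hu.1 (sub_nonneg.2 h2.1),
        mul_nonneg (sub_nonneg.2 hu.2) (sub_nonneg.2 h1.1)]
    · nlinarith [hu.1, hu.2, mul_nonneg hu.1 (sub_nonneg.2 h2.2),
        mul_nonneg (sub_nonneg.2 hu.2) (sub_nonneg.2 h1.2)]
  -- contraction
  have hcon : ∀ p h : Fin n → ℝ, (∀ i, |p i - c i| ≤ ρ) → (∀ i, |p i + h i - c i| ≤ ρ) →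
      ∀ η : ℝ, 0 ≤ η → (∀ i, |h i| ≤ η) → ∀ i, |N (fun i => p i + h i) i - N p i| ≤ 1 / 2 * η := by
    intro p h hp hq η hη hh i
    set g : ℝ → ℝ := fun u => p i + u * h i - ∑ j, A i j * E (fun i => p i + u * h i) j with hg
    have hd : ∀ u ∈ Icc (0 : ℝ) 1, HasDerivWithinAt g
        (h i - ∑ j, A i j * G (fun i => p i + u * h i) h j) (Icc 0 1) u := by
      intro u hu
      have h1 : HasDerivAt (fun u : ℝ => p i + u * h i) (h i) u := by
        simpa using ((hasDerivAt_id u).mul_const (h i)).const_add (p i)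
      have h2 : HasDerivAt (fun u : ℝ => ∑ j, A i j * E (fun i => p i + u * h i) j)
          (∑ j, A i j * G (fun i => p i + u * h i) h j) u := by
        have := HasDerivAt.fun_sum (u := Finset.univ)
          (A := fun j (u : ℝ) => A i j * E (fun i => p i + u * h i) j)
          (A' := fun j => A i j * G (fun i => p i + u * h i) h j) (x := u)
          (fun j _ => (hE p h hp hq u hu j).const_mul (A i j))
        exact this
      exact (h1.sub h2).hasDerivWithinAt
    have hb : ∀ u ∈ Icc (0 : ℝ) 1,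
        ‖h i - ∑ j, A i j * G (fun i => p i + u * h i) h j‖ ≤ 1 / 2 * η := by
      intro u hu
      exact hG _ (hseg p h hp hq u hu) h η hη hh i
    have hm := (convex_Icc (0 : ℝ) 1).norm_image_sub_le_of_norm_hasDerivWithin_le (f := g) hd hb
      (left_mem_Icc.2 zero_le_one) (right_mem_Icc.2 zero_le_one)
    have e1 : g 1 = N (fun i => p i + h i) i := by
      simp only [hg, hN, one_mul]
    have e0 : g 0 = N p i := by
      simp only [hg, hN, zero_mul, add_zero]
    rw [e1, e0] at hm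
    simpa using hm
  -- the box
  set K : Set (Fin n → ℝ) := Metric.closedBall c ρ with hK
  have hmem : ∀ p : Fin n → ℝ, p ∈ K ↔ ∀ i, |p i - c i| ≤ ρ := by
    intro p
    rw [hK, Metric.mem_closedBall, dist_pi_le_iff hρ]
    simp only [Real.dist_eq]
  have hcK : c ∈ K := Metric.mem_closedBall_self hρ
  have hmaps : MapsTo N K K := by
    intro p hp
    rw [hmem] at hp ⊢
    intro i
    have h1 := hcon c (fun i => p i - c i) (fun i => by simpa using hρ)
      (fun i => by simpa using hp i) ρ hρ hp i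
    have e : (fun i => c i + (p i - c i)) = p := by
      funext i
      ring
    rw [e] at h1
    have h2 : |N c i - c i| ≤ ρ / 2 := by
      have : N c i - c i = -∑ j, A i j * E c j := by
        simp only [hN]
        ring
      rw [this, abs_neg]
      exact hc i
    have h3 : N p i - c i = (N p i - N c i) + (N c i - c i) := by ring
    rw [h3]
    exact (abs_add_le _ _).trans (by linarith)
  have hlip : LipschitzWith (1 / 2) (hmaps.restrict N K K) := by
    refine LipschitzWith.of_dist_le_mul ?_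
    rintro ⟨p, hp⟩ ⟨q, hq⟩
    rw [Subtype.dist_eq, Subtype.dist_eq]
    simp only [MapsTo.val_restrict_apply]
    have hη : 0 ≤ dist p q := dist_nonneg
    rw [dist_comm (N p) (N q)]
    push_cast
    rw [dist_pi_le_iff (by positivity)]
    intro i
    rw [Real.dist_eq]
    have hp' := (hmem p).1 hp
    have hq' := (hmem q).1 hq
    have e : (fun i => p i + (q i - p i)) = q := by
      funext i
      ring
    have h1 := hcon p (fun i => q i - p i) hp' (fun i => by simpa using hq' i) (dist p q) hη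
      (fun i => by
        have := dist_le_pi_dist q p i
        rwa [Real.dist_eq, dist_comm q p] at this) i
    rw [e] at h1
    exact h1
  have hct : ContractingWith (1 / 2) (hmaps.restrict N K K) := by
    refine ⟨?_, hlip⟩
    rw [← NNReal.coe_lt_coe]
    push_cast
    norm_num
  have hcompl : IsComplete K := Metric.isClosed_closedBall.isComplete
  obtain ⟨p, hpK, hfix, -⟩ := hct.exists_fixedPoint' hcompl hmaps hcK (edist_ne_top _ _)
  refine ⟨p, (hmem p).1 hpK, hA (E p) ?_⟩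
  intro i
  have h1 : N p i = p i := congrFun hfix i
  simp only [hN] at h1
  linarith

/-- A small perturbation of the identity is injective (sup norm). -/
theorem inj_of_near {n : ℕ} (A D : Fin n → Fin n → ℝ)
    (h : ∀ i, ∑ k, |(if i = k then 1 else 0) - ∑ j, A i j * D j k| ≤ 1 / 2) (v : Fin n → ℝ)
    (hv : ∀ i, ∑ j, A i j * v j = 0) : ∀ j, v j = 0 := by
  classical
  -- `A D` is injective, hence invertible, hence `A` is invertible
  set MA : Matrix (Fin n) (Fin n) ℝ := Matrix.of A with hMA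
  set MD : Matrix (Fin n) (Fin n) ℝ := Matrix.of D with hMD
  have hinj : ∀ w : Fin n → ℝ, (MA * MD).mulVec w = 0 → w = 0 := by
    intro w hw
    by_contra hne
    have hpos : 0 < ‖w‖ := norm_pos_iff.2 hne
    have hle : ‖w‖ ≤ 1 / 2 * ‖w‖ := by
      rw [pi_norm_le_iff_of_nonneg (by positivity)]
      intro i
      have h1 : w i = ∑ k, ((if i = k then 1 else 0) - ∑ j, A i j * D j k) * w k := by
        have h2 : ∑ k, (∑ j, A i j * D j k) * w k = 0 := by
          have := congrFun hw i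
          simpa [Matrix.mulVec, dotProduct, Matrix.mul_apply, hMA, hMD] using this
        simp only [sub_mul, Finset.sum_sub_distrib, h2]
        simp
      rw [h1]
      refine (norm_sum_le _ _).trans ?_
      calc ∑ k, ‖((if i = k then 1 else 0) - ∑ j, A i j * D j k) * w k‖
          ≤ ∑ k, |(if i = k then 1 else 0) - ∑ j, A i j * D j k| * ‖w‖ := by
            refine Finset.sum_le_sum fun k _ => ?_
            rw [norm_mul]
            exact mul_le_mul_of_nonneg_left (norm_le_pi_norm w k) (norm_nonneg _)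
        _ = (∑ k, |(if i = k then 1 else 0) - ∑ j, A i j * D j k|) * ‖w‖ := by
            rw [Finset.sum_mul]
        _ ≤ 1 / 2 * ‖w‖ := mul_le_mul_of_nonneg_right (h i) (norm_nonneg _)
    linarith
  have hunit : IsUnit (MA * MD) := by
    rw [← Matrix.mulVec_injective_iff_isUnit]
    intro a b hab
    have : (MA * MD).mulVec (a - b) = 0 := by
      rw [Matrix.mulVec_sub, sub_eq_zero]
      exact hab
    exact sub_eq_zero.1 (hinj _ this)
  have hAu : IsUnit MA := by
    rw [Matrix.isUnit_iff_isUnit_det] at hunit ⊢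
    rw [Matrix.det_mul] at hunit
    exact isUnit_of_mul_isUnit_left hunit
  have hAi := Matrix.mulVec_injective_iff_isUnit.2 hAu
  have hv' : MA.mulVec v = MA.mulVec 0 := by
    rw [Matrix.mulVec_zero]
    funext i
    simpa [Matrix.mulVec, dotProduct, hMA] using hv i
  have := hAi hv'
  intro j
  exact congrFun this j

/-- **Newton-Kantorovich in a sup-box** with partial derivatives. -/
theorem newton {n : ℕ} (E : (Fin n → ℝ) → Fin n → ℝ)
    (D : (Fin n → ℝ) → Fin n → Fin n → ℝ) (A : Fin n → Fin n → ℝ) (c : Fin n → ℝ) {ρ : ℝ}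
    (hρ : 0 ≤ ρ)
    (hE : ∀ p h : Fin n → ℝ, (∀ i, |p i - c i| ≤ ρ) → (∀ i, |p i + h i - c i| ≤ ρ) →
      ∀ u ∈ Icc (0 : ℝ) 1, ∀ j, HasDerivAt (fun u => E (fun i => p i + u * h i) j)
        (∑ k, D (fun i => p i + u * h i) j k * h k) u)
    (hc : ∀ i, |∑ j, A i j * E c j| ≤ ρ / 2)
    (hD : ∀ p : Fin n → ℝ, (∀ i, |p i - c i| ≤ ρ) →
      ∀ i, ∑ k, |(if i = k then 1 else 0) - ∑ j, A i j * D p j k| ≤ 1 / 2) :
    ∃ p : Fin n → ℝ, (∀ i, |p i - c i| ≤ ρ) ∧ ∀ j, E p j = 0 := by
  classical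
  refine newton_dir E (fun p h j => ∑ k, D p j k * h k) A c hρ hE hc ?_
    (inj_of_near A (D c) (hD c fun i => by simpa using hρ))
  intro p hp h η hη hh i
  have h1 : h i - ∑ j, A i j * ∑ k, D p j k * h k =
      ∑ k, ((if i = k then 1 else 0) - ∑ j, A i j * D p j k) * h k := by
    simp only [sub_mul, Finset.sum_sub_distrib]
    congr 1
    · simp
    · simp only [Finset.mul_sum, Finset.sum_mul]
      rw [Finset.sum_comm]
      exact Finset.sum_congr rfl fun k _ => Finset.sum_congr rfl fun j _ => by ring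
  rw [h1]
  refine (Finset.abs_sum_le_sum_abs _ _).trans ?_
  calc ∑ k, |((if i = k then 1 else 0) - ∑ j, A i j * D p j k) * h k|
      ≤ ∑ k, |(if i = k then 1 else 0) - ∑ j, A i j * D p j k| * η := by
        refine Finset.sum_le_sum fun k _ => ?_
        rw [abs_mul]
        exact mul_le_mul_of_nonneg_left (hh k) (abs_nonneg _)
    _ = (∑ k, |(if i = k then 1 else 0) - ∑ j, A i j * D p j k|) * η := by
        rw [Finset.sum_mul]
    _ ≤ 1 / 2 * η := mul_le_mul_of_nonneg_right (hD p hp i) hη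

/-- The box of four variables. -/
def Bx (a b c d ρ r s y t : ℝ) : Prop := |r - a| ≤ ρ ∧ |s - b| ≤ ρ ∧ |y - c| ≤ ρ ∧ |t - d| ≤ ρ

/-- **Newton-Kantorovich with four explicit variables**: functions `E j r s y t`, partial derivatives
`D j k r s y t` (`k`-th variable), each entry of `1 - A D` at most `1 / 8` on the box. -/
theorem newton4 (E : Fin 4 → ℝ → ℝ → ℝ → ℝ → ℝ) (D : Fin 4 → Fin 4 → ℝ → ℝ → ℝ → ℝ → ℝ)
    (A : Fin 4 → Fin 4 → ℝ) (a b c d : ℝ) {ρ : ℝ} (hρ : 0 ≤ ρ)
    (hE : ∀ r s y t r' s' y' t' : ℝ, Bx a b c d ρ r s y t →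
      Bx a b c d ρ (r + r') (s + s') (y + y') (t + t') → ∀ u ∈ Icc (0 : ℝ) 1,
      Bx a b c d ρ (r + u * r') (s + u * s') (y + u * y') (t + u * t') → ∀ j,
      HasDerivAt (fun u => E j (r + u * r') (s + u * s') (y + u * y') (t + u * t'))
        (D j 0 (r + u * r') (s + u * s') (y + u * y') (t + u * t') * r' +
          D j 1 (r + u * r') (s + u * s') (y + u * y') (t + u * t') * s' +
          D j 2 (r + u * r') (s + u * s') (y + u * y') (t + u * t') * y' +
          D j 3 (r + u * r') (s + u * s') (y + u * y') (t + u * t') * t') u)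
    (hc : ∀ i, |A i 0 * E 0 a b c d + A i 1 * E 1 a b c d + A i 2 * E 2 a b c d +
      A i 3 * E 3 a b c d| ≤ ρ / 2)
    (hD : ∀ r s y t : ℝ, Bx a b c d ρ r s y t → ∀ i k,
      |(if i = k then 1 else 0) - (A i 0 * D 0 k r s y t + A i 1 * D 1 k r s y t +
        A i 2 * D 2 k r s y t + A i 3 * D 3 k r s y t)| ≤ 1 / 8) :
    ∃ r s y t : ℝ, Bx a b c d ρ r s y t ∧ ∀ j, E j r s y t = 0 := by
  have hbox : ∀ p : Fin 4 → ℝ, (∀ i, |p i - (![a, b, c, d] : Fin 4 → ℝ) i| ≤ ρ) ↔
      Bx a b c d ρ (p 0) (p 1) (p 2) (p 3) := by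
    intro p
    unfold Bx
    constructor
    · intro h
      exact ⟨h 0, h 1, h 2, h 3⟩
    · rintro ⟨h0, h1, h2, h3⟩ i
      fin_cases i
      · exact h0
      · exact h1
      · exact h2
      · exact h3
  obtain ⟨p, hp, hz⟩ := newton (fun (p : Fin 4 → ℝ) j => E j (p 0) (p 1) (p 2) (p 3))
    (fun (p : Fin 4 → ℝ) j k => D j k (p 0) (p 1) (p 2) (p 3)) A ![a, b, c, d] hρ
    (by
      intro p h hp hq u hu j
      have hp' := (hbox p).1 hp
      have hq' := (hbox (fun i => p i + h i)).1 hq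
      have hseg : Bx a b c d ρ (p 0 + u * h 0) (p 1 + u * h 1) (p 2 + u * h 2) (p 3 + u * h 3) := by
        rw [← hbox (fun i => p i + u * h i)]
        intro i
        have h1 := abs_le.1 (hp i)
        have h2 := abs_le.1 (hq i)
        rw [abs_le]
        constructor
        · nlinarith [hu.1, hu.2, mul_nonneg hu.1 (sub_nonneg.2 h2.1),
            mul_nonneg (sub_nonneg.2 hu.2) (sub_nonneg.2 h1.1)]
        · nlinarith [hu.1, hu.2, mul_nonneg hu.1 (sub_nonneg.2 h2.2),
            mul_nonneg (sub_nonneg.2 hu.2) (sub_nonneg.2 h1.2)]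
      have := hE (p 0) (p 1) (p 2) (p 3) (h 0) (h 1) (h 2) (h 3) hp' hq' u hu hseg j
      rw [Fin.sum_univ_four]
      exact this)
    (by
      intro i
      rw [Fin.sum_univ_four]
      exact hc i)
    (by
      intro p hp i
      have h1 := hD (p 0) (p 1) (p 2) (p 3) ((hbox p).1 hp) i
      rw [Fin.sum_univ_four]
      have h0 := h1 0
      have h2 := h1 2
      have h3 := h1 3
      have h1 := h1 1
      simp only [Fin.sum_univ_four]
      linarith)
  exact ⟨p 0, p 1, p 2, p 3, (hbox p).1 hp, hz⟩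

/-- **Newton-Kantorovich with four explicit variables**, the directional form: `G j r s y t r' s' y' t'`
is the derivative of `E j` at `(r, s, y, t)` in the direction `(r', s', y', t')`, linear in the
direction. -/
theorem newton4_dir (E : Fin 4 → ℝ → ℝ → ℝ → ℝ → ℝ)
    (G : Fin 4 → ℝ → ℝ → ℝ → ℝ → ℝ → ℝ → ℝ → ℝ → ℝ)
    (A : Fin 4 → Fin 4 → ℝ) (a b c d : ℝ) {ρ : ℝ} (hρ : 0 ≤ ρ)
    (hlin : ∀ j r s y t r' s' y' t', Bx a b c d ρ r s y t → G j r s y t r' s' y' t' =
      G j r s y t 1 0 0 0 * r' + G j r s y t 0 1 0 0 * s' + G j r s y t 0 0 1 0 * y' +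
        G j r s y t 0 0 0 1 * t')
    (hE : ∀ r s y t r' s' y' t' : ℝ, Bx a b c d ρ r s y t →
      Bx a b c d ρ (r + r') (s + s') (y + y') (t + t') → ∀ u ∈ Icc (0 : ℝ) 1,
      Bx a b c d ρ (r + u * r') (s + u * s') (y + u * y') (t + u * t') → ∀ j,
      HasDerivAt (fun u => E j (r + u * r') (s + u * s') (y + u * y') (t + u * t'))
        (G j (r + u * r') (s + u * s') (y + u * y') (t + u * t') r' s' y' t') u)
    (hc : ∀ i, |A i 0 * E 0 a b c d + A i 1 * E 1 a b c d + A i 2 * E 2 a b c d +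
      A i 3 * E 3 a b c d| ≤ ρ / 2)
    (h0 : ∀ r s y t : ℝ, Bx a b c d ρ r s y t → ∀ i,
      |(if i = 0 then 1 else 0) - (A i 0 * G 0 r s y t 1 0 0 0 + A i 1 * G 1 r s y t 1 0 0 0 +
        A i 2 * G 2 r s y t 1 0 0 0 + A i 3 * G 3 r s y t 1 0 0 0)| ≤ 1 / 8)
    (h1 : ∀ r s y t : ℝ, Bx a b c d ρ r s y t → ∀ i,
      |(if i = 1 then 1 else 0) - (A i 0 * G 0 r s y t 0 1 0 0 + A i 1 * G 1 r s y t 0 1 0 0 +
        A i 2 * G 2 r s y t 0 1 0 0 + A i 3 * G 3 r s y t 0 1 0 0)| ≤ 1 / 8)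
    (h2 : ∀ r s y t : ℝ, Bx a b c d ρ r s y t → ∀ i,
      |(if i = 2 then 1 else 0) - (A i 0 * G 0 r s y t 0 0 1 0 + A i 1 * G 1 r s y t 0 0 1 0 +
        A i 2 * G 2 r s y t 0 0 1 0 + A i 3 * G 3 r s y t 0 0 1 0)| ≤ 1 / 8)
    (h3 : ∀ r s y t : ℝ, Bx a b c d ρ r s y t → ∀ i,
      |(if i = 3 then 1 else 0) - (A i 0 * G 0 r s y t 0 0 0 1 + A i 1 * G 1 r s y t 0 0 0 1 +
        A i 2 * G 2 r s y t 0 0 0 1 + A i 3 * G 3 r s y t 0 0 0 1)| ≤ 1 / 8) :
    ∃ r s y t : ℝ, Bx a b c d ρ r s y t ∧ ∀ j, E j r s y t = 0 := by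
  refine newton4 E (fun j k r s y t => G j r s y t (if k = 0 then 1 else 0) (if k = 1 then 1 else 0)
    (if k = 2 then 1 else 0) (if k = 3 then 1 else 0)) A a b c d hρ ?_ hc ?_
  · intro r s y t r' s' y' t' hp hq u hu hs j
    have := hE r s y t r' s' y' t' hp hq u hu hs j
    rw [hlin j _ _ _ _ r' s' y' t' hs] at this
    simpa using this
  · intro r s y t hp i k
    fin_cases k
    · simpa using h0 r s y t hp i
    · simpa using h1 r s y t hp i
    · simpa using h2 r s y t hp i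
    · simpa using h3 r s y t hp i

end

end K5L
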