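import Pool.Agent.Lib.K5L.NwDefs
import Pool.Agent.Lib.K5L.Newton

/-!
# K5L.NwGlue: existence of the critical point from the enclosures
-/

set_option autoImplicit false

namespace K5L

open K5N K5C Set

noncomputable section

namespace NwGlue

theorem dpj_lin (r s y t r' s' y' t' : ℝ) : dpj r s y t r' s' y' t' =
    dpj r s y t 1 0 0 0 * r' + dpj r s y t 0 1 0 0 * s' + dpj r s y t 0 0 1 0 * y' +
      dpj r s y t 0 0 0 1 * t' := by
  unfold dpj
  ring

theorem dchi_lin (r s y t r' s' y' t' : ℝ) : dchi r s y t r' s' y' t' =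
    dchi r s y t 1 0 0 0 * r' + dchi r s y t 0 1 0 0 * s' + dchi r s y t 0 0 1 0 * y' +
      dchi r s y t 0 0 0 1 * t' := by
  unfold dchi
  rw [dpj_lin]
  ring

theorem dpx_lin (r s y t r' s' y' t' : ℝ) : dpx r s y t r' s' y' t' =
    dpx r s y t 1 0 0 0 * r' + dpx r s y t 0 1 0 0 * s' + dpx r s y t 0 0 1 0 * y' +
      dpx r s y t 0 0 0 1 * t' := by
  unfold dpx
  ring

theorem dpb_lin (r s y t r' s' y' t' : ℝ) : dpb r s y t r' s' y' t' =
    dpb r s y t 1 0 0 0 * r' + dpb r s y t 0 1 0 0 * s' + dpb r s y t 0 0 1 0 * y' +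
      dpb r s y t 0 0 0 1 * t' := by
  unfold dpb dpx
  ring

theorem dpw1_lin (r s y t r' s' y' t' : ℝ) : dpw1 r s y t r' s' y' t' =
    dpw1 r s y t 1 0 0 0 * r' + dpw1 r s y t 0 1 0 0 * s' + dpw1 r s y t 0 0 1 0 * y' +
      dpw1 r s y t 0 0 0 1 * t' := by
  unfold dpw1
  ring

theorem dpw2_lin (r s y t r' s' y' t' : ℝ) : dpw2 r s y t r' s' y' t' =
    dpw2 r s y t 1 0 0 0 * r' + dpw2 r s y t 0 1 0 0 * s' + dpw2 r s y t 0 0 1 0 * y' +
      dpw2 r s y t 0 0 0 1 * t' := by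
  unfold dpw2
  ring

theorem dpw3_lin (r s y t r' s' y' t' : ℝ) : dpw3 r s y t r' s' y' t' =
    dpw3 r s y t 1 0 0 0 * r' + dpw3 r s y t 0 1 0 0 * s' + dpw3 r s y t 0 0 1 0 * y' +
      dpw3 r s y t 0 0 0 1 * t' := by
  unfold dpw3
  ring

/-- A linear combination of four vectors. -/
def l4 (d1 d2 d3 d4 : J) (a b c e : ℝ) : J :=
  ⟨d1.x * a + d2.x * b + d3.x * c + d4.x * e, d1.y * a + d2.y * b + d3.y * c + d4.y * e,
    d1.t * a + d2.t * b + d3.t * c + d4.t * e, d1.u * a + d2.u * b + d3.u * c + d4.u * e,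
    d1.v * a + d2.v * b + d3.v * c + d4.v * e, d1.w * a + d2.w * b + d3.w * c + d4.w * e⟩

theorem dj_lin (r s y t r' s' y' t' : ℝ) : dj r s y t r' s' y' t' =
    l4 (dj r s y t 1 0 0 0) (dj r s y t 0 1 0 0) (dj r s y t 0 0 1 0) (dj r s y t 0 0 0 1)
      r' s' y' t' := by
  unfold dj l4
  simp only
  rw [dpx_lin r s y t r' s' y' t', dpw1_lin r s y t r' s' y' t', dpw2_lin r s y t r' s' y' t',
    dpw3_lin r s y t r' s' y' t']
  simp

section lin
variable (b d1 d2 d3 d4 : J) (p q r s : ℝ)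

theorem kl : dk b (l4 d1 d2 d3 d4 p q r s) =
    dk b d1 * p + dk b d2 * q + dk b d3 * r + dk b d4 * s := by
  unfold dk l4
  ring

theorem Tl : dT b (l4 d1 d2 d3 d4 p q r s) =
    dT b d1 * p + dT b d2 * q + dT b d3 * r + dT b d4 * s := by
  unfold dT
  rw [kl]
  unfold l4
  ring

theorem Yl : dY b (l4 d1 d2 d3 d4 p q r s) =
    dY b d1 * p + dY b d2 * q + dY b d3 * r + dY b d4 * s := by
  unfold dY
  rw [kl, Tl]
  unfold l4
  ring

theorem Dl : dD b (l4 d1 d2 d3 d4 p q r s) =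
    dD b d1 * p + dD b d2 * q + dD b d3 * r + dD b d4 * s := by
  unfold dD
  rw [kl]
  unfold l4
  ring

theorem Nl : dN b (l4 d1 d2 d3 d4 p q r s) =
    dN b d1 * p + dN b d2 * q + dN b d3 * r + dN b d4 * s := by
  unfold dN
  rw [kl, Dl]
  unfold l4
  ring

theorem Al : dA b (l4 d1 d2 d3 d4 p q r s) =
    dA b d1 * p + dA b d2 * q + dA b d3 * r + dA b d4 * s := by
  unfold dA
  rw [Nl, Dl, Tl]
  ring

theorem Ml : dM b (l4 d1 d2 d3 d4 p q r s) =
    dM b d1 * p + dM b d2 * q + dM b d3 * r + dM b d4 * s := by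
  unfold dM
  rw [Al, Tl]
  ring

theorem Sl : dS b (l4 d1 d2 d3 d4 p q r s) =
    dS b d1 * p + dS b d2 * q + dS b d3 * r + dS b d4 * s := by
  unfold dS
  rw [Dl]
  simp only [l4]
  ring

theorem Pl : dP b (l4 d1 d2 d3 d4 p q r s) =
    dP b d1 * p + dP b d2 * q + dP b d3 * r + dP b d4 * s := by
  unfold dP
  rw [Dl]
  simp only [l4]
  ring

theorem Kl : dK b (l4 d1 d2 d3 d4 p q r s) =
    dK b d1 * p + dK b d2 * q + dK b d3 * r + dK b d4 * s := by
  unfold dK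
  rw [Dl, Yl, Sl, Pl, Tl]
  ring

theorem Gl : dG b (l4 d1 d2 d3 d4 p q r s) =
    dG b d1 * p + dG b d2 * q + dG b d3 * r + dG b d4 * s := by
  unfold dG
  rw [Al, Tl]
  ring

theorem T0l : dT0 b (l4 d1 d2 d3 d4 p q r s) =
    dT0 b d1 * p + dT0 b d2 * q + dT0 b d3 * r + dT0 b d4 * s := by
  unfold dT0
  rw [Kl, Pl, Gl, Dl]
  simp only [l4]
  ring

theorem Netl : dNet b (l4 d1 d2 d3 d4 p q r s) =
    dNet b d1 * p + dNet b d2 * q + dNet b d3 * r + dNet b d4 * s := by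
  unfold dNet
  rw [Dl, Sl, T0l]
  ring

end lin

theorem nG_lin (j : Fin 4) (r s y t r' s' y' t' : ℝ) : nG j r s y t r' s' y' t' =
    nG j r s y t 1 0 0 0 * r' + nG j r s y t 0 1 0 0 * s' + nG j r s y t 0 0 1 0 * y' +
      nG j r s y t 0 0 0 1 * t' := by
  fin_cases j
  · exact dchi_lin r s y t r' s' y' t'
  · exact dpb_lin r s y t r' s' y' t'
  · show dM (jet r s y t) (dj r s y t r' s' y' t') = _
    rw [dj_lin, Ml]
    rfl
  · show dNet (jet r s y t) (dj r s y t r' s' y' t') = _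
    rw [dj_lin, Netl]
    rfl

variable {r s y t : ℝ → ℝ} {r' s' y' t' q : ℝ}

theorem hasDerivAt_pj (hr : HasDerivAt r r' q) (hs : HasDerivAt s s' q) (hy : HasDerivAt y y' q)
    (ht : HasDerivAt t t' q) : HasDerivAt (fun w => pj (r w) (s w) (y w) (t w))
      (dpj (r q) (s q) (y q) (t q) r' s' y' t') q := by
  unfold K5N.pj dpj
  refine ((((hy.const_mul 2).mul (hr.add hs)).const_sub 1).sub ((ht.const_mul 3).mul
    (((hr.pow 2).add ((hr.const_mul 4).mul hs)).add (hs.pow 2)))).congr_deriv ?_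
  simp only [Pi.mul_apply, Pi.add_apply, Pi.pow_apply]
  push_cast
  ring

theorem hasDerivAt_chi (hr : HasDerivAt r r' q) (hs : HasDerivAt s s' q) (hy : HasDerivAt y y' q)
    (ht : HasDerivAt t t' q) : HasDerivAt (fun w => chi (r w) (s w) (y w) (t w))
      (dchi (r q) (s q) (y q) (t q) r' s' y' t') q := by
  unfold chi dchi
  refine (((hasDerivAt_pj hr hs hy ht).pow 2).sub (((hr.const_mul 4).mul hs).mul
    ((hy.add ((ht.const_mul 3).mul (hr.add hs))).pow 2))).congr_deriv ?_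
  simp only [Pi.mul_apply, Pi.add_apply, Pi.pow_apply]
  push_cast
  ring

theorem hasJ_dj (hr : HasDerivAt r r' q) (hs : HasDerivAt s s' q) (hy : HasDerivAt y y' q)
    (ht : HasDerivAt t t' q) : HasJ (fun w => jet (r w) (s w) (y w) (t w))
      (dj (r q) (s q) (y q) (t q) r' s' y' t') q :=
  ⟨hasDerivAt_px hr hs hy ht, hy, ht, hasDerivAt_pw1 hr hs hy ht, hasDerivAt_pw2 hr hs hy ht,
    hasDerivAt_pw3 hr hs hy ht⟩

theorem nE_deriv (hr : HasDerivAt r r' q) (hs : HasDerivAt s s' q) (hy : HasDerivAt y y' q)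
    (ht : HasDerivAt t t' q) (hreg : Reg (jet (r q) (s q) (y q) (t q))) (j : Fin 4) :
    HasDerivAt (fun w => nE j (r w) (s w) (y w) (t w))
      (nG j (r q) (s q) (y q) (t q) r' s' y' t') q := by
  fin_cases j
  · exact hasDerivAt_chi hr hs hy ht
  · exact (hasDerivAt_pb hr hs hy ht).sub_const 1
  · exact (hasJ_dj hr hs hy ht).M hreg
  · exact (hasJ_dj hr hs hy ht).Net hreg

end NwGlue

/-- Existence of the critical point from the enclosures on the box. -/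
theorem exists_box_of (A : Fin 4 → Fin 4 → ℝ)
    (hreg : ∀ r s y t : ℝ, Bx c0 c1' c2' c3' (1 / 10 ^ 12) r s y t →
      0 < px r s y t ∧ 0 < pw1 r s y t ∧ 0 < fD (jet r s y t) ∧ 0 < pj r s y t)
    (hc : ∀ i, |A i 0 * nE 0 c0 c1' c2' c3' + A i 1 * nE 1 c0 c1' c2' c3' +
      A i 2 * nE 2 c0 c1' c2' c3' + A i 3 * nE 3 c0 c1' c2' c3'| ≤ 1 / 10 ^ 12 / 2)
    (h0 : ∀ r s y t : ℝ, Bx c0 c1' c2' c3' (1 / 10 ^ 12) r s y t → ∀ i,
      |(if i = 0 then 1 else 0) - (A i 0 * nG 0 r s y t 1 0 0 0 + A i 1 * nG 1 r s y t 1 0 0 0 +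
        A i 2 * nG 2 r s y t 1 0 0 0 + A i 3 * nG 3 r s y t 1 0 0 0)| ≤ 1 / 8)
    (h1 : ∀ r s y t : ℝ, Bx c0 c1' c2' c3' (1 / 10 ^ 12) r s y t → ∀ i,
      |(if i = 1 then 1 else 0) - (A i 0 * nG 0 r s y t 0 1 0 0 + A i 1 * nG 1 r s y t 0 1 0 0 +
        A i 2 * nG 2 r s y t 0 1 0 0 + A i 3 * nG 3 r s y t 0 1 0 0)| ≤ 1 / 8)
    (h2 : ∀ r s y t : ℝ, Bx c0 c1' c2' c3' (1 / 10 ^ 12) r s y t → ∀ i,
      |(if i = 2 then 1 else 0) - (A i 0 * nG 0 r s y t 0 0 1 0 + A i 1 * nG 1 r s y t 0 0 1 0 +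
        A i 2 * nG 2 r s y t 0 0 1 0 + A i 3 * nG 3 r s y t 0 0 1 0)| ≤ 1 / 8)
    (h3 : ∀ r s y t : ℝ, Bx c0 c1' c2' c3' (1 / 10 ^ 12) r s y t → ∀ i,
      |(if i = 3 then 1 else 0) - (A i 0 * nG 0 r s y t 0 0 0 1 + A i 1 * nG 1 r s y t 0 0 0 1 +
        A i 2 * nG 2 r s y t 0 0 0 1 + A i 3 * nG 3 r s y t 0 0 0 1)| ≤ 1 / 8) :
    ∃ r s y t : ℝ, Box r s y t := by
  have hEd : ∀ r s y t r' s' y' t' : ℝ, Bx c0 c1' c2' c3' (1 / 10 ^ 12) r s y t →
      Bx c0 c1' c2' c3' (1 / 10 ^ 12) (r + r') (s + s') (y + y') (t + t') →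
      ∀ u ∈ Icc (0 : ℝ) 1,
      Bx c0 c1' c2' c3' (1 / 10 ^ 12) (r + u * r') (s + u * s') (y + u * y') (t + u * t') → ∀ j,
      HasDerivAt (fun u => nE j (r + u * r') (s + u * s') (y + u * y') (t + u * t'))
        (nG j (r + u * r') (s + u * s') (y + u * y') (t + u * t') r' s' y' t') u := by
    intro r s y t r' s' y' t' _ _ u _ hu j
    have hi := hasDerivAt_id' u
    obtain ⟨hx, hw, hD, -⟩ := hreg _ _ _ _ hu
    have a1 : HasDerivAt (fun w => r + w * r') r' u := by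
      simpa using (hi.mul_const r').const_add r
    have a2 : HasDerivAt (fun w => s + w * s') s' u := by
      simpa using (hi.mul_const s').const_add s
    have a3 : HasDerivAt (fun w => y + w * y') y' u := by
      simpa using (hi.mul_const y').const_add y
    have a4 : HasDerivAt (fun w => t + w * t') t' u := by
      simpa using (hi.mul_const t').const_add t
    exact NwGlue.nE_deriv a1 a2 a3 a4 ⟨hx, hw, hD⟩ j
  obtain ⟨r, s, y, t, hB, hE⟩ := newton4_dir nE nG A c0 c1' c2' c3' (ρ := 1 / 10 ^ 12)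
    (by norm_num) (fun j r s y t r' s' y' t' _ => NwGlue.nG_lin j r s y t r' s' y' t') hEd hc h0 h1
    h2 h3
  obtain ⟨hx, hw, hD, hj⟩ := hreg r s y t hB
  have e0 : chi r s y t = 0 := hE 0
  have e1 : pb r s y t - 1 = 0 := hE 1
  have e2 : fM (jet r s y t) = 0 := hE 2
  have e3 : fNet (jet r s y t) = 0 := hE 3
  obtain ⟨b1, b2, b3, b4⟩ := hB
  unfold c0 at b1
  unfold c1' at b2
  unfold c2' at b3
  unfold c3' at b4
  have r0 : 0 < r := by
    have := (abs_le.1 b1).1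
    norm_num at this
    linarith
  have s0 : 0 < s := by
    have := (abs_le.1 b2).1
    norm_num at this
    linarith
  have y0 : 0 < y := by
    have := (abs_le.1 b3).1
    norm_num at this
    linarith
  have t0 : 0 < t := by
    have := (abs_le.1 b4).1
    norm_num at this
    linarith
  unfold chi at e0
  exact ⟨r, s, y, t, ⟨⟨r0, s0, y0.le, t0.le, hx, by linarith, hj.le, by linarith⟩, y0, t0,
    by linarith⟩, e2, e3, b1, b2, b3, b4⟩

end

end K5L
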