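import Pool.Agent.Lib.K5L.NwM
import Pool.Agent.Lib.K5L.NwC
import Pool.Agent.Lib.K5L.NwGlue

/-!
# K5L.BoxEx : existence of the critical point
-/

set_option autoImplicit false

namespace K5L

open K5N K5C K5S

/-- Approximate inverse of the Jacobian matrix. -/
noncomputable def nwA : Fin 4 → Fin 4 → ℝ :=
  ![![(-825189/1000000), (-177071/1000000), (1087869/1000000), (-122443/250000)], ![(-2795853/1000000), (153611/100000), (62877/25000), (42199/500000)], ![(0), (-2679/12500), (310113/500000), (103481/1000000)], ![(0), (6657/250000), (-15211/50000), (161/100000)]]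

theorem nwH_of {r s y t : ℝ} (h : Bx c0 c1' c2' c3' (1 / 10 ^ 12) r s y t) : NwH r s y t :=
  ⟨h.1, h.2.1, h.2.2.1, h.2.2.2⟩

theorem exists_box : ∃ r s y t : ℝ, Box r s y t := by
  refine exists_box_of nwA ?_ ?_ ?_ ?_ ?_ ?_
  · intro r s y t h
    have hB := (nwH_of h).nwB
    exact ⟨lt_of_lt_of_le (by norm_num) hB.hx.1, lt_of_lt_of_le (by norm_num) hB.hu.1,
      lt_of_lt_of_le (by norm_num) hB.hD.1, lt_of_lt_of_le (by norm_num) hB.hj.1⟩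
  · obtain ⟨e0, e1, e2, e3⟩ := nw_c (r := c0) (s := c1') (y := c2') (t := c3') rfl rfl rfl rfl
    have f0 : |nE 0 c0 c1' c2' c3'| ≤ 1 / 10 ^ 17 := e0
    have f1 : |nE 1 c0 c1' c2' c3'| ≤ 1 / 10 ^ 17 := e1
    have f2 : |nE 2 c0 c1' c2' c3'| ≤ 1 / 10 ^ 17 := e2
    have f3 : |nE 3 c0 c1' c2' c3'| ≤ 1 / 10 ^ 17 := e3
    rw [abs_le] at f0 f1 f2 f3
    obtain ⟨f0l, f0h⟩ := f0
    obtain ⟨f1l, f1h⟩ := f1
    obtain ⟨f2l, f2h⟩ := f2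
    obtain ⟨f3l, f3h⟩ := f3
    intro i
    rw [abs_le]
    fin_cases i <;> simp only [nwA, Fin.isValue, Matrix.cons_val, Matrix.cons_val_zero,
      Matrix.cons_val_one, Fin.zero_eta, Fin.mk_one, Fin.reduceFinMk] <;> constructor <;> linarith
  · intro r s y t h
    obtain ⟨⟨a00l, a00h⟩, ⟨a01l, a01h⟩, ⟨a02l, a02h⟩, ⟨a03l, a03h⟩, ⟨a10l, a10h⟩, ⟨a11l, a11h⟩, ⟨a12l, a12h⟩, ⟨a13l, a13h⟩, ⟨a20l, a20h⟩, ⟨a21l, a21h⟩, ⟨a22l, a22h⟩, ⟨a23l, a23h⟩, ⟨a30l, a30h⟩, ⟨a31l, a31h⟩, ⟨a32l, a32h⟩, ⟨a33l, a33h⟩⟩ := nw_m (nwH_of h).nwB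
    intro i
    rw [abs_le]
    fin_cases i <;> simp only [nwA, Fin.isValue, Matrix.cons_val, Matrix.cons_val_zero,
      Matrix.cons_val_one, Fin.zero_eta, Fin.mk_one, Fin.reduceFinMk, Fin.reduceEq, if_true,
      if_false, zero_ne_one, one_ne_zero] <;>
      constructor <;> linarith only [a00l, a00h, a01l, a01h, a02l, a02h, a03l, a03h]
  · intro r s y t h
    obtain ⟨⟨a00l, a00h⟩, ⟨a01l, a01h⟩, ⟨a02l, a02h⟩, ⟨a03l, a03h⟩, ⟨a10l, a10h⟩, ⟨a11l, a11h⟩, ⟨a12l, a12h⟩, ⟨a13l, a13h⟩, ⟨a20l, a20h⟩, ⟨a21l, a21h⟩, ⟨a22l, a22h⟩, ⟨a23l, a23h⟩, ⟨a30l, a30h⟩, ⟨a31l, a31h⟩, ⟨a32l, a32h⟩, ⟨a33l, a33h⟩⟩ := nw_m (nwH_of h).nwB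
    intro i
    rw [abs_le]
    fin_cases i <;> simp only [nwA, Fin.isValue, Matrix.cons_val, Matrix.cons_val_zero,
      Matrix.cons_val_one, Fin.zero_eta, Fin.mk_one, Fin.reduceFinMk, Fin.reduceEq, if_true,
      if_false, zero_ne_one, one_ne_zero] <;>
      constructor <;> linarith only [a10l, a10h, a11l, a11h, a12l, a12h, a13l, a13h]
  · intro r s y t h
    obtain ⟨⟨a00l, a00h⟩, ⟨a01l, a01h⟩, ⟨a02l, a02h⟩, ⟨a03l, a03h⟩, ⟨a10l, a10h⟩, ⟨a11l, a11h⟩, ⟨a12l, a12h⟩, ⟨a13l, a13h⟩, ⟨a20l, a20h⟩, ⟨a21l, a21h⟩, ⟨a22l, a22h⟩, ⟨a23l, a23h⟩, ⟨a30l, a30h⟩, ⟨a31l, a31h⟩, ⟨a32l, a32h⟩, ⟨a33l, a33h⟩⟩ := nw_m (nwH_of h).nwB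
    intro i
    rw [abs_le]
    fin_cases i <;> simp only [nwA, Fin.isValue, Matrix.cons_val, Matrix.cons_val_zero,
      Matrix.cons_val_one, Fin.zero_eta, Fin.mk_one, Fin.reduceFinMk, Fin.reduceEq, if_true,
      if_false, zero_ne_one, one_ne_zero] <;>
      constructor <;> linarith only [a20l, a20h, a21l, a21h, a22l, a22h, a23l, a23h]
  · intro r s y t h
    obtain ⟨⟨a00l, a00h⟩, ⟨a01l, a01h⟩, ⟨a02l, a02h⟩, ⟨a03l, a03h⟩, ⟨a10l, a10h⟩, ⟨a11l, a11h⟩, ⟨a12l, a12h⟩, ⟨a13l, a13h⟩, ⟨a20l, a20h⟩, ⟨a21l, a21h⟩, ⟨a22l, a22h⟩, ⟨a23l, a23h⟩, ⟨a30l, a30h⟩, ⟨a31l, a31h⟩, ⟨a32l, a32h⟩, ⟨a33l, a33h⟩⟩ := nw_m (nwH_of h).nwB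
    intro i
    rw [abs_le]
    fin_cases i <;> simp only [nwA, Fin.isValue, Matrix.cons_val, Matrix.cons_val_zero,
      Matrix.cons_val_one, Fin.zero_eta, Fin.mk_one, Fin.reduceFinMk, Fin.reduceEq, if_true,
      if_false, zero_ne_one, one_ne_zero] <;>
      constructor <;> linarith only [a30l, a30h, a31l, a31h, a32l, a32h, a33l, a33h]

end K5L
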