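import Pool.Agent.Lib.K5L.Box

/-!
# K5L.BoxI: interval arithmetic
-/

set_option autoImplicit false

namespace K5L

namespace BV

/-- `x` lies between `a` and `b`. -/
def I (a b x : ℝ) : Prop := a ≤ x ∧ x ≤ b

theorem I.c (x : ℝ) : I x x x := ⟨le_rfl, le_rfl⟩

variable {a b c d lo hi x y : ℝ}

theorem of_abs {e : ℝ} (h : |x - a| ≤ e) (h' : lo ≤ a - e ∧ a + e ≤ hi) : I lo hi x :=
  ⟨h'.1.trans (by linarith [(abs_le.1 h).1]), le_trans (by linarith [(abs_le.1 h).2]) h'.2⟩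

theorem I.add (hx : I a b x) (hy : I c d y) (h : lo ≤ a + c ∧ b + d ≤ hi) : I lo hi (x + y) :=
  ⟨h.1.trans (add_le_add hx.1 hy.1), (add_le_add hx.2 hy.2).trans h.2⟩

theorem I.sub (hx : I a b x) (hy : I c d y) (h : lo ≤ a - d ∧ b - c ≤ hi) : I lo hi (x - y) :=
  ⟨h.1.trans (sub_le_sub hx.1 hy.2), (sub_le_sub hx.2 hy.1).trans h.2⟩

theorem I.mpp (hx : I a b x) (hy : I c d y) (h : 0 ≤ a ∧ 0 ≤ c ∧ lo ≤ a * c ∧ b * d ≤ hi) :
    I lo hi (x * y) := by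
  obtain ⟨h1, h2, h3, h4⟩ := h
  obtain ⟨x1, x2⟩ := hx
  obtain ⟨y1, y2⟩ := hy
  exact ⟨h3.trans (mul_le_mul x1 y1 h2 (h1.trans x1)),
    (mul_le_mul x2 y2 (h2.trans y1) ((h1.trans x1).trans x2)).trans h4⟩

theorem I.neg (hx : I a b x) : I (-b) (-a) (-x) := ⟨neg_le_neg hx.2, neg_le_neg hx.1⟩

theorem I.mpn (hx : I a b x) (hy : I c d y) (h : 0 ≤ a ∧ d ≤ 0 ∧ lo ≤ b * c ∧ a * d ≤ hi) :
    I lo hi (x * y) := by
  obtain ⟨h1, h2, h3, h4⟩ := h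
  have := (I.mpp (lo := -hi) (hi := -lo) hx hy.neg ⟨h1, by linarith, by linarith, by linarith⟩)
  rw [mul_neg] at this
  exact ⟨by linarith [this.2], by linarith [this.1]⟩

theorem I.mnp (hx : I a b x) (hy : I c d y) (h : b ≤ 0 ∧ 0 ≤ c ∧ lo ≤ a * d ∧ b * c ≤ hi) :
    I lo hi (x * y) := by
  obtain ⟨h1, h2, h3, h4⟩ := h
  have := (I.mpp (lo := -hi) (hi := -lo) hx.neg hy ⟨by linarith, h2, by linarith, by linarith⟩)
  rw [neg_mul] at this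
  exact ⟨by linarith [this.2], by linarith [this.1]⟩

theorem I.mnn (hx : I a b x) (hy : I c d y) (h : b ≤ 0 ∧ d ≤ 0 ∧ lo ≤ b * d ∧ a * c ≤ hi) :
    I lo hi (x * y) := by
  obtain ⟨h1, h2, h3, h4⟩ := h
  have := (I.mpp (lo := lo) (hi := hi) hx.neg hy.neg
    ⟨by linarith, by linarith, by linarith, by linarith⟩)
  rwa [neg_mul_neg] at this

theorem I.dpp (hx : I a b x) (hy : I c d y) (h : 0 ≤ a ∧ 0 < c ∧ lo ≤ a / d ∧ b / c ≤ hi) :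
    I lo hi (x / y) := by
  obtain ⟨h1, h2, h3, h4⟩ := h
  obtain ⟨x1, x2⟩ := hx
  obtain ⟨y1, y2⟩ := hy
  have hy0 : 0 < y := h2.trans_le y1
  exact ⟨h3.trans (div_le_div₀ (h1.trans x1) x1 hy0 y2),
    (div_le_div₀ ((h1.trans x1).trans x2) x2 h2 y1).trans h4⟩

theorem I.dnp (hx : I a b x) (hy : I c d y) (h : b ≤ 0 ∧ 0 < c ∧ lo ≤ a / c ∧ b / d ≤ hi) :
    I lo hi (x / y) := by
  obtain ⟨h1, h2, h3, h4⟩ := h
  have := (I.dpp (lo := -hi) (hi := -lo) hx.neg hy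
    ⟨by linarith, h2, by rw [neg_div]; linarith, by rw [neg_div]; linarith⟩)
  rw [neg_div] at this
  exact ⟨by linarith [this.2], by linarith [this.1]⟩

theorem I.pow (hx : I a b x) (n : ℕ) (h : 0 ≤ a ∧ lo ≤ a ^ n ∧ b ^ n ≤ hi) : I lo hi (x ^ n) :=
  ⟨h.2.1.trans (pow_le_pow_left₀ h.1 hx.1 n),
    (pow_le_pow_left₀ (h.1.trans hx.1) hx.2 n).trans h.2.2⟩

end BV

end K5L
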