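import Pool.Agent.Lib.K5L.Pc
import Mathlib.Analysis.Calculus.ImplicitContDiff

/-!
# K5L.Crv: the curve through the critical point
-/

set_option autoImplicit false

namespace K5L

open K5N K5C Filter Topology
open scoped ContDiff

noncomputable section

namespace Crv

/-- The equations of the curve. -/
def F (p : ℝ × (ℝ × ℝ × ℝ)) : ℝ × ℝ × ℝ :=
  (pb p.1 p.2.1 p.2.2.1 p.2.2.2, fM (jet p.1 p.2.1 p.2.2.1 p.2.2.2),
    fNet (jet p.1 p.2.1 p.2.2.1 p.2.2.2))

theorem contF {r s y t : ℝ} (h : Reg (jet r s y t)) :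
    ContDiffAt ℝ ω F (r, (s, y, t)) := by
  have hj : SmJ ω (fun p : ℝ × (ℝ × ℝ × ℝ) => jet p.1 p.2.1 p.2.2.1 p.2.2.2) (r, (s, y, t)) := by
    apply smJ_jet <;> fun_prop
  refine ContDiffAt.prodMk ?_ (ContDiffAt.prodMk ?_ ?_)
  · simp only [pb]
    fun_prop
  · exact hj.M h
  · exact hj.Net h

/-- A tangent vector with `dM = dNet = 0` has `(dy, dt)` determined by `dx`. -/
theorem cramer {r s y t x' y' t' : ℝ} (hd : Del r s y t ≠ 0)
    (hM : dM (jet r s y t) (cb r s x' y' t') = 0)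
    (hN : dNet (jet r s y t) (cb r s x' y' t') = 0) :
    y' = Yx r s y t * x' ∧ t' = Tx r s y t * x' := by
  rw [dM_cb] at hM
  rw [dNet_cb] at hN
  have e1 : Del r s y t = gY dM r s y t * gT dNet r s y t - gT dM r s y t * gY dNet r s y t := rfl
  have hM' : x' * gX dM r s y t + y' * gY dM r s y t + t' * gT dM r s y t = 0 := hM
  have hN' : x' * gX dNet r s y t + y' * gY dNet r s y t + t' * gT dNet r s y t = 0 := hN
  unfold Yx Tx
  constructor
  · rw [div_mul_eq_mul_div, eq_div_iff hd, e1]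
    linear_combination gT dNet r s y t * hM' - gT dM r s y t * hN'
  · rw [div_mul_eq_mul_div, eq_div_iff hd, e1]
    linear_combination gY dM r s y t * hN' - gY dNet r s y t * hM'

/-- The relation between `dx` and `dr` along the curve. -/
theorem chi_rel {r s y t r' s' x' y' t' : ℝ} (hx : dpx r s y t r' s' y' t' = x')
    (hb : dpb r s y t r' s' y' t' = 0) (hy : y' = Yx r s y t * x') (ht : t' = Tx r s y t * x') :
    chi r s y t * r' = om r s y t * x' ∧
    pj r s y t * s' - 2 * s * (y + 3 * t * (r + s)) * r' =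
      x' * (s * (s + 2 * r) * Yx r s y t + s * (s ^ 2 + 6 * r * s + 3 * r ^ 2) * Tx r s y t) := by
  have e1 : dpx r s y t r' s' y' t' = pj r s y t * r' - 2 * r * (y + 3 * t * (r + s)) * s'
      - r * (r + 2 * s) * y' - r * (r ^ 2 + 6 * r * s + 3 * s ^ 2) * t' := by
    unfold dpx pj
    ring
  have e2 : dpb r s y t r' s' y' t' = pj r s y t * s' - 2 * s * (y + 3 * t * (r + s)) * r'
      - s * (s + 2 * r) * y' - s * (s ^ 2 + 6 * r * s + 3 * r ^ 2) * t' := by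
    unfold dpb dpx pj
    ring
  rw [e1] at hx
  rw [e2] at hb
  rw [hy, ht] at hx hb
  constructor
  · unfold chi om
    linear_combination pj r s y t * hx + 2 * r * (y + 3 * t * (r + s)) * hb
  · linear_combination hb

theorem line {r s y t : ℝ} (h : Reg (jet r s y t)) (hc : ContDiffAt ℝ ω F (r, (s, y, t)))
    (v : ℝ × ℝ × ℝ)
    (hv : (fderiv ℝ F (r, (s, y, t))) ((0 : ℝ), v) = 0) :
    dpb r s y t 0 v.1 v.2.1 v.2.2 = 0 ∧
    dM (jet r s y t) (cb r s (dpx r s y t 0 v.1 v.2.1 v.2.2) v.2.1 v.2.2) = 0 ∧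
    dNet (jet r s y t) (cb r s (dpx r s y t 0 v.1 v.2.1 v.2.2) v.2.1 v.2.2) = 0 := by
  have hd : DifferentiableAt ℝ F (r, (s, y, t)) := hc.differentiableAt (by simp)
  have hl : HasDerivAt (fun w : ℝ => ((r, (s, y, t)) : ℝ × (ℝ × ℝ × ℝ)) + w • ((0 : ℝ), v))
      ((0 : ℝ), v) 0 := by
    have := ((hasDerivAt_id (0 : ℝ)).smul_const ((0 : ℝ), v)).const_add
      ((r, (s, y, t)) : ℝ × (ℝ × ℝ × ℝ))
    simpa using this
  have hF : HasDerivAt (fun w : ℝ => F (((r, (s, y, t)) : ℝ × (ℝ × ℝ × ℝ)) + w • ((0 : ℝ), v)))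
      ((fderiv ℝ F (r, (s, y, t))) ((0 : ℝ), v)) 0 := by
    have hF' : HasFDerivAt F (fderiv ℝ F (r, (s, y, t)))
        ((fun w : ℝ => ((r, (s, y, t)) : ℝ × (ℝ × ℝ × ℝ)) + w • ((0 : ℝ), v)) 0) := by
      simpa using hd.hasFDerivAt
    exact hF'.comp_hasDerivAt (0 : ℝ) hl
  rw [hv] at hF
  have hr0 : HasDerivAt (fun _ : ℝ => r) 0 0 := hasDerivAt_const _ _
  have hs0 : HasDerivAt (fun w : ℝ => s + w * v.1) v.1 0 := by
    simpa using ((hasDerivAt_id (0 : ℝ)).mul_const v.1).const_add s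
  have hy0 : HasDerivAt (fun w : ℝ => y + w * v.2.1) v.2.1 0 := by
    simpa using ((hasDerivAt_id (0 : ℝ)).mul_const v.2.1).const_add y
  have ht0 : HasDerivAt (fun w : ℝ => t + w * v.2.2) v.2.2 0 := by
    simpa using ((hasDerivAt_id (0 : ℝ)).mul_const v.2.2).const_add t
  have hFeq : (fun w : ℝ => F (((r, (s, y, t)) : ℝ × (ℝ × ℝ × ℝ)) + w • ((0 : ℝ), v))) =
      fun w => (pb r (s + w * v.1) (y + w * v.2.1) (t + w * v.2.2),
        fM (jet r (s + w * v.1) (y + w * v.2.1) (t + w * v.2.2)),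
        fNet (jet r (s + w * v.1) (y + w * v.2.1) (t + w * v.2.2))) := by
    funext w
    simp [F]
  rw [hFeq] at hF
  have h1 : HasDerivAt (fun w : ℝ => pb r (s + w * v.1) (y + w * v.2.1) (t + w * v.2.2)) 0 0 :=
    hF.fst
  have h2 : HasDerivAt (fun w : ℝ => fM (jet r (s + w * v.1) (y + w * v.2.1) (t + w * v.2.2))) 0 0 :=
    hF.snd.fst
  have h3 : HasDerivAt (fun w : ℝ => fNet (jet r (s + w * v.1) (y + w * v.2.1) (t + w * v.2.2)))
      0 0 := hF.snd.snd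
  have hb : dpb r s y t 0 v.1 v.2.1 v.2.2 = 0 := by
    have h4 := hasDerivAt_pb hr0 hs0 hy0 ht0
    simp only [zero_mul, add_zero] at h4
    exact h4.unique h1
  have hJ := hasJ hr0 hs0 hy0 ht0 (by simpa using hb)
  simp only [zero_mul, add_zero] at hJ
  have hR : Reg ((fun w : ℝ => jet r (s + w * v.1) (y + w * v.2.1) (t + w * v.2.2)) 0) := by
    simpa using h
  refine ⟨hb, ?_, ?_⟩
  · have h5 := (hJ.M hR).unique h2
    simpa using h5
  · have h5 := (hJ.Net hR).unique h3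
    simpa using h5

theorem inj {r s y t : ℝ} (h : PC r s y t) (v : ℝ × ℝ × ℝ)
    (hv : (fderiv ℝ F (r, (s, y, t))) ((0 : ℝ), v) = 0) : v = 0 := by
  obtain ⟨h1, h2, h3⟩ := line h.reg (contF h.reg) v hv
  obtain ⟨h4, h5⟩ := cramer h.del h2 h3
  obtain ⟨h6, h7⟩ := chi_rel rfl h1 h4 h5
  rw [mul_zero] at h6
  have hx : dpx r s y t 0 v.1 v.2.1 v.2.2 = 0 := by
    rcases mul_eq_zero.1 h6.symm with h8 | h8
    · exact absurd h8 h.om.ne'
    · exact h8
  rw [hx] at h4 h5 h7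
  have hs : v.1 = 0 := by
    have h8 : pj r s y t * v.1 = 0 := by linarith
    rcases mul_eq_zero.1 h8 with h9 | h9
    · exact absurd h9 h.j.ne'
    · exact h9
  refine Prod.ext hs (Prod.ext ?_ ?_)
  · rw [h4]
    simp
  · rw [h5]
    simp

theorem invertible {r s y t : ℝ} (h : PC r s y t) :
    (fderiv ℝ F (r, (s, y, t)) ∘L .inr ℝ ℝ (ℝ × ℝ × ℝ)).IsInvertible := by
  set L := fderiv ℝ F (r, (s, y, t)) ∘L .inr ℝ ℝ (ℝ × ℝ × ℝ) with hL
  have hinj : Function.Injective (L : (ℝ × ℝ × ℝ) →ₗ[ℝ] (ℝ × ℝ × ℝ)) := by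
    rw [← LinearMap.ker_eq_bot, LinearMap.ker_eq_bot']
    intro v hv
    refine inj h v ?_
    simpa [hL] using hv
  let e := (LinearEquiv.ofInjectiveEndo (L : (ℝ × ℝ × ℝ) →ₗ[ℝ] (ℝ × ℝ × ℝ)) hinj)
  refine ⟨e.toContinuousLinearEquiv, ?_⟩
  ext <;> simp [e]

end Crv

/-- The curve through the critical point. -/
theorem curve {r s y t : ℝ} (h : PC r s y t) : ∃ S Y T : ℝ → ℝ,
    ContDiffAt ℝ ω S r ∧ ContDiffAt ℝ ω Y r ∧ ContDiffAt ℝ ω T r ∧ S r = s ∧ Y r = y ∧ T r = t ∧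
    ∀ᶠ q in 𝓝 r, pb q (S q) (Y q) (T q) = 1 ∧ fM (jet q (S q) (Y q) (T q)) = 0 ∧
      fNet (jet q (S q) (Y q) (T q)) = 0 := by
  have hc := Crv.contF h.reg
  have hi := Crv.invertible h
  have hω : (ω : WithTop ℕ∞) ≠ 0 := by simp
  set ψ := hc.implicitFunction hω hi with hψ
  have h1 : ContDiffAt ℝ ω ψ r := hc.contDiffAt_implicitFunction hω hi
  have h2 : ψ r = (s, y, t) := hc.implicitFunction_apply_self hω hi
  have h3 := hc.eventually_apply_implicitFunction hω hi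
  refine ⟨fun q => (ψ q).1, fun q => (ψ q).2.1, fun q => (ψ q).2.2, ?_, ?_, ?_, ?_, ?_, ?_, ?_⟩
  · exact contDiff_fst.contDiffAt.comp r h1
  · exact (contDiff_fst.comp contDiff_snd).contDiffAt.comp r h1
  · exact (contDiff_snd.comp contDiff_snd).contDiffAt.comp r h1
  · show (ψ r).1 = s
    rw [h2]
  · show (ψ r).2.1 = y
    rw [h2]
  · show (ψ r).2.2 = t
    rw [h2]
  · filter_upwards [h3] with q hq
    have h4 : Crv.F (r, (s, y, t)) = (1, 0, 0) := by
      simp only [Crv.F]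
      rw [h.crit.b_eq, h.M, h.Net]
    rw [h4] at hq
    have h5 := congrArg Prod.fst hq
    have h6 := congrArg (fun p => p.2.1) hq
    have h7 := congrArg (fun p => p.2.2) hq
    exact ⟨h5, h6, h7⟩

end

end K5L
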