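import Pool.Agent.Lib.K5L.Jet
import Pool.Agent.Lib.K5C.DF

/-!
# K5L.Dir: the coordinates `(x, y, t)` on `pb = 1`

At `pb = 1` the functions `w1, w2, w3` have the differentials `dw_i = a_i dx + c_i dy + e_i dt`; `cb` is
the tangent vector with the components `dx, dy, dt`.
-/

set_option autoImplicit false

namespace K5L

open K5N K5C

noncomputable section

def a1 (_r s : ℝ) : ℝ := s
def a2 (r s : ℝ) : ℝ := s * (s + 2 * r)
def a3 (r s : ℝ) : ℝ := s * (s ^ 2 + 6 * r * s + 3 * r ^ 2)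
def c1 (r s : ℝ) : ℝ := r * s * (r + s)
def c2 (r s : ℝ) : ℝ := r * s * (2 * (r + s) ^ 2 + r * s)
def c3 (r s : ℝ) : ℝ := 3 * (r * s) * (r + s) * ((r + s) ^ 2 + 2 * (r * s))
def e1 (r s : ℝ) : ℝ := r * s * ((r + s) ^ 2 + r * s)
def e2 (r s : ℝ) : ℝ := 2 * (r * s) * (r + s) * ((r + s) ^ 2 + 2 * (r * s))
def e3 (r s : ℝ) : ℝ := r * s * (3 * (r + s) ^ 4 + 12 * (r + s) ^ 2 * (r * s) + 4 * (r * s) ^ 2)

/-- The tangent vector with the components `dx, dy, dt`. -/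
def cb (r s x y t : ℝ) : J :=
  ⟨x, y, t, a1 r s * x + c1 r s * y + e1 r s * t, a2 r s * x + c2 r s * y + e2 r s * t,
    a3 r s * x + c3 r s * y + e3 r s * t⟩

/-- The differential of `pw1`. -/
def dpw1 (r s y t r' s' y' t' : ℝ) : ℝ :=
  (r' * s + r * s') * (1 - 2 * y * (r + s) - 3 * t * ((r + s) ^ 2 + r * s))
    + r * s * (-2 * (y' * (r + s) + y * (r' + s'))
      - 3 * (t' * ((r + s) ^ 2 + r * s) + t * (2 * (r + s) * (r' + s') + (r' * s + r * s'))))

theorem dpw1_eq (r s y t r' s' y' t' : ℝ) : dpw1 r s y t r' s' y' t' =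
    a1 r s * dpx r s y t r' s' y' t' + r * dpb r s y t r' s' y' t' + c1 r s * y' + e1 r s * t' := by
  unfold dpw1 a1 c1 e1 dpb dpx
  ring

theorem dpw2_eq (r s y t r' s' y' t' : ℝ) : dpw2 r s y t r' s' y' t' =
    a2 r s * dpx r s y t r' s' y' t' + r * (r + 2 * s) * dpb r s y t r' s' y' t' + c2 r s * y'
      + e2 r s * t' := by
  unfold dpw2 a2 c2 e2 dpb dpx
  ring

theorem dpw3_eq (r s y t r' s' y' t' : ℝ) : dpw3 r s y t r' s' y' t' =
    a3 r s * dpx r s y t r' s' y' t' + r * (r ^ 2 + 6 * r * s + 3 * s ^ 2) *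
      dpb r s y t r' s' y' t' + c3 r s * y' + e3 r s * t' := by
  unfold dpw3 a3 c3 e3 dpb dpx
  ring

variable {r s y t : ℝ → ℝ} {r' s' y' t' q : ℝ}

theorem hasDerivAt_pw1 (hr : HasDerivAt r r' q) (hs : HasDerivAt s s' q) (hy : HasDerivAt y y' q)
    (ht : HasDerivAt t t' q) : HasDerivAt (fun w => pw1 (r w) (s w) (y w) (t w))
      (dpw1 (r q) (s q) (y q) (t q) r' s' y' t') q := by
  unfold pw1 dpw1
  refine ((hr.mul hs).mul ((((hy.const_mul 2).mul (hr.add hs)).const_sub 1).sub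
    ((ht.const_mul 3).mul (((hr.add hs).pow 2).add (hr.mul hs))))).congr_deriv ?_
  push_cast
  simp only [Pi.pow_apply, Pi.mul_apply, Pi.add_apply, Pi.sub_apply]
  ring

/-- The jet along a curve with `pb' = 0`. -/
theorem hasJ (hr : HasDerivAt r r' q) (hs : HasDerivAt s s' q) (hy : HasDerivAt y y' q)
    (ht : HasDerivAt t t' q) (hb : dpb (r q) (s q) (y q) (t q) r' s' y' t' = 0) :
    HasJ (fun w => jet (r w) (s w) (y w) (t w))
      (cb (r q) (s q) (dpx (r q) (s q) (y q) (t q) r' s' y' t') y' t') q := by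
  refine ⟨hasDerivAt_px hr hs hy ht, hy, ht, ?_, ?_, ?_⟩
  · refine (hasDerivAt_pw1 hr hs hy ht).congr_deriv ?_
    rw [dpw1_eq, hb]
    simp only [cb]
    ring
  · refine (hasDerivAt_pw2 hr hs hy ht).congr_deriv ?_
    rw [dpw2_eq, hb]
    simp only [cb]
    ring
  · refine (hasDerivAt_pw3 hr hs hy ht).congr_deriv ?_
    rw [dpw3_eq, hb]
    simp only [cb]
    ring

/-! ### linearity of the differentials -/

theorem dk_cb (b : J) (r s x y t : ℝ) : dk b (cb r s x y t) =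
    x * dk b (cb r s 1 0 0) + y * dk b (cb r s 0 1 0) + t * dk b (cb r s 0 0 1) := by
  unfold dk cb
  ring

theorem dT_cb (b : J) (r s x y t : ℝ) : dT b (cb r s x y t) =
    x * dT b (cb r s 1 0 0) + y * dT b (cb r s 0 1 0) + t * dT b (cb r s 0 0 1) := by
  unfold dT
  rw [dk_cb]
  unfold cb
  ring

theorem dY_cb (b : J) (r s x y t : ℝ) : dY b (cb r s x y t) =
    x * dY b (cb r s 1 0 0) + y * dY b (cb r s 0 1 0) + t * dY b (cb r s 0 0 1) := by
  unfold dY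
  rw [dk_cb, dT_cb]
  unfold cb
  ring

theorem dD_cb (b : J) (r s x y t : ℝ) : dD b (cb r s x y t) =
    x * dD b (cb r s 1 0 0) + y * dD b (cb r s 0 1 0) + t * dD b (cb r s 0 0 1) := by
  unfold dD
  rw [dk_cb]
  unfold cb
  ring

theorem dN_cb (b : J) (r s x y t : ℝ) : dN b (cb r s x y t) =
    x * dN b (cb r s 1 0 0) + y * dN b (cb r s 0 1 0) + t * dN b (cb r s 0 0 1) := by
  unfold dN
  rw [dk_cb, dD_cb]
  unfold cb
  ring

theorem dA_cb (b : J) (r s x y t : ℝ) : dA b (cb r s x y t) =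
    x * dA b (cb r s 1 0 0) + y * dA b (cb r s 0 1 0) + t * dA b (cb r s 0 0 1) := by
  unfold dA
  rw [dN_cb, dD_cb, dT_cb]
  ring

theorem dM_cb (b : J) (r s x y t : ℝ) : dM b (cb r s x y t) =
    x * dM b (cb r s 1 0 0) + y * dM b (cb r s 0 1 0) + t * dM b (cb r s 0 0 1) := by
  unfold dM
  rw [dA_cb, dT_cb]
  ring

theorem dS_cb (b : J) (r s x y t : ℝ) : dS b (cb r s x y t) =
    x * dS b (cb r s 1 0 0) + y * dS b (cb r s 0 1 0) + t * dS b (cb r s 0 0 1) := by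
  unfold dS
  rw [dD_cb]
  simp only [cb]
  ring

theorem dP_cb (b : J) (r s x y t : ℝ) : dP b (cb r s x y t) =
    x * dP b (cb r s 1 0 0) + y * dP b (cb r s 0 1 0) + t * dP b (cb r s 0 0 1) := by
  unfold dP
  rw [dD_cb]
  simp only [cb]
  ring

theorem dK_cb (b : J) (r s x y t : ℝ) : dK b (cb r s x y t) =
    x * dK b (cb r s 1 0 0) + y * dK b (cb r s 0 1 0) + t * dK b (cb r s 0 0 1) := by
  unfold dK
  rw [dD_cb, dY_cb, dS_cb, dP_cb, dT_cb]
  ring

theorem dG_cb (b : J) (r s x y t : ℝ) : dG b (cb r s x y t) =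
    x * dG b (cb r s 1 0 0) + y * dG b (cb r s 0 1 0) + t * dG b (cb r s 0 0 1) := by
  unfold dG
  rw [dA_cb, dT_cb]
  ring

theorem dT0_cb (b : J) (r s x y t : ℝ) : dT0 b (cb r s x y t) =
    x * dT0 b (cb r s 1 0 0) + y * dT0 b (cb r s 0 1 0) + t * dT0 b (cb r s 0 0 1) := by
  unfold dT0
  rw [dK_cb, dP_cb, dG_cb, dD_cb]
  simp only [cb]
  ring

theorem dNet_cb (b : J) (r s x y t : ℝ) : dNet b (cb r s x y t) =
    x * dNet b (cb r s 1 0 0) + y * dNet b (cb r s 0 1 0) + t * dNet b (cb r s 0 0 1) := by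
  unfold dNet
  rw [dD_cb, dS_cb, dT0_cb]
  ring

end

end K5L
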