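import Mathlib

/-!
# K5L.Fold1 : the analytic curve of solutions through a point with one dimensional kernel

`curve`: if `F` is analytic at `P0`, `F P0 = 0`, the derivative is onto with kernel spanned by `v`
and `l v = 1`, then the zero set of `F` near `P0` is an analytic curve `s ↦ p s`, parametrised by
`s = l (P - P0)`, with `p 0 = P0`, `p' 0 = v`.
`curve_conj`: compatibility with an involution (complex conjugation), so `p` is real at real `s`.
-/

namespace K5L

open Filter Topology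

section Curve

variable {𝕜 : Type*} [NontriviallyNormedField 𝕜] [CompleteSpace 𝕜]
  {E G : Type*} [NormedAddCommGroup E] [NormedSpace 𝕜 E] [CompleteSpace E]
  [NormedAddCommGroup G] [NormedSpace 𝕜 G] [CompleteSpace G]

/-- The zero set near a point with surjective derivative and one dimensional kernel. -/
theorem curve {F : E → G} {P0 v : E} {l : E →L[𝕜] 𝕜} (hF : AnalyticAt 𝕜 F P0) (h0 : F P0 = 0)
    (hsurj : Function.Surjective (fderiv 𝕜 F P0))
    (hker : ∀ w, fderiv 𝕜 F P0 w = 0 → ∃ c : 𝕜, w = c • v)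
    (hv : fderiv 𝕜 F P0 v = 0) (hl : l v = 1) :
    ∃ p : 𝕜 → E, AnalyticAt 𝕜 p 0 ∧ p 0 = P0 ∧ HasDerivAt p v 0 ∧
      (∀ᶠ s in 𝓝 (0 : 𝕜), F (p s) = 0 ∧ l (p s - P0) = s) ∧
      (∀ᶠ P in 𝓝 P0, F P = 0 → p (l (P - P0)) = P) := by
  set F' := fderiv 𝕜 F P0 with hF'
  -- the map `P ↦ (F P, l (P - P0))`
  let Ψ : E → G × 𝕜 := fun P => (F P, l (P - P0))
  let Ψ' : E →L[𝕜] G × 𝕜 := F'.prod l
  have hinj : Function.Injective Ψ' := by
    rw [injective_iff_map_eq_zero]
    intro w hw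
    have h1 : F' w = 0 := congrArg Prod.fst hw
    have h2 : l w = 0 := congrArg Prod.snd hw
    obtain ⟨c, rfl⟩ := hker w h1
    rw [map_smul, hl, smul_eq_mul, mul_one] at h2
    rw [h2, zero_smul]
  have hsur : Function.Surjective Ψ' := by
    rintro ⟨g, c⟩
    obtain ⟨w, hw⟩ := hsurj g
    refine ⟨w + (c - l w) • v, ?_⟩
    have h1 : F' (w + (c - l w) • v) = g := by
      rw [map_add, map_smul, hv, smul_zero, add_zero, hw]
    have h2 : l (w + (c - l w) • v) = c := by
      rw [map_add, map_smul, hl, smul_eq_mul, mul_one, add_sub_cancel]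
    exact Prod.ext h1 h2
  let i : E ≃L[𝕜] G × 𝕜 := ContinuousLinearEquiv.ofBijective Ψ'
    (LinearMap.ker_eq_bot.mpr hinj) (LinearMap.range_eq_top.mpr hsur)
  have hi : (i : E →L[𝕜] G × 𝕜) = Ψ' := by
    ext w <;> rfl
  have hΨan : AnalyticAt 𝕜 Ψ P0 := by
    refine AnalyticAt.prod hF ?_
    exact (l.analyticAt _).comp (analyticAt_id.sub analyticAt_const)
  have hstrict : HasStrictFDerivAt Ψ Ψ' P0 := by
    have h1 : HasStrictFDerivAt F F' P0 := hF.hasStrictFDerivAt
    have h2 : HasStrictFDerivAt (fun P : E => l (P - P0)) l P0 := by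
      have h3 : HasStrictFDerivAt (fun P : E => l P - l P0) l P0 :=
        (l.hasStrictFDerivAt (x := P0)).sub_const (l P0)
      refine h3.congr_of_eventuallyEq (Filter.Eventually.of_forall fun P => ?_)
      simp
    exact h1.prodMk h2
  have hstr : HasStrictFDerivAt Ψ (i : E →L[𝕜] G × 𝕜) P0 := by rw [hi]; exact hstrict
  let R : OpenPartialHomeomorph E (G × 𝕜) := hstr.toOpenPartialHomeomorph Ψ
  have hRcoe : (R : E → G × 𝕜) = Ψ := hstr.toOpenPartialHomeomorph_coe
  have hmem : P0 ∈ R.source := hstr.mem_toOpenPartialHomeomorph_source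
  have hΨ0 : Ψ P0 = (0, 0) := by simp [Ψ, h0]
  have hRan : AnalyticAt 𝕜 R.symm (R P0) := by
    refine R.analyticAt_symm' (i := i) hmem (by rw [hRcoe]; exact hΨan) ?_
    rw [hRcoe]
    exact hstr.hasFDerivAt.fderiv
  have hR0 : R P0 = (0, 0) := by rw [hRcoe]; exact hΨ0
  rw [hR0] at hRan
  let p : 𝕜 → E := fun s => R.symm (0, s)
  have hlin : AnalyticAt 𝕜 (fun s : 𝕜 => ((0 : G), s)) 0 := analyticAt_const.prod analyticAt_id
  have hpan : AnalyticAt 𝕜 p 0 := AnalyticAt.comp (g := R.symm) (f := fun s : 𝕜 => ((0 : G), s))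
    hRan hlin
  have hp0 : p 0 = P0 := by
    change R.symm (0, 0) = P0
    rw [← hR0]
    exact R.left_inv hmem
  have htgt : ((0 : G), (0 : 𝕜)) ∈ R.target := by rw [← hR0]; exact R.map_source hmem
  have hev : ∀ᶠ s in 𝓝 (0 : 𝕜), F (p s) = 0 ∧ l (p s - P0) = s := by
    have h1 : ∀ᶠ s in 𝓝 (0 : 𝕜), ((0 : G), s) ∈ R.target := by
      have hc : ContinuousAt (fun s : 𝕜 => ((0 : G), s)) 0 := hlin.continuousAt
      exact hc.preimage_mem_nhds (R.open_target.mem_nhds htgt)
    filter_upwards [h1] with s hs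
    have h2 : Ψ (p s) = (0, s) := by
      rw [← hRcoe]
      exact R.right_inv hs
    exact ⟨congrArg Prod.fst h2, congrArg Prod.snd h2⟩
  refine ⟨p, hpan, hp0, ?_, hev, ?_⟩
  · -- the derivative
    have hd : DifferentiableAt 𝕜 p 0 := hpan.differentiableAt
    have hp' : HasDerivAt p (deriv p 0) 0 := hd.hasDerivAt
    have hF1 : HasFDerivAt F F' (p 0) := by rw [hp0]; exact hF.hasStrictFDerivAt.hasFDerivAt
    have h1 : HasDerivAt (fun s => F (p s)) (F' (deriv p 0)) 0 := hF1.comp_hasDerivAt 0 hp'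
    have h1' : HasDerivAt (fun s => F (p s)) 0 0 := by
      have : (fun s => F (p s)) =ᶠ[𝓝 0] fun _ => (0 : G) := hev.mono fun s hs => hs.1
      exact (hasDerivAt_const (0 : 𝕜) (0 : G)).congr_of_eventuallyEq this
    have h2 : F' (deriv p 0) = 0 := h1.unique h1'
    obtain ⟨c, hc⟩ := hker _ h2
    have h3 : HasDerivAt (fun s => l (p s - P0)) (l (deriv p 0)) 0 :=
      l.hasFDerivAt.comp_hasDerivAt 0 (hp'.sub_const P0)
    have h3' : HasDerivAt (fun s : 𝕜 => l (p s - P0)) 1 0 := by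
      have : (fun s => l (p s - P0)) =ᶠ[𝓝 0] fun s => s := hev.mono fun s hs => hs.2
      exact (hasDerivAt_id (0 : 𝕜)).congr_of_eventuallyEq this
    have h4 : l (deriv p 0) = 1 := h3.unique h3'
    rw [hc, map_smul, hl, smul_eq_mul, mul_one] at h4
    rw [h4, one_smul] at hc
    rw [← hc]
    exact hp'
  · have h1 : ∀ᶠ P in 𝓝 P0, P ∈ R.source := R.open_source.mem_nhds hmem
    filter_upwards [h1] with P hP hFP
    change R.symm (0, l (P - P0)) = P
    have h2 : R P = (0, l (P - P0)) := by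
      rw [hRcoe]
      exact Prod.ext hFP rfl
    rw [← h2]
    exact R.left_inv hP

end Curve

/-- Compatibility of the curve with an involution `σ` (for instance complex conjugation). -/
theorem curve_conj {E : Type*} [NormedAddCommGroup E] [NormedSpace ℂ E]
    {Z : E → Prop} {P0 : E} {l : E →L[ℂ] ℂ} {σ : E → E} {p : ℂ → E}
    (hσ : Continuous σ) (hσ0 : σ P0 = P0)
    (hZ : ∀ P, Z P → Z (σ P)) (hlσ : ∀ P, l (σ P - P0) = (starRingEnd ℂ) (l (P - P0)))
    (hp : ContinuousAt p 0) (hp0 : p 0 = P0)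
    (hev : ∀ᶠ s in 𝓝 (0 : ℂ), Z (p s) ∧ l (p s - P0) = s)
    (huniq : ∀ᶠ P in 𝓝 P0, Z P → p (l (P - P0)) = P) :
    ∀ᶠ s in 𝓝 (0 : ℂ), σ (p s) = p ((starRingEnd ℂ) s) := by
  have h1 : ContinuousAt (fun s => σ (p s)) 0 := hσ.continuousAt.comp hp
  have h2 : Tendsto (fun s => σ (p s)) (𝓝 0) (𝓝 P0) := by
    have := h1.tendsto
    simpa [hp0, hσ0] using this
  filter_upwards [h2.eventually huniq, hev] with s hs1 hs2
  have := hs1 (hZ _ hs2.1)
  rw [hlσ, hs2.2] at this
  exact this.symm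

/-- Componentwise complex conjugation. -/
noncomputable def conjV {ι : Type*} (P : ι → ℂ) : ι → ℂ := fun i => (starRingEnd ℂ) (P i)

theorem continuous_conjV {ι : Type*} : Continuous (conjV : (ι → ℂ) → ι → ℂ) :=
  continuous_pi fun i => Complex.continuous_conj.comp (continuous_apply i)

theorem conjV_eq_self_iff {ι : Type*} (P : ι → ℂ) :
    conjV P = P ↔ ∃ Q : ι → ℝ, P = fun i => (Q i : ℂ) := by
  constructor
  · intro h
    refine ⟨fun i => (P i).re, ?_⟩
    funext i
    exact (Complex.conj_eq_iff_re.mp (congrFun h i)).symm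
  · rintro ⟨Q, rfl⟩
    funext i
    exact Complex.conj_ofReal _

end K5L
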