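import Mathlib
import Pool.Agent.Lib.K5L.Fold1
import Pool.Agent.Lib.K5L.Fold2

/-!
# K5L.Fold3 : branches that tend to the fold point

`second_along`: second derivative of `X` along the curve by the Lagrange function `L = X - λ F`,
evaluated on the straight line `P0 + τ v`.
`branch`: a continuous branch `P y`, `y → R-`, of solutions of `Z`, `X (P y) = y`, which tends to
`P0`, is `p (σ (ε √(1 - y / R)))` with a constant sign `ε`, so every analytic function of `P y` is
an analytic function of `√(1 - y / R)`.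
-/

namespace K5L

open Filter Topology

section Second

variable {E : Type*} [NormedAddCommGroup E] [NormedSpace ℂ E] [CompleteSpace E]

/-- First derivative along a curve. -/
theorem deriv_along {X : E → ℂ} {P0 : E} {p : ℂ → E} (hX : AnalyticAt ℂ X P0)
    (hp : AnalyticAt ℂ p 0) (hp0 : p 0 = P0) :
    deriv (fun s => X (p s)) =ᶠ[𝓝 0] fun s => fderiv ℂ X (p s) (deriv p s) := by
  have hpt : Tendsto p (𝓝 0) (𝓝 P0) := by
    have := hp.continuousAt.tendsto
    rwa [hp0] at this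
  filter_upwards [hpt.eventually hX.eventually_analyticAt, hp.eventually_analyticAt] with s h1 h2
  exact (h1.differentiableAt.hasFDerivAt.comp_hasDerivAt s h2.differentiableAt.hasDerivAt).deriv

/-- Second derivative along a curve. -/
theorem deriv2_along {X : E → ℂ} {P0 : E} {p : ℂ → E} (hX : AnalyticAt ℂ X P0)
    (hp : AnalyticAt ℂ p 0) (hp0 : p 0 = P0) :
    deriv (deriv (fun s => X (p s))) 0 =
      fderiv ℂ (fderiv ℂ X) P0 (deriv p 0) (deriv p 0) + fderiv ℂ X P0 (deriv (deriv p) 0) := by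
  have h1 := deriv_along hX hp hp0
  rw [Filter.EventuallyEq.deriv_eq h1]
  have hX' : AnalyticAt ℂ (fderiv ℂ X) P0 := hX.fderiv
  have h2 : HasDerivAt (fun s => fderiv ℂ X (p s))
      (fderiv ℂ (fderiv ℂ X) P0 (deriv p 0)) 0 := by
    have h3 : HasFDerivAt (fderiv ℂ X) (fderiv ℂ (fderiv ℂ X) P0) (p 0) := by
      rw [hp0]
      exact hX'.differentiableAt.hasFDerivAt
    exact h3.comp_hasDerivAt 0 hp.differentiableAt.hasDerivAt
  have h4 : HasDerivAt (fun s => deriv p s) (deriv (deriv p) 0) 0 :=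
    hp.deriv.differentiableAt.hasDerivAt
  have h5 := h2.clm_apply h4
  rw [h5.deriv, hp0]

/-- If the derivative of `L` vanishes at `P0`, the second derivative along a curve only depends on
the tangent vector; it can be computed on the straight line. -/
theorem second_line {L : E → ℂ} {P0 v : E} {p : ℂ → E} (hL : AnalyticAt ℂ L P0)
    (hL0 : fderiv ℂ L P0 = 0) (hp : AnalyticAt ℂ p 0) (hp0 : p 0 = P0) (hpv : HasDerivAt p v 0) :
    deriv (deriv (fun s => L (p s))) 0 = deriv (deriv (fun τ : ℂ => L (P0 + τ • v))) 0 := by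
  have hlin : AnalyticAt ℂ (fun τ : ℂ => P0 + τ • v) 0 :=
    analyticAt_const.add (analyticAt_id.smul analyticAt_const)
  have hlin1 : deriv (fun τ : ℂ => P0 + τ • v) 0 = v := by
    have : HasDerivAt (fun τ : ℂ => P0 + τ • v) ((1 : ℂ) • v) 0 :=
      ((hasDerivAt_id (0 : ℂ)).smul_const v).const_add P0
    rw [this.deriv, one_smul]
  rw [deriv2_along hL hp hp0, deriv2_along hL hlin (by simp), hpv.deriv, hlin1, hL0]
  simp

/-- Lagrange: `F (p s) = 0` along the curve, so `X ∘ p` has the second derivative of the Lagrange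
function `X - λ ∘ F` on the straight line, when this function is stationary at `P0`. -/
theorem second_along {G : Type*} [NormedAddCommGroup G] [NormedSpace ℂ G] [CompleteSpace G]
    {F : E → G} {X : E → ℂ} {P0 v : E} {p : ℂ → E} (lam : G →L[ℂ] ℂ) (hF : AnalyticAt ℂ F P0)
    (hX : AnalyticAt ℂ X P0) (hlam : ∀ w, fderiv ℂ X P0 w = lam (fderiv ℂ F P0 w))
    (hp : AnalyticAt ℂ p 0) (hp0 : p 0 = P0) (hpv : HasDerivAt p v 0)
    (hFp : ∀ᶠ s in 𝓝 (0 : ℂ), F (p s) = 0) :
    deriv (deriv (fun s => X (p s))) 0 =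
      deriv (deriv (fun τ : ℂ => X (P0 + τ • v) - lam (F (P0 + τ • v)))) 0 := by
  have hL : AnalyticAt ℂ (fun P => X P - lam (F P)) P0 :=
    hX.sub ((lam.analyticAt _).comp hF)
  have hL0 : fderiv ℂ (fun P => X P - lam (F P)) P0 = 0 := by
    have h1 : HasFDerivAt (fun P => X P - lam (F P))
        (fderiv ℂ X P0 - lam.comp (fderiv ℂ F P0)) P0 :=
      hX.differentiableAt.hasFDerivAt.sub
        (lam.hasFDerivAt.comp P0 hF.differentiableAt.hasFDerivAt)
    rw [h1.fderiv]
    ext w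
    simp [hlam w]
  rw [← second_line hL hL0 hp hp0 hpv]
  have h2 : (fun s => X (p s)) =ᶠ[𝓝 0] fun s => X (p s) - lam (F (p s)) := by
    filter_upwards [hFp] with s hs
    rw [hs, map_zero, sub_zero]
  exact Filter.EventuallyEq.deriv_eq (Filter.EventuallyEq.deriv h2)

end Second

/-- A continuous branch which tends to the fold point. -/
theorem branch {E : Type*} [NormedAddCommGroup E] [NormedSpace ℂ E]
    {Z : E → Prop} {X : E → ℂ} {P0 : E} {l : E →L[ℂ] ℂ} {p : ℂ → E} {R c : ℝ} {P : ℝ → E}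
    (hR : 0 < R) (hc : 0 < c) (hp : AnalyticAt ℂ p 0)
    (huniq : ∀ᶠ Q in 𝓝 P0, Z Q → p (l (Q - P0)) = Q)
    (hx : AnalyticAt ℂ (fun s => X (p s)) 0) (hx0 : X (p 0) = R)
    (hx1 : deriv (fun s => X (p s)) 0 = 0)
    (hx2 : deriv (deriv (fun s => X (p s))) 0 = -(2 * R * c))
    (hxc : ∀ᶠ s in 𝓝 (0 : ℂ), X (p ((starRingEnd ℂ) s)) = (starRingEnd ℂ) (X (p s)))
    (hP : Tendsto P (𝓝[<] R) (𝓝 P0))
    (hPZ : ∀ᶠ y in 𝓝[<] R, Z (P y) ∧ X (P y) = (y : ℝ))
    (hPc : ∀ᶠ y in 𝓝[<] R, ContinuousAt P y) :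
    ∃ q : ℂ → E, AnalyticAt ℂ q 0 ∧ q 0 = p 0 ∧
      (∀ᶠ w in 𝓝 (0 : ℂ), X (q w) = R * (1 - w ^ 2)) ∧
      (∀ᶠ y in 𝓝[<] R, P y = q ((√(1 - y / R) : ℝ) : ℂ)) ∧
      (∃ ε : ℂ, (ε = 1 ∨ ε = -1) ∧ deriv q 0 = (ε * ((√c : ℝ) : ℂ)⁻¹) • deriv p 0) := by
  have hRC : (R : ℂ) ≠ 0 := by exact_mod_cast hR.ne'
  have hcC : (c : ℂ) ≠ 0 := by exact_mod_cast hc.ne'
  obtain ⟨kx, hkx, hkxe, hkx0, -⟩ := sq_factor hx hx1
  let k : ℂ → ℂ := fun s => -(kx s / R)
  have hk : AnalyticAt ℂ k 0 := (hkx.div_const).neg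
  have hk0 : k 0 = c := by
    simp only [k, hkx0, hx2]
    field_simp
  have hkxc := factor_conj (f := fun s => X (p s)) hkx hkxe hxc
  have hkc : ∀ᶠ s in 𝓝 (0 : ℂ), k ((starRingEnd ℂ) s) = (starRingEnd ℂ) (k s) := by
    filter_upwards [hkxc] with s hs
    simp only [k, map_neg, map_div₀, hs, Complex.conj_ofReal]
  obtain ⟨v, σ, hvan, hσan, hv0, hσ0, -, hσ1, hv2, hsv, hvs, -⟩ := invert hk hc hk0 hkc
  have hσt : Tendsto σ (𝓝 0) (𝓝 0) := by
    have := hσan.continuousAt.tendsto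
    rwa [hσ0] at this
  -- `v s ^ 2 = 1 - X (p s) / R`
  have hv3 : ∀ᶠ s in 𝓝 (0 : ℂ), v s ^ 2 = 1 - X (p s) / R := by
    filter_upwards [hv2, hkxe] with s h1 h2
    rw [h1, h2, hx0]
    simp only [k]
    field_simp
    ring
  have hxσ : ∀ᶠ w in 𝓝 (0 : ℂ), X (p (σ w)) = R * (1 - w ^ 2) := by
    filter_upwards [hσt.eventually hv3, hvs] with w h1 h2
    rw [h2] at h1
    rw [h1]
    field_simp
    ring
  -- the parameter of the branch
  let tt : ℝ → ℂ := fun y => l (P y - P0)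
  have htt : Tendsto tt (𝓝[<] R) (𝓝 0) := by
    have h1 : Tendsto (fun y => P y - P0) (𝓝[<] R) (𝓝 (P0 - P0)) := hP.sub_const P0
    rw [sub_self] at h1
    have h2 := (l.continuous.tendsto 0).comp h1
    rwa [map_zero] at h2
  have hPp : ∀ᶠ y in 𝓝[<] R, P y = p (tt y) := by
    filter_upwards [hP.eventually huniq, hPZ] with y h1 h2
    exact (h1 h2.1).symm
  let V : ℝ → ℂ := fun y => v (tt y)
  have hV2 : ∀ᶠ y in 𝓝[<] R, V y ^ 2 = ((1 - y / R : ℝ) : ℂ) := by
    filter_upwards [htt.eventually hv3, hPp, hPZ] with y h1 h2 h3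
    simp only [V]
    rw [h1, ← h2, h3.2]
    push_cast
    ring
  have hσV : ∀ᶠ y in 𝓝[<] R, σ (V y) = tt y := htt.eventually hsv
  -- continuity of `V` near `R`
  have hvc : ∀ᶠ s in 𝓝 (0 : ℂ), ContinuousAt v s :=
    hvan.eventually_analyticAt.mono fun s hs => hs.continuousAt
  have hVc : ∀ᶠ y in 𝓝[<] R, ContinuousAt V y := by
    filter_upwards [htt.eventually hvc, hPc] with y h1 h2
    have h3 : ContinuousAt tt y := l.continuous.continuousAt.comp (h2.sub continuousAt_const)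
    exact ContinuousAt.comp h1 h3
  -- an interval on which everything holds
  have hall : ∀ᶠ y in 𝓝[<] R, V y ^ 2 = ((1 - y / R : ℝ) : ℂ) ∧ ContinuousAt V y :=
    hV2.and hVc
  obtain ⟨a, haR, ha⟩ := (mem_nhdsLT_iff_exists_Ioo_subset' (show (R - 1) < R by linarith)).mp hall
  have haR' : a < R := haR
  have hIoo : ∀ y ∈ Set.Ioo a R, V y ^ 2 = ((1 - y / R : ℝ) : ℂ) ∧ ContinuousAt V y :=
    fun y hy => ha hy
  -- `g y = V y / √(1 - y / R)` is continuous with values `± 1`
  let g : ℝ → ℂ := fun y => V y / ((√(1 - y / R) : ℝ) : ℂ)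
  have hpos : ∀ y ∈ Set.Ioo a R, 0 < 1 - y / R := by
    intro y hy
    have : y / R < 1 := (div_lt_one hR).mpr hy.2
    linarith
  have hg2 : ∀ y ∈ Set.Ioo a R, g y ^ 2 = 1 := by
    intro y hy
    have h1 := hpos y hy
    simp only [g, div_pow]
    rw [(hIoo y hy).1, ← Complex.ofReal_pow, Real.sq_sqrt h1.le]
    exact div_self (by exact_mod_cast h1.ne')
  have hgc : ContinuousOn g (Set.Ioo a R) := by
    intro y hy
    have h1 := hpos y hy
    have h2 : ContinuousAt (fun y : ℝ => ((√(1 - y / R) : ℝ) : ℂ)) y :=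
      Complex.continuous_ofReal.continuousAt.comp
        ((continuous_const.sub (continuous_id.div_const R)).sqrt.continuousAt)
    refine ((hIoo y hy).2.div h2 ?_).continuousWithinAt
    exact_mod_cast (Real.sqrt_pos.mpr h1).ne'
  have hconst : ∃ ε : ℂ, (ε = 1 ∨ ε = -1) ∧ ∀ y ∈ Set.Ioo a R, g y = ε := by
    -- the real part takes the values `± 1` and is continuous on an interval
    have hval : ∀ y ∈ Set.Ioo a R, g y = 1 ∨ g y = -1 := fun y hy => by
      have h := hg2 y hy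
      have h' : (g y - 1) * (g y + 1) = 0 := by linear_combination h
      rcases mul_eq_zero.mp h' with h1 | h1
      · exact Or.inl (sub_eq_zero.mp h1)
      · exact Or.inr (eq_neg_of_add_eq_zero_left h1)
    have hre : ContinuousOn (fun y => (g y).re) (Set.Ioo a R) :=
      Complex.continuous_re.comp_continuousOn hgc
    have hmid : (a + R) / 2 ∈ Set.Ioo a R := ⟨by linarith, by linarith⟩
    refine ⟨g ((a + R) / 2), hval _ hmid, fun y hy => ?_⟩
    by_contra hne
    have hz : ∃ z ∈ Set.Ioo a R, (g z).re = 0 := by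
      have hconn : IsPreconnected (Set.Ioo a R) := isPreconnected_Ioo
      rcases hval _ hmid with h1 | h1 <;> rcases hval y hy with h2 | h2
      · exact absurd (h2.trans h1.symm) hne
      · have := hconn.intermediate_value hy hmid hre
        have h3 : (0 : ℝ) ∈ Set.Icc ((g y).re) ((g ((a + R) / 2)).re) := by
          rw [h1, h2]; constructor <;> norm_num
        obtain ⟨z, hz, hz0⟩ := this h3
        exact ⟨z, hz, hz0⟩
      · have := hconn.intermediate_value hmid hy hre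
        have h3 : (0 : ℝ) ∈ Set.Icc ((g ((a + R) / 2)).re) ((g y).re) := by
          rw [h1, h2]; constructor <;> norm_num
        obtain ⟨z, hz, hz0⟩ := this h3
        exact ⟨z, hz, hz0⟩
      · exact absurd (h2.trans h1.symm) hne
    obtain ⟨z, hz, hz0⟩ := hz
    rcases hval z hz with h | h <;> rw [h] at hz0 <;> norm_num at hz0
  obtain ⟨ε, hε, hgε⟩ := hconst
  -- the curve in the coordinate `w`
  have hεt : Tendsto (fun w : ℂ => ε * w) (𝓝 0) (𝓝 0) := by
    have : Tendsto (fun w : ℂ => ε * w) (𝓝 0) (𝓝 (ε * 0)) :=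
      (continuous_const.mul continuous_id).tendsto 0
    rwa [mul_zero] at this
  have hσε : AnalyticAt ℂ (fun w => σ (ε * w)) 0 := by
    have h1 : AnalyticAt ℂ (fun w : ℂ => ε * w) 0 := analyticAt_const.mul analyticAt_id
    have h2 : AnalyticAt ℂ σ (ε * 0) := by rw [mul_zero]; exact hσan
    exact AnalyticAt.comp (g := σ) (f := fun w : ℂ => ε * w) h2 h1
  refine ⟨fun w => p (σ (ε * w)), ?_, by simp [hσ0], ?_, ?_, ε, hε, ?_⟩
  · have h2 : AnalyticAt ℂ p ((fun w => σ (ε * w)) 0) := by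
      simp only [mul_zero, hσ0]
      exact hp
    exact AnalyticAt.comp (g := p) (f := fun w => σ (ε * w)) h2 hσε
  · filter_upwards [hεt.eventually hxσ] with w hw
    rw [hw]
    have : ε ^ 2 = 1 := by rcases hε with h | h <;> rw [h] <;> norm_num
    rw [mul_pow, this, one_mul]
  · have hmem : ∀ᶠ y in 𝓝[<] R, y ∈ Set.Ioo a R := Ioo_mem_nhdsLT haR'
    filter_upwards [hPp, hσV, hmem] with y h1 h2 h3
    have h4 := hgε y h3
    have h5 := hpos y h3
    have h6 : V y = ε * ((√(1 - y / R) : ℝ) : ℂ) := by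
      rw [← h4]
      simp only [g]
      rw [div_mul_cancel₀]
      exact_mod_cast (Real.sqrt_pos.mpr h5).ne'
    rw [← h6, h2]
    exact h1
  · have h1 : HasDerivAt (fun w : ℂ => ε * w) ε 0 := by
      simpa using (hasDerivAt_id (0 : ℂ)).const_mul ε
    have h2 : HasDerivAt σ (deriv σ 0) (ε * 0) := by
      rw [mul_zero]; exact hσan.differentiableAt.hasDerivAt
    have h3 : HasDerivAt (fun w => σ (ε * w)) (deriv σ 0 * ε) 0 :=
      HasDerivAt.comp (h₂ := σ) (h := fun w : ℂ => ε * w) 0 h2 h1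
    have h4 : HasDerivAt p (deriv p 0) (σ (ε * 0)) := by
      rw [mul_zero, hσ0]; exact hp.differentiableAt.hasDerivAt
    have h5 : HasDerivAt (fun w => p (σ (ε * w))) ((deriv σ 0 * ε) • deriv p 0) 0 :=
      HasDerivAt.scomp (g₁ := p) (h := fun w => σ (ε * w)) 0 h4 h3
    rw [h5.deriv, hσ1, mul_comm]

end K5L
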