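import Pool.Agent.Lib.K5C.Defs

/-!
# K5L.Jet: the functions of the critical point as functions of `(x, y, t, w1, w2, w3)`

`J` is a point or a tangent vector; `fD`, `fA`, `fM`, `fNet` are `pD`, `pA`, `pM`, `pNet 1` as functions
of a point, `dD`, `dA`, `dM`, `dNet` their differentials.
-/

set_option autoImplicit false

namespace K5L

noncomputable section

/-- A point or a tangent vector. -/
structure J where
  x : ℝ
  y : ℝ
  t : ℝ
  u : ℝ
  v : ℝ
  w : ℝ

/-! ### The functions -/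

def fk (b : J) : ℝ := b.u / b.x
def fT (b : J) : ℝ := b.t * fk b ^ 3
def fY (b : J) : ℝ := b.y * fk b ^ 2 + 2 * fT b
def fD (b : J) : ℝ := (b.v / fk b ^ 2 - b.x) / b.x ^ 2 - 1
def fN (b : J) : ℝ := (b.w / fk b ^ 3 - 3 * b.x ^ 2 * (1 + fD b) - b.x) / b.x ^ 3
def fA (b : J) : ℝ := fN b / (1 + fD b) ^ 3 - 1 - fT b
def fS (b : J) : ℝ := b.x * fD b ^ 2 / (1 + b.x * fD b)
def fK (b : J) : ℝ := (fD b / (1 + fD b) - fY b - fS b -
  b.x * (1 + fD b) ^ 2 * (2 * fT b + fT b ^ 2)) / 2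
def fM (b : J) : ℝ := Real.exp (fA b) - 1 - fA b - fT b
def fG (b : J) : ℝ := Real.exp (fA b) - 1 - fA b - fA b ^ 2 / 2 - fA b * fT b
def fT0 (b : J) : ℝ := fK b + b.x * (1 + fD b) ^ 2 * fG b + 3 / 2 * b.x ^ 6 * fD b ^ 11
  - b.x ^ 4 * fD b ^ 8 / 4
def fNet (b : J) : ℝ := Real.log ((1 + fD b) / (1 + 1)) - fS b - fT0 b

/-- The point of the parameters `(r, s, y, t)`. -/
def jet (r s y t : ℝ) : J :=
  ⟨K5N.px r s y t, y, t, K5N.pw1 r s y t, K5N.pw2 r s y t, K5N.pw3 r s y t⟩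

theorem fk_jet (r s y t : ℝ) : fk (jet r s y t) = K5N.pkap r s y t := rfl
theorem fT_jet (r s y t : ℝ) : fT (jet r s y t) = K5N.pT r s y t := rfl
theorem fY_jet (r s y t : ℝ) : fY (jet r s y t) = K5N.pY r s y t := rfl
theorem fD_jet (r s y t : ℝ) : fD (jet r s y t) = K5N.pD r s y t := rfl
theorem fN_jet (r s y t : ℝ) : fN (jet r s y t) = K5N.pN r s y t := rfl
theorem fA_jet (r s y t : ℝ) : fA (jet r s y t) = K5N.pA r s y t := rfl
theorem fK_jet (r s y t : ℝ) : fK (jet r s y t) = K5N.pK r s y t := rfl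
theorem fM_jet (r s y t : ℝ) : fM (jet r s y t) = K5C.pM r s y t := rfl
theorem fT0_jet (r s y t : ℝ) : fT0 (jet r s y t) = K5C.pT0 r s y t := rfl
theorem fNet_jet (r s y t : ℝ) : fNet (jet r s y t) = K5C.pNet 1 r s y t := rfl

/-! ### The differentials -/

def dk (b d : J) : ℝ := (d.u - fk b * d.x) / b.x
def dT (b d : J) : ℝ := d.t * fk b ^ 3 + 3 * b.t * fk b ^ 2 * dk b d
def dY (b d : J) : ℝ := d.y * fk b ^ 2 + 2 * b.y * fk b * dk b d + 2 * dT b d
def dD (b d : J) : ℝ := (d.v / fk b ^ 2 - 2 * b.v / fk b ^ 3 * dk b d - d.x) / b.x ^ 2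
  - 2 * (fD b + 1) * d.x / b.x
def dN (b d : J) : ℝ := (d.w / fk b ^ 3 - 3 * b.w / fk b ^ 4 * dk b d - 3 * b.x ^ 2 * dD b d
  - 6 * b.x * (1 + fD b) * d.x - d.x) / b.x ^ 3 - 3 * fN b * d.x / b.x
def dA (b d : J) : ℝ := dN b d / (1 + fD b) ^ 3 - 3 * fN b * dD b d / (1 + fD b) ^ 4 - dT b d
def dS (b d : J) : ℝ := (d.x * fD b ^ 2 + 2 * b.x * fD b * dD b d) / (1 + b.x * fD b)
  - fS b * (d.x * fD b + b.x * dD b d) / (1 + b.x * fD b)
/-- the differential of `x (1 + D)^2` -/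
def dP (b d : J) : ℝ := d.x * (1 + fD b) ^ 2 + 2 * b.x * (1 + fD b) * dD b d
def dK (b d : J) : ℝ := (dD b d / (1 + fD b) ^ 2 - dY b d - dS b d
  - dP b d * (2 * fT b + fT b ^ 2) - b.x * (1 + fD b) ^ 2 * ((2 + 2 * fT b) * dT b d)) / 2
def dM (b d : J) : ℝ := (Real.exp (fA b) - 1) * dA b d - dT b d
def dG (b d : J) : ℝ := fM b * dA b d - fA b * dT b d
def dT0 (b d : J) : ℝ := dK b d + dP b d * fG b + b.x * (1 + fD b) ^ 2 * dG b d
  + (9 * b.x ^ 5 * fD b ^ 11 * d.x + 33 / 2 * b.x ^ 6 * fD b ^ 10 * dD b d)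
  - (b.x ^ 3 * fD b ^ 8 * d.x + 2 * b.x ^ 4 * fD b ^ 7 * dD b d)
def dNet (b d : J) : ℝ := dD b d / (1 + fD b) - dS b d - dT0 b d

/-- `β` has the derivative `d` at `q` (componentwise). -/
structure HasJ (β : ℝ → J) (d : J) (q : ℝ) : Prop where
  x : HasDerivAt (fun w => (β w).x) d.x q
  y : HasDerivAt (fun w => (β w).y) d.y q
  t : HasDerivAt (fun w => (β w).t) d.t q
  u : HasDerivAt (fun w => (β w).u) d.u q
  v : HasDerivAt (fun w => (β w).v) d.v q
  w : HasDerivAt (fun w => (β w).w) d.w q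

/-- The conditions for differentiability. -/
structure Reg (b : J) : Prop where
  x : 0 < b.x
  u : 0 < b.u
  D : 0 < fD b

theorem Reg.k {b : J} (h : Reg b) : 0 < fk b := div_pos h.u h.x

variable {β : ℝ → J} {d : J} {q : ℝ}

theorem HasJ.k (h : HasJ β d q) (hb : Reg (β q)) : HasDerivAt (fun w => fk (β w)) (dk (β q) d) q := by
  unfold fk dk
  have hx := hb.x.ne'
  refine (h.u.div h.x hx).congr_deriv ?_
  unfold fk
  field_simp

theorem HasJ.T (h : HasJ β d q) (hb : Reg (β q)) : HasDerivAt (fun w => fT (β w)) (dT (β q) d) q := by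
  unfold fT dT
  refine (h.t.mul ((h.k hb).pow 3)).congr_deriv ?_
  push_cast
  simp only [Pi.pow_apply]
  ring

theorem HasJ.Y (h : HasJ β d q) (hb : Reg (β q)) : HasDerivAt (fun w => fY (β w)) (dY (β q) d) q := by
  unfold fY dY
  refine ((h.y.mul ((h.k hb).pow 2)).add ((h.T hb).const_mul 2)).congr_deriv ?_
  push_cast
  simp only [Pi.pow_apply]
  ring

theorem HasJ.D (h : HasJ β d q) (hb : Reg (β q)) : HasDerivAt (fun w => fD (β w)) (dD (β q) d) q := by
  have hx := hb.x.ne'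
  have hk := hb.k.ne'
  have e : fD (β q) = ((β q).v / fk (β q) ^ 2 - (β q).x) / (β q).x ^ 2 - 1 := rfl
  unfold dD
  rw [e]
  unfold fD
  refine ((((h.v.div ((h.k hb).pow 2) (pow_ne_zero 2 hk)).sub h.x).div (h.x.pow 2)
    (pow_ne_zero 2 hx)).sub_const 1).congr_deriv ?_
  push_cast
  simp only [Pi.pow_apply, Pi.sub_apply, Pi.div_apply]
  field_simp
  ring

theorem HasJ.N (h : HasJ β d q) (hb : Reg (β q)) : HasDerivAt (fun w => fN (β w)) (dN (β q) d) q := by
  have hx := hb.x.ne'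
  have hk := hb.k.ne'
  have e : fN (β q) = ((β q).w / fk (β q) ^ 3 - 3 * (β q).x ^ 2 * (1 + fD (β q)) - (β q).x) /
      (β q).x ^ 3 := rfl
  unfold dN
  rw [e]
  unfold fN
  refine (((((h.w.div ((h.k hb).pow 3) (pow_ne_zero 3 hk))).sub
    (((h.x.pow 2).const_mul 3).mul ((h.D hb).const_add 1))).sub h.x).div (h.x.pow 3)
    (pow_ne_zero 3 hx)).congr_deriv ?_
  push_cast
  simp only [Pi.pow_apply, Pi.sub_apply, Pi.div_apply, Pi.mul_apply]
  field_simp
  ring

theorem HasJ.A (h : HasJ β d q) (hb : Reg (β q)) : HasDerivAt (fun w => fA (β w)) (dA (β q) d) q := by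
  have hD : 1 + fD (β q) ≠ 0 := by
    have := hb.D
    positivity
  unfold fA dA
  refine ((((h.N hb).div (((h.D hb).const_add 1).pow 3) (pow_ne_zero 3 hD)).sub_const 1).sub
    (h.T hb)).congr_deriv ?_
  push_cast
  simp only [Pi.pow_apply]
  field_simp

theorem HasJ.S (h : HasJ β d q) (hb : Reg (β q)) : HasDerivAt (fun w => fS (β w)) (dS (β q) d) q := by
  have hD := hb.D
  have hx := hb.x
  have h1 : 1 + (β q).x * fD (β q) ≠ 0 := by positivity
  unfold dS fS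
  refine ((h.x.mul ((h.D hb).pow 2)).div ((h.x.mul (h.D hb)).const_add 1) h1).congr_deriv ?_
  push_cast
  simp only [Pi.pow_apply, Pi.mul_apply]
  field_simp

theorem HasJ.P (h : HasJ β d q) (hb : Reg (β q)) :
    HasDerivAt (fun w => (β w).x * (1 + fD (β w)) ^ 2) (dP (β q) d) q := by
  unfold dP
  refine (h.x.mul (((h.D hb).const_add 1).pow 2)).congr_deriv ?_
  push_cast
  simp only [Pi.pow_apply]
  ring

theorem HasJ.K (h : HasJ β d q) (hb : Reg (β q)) : HasDerivAt (fun w => fK (β w)) (dK (β q) d) q := by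
  have hD : 1 + fD (β q) ≠ 0 := by
    have := hb.D
    positivity
  unfold fK dK
  refine ((((((h.D hb).div ((h.D hb).const_add 1) hD).sub (h.Y hb)).sub (h.S hb)).sub
    ((h.P hb).mul (((h.T hb).const_mul 2).add ((h.T hb).pow 2)))).div_const 2).congr_deriv ?_
  push_cast
  simp only [Pi.pow_apply, Pi.add_apply]
  field_simp
  ring

theorem HasJ.M (h : HasJ β d q) (hb : Reg (β q)) : HasDerivAt (fun w => fM (β w)) (dM (β q) d) q := by
  unfold fM dM
  refine ((((h.A hb).exp.sub_const 1).sub (h.A hb)).sub (h.T hb)).congr_deriv ?_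
  ring

theorem HasJ.G (h : HasJ β d q) (hb : Reg (β q)) : HasDerivAt (fun w => fG (β w)) (dG (β q) d) q := by
  unfold fG dG fM
  refine (((((h.A hb).exp.sub_const 1).sub (h.A hb)).sub (((h.A hb).pow 2).div_const 2)).sub
    ((h.A hb).mul (h.T hb))).congr_deriv ?_
  push_cast
  ring

theorem HasJ.T0 (h : HasJ β d q) (hb : Reg (β q)) :
    HasDerivAt (fun w => fT0 (β w)) (dT0 (β q) d) q := by
  unfold fT0 dT0
  refine ((((h.K hb).add ((h.P hb).mul (h.G hb))).add (((h.x.pow 6).const_mul (3 / 2)).mul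
    ((h.D hb).pow 11))).sub (((h.x.pow 4).mul ((h.D hb).pow 8)).div_const 4)).congr_deriv ?_
  push_cast
  simp only [Pi.pow_apply]
  ring

theorem HasJ.Net (h : HasJ β d q) (hb : Reg (β q)) :
    HasDerivAt (fun w => fNet (β w)) (dNet (β q) d) q := by
  have hD : 0 < 1 + fD (β q) := by
    have := hb.D
    positivity
  unfold fNet dNet
  refine (((((h.D hb).const_add 1).div_const (1 + 1)).log (by positivity)).sub (h.S hb)).sub
    (h.T0 hb) |>.congr_deriv ?_
  field_simp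

end

end K5L
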