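import Pool.Agent.Lib.K5L.Pc

/-!
# K5L.SmoothD: the differentials are analytic
-/

set_option autoImplicit false

namespace K5L

open scoped ContDiff

noncomputable section

variable {E : Type} [NormedAddCommGroup E] [NormedSpace ℝ E] {β δ : E → J} {p : E} {n : WithTop ℕ∞}

theorem smJ_cb {r s x y t : E → ℝ} (hr : ContDiffAt ℝ n r p) (hs : ContDiffAt ℝ n s p)
    (hx : ContDiffAt ℝ n x p) (hy : ContDiffAt ℝ n y p) (ht : ContDiffAt ℝ n t p) :
    SmJ n (fun e => cb (r e) (s e) (x e) (y e) (t e)) p := by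
  constructor <;> simp only [cb, a1, a2, a3, c1, c2, c3, e1, e2, e3] <;> fun_prop

namespace SmJ

variable (h : SmJ n β p) (hd : SmJ n δ p) (hb : Reg (β p))
include h hd hb

theorem dk : ContDiffAt ℝ n (fun e => dk (β e) (δ e)) p := by
  unfold K5L.dk
  exact (hd.u.sub ((h.k hb).mul hd.x)).div h.x hb.x.ne'

theorem dT : ContDiffAt ℝ n (fun e => dT (β e) (δ e)) p := by
  unfold K5L.dT
  exact (hd.t.mul ((h.k hb).pow 3)).add (((contDiffAt_const.mul h.t).mul ((h.k hb).pow 2)).mul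
    (dk h hd hb))

theorem dY : ContDiffAt ℝ n (fun e => dY (β e) (δ e)) p := by
  unfold K5L.dY
  exact ((hd.y.mul ((h.k hb).pow 2)).add (((contDiffAt_const.mul h.y).mul (h.k hb)).mul
    (dk h hd hb))).add (contDiffAt_const.mul (dT h hd hb))

theorem dD : ContDiffAt ℝ n (fun e => dD (β e) (δ e)) p := by
  unfold K5L.dD
  exact ((((hd.v.div ((h.k hb).pow 2) (pow_ne_zero 2 hb.k.ne')).sub
    (((contDiffAt_const.mul h.v).div ((h.k hb).pow 3) (pow_ne_zero 3 hb.k.ne')).mul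
      (dk h hd hb))).sub hd.x).div (h.x.pow 2) (pow_ne_zero 2 hb.x.ne')).sub
    (((contDiffAt_const.mul ((h.D hb).add contDiffAt_const)).mul hd.x).div h.x hb.x.ne')

theorem dN : ContDiffAt ℝ n (fun e => dN (β e) (δ e)) p := by
  unfold K5L.dN
  exact ((((((hd.w.div ((h.k hb).pow 3) (pow_ne_zero 3 hb.k.ne')).sub
    (((contDiffAt_const.mul h.w).div ((h.k hb).pow 4) (pow_ne_zero 4 hb.k.ne')).mul
      (dk h hd hb))).sub ((contDiffAt_const.mul (h.x.pow 2)).mul (dD h hd hb))).sub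
    (((contDiffAt_const.mul h.x).mul (contDiffAt_const.add (h.D hb))).mul hd.x)).sub hd.x).div
    (h.x.pow 3) (pow_ne_zero 3 hb.x.ne')).sub
    (((contDiffAt_const.mul (h.N hb)).mul hd.x).div h.x hb.x.ne')

theorem dA : ContDiffAt ℝ n (fun e => dA (β e) (δ e)) p := by
  have hD : 1 + fD (β p) ≠ 0 := by
    have := hb.D
    positivity
  unfold K5L.dA
  exact (((dN h hd hb).div ((contDiffAt_const.add (h.D hb)).pow 3) (pow_ne_zero 3 hD)).sub
    (((contDiffAt_const.mul (h.N hb)).mul (dD h hd hb)).div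
      ((contDiffAt_const.add (h.D hb)).pow 4) (pow_ne_zero 4 hD))).sub (dT h hd hb)

theorem dM : ContDiffAt ℝ n (fun e => dM (β e) (δ e)) p := by
  unfold K5L.dM
  exact (((h.A hb).exp.sub contDiffAt_const).mul (dA h hd hb)).sub (dT h hd hb)

theorem dS : ContDiffAt ℝ n (fun e => dS (β e) (δ e)) p := by
  have h1 : 1 + (β p).x * fD (β p) ≠ 0 := by
    have := hb.D
    have := hb.x
    positivity
  unfold K5L.dS
  exact (((hd.x.mul ((h.D hb).pow 2)).add (((contDiffAt_const.mul h.x).mul (h.D hb)).mul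
    (dD h hd hb))).div (contDiffAt_const.add (h.x.mul (h.D hb))) h1).sub
    (((h.S hb).mul ((hd.x.mul (h.D hb)).add (h.x.mul (dD h hd hb)))).div
      (contDiffAt_const.add (h.x.mul (h.D hb))) h1)

theorem dP : ContDiffAt ℝ n (fun e => dP (β e) (δ e)) p := by
  unfold K5L.dP
  exact (hd.x.mul ((contDiffAt_const.add (h.D hb)).pow 2)).add
    (((contDiffAt_const.mul h.x).mul (contDiffAt_const.add (h.D hb))).mul (dD h hd hb))

theorem dK : ContDiffAt ℝ n (fun e => dK (β e) (δ e)) p := by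
  have hD : 1 + fD (β p) ≠ 0 := by
    have := hb.D
    positivity
  unfold K5L.dK
  exact ((((((dD h hd hb).div ((contDiffAt_const.add (h.D hb)).pow 2) (pow_ne_zero 2 hD)).sub
    (dY h hd hb)).sub (dS h hd hb)).sub ((dP h hd hb).mul ((contDiffAt_const.mul (h.T hb)).add
      ((h.T hb).pow 2)))).sub ((h.x.mul ((contDiffAt_const.add (h.D hb)).pow 2)).mul
      ((contDiffAt_const.add (contDiffAt_const.mul (h.T hb))).mul (dT h hd hb)))).div_const 2

theorem dG : ContDiffAt ℝ n (fun e => dG (β e) (δ e)) p := by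
  unfold K5L.dG
  exact ((h.M hb).mul (dA h hd hb)).sub ((h.A hb).mul (dT h hd hb))

theorem dT0 : ContDiffAt ℝ n (fun e => dT0 (β e) (δ e)) p := by
  unfold K5L.dT0
  exact ((((dK h hd hb).add ((dP h hd hb).mul (h.G hb))).add
    ((h.x.mul ((contDiffAt_const.add (h.D hb)).pow 2)).mul (dG h hd hb))).add
    ((((contDiffAt_const.mul (h.x.pow 5)).mul ((h.D hb).pow 11)).mul hd.x).add
      (((contDiffAt_const.mul (h.x.pow 6)).mul ((h.D hb).pow 10)).mul (dD h hd hb)))).sub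
    ((((h.x.pow 3).mul ((h.D hb).pow 8)).mul hd.x).add
      (((contDiffAt_const.mul (h.x.pow 4)).mul ((h.D hb).pow 7)).mul (dD h hd hb)))

theorem dNet : ContDiffAt ℝ n (fun e => dNet (β e) (δ e)) p := by
  have hD : 1 + fD (β p) ≠ 0 := by
    have := hb.D
    positivity
  unfold K5L.dNet
  exact (((dD h hd hb).div (contDiffAt_const.add (h.D hb)) hD).sub (dS h hd hb)).sub
    (dT0 h hd hb)

end SmJ

/-! ### the gradients along a curve -/

variable {S Y T : ℝ → ℝ} {q : ℝ}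

theorem sm_jet (hS : ContDiffAt ℝ n S q) (hY : ContDiffAt ℝ n Y q) (hT : ContDiffAt ℝ n T q) :
    SmJ n (fun w => jet w (S w) (Y w) (T w)) q :=
  smJ_jet contDiffAt_id hS hY hT

theorem sm_cb (hS : ContDiffAt ℝ n S q) (x y t : ℝ) : SmJ n (fun w => cb w (S w) x y t) q :=
  smJ_cb contDiffAt_id hS contDiffAt_const contDiffAt_const contDiffAt_const

/-- `gX f`, `gY f`, `gT f` are smooth along the curve, for `f = dD, dA, dM, dNet`. -/
structure SmG (n : WithTop ℕ∞) (S Y T : ℝ → ℝ) (q : ℝ) (f : J → J → ℝ) : Prop where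
  x : ContDiffAt ℝ n (fun w => gX f w (S w) (Y w) (T w)) q
  y : ContDiffAt ℝ n (fun w => gY f w (S w) (Y w) (T w)) q
  t : ContDiffAt ℝ n (fun w => gT f w (S w) (Y w) (T w)) q

section
variable (hS : ContDiffAt ℝ n S q) (hY : ContDiffAt ℝ n Y q) (hT : ContDiffAt ℝ n T q)
  (hb : Reg (jet q (S q) (Y q) (T q)))
include hS hY hT hb

theorem smG_dD : SmG n S Y T q dD :=
  ⟨(sm_jet hS hY hT).dD (sm_cb hS 1 0 0) hb, (sm_jet hS hY hT).dD (sm_cb hS 0 1 0) hb,
    (sm_jet hS hY hT).dD (sm_cb hS 0 0 1) hb⟩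

theorem smG_dA : SmG n S Y T q dA :=
  ⟨(sm_jet hS hY hT).dA (sm_cb hS 1 0 0) hb, (sm_jet hS hY hT).dA (sm_cb hS 0 1 0) hb,
    (sm_jet hS hY hT).dA (sm_cb hS 0 0 1) hb⟩

theorem smG_dM : SmG n S Y T q dM :=
  ⟨(sm_jet hS hY hT).dM (sm_cb hS 1 0 0) hb, (sm_jet hS hY hT).dM (sm_cb hS 0 1 0) hb,
    (sm_jet hS hY hT).dM (sm_cb hS 0 0 1) hb⟩

theorem smG_dNet : SmG n S Y T q dNet :=
  ⟨(sm_jet hS hY hT).dNet (sm_cb hS 1 0 0) hb, (sm_jet hS hY hT).dNet (sm_cb hS 0 1 0) hb,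
    (sm_jet hS hY hT).dNet (sm_cb hS 0 0 1) hb⟩

theorem sm_Del : ContDiffAt ℝ n (fun w => Del w (S w) (Y w) (T w)) q := by
  have h1 := smG_dM hS hY hT hb
  have h2 := smG_dNet hS hY hT hb
  unfold Del
  exact (h1.y.mul h2.t).sub (h1.t.mul h2.y)

variable (hd : Del q (S q) (Y q) (T q) ≠ 0)
include hd

theorem sm_Yx : ContDiffAt ℝ n (fun w => Yx w (S w) (Y w) (T w)) q := by
  have h1 := smG_dM hS hY hT hb
  have h2 := smG_dNet hS hY hT hb
  unfold Yx
  exact ((h1.t.mul h2.x).sub (h1.x.mul h2.t)).div (sm_Del hS hY hT hb) hd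

theorem sm_Tx : ContDiffAt ℝ n (fun w => Tx w (S w) (Y w) (T w)) q := by
  have h1 := smG_dM hS hY hT hb
  have h2 := smG_dNet hS hY hT hb
  unfold Tx
  exact ((h1.x.mul h2.y).sub (h1.y.mul h2.x)).div (sm_Del hS hY hT hb) hd

theorem sm_om : ContDiffAt ℝ n (fun w => om w (S w) (Y w) (T w)) q := by
  have h1 := sm_Yx hS hY hT hb hd
  have h2 := sm_Tx hS hY hT hb hd
  unfold om K5N.pj
  fun_prop

theorem sm_HD : ContDiffAt ℝ n (fun w => HH dD w (S w) (Y w) (T w)) q := by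
  have h0 := smG_dD hS hY hT hb
  unfold HH
  exact (h0.x.add (h0.y.mul (sm_Yx hS hY hT hb hd))).add (h0.t.mul (sm_Tx hS hY hT hb hd))

theorem sm_HA : ContDiffAt ℝ n (fun w => HH dA w (S w) (Y w) (T w)) q := by
  have h0 := smG_dA hS hY hT hb
  unfold HH
  exact (h0.x.add (h0.y.mul (sm_Yx hS hY hT hb hd))).add (h0.t.mul (sm_Tx hS hY hT hb hd))

end

end

end K5L
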