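import Pool.Agent.Lib.K5L.Crv
import Pool.Agent.Lib.K5L.SmoothD

/-!
# K5L.Mono: derivatives along the curve through the critical point
-/

set_option autoImplicit false

namespace K5L

open K5N K5C Filter Topology
open scoped ContDiff

noncomputable section

/-- The data of the curve at one point. -/
structure Loc (S Y T : ℝ → ℝ) (q : ℝ) : Prop where
  sS : ContDiffAt ℝ ω S q
  sY : ContDiffAt ℝ ω Y q
  sT : ContDiffAt ℝ ω T q
  b : ∀ᶠ w in 𝓝 q, pb w (S w) (Y w) (T w) = 1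
  M : ∀ᶠ w in 𝓝 q, fM (jet w (S w) (Y w) (T w)) = 0
  Net : ∀ᶠ w in 𝓝 q, fNet (jet w (S w) (Y w) (T w)) = 0
  reg : Reg (jet q (S q) (Y q) (T q))
  one : 1 < fD (jet q (S q) (Y q) (T q))
  A : 0 < fA (jet q (S q) (Y q) (T q))
  q0 : 0 < q
  S0 : 0 < S q
  Y0 : 0 < Y q
  T0 : 0 < T q
  j : 0 < pj q (S q) (Y q) (T q)
  del : Del q (S q) (Y q) (T q) ≠ 0
  om : 0 < om q (S q) (Y q) (T q)
  hd : 0 < HH dD q (S q) (Y q) (T q)
  ha : 0 < HH dA q (S q) (Y q) (T q)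

variable {S Y T : ℝ → ℝ} {q : ℝ}

/-- The derivative of `x` along the curve. -/
def Xp (S Y T : ℝ → ℝ) (q : ℝ) : ℝ := chi q (S q) (Y q) (T q) / om q (S q) (Y q) (T q)

namespace Loc

variable (h : Loc S Y T q)
include h

theorem dS : HasDerivAt S (deriv S q) q := (h.sS.differentiableAt (by simp)).hasDerivAt
theorem dY : HasDerivAt Y (deriv Y q) q := (h.sY.differentiableAt (by simp)).hasDerivAt
theorem dT : HasDerivAt T (deriv T q) q := (h.sT.differentiableAt (by simp)).hasDerivAt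

theorem db : dpb q (S q) (Y q) (T q) 1 (deriv S q) (deriv Y q) (deriv T q) = 0 := by
  have h1 := hasDerivAt_pb (hasDerivAt_id q) h.dS h.dY h.dT
  have h2 : HasDerivAt (fun w => pb (id w) (S w) (Y w) (T w)) 0 q := by
    refine (hasDerivAt_const q (1 : ℝ)).congr_of_eventuallyEq ?_
    filter_upwards [h.b] with w hw
    exact hw
  exact h1.unique h2

theorem jet' : HasJ (fun w => jet w (S w) (Y w) (T w))
    (cb q (S q) (dpx q (S q) (Y q) (T q) 1 (deriv S q) (deriv Y q) (deriv T q))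
      (deriv Y q) (deriv T q)) q :=
  hasJ (hasDerivAt_id q) h.dS h.dY h.dT h.db

theorem dM0 : dM (jet q (S q) (Y q) (T q))
    (cb q (S q) (dpx q (S q) (Y q) (T q) 1 (deriv S q) (deriv Y q) (deriv T q))
      (deriv Y q) (deriv T q)) = 0 := by
  have h1 := h.jet'.M h.reg
  have h2 : HasDerivAt (fun w => fM (jet w (S w) (Y w) (T w))) 0 q := by
    refine (hasDerivAt_const q (0 : ℝ)).congr_of_eventuallyEq ?_
    filter_upwards [h.M] with w hw
    exact hw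
  exact h1.unique h2

theorem dN0 : dNet (jet q (S q) (Y q) (T q))
    (cb q (S q) (dpx q (S q) (Y q) (T q) 1 (deriv S q) (deriv Y q) (deriv T q))
      (deriv Y q) (deriv T q)) = 0 := by
  have h1 := h.jet'.Net h.reg
  have h2 : HasDerivAt (fun w => fNet (jet w (S w) (Y w) (T w))) 0 q := by
    refine (hasDerivAt_const q (0 : ℝ)).congr_of_eventuallyEq ?_
    filter_upwards [h.Net] with w hw
    exact hw
  exact h1.unique h2

theorem x' : dpx q (S q) (Y q) (T q) 1 (deriv S q) (deriv Y q) (deriv T q) = Xp S Y T q := by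
  obtain ⟨h1, h2⟩ := Crv.cramer h.del h.dM0 h.dN0
  obtain ⟨h3, -⟩ := Crv.chi_rel rfl h.db h1 h2
  unfold Xp
  rw [eq_div_iff h.om.ne']
  linarith

theorem y' : deriv Y q = Yx q (S q) (Y q) (T q) * Xp S Y T q := by
  obtain ⟨h1, -⟩ := Crv.cramer h.del h.dM0 h.dN0
  rw [h1, h.x']

theorem t' : deriv T q = Tx q (S q) (Y q) (T q) * Xp S Y T q := by
  obtain ⟨-, h1⟩ := Crv.cramer h.del h.dM0 h.dN0
  rw [h1, h.x']

theorem X : HasDerivAt (fun w => px w (S w) (Y w) (T w)) (Xp S Y T q) q := by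
  have h1 := h.jet'.x
  simp only [cb] at h1
  rw [h.x'] at h1
  exact h1

theorem D : HasDerivAt (fun w => fD (jet w (S w) (Y w) (T w)))
    (Xp S Y T q * HH dD q (S q) (Y q) (T q)) q := by
  refine (h.jet'.D h.reg).congr_deriv ?_
  show dD (jet q (S q) (Y q) (T q)) (cb q (S q)
    (dpx q (S q) (Y q) (T q) 1 (deriv S q) (deriv Y q) (deriv T q)) (deriv Y q) (deriv T q)) = _
  rw [dD_cb, h.x', h.y', h.t']
  unfold HH gX gY gT
  ring

theorem A' : HasDerivAt (fun w => fA (jet w (S w) (Y w) (T w)))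
    (Xp S Y T q * HH dA q (S q) (Y q) (T q)) q := by
  refine (h.jet'.A h.reg).congr_deriv ?_
  show dA (jet q (S q) (Y q) (T q)) (cb q (S q)
    (dpx q (S q) (Y q) (T q) 1 (deriv S q) (deriv Y q) (deriv T q)) (deriv Y q) (deriv T q)) = _
  rw [dA_cb, h.x', h.y', h.t']
  unfold HH gX gY gT
  ring

/-- The slope of `s` where `chi = 0`. -/
theorem slope (hc : chi q (S q) (Y q) (T q) = 0) : deriv S q = sl q (S q) (Y q) (T q) ∧
    deriv Y q = 0 ∧ deriv T q = 0 ∧ Xp S Y T q = 0 := by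
  have h0 : Xp S Y T q = 0 := by
    unfold Xp
    rw [hc, zero_div]
  obtain ⟨h1, h2⟩ := Crv.cramer h.del h.dM0 h.dN0
  obtain ⟨-, h4⟩ := Crv.chi_rel rfl h.db h1 h2
  rw [h.x', h0] at h4
  refine ⟨?_, by rw [h.y', h0, mul_zero], by rw [h.t', h0, mul_zero], h0⟩
  unfold sl
  rw [eq_div_iff h.j.ne']
  linarith

theorem cX : ContDiffAt ℝ ω (fun w => px w (S w) (Y w) (T w)) q :=
  (sm_jet h.sS h.sY h.sT).x

theorem cChi : ContDiffAt ℝ ω (fun w => chi w (S w) (Y w) (T w)) q := by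
  have h1 := h.sS
  have h2 := h.sY
  have h3 := h.sT
  unfold chi K5N.pj
  fun_prop

end Loc

/-- The curve satisfies the conditions near `r`. -/
theorem loc_curve {r s y t : ℝ} (h : PC r s y t) : ∃ S Y T : ℝ → ℝ,
    S r = s ∧ Y r = y ∧ T r = t ∧ ∀ᶠ q in 𝓝 r, Loc S Y T q := by
  obtain ⟨S, Y, T, hS, hY, hT, eS, eY, eT, hev⟩ := curve h
  have hreg : Reg (jet r (S r) (Y r) (T r)) := by rw [eS, eY, eT]; exact h.reg
  have hdel : Del r (S r) (Y r) (T r) ≠ 0 := by rw [eS, eY, eT]; exact h.del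
  have hj := sm_jet hS hY hT
  have cS := hS.continuousAt
  have cY := hY.continuousAt
  have cT := hT.continuousAt
  refine ⟨S, Y, T, eS, eY, eT, ?_⟩
  have e1 : ∀ᶠ q in 𝓝 r, 0 < (jet q (S q) (Y q) (T q)).x :=
    hj.x.continuousAt.eventually (lt_mem_nhds hreg.x)
  have e2 : ∀ᶠ q in 𝓝 r, 0 < (jet q (S q) (Y q) (T q)).u :=
    hj.u.continuousAt.eventually (lt_mem_nhds hreg.u)
  have e3 : ∀ᶠ q in 𝓝 r, 1 < fD (jet q (S q) (Y q) (T q)) := by
    refine (hj.D hreg).continuousAt.eventually (lt_mem_nhds ?_)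
    show 1 < fD (jet r (S r) (Y r) (T r))
    rw [eS, eY, eT]
    exact h.D
  have e4 : ∀ᶠ q in 𝓝 r, 0 < fA (jet q (S q) (Y q) (T q)) := by
    refine (hj.A hreg).continuousAt.eventually (lt_mem_nhds ?_)
    show 0 < fA (jet r (S r) (Y r) (T r))
    rw [eS, eY, eT]
    exact h.A
  have e5 : ∀ᶠ q in 𝓝 r, 0 < q := lt_mem_nhds h.crit.r_pos
  have e6 : ∀ᶠ q in 𝓝 r, 0 < S q := cS.eventually (lt_mem_nhds (by rw [eS]; exact h.crit.s_pos))
  have e7 : ∀ᶠ q in 𝓝 r, 0 < Y q := cY.eventually (lt_mem_nhds (by rw [eY]; exact h.crit.y_pos))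
  have e8 : ∀ᶠ q in 𝓝 r, 0 < T q := cT.eventually (lt_mem_nhds (by rw [eT]; exact h.crit.t_pos))
  have e9 : ∀ᶠ q in 𝓝 r, 0 < pj q (S q) (Y q) (T q) := by
    have hc : ContinuousAt (fun q => pj q (S q) (Y q) (T q)) r := by
      unfold K5N.pj
      fun_prop
    refine hc.eventually (lt_mem_nhds ?_)
    show 0 < pj r (S r) (Y r) (T r)
    rw [eS, eY, eT]
    exact h.j
  have e10 : ∀ᶠ q in 𝓝 r, Del q (S q) (Y q) (T q) ≠ 0 :=
    (sm_Del hS hY hT hreg).continuousAt.eventually (isOpen_ne.mem_nhds hdel)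
  have e11 : ∀ᶠ q in 𝓝 r, 0 < om q (S q) (Y q) (T q) := by
    refine (sm_om hS hY hT hreg hdel).continuousAt.eventually (lt_mem_nhds ?_)
    show 0 < om r (S r) (Y r) (T r)
    rw [eS, eY, eT]
    exact h.om
  have e12 : ∀ᶠ q in 𝓝 r, 0 < HH dD q (S q) (Y q) (T q) := by
    refine (sm_HD hS hY hT hreg hdel).continuousAt.eventually (lt_mem_nhds ?_)
    show 0 < HH dD r (S r) (Y r) (T r)
    rw [eS, eY, eT]
    exact h.hd
  have e13 : ∀ᶠ q in 𝓝 r, 0 < HH dA q (S q) (Y q) (T q) := by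
    refine (sm_HA hS hY hT hreg hdel).continuousAt.eventually (lt_mem_nhds ?_)
    show 0 < HH dA r (S r) (Y r) (T r)
    rw [eS, eY, eT]
    exact h.ha
  have e14 : ∀ᶠ q in 𝓝 r, ContDiffAt ℝ ω S q := hS.eventually (by simp)
  have e15 : ∀ᶠ q in 𝓝 r, ContDiffAt ℝ ω Y q := hY.eventually (by simp)
  have e16 : ∀ᶠ q in 𝓝 r, ContDiffAt ℝ ω T q := hT.eventually (by simp)
  filter_upwards [e1, e2, e3, e4, e5, e6, e7, e8, e9, e10, e11, e12, e13, e14, e15, e16,
    hev.eventually_nhds] with q a1 a2 a3 a4 a5 a6 a7 a8 a9 a10 a11 a12 a13 a14 a15 a16 a17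
  exact ⟨a14, a15, a16, a17.mono fun w hw => hw.1, a17.mono fun w hw => hw.2.1,
    a17.mono fun w hw => hw.2.2, ⟨a1, a2, zero_lt_one.trans a3⟩, a3, a4, a5, a6, a7, a8, a9, a10,
    a11, a12, a13⟩

end

end K5L
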