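import Pool.Agent.Lib.K5L.Box

/-!
# K5L.NwDefs: the four equations of the critical point and their directional derivatives
-/

set_option autoImplicit false

namespace K5L

open K5N K5C

noncomputable section

/-- The derivative of `pj`. -/
def dpj (r s y t r' s' y' t' : ℝ) : ℝ :=
  -2 * (y' * (r + s) + y * (r' + s')) - 3 * (t' * (r ^ 2 + 4 * r * s + s ^ 2) +
    t * (2 * r * r' + 4 * (r' * s + r * s') + 2 * s * s'))

/-- The derivative of `chi`. -/
def dchi (r s y t r' s' y' t' : ℝ) : ℝ :=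
  2 * pj r s y t * dpj r s y t r' s' y' t' - 4 * (r' * s + r * s') * (y + 3 * t * (r + s)) ^ 2
    - 8 * (r * s) * (y + 3 * t * (r + s)) * (y' + 3 * (t' * (r + s) + t * (r' + s')))

/-- The derivative of the jet. -/
def dj (r s y t r' s' y' t' : ℝ) : J :=
  ⟨dpx r s y t r' s' y' t', y', t', dpw1 r s y t r' s' y' t', dpw2 r s y t r' s' y' t',
    dpw3 r s y t r' s' y' t'⟩

/-- The four equations. -/
def nE : Fin 4 → ℝ → ℝ → ℝ → ℝ → ℝ :=
  ![fun r s y t => chi r s y t, fun r s y t => pb r s y t - 1, fun r s y t => fM (jet r s y t),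
    fun r s y t => fNet (jet r s y t)]

/-- Their derivatives. -/
def nG : Fin 4 → ℝ → ℝ → ℝ → ℝ → ℝ → ℝ → ℝ → ℝ → ℝ :=
  ![fun r s y t r' s' y' t' => dchi r s y t r' s' y' t',
    fun r s y t r' s' y' t' => dpb r s y t r' s' y' t',
    fun r s y t r' s' y' t' => dM (jet r s y t) (dj r s y t r' s' y' t'),
    fun r s y t r' s' y' t' => dNet (jet r s y t) (dj r s y t r' s' y' t')]

/-- The centre of the box. -/
def c0 : ℝ := 150590228048589430 / 10 ^ 18
def c1' : ℝ := 1728695357158073024 / 10 ^ 18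
def c2' : ℝ := 205212204790913531 / 10 ^ 18
def c3' : ℝ := 1076957403474882 / 10 ^ 18

/-- The box. -/
def Bx0 (r s y t : ℝ) : Prop := |r - c0| ≤ 1 / 10 ^ 12 ∧ |s - c1'| ≤ 1 / 10 ^ 12 ∧
  |y - c2'| ≤ 1 / 10 ^ 12 ∧ |t - c3'| ≤ 1 / 10 ^ 12

end

end K5L
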