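import Pool.Agent.Lib.K5L.NwP
import Pool.Agent.Lib.K5L.NwDefs
import Pool.Agent.Lib.K5L.Dir

/-!
# K5L.NwLin : linearity of the differentials
-/

set_option autoImplicit false

namespace K5L

open K5N K5C

noncomputable section

/-- Linear combination of four directions. -/
def lc (p q m n : ℝ) (d1 d2 d3 d4 : J) : J :=
  ⟨p * d1.x + q * d2.x + m * d3.x + n * d4.x, p * d1.y + q * d2.y + m * d3.y + n * d4.y,
    p * d1.t + q * d2.t + m * d3.t + n * d4.t, p * d1.u + q * d2.u + m * d3.u + n * d4.u,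
    p * d1.v + q * d2.v + m * d3.v + n * d4.v, p * d1.w + q * d2.w + m * d3.w + n * d4.w⟩

variable (b : J) (p q m n : ℝ) (d1 d2 d3 d4 : J)

theorem dk_lc : dk b (lc p q m n d1 d2 d3 d4) =
    p * dk b d1 + q * dk b d2 + m * dk b d3 + n * dk b d4 := by
  unfold dk lc
  ring

theorem dT_lc : dT b (lc p q m n d1 d2 d3 d4) =
    p * dT b d1 + q * dT b d2 + m * dT b d3 + n * dT b d4 := by
  unfold dT
  rw [dk_lc]
  unfold lc
  ring

theorem dY_lc : dY b (lc p q m n d1 d2 d3 d4) =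
    p * dY b d1 + q * dY b d2 + m * dY b d3 + n * dY b d4 := by
  unfold dY
  rw [dk_lc, dT_lc]
  unfold lc
  ring

theorem dD_lc : dD b (lc p q m n d1 d2 d3 d4) =
    p * dD b d1 + q * dD b d2 + m * dD b d3 + n * dD b d4 := by
  unfold dD
  rw [dk_lc]
  unfold lc
  ring

theorem dN_lc : dN b (lc p q m n d1 d2 d3 d4) =
    p * dN b d1 + q * dN b d2 + m * dN b d3 + n * dN b d4 := by
  unfold dN
  rw [dk_lc, dD_lc]
  unfold lc
  ring

theorem dA_lc : dA b (lc p q m n d1 d2 d3 d4) =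
    p * dA b d1 + q * dA b d2 + m * dA b d3 + n * dA b d4 := by
  unfold dA
  rw [dN_lc, dD_lc, dT_lc]
  ring

theorem dM_lc : dM b (lc p q m n d1 d2 d3 d4) =
    p * dM b d1 + q * dM b d2 + m * dM b d3 + n * dM b d4 := by
  unfold dM
  rw [dA_lc, dT_lc]
  ring

theorem dS_lc : dS b (lc p q m n d1 d2 d3 d4) =
    p * dS b d1 + q * dS b d2 + m * dS b d3 + n * dS b d4 := by
  unfold dS
  rw [dD_lc]
  unfold lc
  ring

theorem dP_lc : dP b (lc p q m n d1 d2 d3 d4) =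
    p * dP b d1 + q * dP b d2 + m * dP b d3 + n * dP b d4 := by
  unfold dP
  rw [dD_lc]
  unfold lc
  ring

theorem dK_lc : dK b (lc p q m n d1 d2 d3 d4) =
    p * dK b d1 + q * dK b d2 + m * dK b d3 + n * dK b d4 := by
  unfold dK
  rw [dD_lc, dY_lc, dS_lc, dP_lc, dT_lc]
  ring

theorem dG_lc : dG b (lc p q m n d1 d2 d3 d4) =
    p * dG b d1 + q * dG b d2 + m * dG b d3 + n * dG b d4 := by
  unfold dG
  rw [dA_lc, dT_lc]
  ring

theorem dT0_lc : dT0 b (lc p q m n d1 d2 d3 d4) =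
    p * dT0 b d1 + q * dT0 b d2 + m * dT0 b d3 + n * dT0 b d4 := by
  unfold dT0
  rw [dK_lc, dP_lc, dG_lc, dD_lc]
  unfold lc
  ring

theorem dNet_lc : dNet b (lc p q m n d1 d2 d3 d4) =
    p * dNet b d1 + q * dNet b d2 + m * dNet b d3 + n * dNet b d4 := by
  unfold dNet
  rw [dD_lc, dS_lc, dT0_lc]
  ring

theorem dj_eq (r s y t r' s' y' t' : ℝ) : dj r s y t r' s' y' t' =
    lc (dpx r s y t r' s' y' t') y' t' (dpb r s y t r' s' y' t') (cb r s 1 0 0) (cb r s 0 1 0)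
      (cb r s 0 0 1) (cbb r s) := by
  unfold dj lc cb cbb
  rw [dpw1_eq, dpw2_eq, dpw3_eq]
  congr 1 <;> simp only [] <;> ring

theorem dM_dj (r s y t r' s' y' t' : ℝ) : dM b (dj r s y t r' s' y' t') =
    dpx r s y t r' s' y' t' * dM b (cb r s 1 0 0) + y' * dM b (cb r s 0 1 0) +
      t' * dM b (cb r s 0 0 1) + dpb r s y t r' s' y' t' * dM b (cbb r s) := by
  rw [dj_eq, dM_lc]

theorem dNet_dj (r s y t r' s' y' t' : ℝ) : dNet b (dj r s y t r' s' y' t') =
    dpx r s y t r' s' y' t' * dNet b (cb r s 1 0 0) + y' * dNet b (cb r s 0 1 0) +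
      t' * dNet b (cb r s 0 0 1) + dpb r s y t r' s' y' t' * dNet b (cbb r s) := by
  rw [dj_eq, dNet_lc]

end

end K5L
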