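import Pool.Agent.Lib.K5L.NwB

/-!
# K5L.NwP : differentials of the equations on the box of the critical point

Generated file.
-/

set_option autoImplicit false

namespace K5L

open K5N K5C K5S

/-- The direction of `pb`. -/
def cbb (r s : ℝ) : J := ⟨0, 0, 0, r, r * (r + 2 * s), r * (r ^ 2 + 6 * r * s + 3 * s ^ 2)⟩

theorem nw_b {r s y t : ℝ} (h : NwB r s y t) :
    In (2658737874125824036571/2500000000000000000000) (5317520338559545166653/5000000000000000000000) (dM (jet r s y t) (cbb r s)) ∧
    In (13620115931673798274791/2000000000000000000000) (68100637067243650870761/10000000000000000000000) (dNet (jet r s y t) (cbb r s)) := by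
  have h1 : In (13505432477789633/3906250000000000) (6752716238902629/1953125000000000) (2 * s) := (In.const (c := 2) (le_refl _) (le_refl _)).mul' h.hs (by norm_num)
  have h2 : In (1803990471180867739/500000000000000000) (1803990471183867739/500000000000000000) (r + (2 * s)) := h.hr.add' h1 (by norm_num)
  have h3 : In (1086653345803220721211/2000000000000000000000) (2716633364548649319293/5000000000000000000000) (r * (r + (2 * s))) := h.hr.mul' h2 (by norm_num)
  have h4 : In (7086692744820309447/312500000000000000000) (226774167840273511427/10000000000000000000000) (r ^ 2) := h.hr.pow' 2 (by norm_num)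
  have h5 : In (45177068414276829/50000000000000000) (45177068414876829/50000000000000000) (6 * r) := (In.const (c := 6) (le_refl _) (le_refl _)).mul' h.hr (by norm_num)
  have h6 : In (15619477683545561111253/10000000000000000000000) (15619477683771075381479/10000000000000000000000) ((6 * r) * s) := h5.mul' h.hs (by norm_num)
  have h7 : In (15846251851379811013557/10000000000000000000000) (7923125925805674446453/5000000000000000000000) ((r ^ 2) + ((6 * r) * s)) := h4.add' h6 (by norm_num)
  have h8 : In (29883876378564202636221/10000000000000000000000) (29883876378633350450509/10000000000000000000000) (s ^ 2) := h.hs.pow' 2 (by norm_num)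
  have h9 : In (89651629135692607908663/10000000000000000000000) (89651629135900051351527/10000000000000000000000) (3 * (s ^ 2)) := (In.const (c := 3) (le_refl _) (le_refl _)).mul' h8 (by norm_num)
  have h10 : In (5274894049353620946111/500000000000000000000) (105497880987511400244433/10000000000000000000000) (((r ^ 2) + ((6 * r) * s)) + (3 * (s ^ 2))) := h7.add' h9 (by norm_num)
  have h11 : In (15886949956380684640391/10000000000000000000000) (15886949956657786699787/10000000000000000000000) (r * (((r ^ 2) + ((6 * r) * s)) + (3 * (s ^ 2)))) := h.hr.mul' h10 (by norm_num)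
  have h12 : In (0) (0) ((cbb r s).x) := In.congr (In.const (c := 0) (le_refl _) (le_refl _)) (by first | rfl | (simp only [cbb]; ring))
  have h13 : In (0) (0) ((cbb r s).y) := In.congr (In.const (c := 0) (le_refl _) (le_refl _)) (by first | rfl | (simp only [cbb]; ring))
  have h14 : In (0) (0) ((cbb r s).t) := In.congr (In.const (c := 0) (le_refl _) (le_refl _)) (by first | rfl | (simp only [cbb]; ring))
  have h15 : In (15059022804758943/100000000000000000) (15059022804958943/100000000000000000) ((cbb r s).u) := In.congr h.hr (by first | rfl | (simp only [cbb]; ring))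
  have h16 : In (1086653345803220721211/2000000000000000000000) (2716633364548649319293/5000000000000000000000) ((cbb r s).v) := In.congr h3 (by first | rfl | (simp only [cbb]; ring))
  have h17 : In (15886949956380684640391/10000000000000000000000) (15886949956657786699787/10000000000000000000000) ((cbb r s).w) := In.congr h11 (by first | rfl | (simp only [cbb]; ring))
  have h18 : In (1419957436771832172479/625000000000000000000) (22719319005392968638219/10000000000000000000000) ((fk (jet r s y t)) ^ 2) := h.hk.pow' 2 (by norm_num)
  have h19 : In (8561167074440449891377/2500000000000000000000) (8561167084074116850019/2500000000000000000000) ((fk (jet r s y t)) ^ 3) := h.hk.pow' 3 (by norm_num)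
  have h20 : In (2580837276471848655241/500000000000000000000) (25808372803440507486323/5000000000000000000000) ((fk (jet r s y t)) ^ 4) := h.hk.pow' 4 (by norm_num)
  have h21 : In (0) (0) ((fk (jet r s y t)) * (cbb r s).x) := h.hk.mul' h12 (by norm_num)
  have h22 : In (15059022804758943/100000000000000000) (15059022804958943/100000000000000000) ((cbb r s).u - ((fk (jet r s y t)) * (cbb r s).x)) := h15.sub' h21 (by norm_num)
  have h23 : In (40284147683396327216049/10000000000000000000000) (20142073846254715868471/5000000000000000000000) (((cbb r s).u - ((fk (jet r s y t)) * (cbb r s).x)) / (jet r s y t).x) := h22.div' h.hx (by norm_num)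
  have h24 : In (40284147683396327216049/10000000000000000000000) (20142073846254715868471/5000000000000000000000) (dk (jet r s y t) (cbb r s)) := In.congr h23 (by unfold dk; ring)
  have h25 : In (0) (0) (((fk (jet r s y t)) ^ 3) * (cbb r s).t) := h19.mul' h14 (by norm_num)
  have h26 : In (1615436103712323/500000000000000000) (1615436106712323/500000000000000000) (3 * (jet r s y t).t) := (In.const (c := 3) (le_refl _) (le_refl _)).mul' h.ht (by norm_num)
  have h27 : In (14680643258214565159/2000000000000000000000) (36701608241227303729/5000000000000000000000) ((3 * (jet r s y t).t) * ((fk (jet r s y t)) ^ 2)) := h26.mul' h18 (by norm_num)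
  have h28 : In (295698600550586092119/10000000000000000000000) (3696232517355555077/125000000000000000000) (((3 * (jet r s y t).t) * ((fk (jet r s y t)) ^ 2)) * (dk (jet r s y t) (cbb r s))) := h27.mul' h24 (by norm_num)
  have h29 : In (295698600550586092119/10000000000000000000000) (3696232517355555077/125000000000000000000) ((((fk (jet r s y t)) ^ 3) * (cbb r s).t) + (((3 * (jet r s y t).t) * ((fk (jet r s y t)) ^ 2)) * (dk (jet r s y t) (cbb r s)))) := h25.add' h28 (by norm_num)
  have h30 : In (295698600550586092119/10000000000000000000000) (3696232517355555077/125000000000000000000) (dT (jet r s y t) (cbb r s)) := In.congr h29 (by unfold dT; ring)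
  have h31 : In (0) (0) (((fk (jet r s y t)) ^ 2) * (cbb r s).y) := h18.mul' h13 (by norm_num)
  have h32 : In (205212204789913531/500000000000000000) (205212204791913531/500000000000000000) (2 * (jet r s y t).y) := (In.const (c := 2) (le_refl _) (le_refl _)).mul' h.hy (by norm_num)
  have h33 : In (6186298002406396556429/10000000000000000000000) (1546574501196779255659/2500000000000000000000) ((2 * (jet r s y t).y) * (fk (jet r s y t))) := h32.mul' h.hk (by norm_num)
  have h34 : In (24920974234243896652799/10000000000000000000000) (12460487124736032084829/5000000000000000000000) (((2 * (jet r s y t).y) * (fk (jet r s y t))) * (dk (jet r s y t) (cbb r s))) := h33.mul' h24 (by norm_num)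
  have h35 : In (24920974234243896652799/10000000000000000000000) (12460487124736032084829/5000000000000000000000) ((((fk (jet r s y t)) ^ 2) * (cbb r s).y) + (((2 * (jet r s y t).y) * (fk (jet r s y t))) * (dk (jet r s y t) (cbb r s)))) := h31.add' h34 (by norm_num)
  have h36 : In (295698600550586092119/5000000000000000000000) (3696232517355555077/62500000000000000000) (2 * (dT (jet r s y t) (cbb r s))) := (In.const (c := 2) (le_refl _) (le_refl _)).mul' h30 (by norm_num)
  have h37 : In (25512371435345068837037/10000000000000000000000) (12756185726124476490989/5000000000000000000000) (((((fk (jet r s y t)) ^ 2) * (cbb r s).y) + (((2 * (jet r s y t).y) * (fk (jet r s y t))) * (dk (jet r s y t) (cbb r s)))) + (2 * (dT (jet r s y t) (cbb r s)))) := h35.add' h36 (by norm_num)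
  have h38 : In (25512371435345068837037/10000000000000000000000) (12756185726124476490989/5000000000000000000000) (dY (jet r s y t) (cbb r s)) := In.congr h37 (by unfold dY; ring)
  have h39 : In (69870721389842323/50000000000000000000) (13974144283919760233/10000000000000000000000) ((jet r s y t).x ^ 2) := h.hx.pow' 2 (by norm_num)
  have h40 : In (65297694445463897/1250000000000000000000) (522381555897418237/10000000000000000000000) ((jet r s y t).x ^ 3) := h.hx.pow' 3 (by norm_num)
  have h41 : In (10459898406883688538349/5000000000000000000000) (20919797158782448717417/10000000000000000000000) ((fD (jet r s y t)) + 1) := h.hD.add' (In.const (c := 1) (le_refl _) (le_refl _)) (by norm_num)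
  have h42 : In (2391474290108074551657/10000000000000000000000) (1195737145968928483763/5000000000000000000000) ((cbb r s).v / ((fk (jet r s y t)) ^ 2)) := h16.div' h18 (by norm_num)
  have h43 : In (915710543600060874839/5000000000000000000000) (228927635949835177477/1250000000000000000000) (2 * (jet r s y t).v) := (In.const (c := 2) (le_refl _) (le_refl _)).mul' h.hv (by norm_num)
  have h44 : In (106960947567944144837/2000000000000000000000) (106960947711581802043/2000000000000000000000) ((2 * (jet r s y t).v) / ((fk (jet r s y t)) ^ 3)) := h43.div' h19 (by norm_num)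
  have h45 : In (1077207652045768285471/5000000000000000000000) (2154415307472070016909/10000000000000000000000) (((2 * (jet r s y t).v) / ((fk (jet r s y t)) ^ 3)) * (dk (jet r s y t) (cbb r s))) := h44.mul' h24 (by norm_num)
  have h46 : In (59264745659001133687/2500000000000000000000) (29632373480790049573/1250000000000000000000) (((cbb r s).v / ((fk (jet r s y t)) ^ 2)) - (((2 * (jet r s y t).v) / ((fk (jet r s y t)) ^ 3)) * (dk (jet r s y t) (cbb r s)))) := h42.sub' h45 (by norm_num)
  have h47 : In (59264745659001133687/2500000000000000000000) (29632373480790049573/1250000000000000000000) ((((cbb r s).v / ((fk (jet r s y t)) ^ 2)) - (((2 * (jet r s y t).v) / ((fk (jet r s y t)) ^ 3)) * (dk (jet r s y t) (cbb r s)))) - (cbb r s).x) := h46.sub' h12 (by norm_num)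
  have h48 : In (84820572129340170814889/5000000000000000000000) (169641148059467149241389/10000000000000000000000) (((((cbb r s).v / ((fk (jet r s y t)) ^ 2)) - (((2 * (jet r s y t).v) / ((fk (jet r s y t)) ^ 3)) * (dk (jet r s y t) (cbb r s)))) - (cbb r s).x) / ((jet r s y t).x ^ 2)) := h47.div' h39 (by norm_num)
  have h49 : In (10459898406883688538349/2500000000000000000000) (20919797158782448717417/5000000000000000000000) (2 * ((fD (jet r s y t)) + 1)) := (In.const (c := 2) (le_refl _) (le_refl _)).mul' h41 (by norm_num)
  have h50 : In (0) (0) ((2 * ((fD (jet r s y t)) + 1)) * (cbb r s).x) := h49.mul' h12 (by norm_num)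
  have h51 : In (0) (0) (((2 * ((fD (jet r s y t)) + 1)) * (cbb r s).x) / (jet r s y t).x) := h50.div' h.hx (by norm_num)
  have h52 : In (84820572129340170814889/5000000000000000000000) (169641148059467149241389/10000000000000000000000) ((((((cbb r s).v / ((fk (jet r s y t)) ^ 2)) - (((2 * (jet r s y t).v) / ((fk (jet r s y t)) ^ 3)) * (dk (jet r s y t) (cbb r s)))) - (cbb r s).x) / ((jet r s y t).x ^ 2)) - (((2 * ((fD (jet r s y t)) + 1)) * (cbb r s).x) / (jet r s y t).x)) := h48.sub' h51 (by norm_num)
  have h53 : In (84820572129340170814889/5000000000000000000000) (169641148059467149241389/10000000000000000000000) (dD (jet r s y t) (cbb r s)) := In.congr h52 (by unfold dD; ring)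
  have h54 : In (10459898406883688538349/5000000000000000000000) (20919797158782448717417/10000000000000000000000) (1 + (fD (jet r s y t))) := (In.const (c := 1) (le_refl _) (le_refl _)).add' h.hD (by norm_num)
  have h55 : In (927849544364945959823/2000000000000000000000) (2319623863563038706327/5000000000000000000000) ((cbb r s).w / ((fk (jet r s y t)) ^ 3)) := h17.div' h19 (by norm_num)
  have h56 : In (479486403704012686047/1000000000000000000000) (47948640384473281047/100000000000000000000) (3 * (jet r s y t).w) := (In.const (c := 3) (le_refl _) (le_refl _)).mul' h.hw (by norm_num)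
  have h57 : In (928935751501722878669/10000000000000000000000) (464467876584046007559/5000000000000000000000) ((3 * (jet r s y t).w) / ((fk (jet r s y t)) ^ 4)) := h56.div' h20 (by norm_num)
  have h58 : In (467767312523526949919/1250000000000000000000) (3742138507747590499311/10000000000000000000000) (((3 * (jet r s y t).w) / ((fk (jet r s y t)) ^ 4)) * (dk (jet r s y t) (cbb r s))) := h57.mul' h24 (by norm_num)
  have h59 : In (224277303519284824951/2500000000000000000000) (448554613468930906651/5000000000000000000000) (((cbb r s).w / ((fk (jet r s y t)) ^ 3)) - (((3 * (jet r s y t).w) / ((fk (jet r s y t)) ^ 4)) * (dk (jet r s y t) (cbb r s)))) := h55.sub' h58 (by norm_num)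
  have h60 : In (209612164169526969/50000000000000000000) (41922432851759280699/10000000000000000000000) (3 * ((jet r s y t).x ^ 2)) := (In.const (c := 3) (le_refl _) (le_refl _)).mul' h39 (by norm_num)
  have h61 : In (355588473802569111971/5000000000000000000000) (17779424096045914421/250000000000000000000) ((3 * ((jet r s y t).x ^ 2)) * (dD (jet r s y t) (cbb r s))) := h60.mul' h53 (by norm_num)
  have h62 : In (46483062558825680741/2500000000000000000000) (2324153491659044867/125000000000000000000) ((((cbb r s).w / ((fk (jet r s y t)) ^ 3)) - (((3 * (jet r s y t).w) / ((fk (jet r s y t)) ^ 4)) * (dk (jet r s y t) (cbb r s)))) - ((3 * ((jet r s y t).x ^ 2)) * (dD (jet r s y t) (cbb r s)))) := h59.sub' h61 (by norm_num)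
  have h63 : In (112146020215483429971/500000000000000000000) (280365050598409379037/1250000000000000000000) (6 * (jet r s y t).x) := (In.const (c := 6) (le_refl _) (le_refl _)).mul' h.hx (by norm_num)
  have h64 : In (938428782552224846687/2000000000000000000000) (4692143991144401600919/10000000000000000000000) ((6 * (jet r s y t).x) * (1 + (fD (jet r s y t)))) := h63.mul' h54 (by norm_num)
  have h65 : In (0) (0) (((6 * (jet r s y t).x) * (1 + (fD (jet r s y t)))) * (cbb r s).x) := h64.mul' h12 (by norm_num)
  have h66 : In (46483062558825680741/2500000000000000000000) (2324153491659044867/125000000000000000000) (((((cbb r s).w / ((fk (jet r s y t)) ^ 3)) - (((3 * (jet r s y t).w) / ((fk (jet r s y t)) ^ 4)) * (dk (jet r s y t) (cbb r s)))) - ((3 * ((jet r s y t).x ^ 2)) * (dD (jet r s y t) (cbb r s)))) - (((6 * (jet r s y t).x) * (1 + (fD (jet r s y t)))) * (cbb r s).x)) := h62.sub' h65 (by norm_num)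
  have h67 : In (46483062558825680741/2500000000000000000000) (2324153491659044867/125000000000000000000) ((((((cbb r s).w / ((fk (jet r s y t)) ^ 3)) - (((3 * (jet r s y t).w) / ((fk (jet r s y t)) ^ 4)) * (dk (jet r s y t) (cbb r s)))) - ((3 * ((jet r s y t).x ^ 2)) * (dD (jet r s y t) (cbb r s)))) - (((6 * (jet r s y t).x) * (1 + (fD (jet r s y t)))) * (cbb r s).x)) - (cbb r s).x) := h66.sub' h12 (by norm_num)
  have h68 : In (3559318818519213624614989/10000000000000000000000) (3559319377807678874451157/10000000000000000000000) (((((((cbb r s).w / ((fk (jet r s y t)) ^ 3)) - (((3 * (jet r s y t).w) / ((fk (jet r s y t)) ^ 4)) * (dk (jet r s y t) (cbb r s)))) - ((3 * ((jet r s y t).x ^ 2)) * (dD (jet r s y t) (cbb r s)))) - (((6 * (jet r s y t).x) * (1 + (fD (jet r s y t)))) * (cbb r s).x)) - (cbb r s).x) / ((jet r s y t).x ^ 3)) := h67.div' h40 (by norm_num)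
  have h69 : In (298927615002423919263207/10000000000000000000000) (29892774300275283342057/1000000000000000000000) (3 * (fN (jet r s y t))) := (In.const (c := 3) (le_refl _) (le_refl _)).mul' h.hN (by norm_num)
  have h70 : In (0) (0) ((3 * (fN (jet r s y t))) * (cbb r s).x) := h69.mul' h12 (by norm_num)
  have h71 : In (0) (0) (((3 * (fN (jet r s y t))) * (cbb r s).x) / (jet r s y t).x) := h70.div' h.hx (by norm_num)
  have h72 : In (3559318818519213624614989/10000000000000000000000) (3559319377807678874451157/10000000000000000000000) ((((((((cbb r s).w / ((fk (jet r s y t)) ^ 3)) - (((3 * (jet r s y t).w) / ((fk (jet r s y t)) ^ 4)) * (dk (jet r s y t) (cbb r s)))) - ((3 * ((jet r s y t).x ^ 2)) * (dD (jet r s y t) (cbb r s)))) - (((6 * (jet r s y t).x) * (1 + (fD (jet r s y t)))) * (cbb r s).x)) - (cbb r s).x) / ((jet r s y t).x ^ 3)) - (((3 * (fN (jet r s y t))) * (cbb r s).x) / (jet r s y t).x)) := h68.sub' h71 (by norm_num)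
  have h73 : In (3559318818519213624614989/10000000000000000000000) (3559319377807678874451157/10000000000000000000000) (dN (jet r s y t) (cbb r s)) := In.congr h72 (by unfold dN; ring)
  have h74 : In (91552959194213049849083/10000000000000000000000) (1430515058186925844353/156250000000000000000) ((1 + (fD (jet r s y t))) ^ 3) := h54.pow' 3 (by norm_num)
  have h75 : In (194385778119140804401033/5000000000000000000000) (77754327312506116843003/2000000000000000000000) ((dN (jet r s y t) (cbb r s)) / ((1 + (fD (jet r s y t))) ^ 3)) := h73.div' h74 (by norm_num)
  have h76 : In (298927615002423919263207/10000000000000000000000) (29892774300275283342057/1000000000000000000000) (3 * (fN (jet r s y t))) := (In.const (c := 3) (le_refl _) (le_refl _)).mul' h.hN (by norm_num)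
  have h77 : In (316940141622059087551099/625000000000000000000) (1014208910196246770545091/2000000000000000000000) ((3 * (fN (jet r s y t))) * (dD (jet r s y t) (cbb r s))) := h76.mul' h53 (by norm_num)
  have h78 : In (95763465202103642523269/5000000000000000000000) (191526943039067907737451/10000000000000000000000) ((1 + (fD (jet r s y t))) ^ 4) := h54.pow' 4 (by norm_num)
  have h79 : In (1059076532103067670169/40000000000000000000) (264769269798198461273151/10000000000000000000000) (((3 * (fN (jet r s y t))) * (dD (jet r s y t) (cbb r s))) / ((1 + (fD (jet r s y t))) ^ 4)) := h77.div' h78 (by norm_num)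
  have h80 : In (24800457288016629505783/2000000000000000000000) (24800500707352733334553/2000000000000000000000) (((dN (jet r s y t) (cbb r s)) / ((1 + (fD (jet r s y t))) ^ 3)) - (((3 * (fN (jet r s y t))) * (dD (jet r s y t) (cbb r s))) / ((1 + (fD (jet r s y t))) ^ 4))) := h75.sub' h79 (by norm_num)
  have h81 : In (24741317567738940624551/2000000000000000000000) (61853402468106540290323/5000000000000000000000) ((((dN (jet r s y t) (cbb r s)) / ((1 + (fD (jet r s y t))) ^ 3)) - (((3 * (fN (jet r s y t))) * (dD (jet r s y t) (cbb r s))) / ((1 + (fD (jet r s y t))) ^ 4))) - (dT (jet r s y t) (cbb r s))) := h80.sub' h30 (by norm_num)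
  have h82 : In (24741317567738940624551/2000000000000000000000) (61853402468106540290323/5000000000000000000000) (dA (jet r s y t) (cbb r s)) := In.congr h81 (by unfold dA; ring)
  have h83 : In (408203918075242605669/10000000000000000000000) (408203931059521094771/10000000000000000000000) ((jet r s y t).x * (fD (jet r s y t))) := h.hx.mul' h.hD (by norm_num)
  have h84 : In (10408203918075242605669/10000000000000000000000) (10408203931059521094771/10000000000000000000000) (1 + ((jet r s y t).x * (fD (jet r s y t)))) := (In.const (c := 1) (le_refl _) (le_refl _)).add' h83 (by norm_num)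
  have h85 : In (5962098122698208024129/5000000000000000000000) (372631156215478873519/312500000000000000000) ((fD (jet r s y t)) ^ 2) := h.hD.pow' 2 (by norm_num)
  have h86 : In (0) (0) (((fD (jet r s y t)) ^ 2) * (cbb r s).x) := h85.mul' h12 (by norm_num)
  have h87 : In (37382006738494476657/500000000000000000000) (93455016866136459679/1250000000000000000000) (2 * (jet r s y t).x) := (In.const (c := 2) (le_refl _) (le_refl _)).mul' h.hx (by norm_num)
  have h88 : In (408203918075242605669/5000000000000000000000) (816407862119042189541/10000000000000000000000) ((2 * (jet r s y t).x) * (fD (jet r s y t))) := h87.mul' h.hD (by norm_num)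
  have h89 : In (13849635950632152537109/10000000000000000000000) (2769927340292989557453/2000000000000000000000) (((2 * (jet r s y t).x) * (fD (jet r s y t))) * (dD (jet r s y t) (cbb r s))) := h88.mul' h53 (by norm_num)
  have h90 : In (13849635950632152537109/10000000000000000000000) (2769927340292989557453/2000000000000000000000) ((((fD (jet r s y t)) ^ 2) * (cbb r s).x) + (((2 * (jet r s y t).x) * (fD (jet r s y t))) * (dD (jet r s y t) (cbb r s)))) := h86.add' h89 (by norm_num)
  have h91 : In (3326615245619592920087/2500000000000000000000) (13306461720463792417847/10000000000000000000000) (((((fD (jet r s y t)) ^ 2) * (cbb r s).x) + (((2 * (jet r s y t).x) * (fD (jet r s y t))) * (dD (jet r s y t) (cbb r s)))) / (1 + ((jet r s y t).x * (fD (jet r s y t))))) := h90.div' h84 (by norm_num)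
  have h92 : In (0) (0) ((fD (jet r s y t)) * (cbb r s).x) := h.hD.mul' h12 (by norm_num)
  have h93 : In (1268305279560780426339/2000000000000000000000) (253661061649412076479/400000000000000000000) ((jet r s y t).x * (dD (jet r s y t) (cbb r s))) := h.hx.mul' h53 (by norm_num)
  have h94 : In (1268305279560780426339/2000000000000000000000) (253661061649412076479/400000000000000000000) (((fD (jet r s y t)) * (cbb r s).x) + ((jet r s y t).x * (dD (jet r s y t) (cbb r s)))) := h92.add' h93 (by norm_num)
  have h95 : In (33948434429768834167/1250000000000000000000) (16974218696207369929/625000000000000000000) ((fS (jet r s y t)) * (((fD (jet r s y t)) * (cbb r s).x) + ((jet r s y t).x * (dD (jet r s y t) (cbb r s))))) := h.hS.mul' h94 (by norm_num)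
  have h96 : In (16308497918868599/625000000000000000) (130467994899518535973/5000000000000000000000) (((fS (jet r s y t)) * (((fD (jet r s y t)) * (cbb r s).x) + ((jet r s y t).x * (dD (jet r s y t) (cbb r s))))) / (1 + ((jet r s y t).x * (fD (jet r s y t))))) := h95.div' h84 (by norm_num)
  have h97 : In (6522762496339667304201/5000000000000000000000) (13045525753761894833847/10000000000000000000000) ((((((fD (jet r s y t)) ^ 2) * (cbb r s).x) + (((2 * (jet r s y t).x) * (fD (jet r s y t))) * (dD (jet r s y t) (cbb r s)))) / (1 + ((jet r s y t).x * (fD (jet r s y t))))) - (((fS (jet r s y t)) * (((fD (jet r s y t)) * (cbb r s).x) + ((jet r s y t).x * (dD (jet r s y t) (cbb r s))))) / (1 + ((jet r s y t).x * (fD (jet r s y t)))))) := h91.sub' h96 (by norm_num)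
  have h98 : In (6522762496339667304201/5000000000000000000000) (13045525753761894833847/10000000000000000000000) (dS (jet r s y t) (cbb r s)) := In.congr h97 (by unfold dS; ring)
  have h99 : In (21881894936465585100827/5000000000000000000000) (21881895658230110693721/5000000000000000000000) ((1 + (fD (jet r s y t))) ^ 2) := h54.pow' 2 (by norm_num)
  have h100 : In (0) (0) (((1 + (fD (jet r s y t))) ^ 2) * (cbb r s).x) := h99.mul' h12 (by norm_num)
  have h101 : In (37382006738494476657/500000000000000000000) (93455016866136459679/1250000000000000000000) (2 * (jet r s y t).x) := (In.const (c := 2) (le_refl _) (le_refl _)).mul' h.hx (by norm_num)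
  have h102 : In (782023985460187372239/5000000000000000000000) (1564047997048133866973/10000000000000000000000) ((2 * (jet r s y t).x) * (1 + (fD (jet r s y t)))) := h101.mul' h54 (by norm_num)
  have h103 : In (26532688746239956800499/10000000000000000000000) (13266344891967775805607/5000000000000000000000) (((2 * (jet r s y t).x) * (1 + (fD (jet r s y t)))) * (dD (jet r s y t) (cbb r s))) := h102.mul' h53 (by norm_num)
  have h104 : In (26532688746239956800499/10000000000000000000000) (13266344891967775805607/5000000000000000000000) ((((1 + (fD (jet r s y t))) ^ 2) * (cbb r s).x) + (((2 * (jet r s y t).x) * (1 + (fD (jet r s y t)))) * (dD (jet r s y t) (cbb r s)))) := h100.add' h103 (by norm_num)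
  have h105 : In (26532688746239956800499/10000000000000000000000) (13266344891967775805607/5000000000000000000000) (dP (jet r s y t) (cbb r s)) := In.congr h104 (by unfold dP; ring)
  have h106 : In (7376009803714297329/1000000000000000000000) (7376009825712203819/1000000000000000000000) (2 * (fT (jet r s y t))) := (In.const (c := 2) (le_refl _) (le_refl _)).mul' h.hT (by norm_num)
  have h107 : In (136013801561223567/10000000000000000000000) (136013802372507439/10000000000000000000000) ((fT (jet r s y t)) ^ 2) := h.hT.pow' 2 (by norm_num)
  have h108 : In (73896111838704196857/10000000000000000000000) (73896112059494545629/10000000000000000000000) ((2 * (fT (jet r s y t))) + ((fT (jet r s y t)) ^ 2)) := h106.add' h107 (by norm_num)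
  have h109 : In (38762899455394247564717/10000000000000000000000) (38762901602448691912321/10000000000000000000000) ((dD (jet r s y t) (cbb r s)) / ((1 + (fD (jet r s y t))) ^ 2)) := h53.div' h99 (by norm_num)
  have h110 : In (13250528003145294582739/10000000000000000000000) (3312632541775905768821/2500000000000000000000) (((dD (jet r s y t) (cbb r s)) / ((1 + (fD (jet r s y t))) ^ 2)) - (dY (jet r s y t) (cbb r s))) := h109.sub' h38 (by norm_num)
  have h111 : In (51250562345849937223/2500000000000000000000) (102502587212144233441/5000000000000000000000) ((((dD (jet r s y t) (cbb r s)) / ((1 + (fD (jet r s y t))) ^ 2)) - (dY (jet r s y t) (cbb r s))) - (dS (jet r s y t) (cbb r s))) := h110.sub' h98 (by norm_num)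
  have h112 : In (196066253497367608573/10000000000000000000000) (98033130875675382283/5000000000000000000000) (((2 * (fT (jet r s y t))) + ((fT (jet r s y t)) ^ 2)) * (dP (jet r s y t) (cbb r s))) := h108.mul' h105 (by norm_num)
  have h113 : In (4467993816024492163/5000000000000000000000) (8938920926920858309/10000000000000000000000) (((((dD (jet r s y t) (cbb r s)) / ((1 + (fD (jet r s y t))) ^ 2)) - (dY (jet r s y t) (cbb r s))) - (dS (jet r s y t) (cbb r s))) - (((2 * (fT (jet r s y t))) + ((fT (jet r s y t)) ^ 2)) * (dP (jet r s y t) (cbb r s)))) := h111.sub' h112 (by norm_num)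
  have h114 : In (817989143965984670401/5000000000000000000000) (1635978342242346530439/10000000000000000000000) ((jet r s y t).x * ((1 + (fD (jet r s y t))) ^ 2)) := h.hx.mul' h99 (by norm_num)
  have h115 : In (7376009803714297329/1000000000000000000000) (7376009825712203819/1000000000000000000000) (2 * (fT (jet r s y t))) := (In.const (c := 2) (le_refl _) (le_refl _)).mul' h.hT (by norm_num)
  have h116 : In (2007376009803714297329/1000000000000000000000) (2007376009825712203819/1000000000000000000000) (2 + (2 * (fT (jet r s y t)))) := (In.const (c := 2) (le_refl _) (le_refl _)).add' h115 (by norm_num)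
  have h117 : In (593578276877777905171/10000000000000000000000) (23743131142647173383/400000000000000000000) ((2 + (2 * (fT (jet r s y t)))) * (dT (jet r s y t) (cbb r s))) := h116.mul' h30 (by norm_num)
  have h118 : In (24277029329002889027/2500000000000000000000) (97108120815976384141/10000000000000000000000) (((jet r s y t).x * ((1 + (fD (jet r s y t))) ^ 2)) * ((2 + (2 * (fT (jet r s y t)))) * (dT (jet r s y t) (cbb r s)))) := h114.mul' h117 (by norm_num)
  have h119 : In (-17634426636785479963/2000000000000000000000) (-88169196389090697799/10000000000000000000000) ((((((dD (jet r s y t) (cbb r s)) / ((1 + (fD (jet r s y t))) ^ 2)) - (dY (jet r s y t) (cbb r s))) - (dS (jet r s y t) (cbb r s))) - (((2 * (fT (jet r s y t))) + ((fT (jet r s y t)) ^ 2)) * (dP (jet r s y t) (cbb r s)))) - (((jet r s y t).x * ((1 + (fD (jet r s y t))) ^ 2)) * ((2 + (2 * (fT (jet r s y t)))) * (dT (jet r s y t) (cbb r s))))) := h113.sub' h118 (by norm_num)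
  have h120 : In (-11021516647990924977/2500000000000000000000) (-44084598194545348899/10000000000000000000000) (((((((dD (jet r s y t) (cbb r s)) / ((1 + (fD (jet r s y t))) ^ 2)) - (dY (jet r s y t) (cbb r s))) - (dS (jet r s y t) (cbb r s))) - (((2 * (fT (jet r s y t))) + ((fT (jet r s y t)) ^ 2)) * (dP (jet r s y t) (cbb r s)))) - (((jet r s y t).x * ((1 + (fD (jet r s y t))) ^ 2)) * ((2 + (2 * (fT (jet r s y t)))) * (dT (jet r s y t) (cbb r s))))) / 2) := h119.divN' (In.const (c := 2) (le_refl _) (le_refl _)) (by norm_num)
  have h121 : In (-11021516647990924977/2500000000000000000000) (-44084598194545348899/10000000000000000000000) (dK (jet r s y t) (cbb r s)) := In.congr h120 (by unfold dK; ring)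
  have h122 : In (441797413091071314977/5000000000000000000000) (441800242246410442649/5000000000000000000000) ((Real.exp (fA (jet r s y t))) - 1) := h.heA.sub' (In.const (c := 1) (le_refl _) (le_refl _)) (by norm_num)
  have h123 : In (2732662524472935138111/2500000000000000000000) (437229571106787057017/400000000000000000000) (((Real.exp (fA (jet r s y t))) - 1) * (dA (jet r s y t) (cbb r s))) := h122.mul' h82 (by norm_num)
  have h124 : In (2658737874125824036571/2500000000000000000000) (5317520338559545166653/5000000000000000000000) ((((Real.exp (fA (jet r s y t))) - 1) * (dA (jet r s y t) (cbb r s))) - (dT (jet r s y t) (cbb r s))) := h123.sub' h30 (by norm_num)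
  have h125 : In (2658737874125824036571/2500000000000000000000) (5317520338559545166653/5000000000000000000000) (dM (jet r s y t) (cbb r s)) := In.congr h124 (by unfold dM; ring)
  have h126 : In (-67156428689496693/10000000000000000000000) (33578218961563079/5000000000000000000000) ((fM (jet r s y t)) * (dA (jet r s y t) (cbb r s))) := h.hM.mulG' h82 (by norm_num)
  have h127 : In (25037244257490546031/10000000000000000000000) (2503739806018693571/1000000000000000000000) ((fA (jet r s y t)) * (dT (jet r s y t) (cbb r s))) := h.hA.mul' h30 (by norm_num)
  have h128 : In (-25104554488876432403/10000000000000000000000) (-24970087819567419873/10000000000000000000000) (((fM (jet r s y t)) * (dA (jet r s y t) (cbb r s))) - ((fA (jet r s y t)) * (dT (jet r s y t) (cbb r s)))) := h126.sub' h127 (by norm_num)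
  have h129 : In (-25104554488876432403/10000000000000000000000) (-24970087819567419873/10000000000000000000000) (dG (jet r s y t) (cbb r s)) := In.congr h128 (by unfold dG; ring)
  have h130 : In (-1111636477714017109/2000000000000000000000) (-2764078053634042791/5000000000000000000000) ((fG (jet r s y t)) * (dP (jet r s y t) (cbb r s))) := h.hG.mulG' h105 (by norm_num)
  have h131 : In (-49644248980533785453/10000000000000000000000) (-49612754301813434481/10000000000000000000000) ((dK (jet r s y t) (cbb r s)) + ((fG (jet r s y t)) * (dP (jet r s y t) (cbb r s)))) := h121.add' h130 (by norm_num)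
  have h132 : In (817989143965984670401/5000000000000000000000) (1635978342242346530439/10000000000000000000000) ((jet r s y t).x * ((1 + (fD (jet r s y t))) ^ 2)) := h.hx.mul' h99 (by norm_num)
  have h133 : In (-4107050743544472501/10000000000000000000000) (-1021263038014170723/2500000000000000000000) (((jet r s y t).x * ((1 + (fD (jet r s y t))) ^ 2)) * (dG (jet r s y t) (cbb r s))) := h132.mulN' h129 (by norm_num)
  have h134 : In (-26875649862039128977/5000000000000000000000) (-53697806453870117373/10000000000000000000000) (((dK (jet r s y t) (cbb r s)) + ((fG (jet r s y t)) * (dP (jet r s y t) (cbb r s)))) + (((jet r s y t).x * ((1 + (fD (jet r s y t))) ^ 2)) * (dG (jet r s y t) (cbb r s)))) := h131.add' h133 (by norm_num)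
  have h135 : In (72998352255969/1000000000000000000000) (364991761668451/5000000000000000000000) ((jet r s y t).x ^ 5) := h.hx.pow' 5 (by norm_num)
  have h136 : In (656985170303721/1000000000000000000000) (3284925855016059/5000000000000000000000) (9 * ((jet r s y t).x ^ 5)) := (In.const (c := 9) (le_refl _) (le_refl _)).mul' h135 (by norm_num)
  have h137 : In (5264900012508923752989/2000000000000000000000) (3290563651450366383381/1250000000000000000000) ((fD (jet r s y t)) ^ 11) := h.hD.pow' 11 (by norm_num)
  have h138 : In (1729480615675119/1000000000000000000000) (135115720202817/78125000000000000000) ((9 * ((jet r s y t).x ^ 5)) * ((fD (jet r s y t)) ^ 11)) := h136.mul' h137 (by norm_num)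
  have h139 : In (0) (0) (((9 * ((jet r s y t).x ^ 5)) * ((fD (jet r s y t)) ^ 11)) * (cbb r s).x) := h138.mul' h12 (by norm_num)
  have h140 : In (6822062239829/2500000000000000000000) (27288248994181/10000000000000000000000) ((jet r s y t).x ^ 6) := h.hx.pow' 6 (by norm_num)
  have h141 : In (225128053914357/5000000000000000000000) (450256108403987/10000000000000000000000) ((33/2) * ((jet r s y t).x ^ 6)) := (In.const (c := (33/2)) (le_refl _) (le_refl _)).mul' h140 (by norm_num)
  have h142 : In (12053566797761025608167/5000000000000000000000) (4821428242452463125659/2000000000000000000000) ((fD (jet r s y t)) ^ 10) := h.hD.pow' 10 (by norm_num)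
  have h143 : In (1085438414362659/10000000000000000000000) (1085438758697861/10000000000000000000000) (((33/2) * ((jet r s y t).x ^ 6)) * ((fD (jet r s y t)) ^ 10)) := h141.mul' h142 (by norm_num)
  have h144 : In (4603375365870227/2500000000000000000000) (2301688464671851/1250000000000000000000) ((((33/2) * ((jet r s y t).x ^ 6)) * ((fD (jet r s y t)) ^ 10)) * (dD (jet r s y t) (cbb r s))) := h143.mul' h53 (by norm_num)
  have h145 : In (4603375365870227/2500000000000000000000) (2301688464671851/1250000000000000000000) ((((9 * ((jet r s y t).x ^ 5)) * ((fD (jet r s y t)) ^ 11)) * (cbb r s).x) + ((((33/2) * ((jet r s y t).x ^ 6)) * ((fD (jet r s y t)) ^ 10)) * (dD (jet r s y t) (cbb r s)))) := h139.add' h144 (by norm_num)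
  have h146 : In (4043397659582986401187/2000000000000000000000) (505424835200551417951/250000000000000000000) ((fD (jet r s y t)) ^ 8) := h.hD.pow' 8 (by norm_num)
  have h147 : In (66006136224238423/625000000000000000000) (211219689441008201/2000000000000000000000) (((jet r s y t).x ^ 3) * ((fD (jet r s y t)) ^ 8)) := h40.mul' h146 (by norm_num)
  have h148 : In (0) (0) ((((jet r s y t).x ^ 3) * ((fD (jet r s y t)) ^ 8)) * (cbb r s).x) := h147.mul' h12 (by norm_num)
  have h149 : In (9763835415073939/5000000000000000000000) (19527670846780731/10000000000000000000000) ((jet r s y t).x ^ 4) := h.hx.pow' 4 (by norm_num)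
  have h150 : In (9763835415073939/2500000000000000000000) (19527670846780731/5000000000000000000000) (2 * ((jet r s y t).x ^ 4)) := (In.const (c := 2) (le_refl _) (le_refl _)).mul' h149 (by norm_num)
  have h151 : In (9257035017549920739447/5000000000000000000000) (18514074129813085455059/10000000000000000000000) ((fD (jet r s y t)) ^ 7) := h.hD.pow' 7 (by norm_num)
  have h152 : In (36153666537173407/5000000000000000000000) (1129802330124651/156250000000000000000) ((2 * ((jet r s y t).x ^ 4)) * ((fD (jet r s y t)) ^ 7)) := h150.mul' h151 (by norm_num)
  have h153 : In (61331493605128581/500000000000000000000) (1226630171920684177/10000000000000000000000) (((2 * ((jet r s y t).x ^ 4)) * ((fD (jet r s y t)) ^ 7)) * (dD (jet r s y t) (cbb r s))) := h152.mul' h53 (by norm_num)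
  have h154 : In (61331493605128581/500000000000000000000) (1226630171920684177/10000000000000000000000) (((((jet r s y t).x ^ 3) * ((fD (jet r s y t)) ^ 8)) * (cbb r s).x) + (((2 * ((jet r s y t).x ^ 4)) * ((fD (jet r s y t)) ^ 7)) * (dD (jet r s y t) (cbb r s)))) := h148.add' h153 (by norm_num)
  have h155 : In (-26866443111307388523/5000000000000000000000) (-10735878589230548513/2000000000000000000000) ((((dK (jet r s y t) (cbb r s)) + ((fG (jet r s y t)) * (dP (jet r s y t) (cbb r s)))) + (((jet r s y t).x * ((1 + (fD (jet r s y t))) ^ 2)) * (dG (jet r s y t) (cbb r s)))) + ((((9 * ((jet r s y t).x ^ 5)) * ((fD (jet r s y t)) ^ 11)) * (cbb r s).x) + ((((33/2) * ((jet r s y t).x ^ 6)) * ((fD (jet r s y t)) ^ 10)) * (dD (jet r s y t) (cbb r s))))) := h134.add' h145 (by norm_num)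
  have h156 : In (-54959516394535461223/10000000000000000000000) (-10981204563651062837/2000000000000000000000) (((((dK (jet r s y t) (cbb r s)) + ((fG (jet r s y t)) * (dP (jet r s y t) (cbb r s)))) + (((jet r s y t).x * ((1 + (fD (jet r s y t))) ^ 2)) * (dG (jet r s y t) (cbb r s)))) + ((((9 * ((jet r s y t).x ^ 5)) * ((fD (jet r s y t)) ^ 11)) * (cbb r s).x) + ((((33/2) * ((jet r s y t).x ^ 6)) * ((fD (jet r s y t)) ^ 10)) * (dD (jet r s y t) (cbb r s))))) - (((((jet r s y t).x ^ 3) * ((fD (jet r s y t)) ^ 8)) * (cbb r s).x) + (((2 * ((jet r s y t).x ^ 4)) * ((fD (jet r s y t)) ^ 7)) * (dD (jet r s y t) (cbb r s))))) := h155.sub' h154 (by norm_num)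
  have h157 : In (-54959516394535461223/10000000000000000000000) (-10981204563651062837/2000000000000000000000) (dT0 (jet r s y t) (cbb r s)) := In.congr h156 (by unfold dT0; ring)
  have h158 : In (81091199389312630893617/10000000000000000000000) (4054560127176422500897/500000000000000000000) ((dD (jet r s y t) (cbb r s)) / (1 + (fD (jet r s y t)))) := h53.div' h54 (by norm_num)
  have h159 : In (6804567363555073605977/1000000000000000000000) (34022838775424557704769/5000000000000000000000) (((dD (jet r s y t) (cbb r s)) / (1 + (fD (jet r s y t)))) - (dS (jet r s y t) (cbb r s))) := h158.sub' h98 (by norm_num)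
  have h160 : In (13620115931673798274791/2000000000000000000000) (68100637067243650870761/10000000000000000000000) ((((dD (jet r s y t) (cbb r s)) / (1 + (fD (jet r s y t)))) - (dS (jet r s y t) (cbb r s))) - (dT0 (jet r s y t) (cbb r s))) := h159.sub' h157 (by norm_num)
  have h161 : In (13620115931673798274791/2000000000000000000000) (68100637067243650870761/10000000000000000000000) (dNet (jet r s y t) (cbb r s)) := In.congr h160 (by unfold dNet; ring)
  exact ⟨h125, h161⟩

end K5L
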