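import Pool.Agent.Lib.K5L.NwB

/-!
# K5L.NwT : differentials of the equations on the box of the critical point

Generated file.
-/

set_option autoImplicit false

namespace K5L

open K5N K5C K5S


theorem nw_t {r s y t : ℝ} (h : NwB r s y t) :
    In (780251178726923181371/80000000000000000000) (19506496291560199568531/2000000000000000000000) (dM (jet r s y t) (cb r s 0 0 1)) ∧
    In (900868174357341451282683/10000000000000000000000) (450434462315604090369863/5000000000000000000000) (dNet (jet r s y t) (cb r s 0 0 1)) := by
  have h1 : In (939642792602331227/500000000000000000) (939642792604331227/500000000000000000) (r + s) := h.hr.add' h.hs (by norm_num)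
  have h2 : In (4165194048945482963/16000000000000000000) (130162314031425628179/500000000000000000000) (r * s) := h.hr.mul' h.hs (by norm_num)
  have h3 : In (35317143107580306242277/10000000000000000000000) (17658571553865324544547/5000000000000000000000) ((r + s) ^ 2) := h1.pow' 2 (by norm_num)
  have h4 : In (4740048673521404136769/1250000000000000000000) (18960194694179580826337/5000000000000000000000) (((r + s) ^ 2) + (r * s)) := h3.add' h2 (by norm_num)
  have h5 : In (9871611263331641487839/10000000000000000000000) (2467902815880772600567/2500000000000000000000) ((r * s) * (((r + s) ^ 2) + (r * s))) := h2.mul' h4 (by norm_num)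
  have h6 : In (4165194048945482963/8000000000000000000) (130162314031425628179/250000000000000000000) (2 * (r * s)) := (In.const (c := 2) (le_refl _) (le_refl _)).mul' h2 (by norm_num)
  have h7 : In (489224320985218088667/500000000000000000000) (489224320993322815801/500000000000000000000) ((2 * (r * s)) * (r + s)) := h6.mul' h1 (by norm_num)
  have h8 : In (4165194048945482963/8000000000000000000) (130162314031425628179/250000000000000000000) (2 * (r * s)) := (In.const (c := 2) (le_refl _) (le_refl _)).mul' h2 (by norm_num)
  have h9 : In (40523635668762159946027/10000000000000000000000) (20261817834493837108127/5000000000000000000000) (((r + s) ^ 2) + (2 * (r * s))) := h3.add' h8 (by norm_num)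
  have h10 : In (9912574071951265910371/2500000000000000000000) (39650296288682583792083/10000000000000000000000) (((2 * (r * s)) * (r + s)) * (((r + s) ^ 2) + (2 * (r * s)))) := h7.mul' h9 (by norm_num)
  have h11 : In (31182514932032678266453/2500000000000000000000) (6236502986459632451653/500000000000000000000) ((r + s) ^ 4) := h1.pow' 4 (by norm_num)
  have h12 : In (93547544796098034799359/2500000000000000000000) (18709508959378897354959/500000000000000000000) (3 * ((r + s) ^ 4)) := (In.const (c := 3) (le_refl _) (le_refl _)).mul' h11 (by norm_num)
  have h13 : In (105951429322740918726831/2500000000000000000000) (52975714661595973633641/1250000000000000000000) (12 * ((r + s) ^ 2)) := (In.const (c := 12) (le_refl _) (le_refl _)).mul' h3 (by norm_num)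
  have h14 : In (110327065723087104264299/10000000000000000000000) (55163532862574831781679/5000000000000000000000) ((12 * ((r + s) ^ 2)) * (r * s)) := h13.mul' h2 (by norm_num)
  have h15 : In (96903448981495848692347/2000000000000000000000) (242258622456363805331269/5000000000000000000000) ((3 * ((r + s) ^ 4)) + ((12 * ((r + s) ^ 2)) * (r * s))) := h12.add' h14 (by norm_num)
  have h16 : In (338844559870524732907/5000000000000000000000) (135537823952123687731/2000000000000000000000) ((r * s) ^ 2) := h2.pow' 2 (by norm_num)
  have h17 : In (338844559870524732907/1250000000000000000000) (135537823952123687731/500000000000000000000) (4 * ((r * s) ^ 2)) := (In.const (c := 4) (le_refl _) (le_refl _)).mul' h16 (by norm_num)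
  have h18 : In (487228001386443441324991/10000000000000000000000) (243614000695885042208579/5000000000000000000000) (((3 * ((r + s) ^ 4)) + ((12 * ((r + s) ^ 2)) * (r * s))) + (4 * ((r * s) ^ 2))) := h15.add' h17 (by norm_num)
  have h19 : In (3963670257528155750201/312500000000000000000) (7927340515257432594231/625000000000000000000) ((r * s) * (((3 * ((r + s) ^ 4)) + ((12 * ((r + s) ^ 2)) * (r * s))) + (4 * ((r * s) ^ 2)))) := h2.mul' h18 (by norm_num)
  have h20 : In (0) (0) ((cb r s 0 0 1).x) := In.congr (In.const (c := 0) (le_refl _) (le_refl _)) (by first | rfl | (simp only [cb, a1, a2, a3, c1, c2, c3, e1, e2, e3]; ring))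
  have h21 : In (0) (0) ((cb r s 0 0 1).y) := In.congr (In.const (c := 0) (le_refl _) (le_refl _)) (by first | rfl | (simp only [cb, a1, a2, a3, c1, c2, c3, e1, e2, e3]; ring))
  have h22 : In (1) (1) ((cb r s 0 0 1).t) := In.congr (In.const (c := 1) (le_refl _) (le_refl _)) (by first | rfl | (simp only [cb, a1, a2, a3, c1, c2, c3, e1, e2, e3]; ring))
  have h23 : In (9871611263331641487839/10000000000000000000000) (2467902815880772600567/2500000000000000000000) ((cb r s 0 0 1).u) := In.congr h5 (by first | rfl | (simp only [cb, a1, a2, a3, c1, c2, c3, e1, e2, e3]; ring))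
  have h24 : In (9912574071951265910371/2500000000000000000000) (39650296288682583792083/10000000000000000000000) ((cb r s 0 0 1).v) := In.congr h10 (by first | rfl | (simp only [cb, a1, a2, a3, c1, c2, c3, e1, e2, e3]; ring))
  have h25 : In (3963670257528155750201/312500000000000000000) (7927340515257432594231/625000000000000000000) ((cb r s 0 0 1).w) := In.congr h19 (by first | rfl | (simp only [cb, a1, a2, a3, c1, c2, c3, e1, e2, e3]; ring))
  have h26 : In (1419957436771832172479/625000000000000000000) (22719319005392968638219/10000000000000000000000) ((fk (jet r s y t)) ^ 2) := h.hk.pow' 2 (by norm_num)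
  have h27 : In (8561167074440449891377/2500000000000000000000) (8561167084074116850019/2500000000000000000000) ((fk (jet r s y t)) ^ 3) := h.hk.pow' 3 (by norm_num)
  have h28 : In (2580837276471848655241/500000000000000000000) (25808372803440507486323/5000000000000000000000) ((fk (jet r s y t)) ^ 4) := h.hk.pow' 4 (by norm_num)
  have h29 : In (0) (0) ((fk (jet r s y t)) * (cb r s 0 0 1).x) := h.hk.mul' h20 (by norm_num)
  have h30 : In (9871611263331641487839/10000000000000000000000) (2467902815880772600567/2500000000000000000000) ((cb r s 0 0 1).u - ((fk (jet r s y t)) * (cb r s 0 0 1).x)) := h23.sub' h29 (by norm_num)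
  have h31 : In (264073871964294513231027/10000000000000000000000) (264073872025647700176917/10000000000000000000000) (((cb r s 0 0 1).u - ((fk (jet r s y t)) * (cb r s 0 0 1).x)) / (jet r s y t).x) := h30.div' h.hx (by norm_num)
  have h32 : In (264073871964294513231027/10000000000000000000000) (264073872025647700176917/10000000000000000000000) (dk (jet r s y t) (cb r s 0 0 1)) := In.congr h31 (by unfold dk; ring)
  have h33 : In (8561167074440449891377/2500000000000000000000) (8561167084074116850019/2500000000000000000000) (((fk (jet r s y t)) ^ 3) * (cb r s 0 0 1).t) := h27.mul' h22 (by norm_num)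
  have h34 : In (1615436103712323/500000000000000000) (1615436106712323/500000000000000000) (3 * (jet r s y t).t) := (In.const (c := 3) (le_refl _) (le_refl _)).mul' h.ht (by norm_num)
  have h35 : In (14680643258214565159/2000000000000000000000) (36701608241227303729/5000000000000000000000) ((3 * (jet r s y t).t) * ((fk (jet r s y t)) ^ 2)) := h34.mul' h26 (by norm_num)
  have h36 : In (969193577030809128679/5000000000000000000000) (484596789891465798601/2500000000000000000000) (((3 * (jet r s y t).t) * ((fk (jet r s y t)) ^ 2)) * (dk (jet r s y t) (cb r s 0 0 1))) := h35.mul' h32 (by norm_num)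
  have h37 : In (18091527725911708911433/5000000000000000000000) (452288193698279132431/125000000000000000000) ((((fk (jet r s y t)) ^ 3) * (cb r s 0 0 1).t) + (((3 * (jet r s y t).t) * ((fk (jet r s y t)) ^ 2)) * (dk (jet r s y t) (cb r s 0 0 1)))) := h33.add' h36 (by norm_num)
  have h38 : In (18091527725911708911433/5000000000000000000000) (452288193698279132431/125000000000000000000) (dT (jet r s y t) (cb r s 0 0 1)) := In.congr h37 (by unfold dT; ring)
  have h39 : In (0) (0) (((fk (jet r s y t)) ^ 2) * (cb r s 0 0 1).y) := h26.mul' h21 (by norm_num)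
  have h40 : In (205212204789913531/500000000000000000) (205212204791913531/500000000000000000) (2 * (jet r s y t).y) := (In.const (c := 2) (le_refl _) (le_refl _)).mul' h.hy (by norm_num)
  have h41 : In (6186298002406396556429/10000000000000000000000) (1546574501196779255659/2500000000000000000000) ((2 * (jet r s y t).y) * (fk (jet r s y t))) := h40.mul' h.hk (by norm_num)
  have h42 : In (81681983331021883737491/5000000000000000000000) (40840991690716821107911/2500000000000000000000) (((2 * (jet r s y t).y) * (fk (jet r s y t))) * (dk (jet r s y t) (cb r s 0 0 1))) := h41.mul' h32 (by norm_num)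
  have h43 : In (81681983331021883737491/5000000000000000000000) (40840991690716821107911/2500000000000000000000) ((((fk (jet r s y t)) ^ 2) * (cb r s 0 0 1).y) + (((2 * (jet r s y t).y) * (fk (jet r s y t))) * (dk (jet r s y t) (cb r s 0 0 1)))) := h39.add' h42 (by norm_num)
  have h44 : In (18091527725911708911433/2500000000000000000000) (452288193698279132431/62500000000000000000) (2 * (dT (jet r s y t) (cb r s 0 0 1))) := (In.const (c := 2) (le_refl _) (le_refl _)).mul' h38 (by norm_num)
  have h45 : In (117865038782845301560357/5000000000000000000000) (58932519438647986405151/2500000000000000000000) (((((fk (jet r s y t)) ^ 2) * (cb r s 0 0 1).y) + (((2 * (jet r s y t).y) * (fk (jet r s y t))) * (dk (jet r s y t) (cb r s 0 0 1)))) + (2 * (dT (jet r s y t) (cb r s 0 0 1)))) := h43.add' h44 (by norm_num)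
  have h46 : In (117865038782845301560357/5000000000000000000000) (58932519438647986405151/2500000000000000000000) (dY (jet r s y t) (cb r s 0 0 1)) := In.congr h45 (by unfold dY; ring)
  have h47 : In (69870721389842323/50000000000000000000) (13974144283919760233/10000000000000000000000) ((jet r s y t).x ^ 2) := h.hx.pow' 2 (by norm_num)
  have h48 : In (65297694445463897/1250000000000000000000) (522381555897418237/10000000000000000000000) ((jet r s y t).x ^ 3) := h.hx.pow' 3 (by norm_num)
  have h49 : In (10459898406883688538349/5000000000000000000000) (20919797158782448717417/10000000000000000000000) ((fD (jet r s y t)) + 1) := h.hD.add' (In.const (c := 1) (le_refl _) (le_refl _)) (by norm_num)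
  have h50 : In (17452238017518538479063/10000000000000000000000) (139617904247977281347/80000000000000000000) ((cb r s 0 0 1).v / ((fk (jet r s y t)) ^ 2)) := h24.div' h26 (by norm_num)
  have h51 : In (915710543600060874839/5000000000000000000000) (228927635949835177477/1250000000000000000000) (2 * (jet r s y t).v) := (In.const (c := 2) (le_refl _) (le_refl _)).mul' h.hv (by norm_num)
  have h52 : In (106960947567944144837/2000000000000000000000) (106960947711581802043/2000000000000000000000) ((2 * (jet r s y t).v) / ((fk (jet r s y t)) ^ 3)) := h51.div' h27 (by norm_num)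
  have h53 : In (564911831464738014173/400000000000000000000) (1412279580886512401389/1000000000000000000000) (((2 * (jet r s y t).v) / ((fk (jet r s y t)) ^ 3)) * (dk (jet r s y t) (cb r s 0 0 1))) := h52.mul' h32 (by norm_num)
  have h54 : In (3329442208653414465173/10000000000000000000000) (66588844887574196281/200000000000000000000) (((cb r s 0 0 1).v / ((fk (jet r s y t)) ^ 2)) - (((2 * (jet r s y t).v) / ((fk (jet r s y t)) ^ 3)) * (dk (jet r s y t) (cb r s 0 0 1)))) := h50.sub' h53 (by norm_num)
  have h55 : In (3329442208653414465173/10000000000000000000000) (66588844887574196281/200000000000000000000) ((((cb r s 0 0 1).v / ((fk (jet r s y t)) ^ 2)) - (((2 * (jet r s y t).v) / ((fk (jet r s y t)) ^ 3)) * (dk (jet r s y t) (cb r s 0 0 1)))) - (cb r s 0 0 1).x) := h54.sub' h20 (by norm_num)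
  have h56 : In (1191286615125567776504353/5000000000000000000000) (1191286628415553329854617/5000000000000000000000) (((((cb r s 0 0 1).v / ((fk (jet r s y t)) ^ 2)) - (((2 * (jet r s y t).v) / ((fk (jet r s y t)) ^ 3)) * (dk (jet r s y t) (cb r s 0 0 1)))) - (cb r s 0 0 1).x) / ((jet r s y t).x ^ 2)) := h55.div' h47 (by norm_num)
  have h57 : In (10459898406883688538349/2500000000000000000000) (20919797158782448717417/5000000000000000000000) (2 * ((fD (jet r s y t)) + 1)) := (In.const (c := 2) (le_refl _) (le_refl _)).mul' h49 (by norm_num)
  have h58 : In (0) (0) ((2 * ((fD (jet r s y t)) + 1)) * (cb r s 0 0 1).x) := h57.mul' h20 (by norm_num)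
  have h59 : In (0) (0) (((2 * ((fD (jet r s y t)) + 1)) * (cb r s 0 0 1).x) / (jet r s y t).x) := h58.div' h.hx (by norm_num)
  have h60 : In (1191286615125567776504353/5000000000000000000000) (1191286628415553329854617/5000000000000000000000) ((((((cb r s 0 0 1).v / ((fk (jet r s y t)) ^ 2)) - (((2 * (jet r s y t).v) / ((fk (jet r s y t)) ^ 3)) * (dk (jet r s y t) (cb r s 0 0 1)))) - (cb r s 0 0 1).x) / ((jet r s y t).x ^ 2)) - (((2 * ((fD (jet r s y t)) + 1)) * (cb r s 0 0 1).x) / (jet r s y t).x)) := h56.sub' h59 (by norm_num)
  have h61 : In (1191286615125567776504353/5000000000000000000000) (1191286628415553329854617/5000000000000000000000) (dD (jet r s y t) (cb r s 0 0 1)) := In.congr h60 (by unfold dD; ring)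
  have h62 : In (10459898406883688538349/5000000000000000000000) (20919797158782448717417/10000000000000000000000) (1 + (fD (jet r s y t))) := (In.const (c := 1) (le_refl _) (le_refl _)).add' h.hD (by norm_num)
  have h63 : In (7407719473017290684389/2000000000000000000000) (37038597407704749760647/10000000000000000000000) ((cb r s 0 0 1).w / ((fk (jet r s y t)) ^ 3)) := h25.div' h27 (by norm_num)
  have h64 : In (479486403704012686047/1000000000000000000000) (47948640384473281047/100000000000000000000) (3 * (jet r s y t).w) := (In.const (c := 3) (le_refl _) (le_refl _)).mul' h.hw (by norm_num)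
  have h65 : In (928935751501722878669/10000000000000000000000) (464467876584046007559/5000000000000000000000) ((3 * (jet r s y t).w) / ((fk (jet r s y t)) ^ 4)) := h64.div' h28 (by norm_num)
  have h66 : In (24530766070512167205663/10000000000000000000000) (24530766120215939096537/10000000000000000000000) (((3 * (jet r s y t).w) / ((fk (jet r s y t)) ^ 4)) * (dk (jet r s y t) (cb r s 0 0 1))) := h65.mul' h32 (by norm_num)
  have h67 : In (390869726402203572669/312500000000000000000) (1563478917149072819373/1250000000000000000000) (((cb r s 0 0 1).w / ((fk (jet r s y t)) ^ 3)) - (((3 * (jet r s y t).w) / ((fk (jet r s y t)) ^ 4)) * (dk (jet r s y t) (cb r s 0 0 1)))) := h63.sub' h66 (by norm_num)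
  have h68 : In (209612164169526969/50000000000000000000) (41922432851759280699/10000000000000000000000) (3 * ((jet r s y t).x ^ 2)) := (In.const (c := 3) (le_refl _) (le_refl _)).mul' h47 (by norm_num)
  have h69 : In (998832662170642409737/1000000000000000000000) (1997665347477989757551/2000000000000000000000) ((3 * ((jet r s y t).x ^ 2)) * (dD (jet r s y t) (cb r s 0 0 1))) := h68.mul' h61 (by norm_num)
  have h70 : In (2519504507480565537653/10000000000000000000000) (1259752357743079228807/5000000000000000000000) ((((cb r s 0 0 1).w / ((fk (jet r s y t)) ^ 3)) - (((3 * (jet r s y t).w) / ((fk (jet r s y t)) ^ 4)) * (dk (jet r s y t) (cb r s 0 0 1)))) - ((3 * ((jet r s y t).x ^ 2)) * (dD (jet r s y t) (cb r s 0 0 1)))) := h67.sub' h69 (by norm_num)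
  have h71 : In (112146020215483429971/500000000000000000000) (280365050598409379037/1250000000000000000000) (6 * (jet r s y t).x) := (In.const (c := 6) (le_refl _) (le_refl _)).mul' h.hx (by norm_num)
  have h72 : In (938428782552224846687/2000000000000000000000) (4692143991144401600919/10000000000000000000000) ((6 * (jet r s y t).x) * (1 + (fD (jet r s y t)))) := h71.mul' h62 (by norm_num)
  have h73 : In (0) (0) (((6 * (jet r s y t).x) * (1 + (fD (jet r s y t)))) * (cb r s 0 0 1).x) := h72.mul' h20 (by norm_num)
  have h74 : In (2519504507480565537653/10000000000000000000000) (1259752357743079228807/5000000000000000000000) (((((cb r s 0 0 1).w / ((fk (jet r s y t)) ^ 3)) - (((3 * (jet r s y t).w) / ((fk (jet r s y t)) ^ 4)) * (dk (jet r s y t) (cb r s 0 0 1)))) - ((3 * ((jet r s y t).x ^ 2)) * (dD (jet r s y t) (cb r s 0 0 1)))) - (((6 * (jet r s y t).x) * (1 + (fD (jet r s y t)))) * (cb r s 0 0 1).x)) := h70.sub' h73 (by norm_num)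
  have h75 : In (2519504507480565537653/10000000000000000000000) (1259752357743079228807/5000000000000000000000) ((((((cb r s 0 0 1).w / ((fk (jet r s y t)) ^ 3)) - (((3 * (jet r s y t).w) / ((fk (jet r s y t)) ^ 4)) * (dk (jet r s y t) (cb r s 0 0 1)))) - ((3 * ((jet r s y t).x ^ 2)) * (dD (jet r s y t) (cb r s 0 0 1)))) - (((6 * (jet r s y t).x) * (1 + (fD (jet r s y t)))) * (cb r s 0 0 1).x)) - (cb r s 0 0 1).x) := h74.sub' h20 (by norm_num)
  have h76 : In (9646223068317246721370179/2000000000000000000000) (12057779838567023851535671/2500000000000000000000) (((((((cb r s 0 0 1).w / ((fk (jet r s y t)) ^ 3)) - (((3 * (jet r s y t).w) / ((fk (jet r s y t)) ^ 4)) * (dk (jet r s y t) (cb r s 0 0 1)))) - ((3 * ((jet r s y t).x ^ 2)) * (dD (jet r s y t) (cb r s 0 0 1)))) - (((6 * (jet r s y t).x) * (1 + (fD (jet r s y t)))) * (cb r s 0 0 1).x)) - (cb r s 0 0 1).x) / ((jet r s y t).x ^ 3)) := h75.div' h48 (by norm_num)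
  have h77 : In (298927615002423919263207/10000000000000000000000) (29892774300275283342057/1000000000000000000000) (3 * (fN (jet r s y t))) := (In.const (c := 3) (le_refl _) (le_refl _)).mul' h.hN (by norm_num)
  have h78 : In (0) (0) ((3 * (fN (jet r s y t))) * (cb r s 0 0 1).x) := h77.mul' h20 (by norm_num)
  have h79 : In (0) (0) (((3 * (fN (jet r s y t))) * (cb r s 0 0 1).x) / (jet r s y t).x) := h78.div' h.hx (by norm_num)
  have h80 : In (9646223068317246721370179/2000000000000000000000) (12057779838567023851535671/2500000000000000000000) ((((((((cb r s 0 0 1).w / ((fk (jet r s y t)) ^ 3)) - (((3 * (jet r s y t).w) / ((fk (jet r s y t)) ^ 4)) * (dk (jet r s y t) (cb r s 0 0 1)))) - ((3 * ((jet r s y t).x ^ 2)) * (dD (jet r s y t) (cb r s 0 0 1)))) - (((6 * (jet r s y t).x) * (1 + (fD (jet r s y t)))) * (cb r s 0 0 1).x)) - (cb r s 0 0 1).x) / ((jet r s y t).x ^ 3)) - (((3 * (fN (jet r s y t))) * (cb r s 0 0 1).x) / (jet r s y t).x)) := h76.sub' h79 (by norm_num)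
  have h81 : In (9646223068317246721370179/2000000000000000000000) (12057779838567023851535671/2500000000000000000000) (dN (jet r s y t) (cb r s 0 0 1)) := In.congr h80 (by unfold dN; ring)
  have h82 : In (91552959194213049849083/10000000000000000000000) (1430515058186925844353/156250000000000000000) ((1 + (fD (jet r s y t))) ^ 3) := h62.pow' 3 (by norm_num)
  have h83 : In (658513845152591793696811/1250000000000000000000) (1053622292032188627434017/2000000000000000000000) ((dN (jet r s y t) (cb r s 0 0 1)) / ((1 + (fD (jet r s y t))) ^ 3)) := h81.div' h82 (by norm_num)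
  have h84 : In (298927615002423919263207/10000000000000000000000) (29892774300275283342057/1000000000000000000000) (3 * (fN (jet r s y t))) := (In.const (c := 3) (le_refl _) (le_refl _)).mul' h.hN (by norm_num)
  have h85 : In (71221693328759296705140561/10000000000000000000000) (35610862310162043663375567/5000000000000000000000) ((3 * (fN (jet r s y t))) * (dD (jet r s y t) (cb r s 0 0 1))) := h84.mul' h61 (by norm_num)
  have h86 : In (95763465202103642523269/5000000000000000000000) (191526943039067907737451/10000000000000000000000) ((1 + (fD (jet r s y t))) ^ 4) := h62.pow' 4 (by norm_num)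
  have h87 : In (1859312642875300467458379/5000000000000000000000) (3718627164859504002175289/10000000000000000000000) (((3 * (fN (jet r s y t))) * (dD (jet r s y t) (cb r s 0 0 1))) / ((1 + (fD (jet r s y t))) ^ 4)) := h85.div' h86 (by norm_num)
  have h88 : In (1549483596361230347399199/10000000000000000000000) (1549486174410342202253327/10000000000000000000000) (((dN (jet r s y t) (cb r s 0 0 1)) / ((1 + (fD (jet r s y t))) ^ 3)) - (((3 * (fN (jet r s y t))) * (dD (jet r s y t) (cb r s 0 0 1))) / ((1 + (fD (jet r s y t))) ^ 4))) := h83.sub' h87 (by norm_num)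
  have h89 : In (1513300540865368016804719/10000000000000000000000) (1513303118958518784430461/10000000000000000000000) ((((dN (jet r s y t) (cb r s 0 0 1)) / ((1 + (fD (jet r s y t))) ^ 3)) - (((3 * (fN (jet r s y t))) * (dD (jet r s y t) (cb r s 0 0 1))) / ((1 + (fD (jet r s y t))) ^ 4))) - (dT (jet r s y t) (cb r s 0 0 1))) := h88.sub' h38 (by norm_num)
  have h90 : In (1513300540865368016804719/10000000000000000000000) (1513303118958518784430461/10000000000000000000000) (dA (jet r s y t) (cb r s 0 0 1)) := In.congr h89 (by unfold dA; ring)
  have h91 : In (408203918075242605669/10000000000000000000000) (408203931059521094771/10000000000000000000000) ((jet r s y t).x * (fD (jet r s y t))) := h.hx.mul' h.hD (by norm_num)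
  have h92 : In (10408203918075242605669/10000000000000000000000) (10408203931059521094771/10000000000000000000000) (1 + ((jet r s y t).x * (fD (jet r s y t)))) := (In.const (c := 1) (le_refl _) (le_refl _)).add' h91 (by norm_num)
  have h93 : In (5962098122698208024129/5000000000000000000000) (372631156215478873519/312500000000000000000) ((fD (jet r s y t)) ^ 2) := h.hD.pow' 2 (by norm_num)
  have h94 : In (0) (0) (((fD (jet r s y t)) ^ 2) * (cb r s 0 0 1).x) := h93.mul' h20 (by norm_num)
  have h95 : In (37382006738494476657/500000000000000000000) (93455016866136459679/1250000000000000000000) (2 * (jet r s y t).x) := (In.const (c := 2) (le_refl _) (le_refl _)).mul' h.hx (by norm_num)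
  have h96 : In (408203918075242605669/5000000000000000000000) (816407862119042189541/10000000000000000000000) ((2 * (jet r s y t).x) * (fD (jet r s y t))) := h95.mul' h.hD (by norm_num)
  have h97 : In (19451514553794013494571/1000000000000000000000) (194515153895148742038219/10000000000000000000000) (((2 * (jet r s y t).x) * (fD (jet r s y t))) * (dD (jet r s y t) (cb r s 0 0 1))) := h96.mul' h61 (by norm_num)
  have h98 : In (19451514553794013494571/1000000000000000000000) (194515153895148742038219/10000000000000000000000) ((((fD (jet r s y t)) ^ 2) * (cb r s 0 0 1).x) + (((2 * (jet r s y t).x) * (fD (jet r s y t))) * (dD (jet r s y t) (cb r s 0 0 1)))) := h94.add' h97 (by norm_num)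
  have h99 : In (1495090963446479125749/80000000000000000000) (186886378693395004089433/10000000000000000000000) (((((fD (jet r s y t)) ^ 2) * (cb r s 0 0 1).x) + (((2 * (jet r s y t).x) * (fD (jet r s y t))) * (dD (jet r s y t) (cb r s 0 0 1)))) / (1 + ((jet r s y t).x * (fD (jet r s y t))))) := h98.div' h92 (by norm_num)
  have h100 : In (0) (0) ((fD (jet r s y t)) * (cb r s 0 0 1).x) := h.hD.mul' h20 (by norm_num)
  have h101 : In (3562614741928180060827/400000000000000000000) (44532684780391349555679/5000000000000000000000) ((jet r s y t).x * (dD (jet r s y t) (cb r s 0 0 1))) := h.hx.mul' h61 (by norm_num)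
  have h102 : In (3562614741928180060827/400000000000000000000) (44532684780391349555679/5000000000000000000000) (((fD (jet r s y t)) * (cb r s 0 0 1).x) + ((jet r s y t).x * (dD (jet r s y t) (cb r s 0 0 1)))) := h100.add' h101 (by norm_num)
  have h103 : In (3814387432235888138981/10000000000000000000000) (3814387722206108313139/10000000000000000000000) ((fS (jet r s y t)) * (((fD (jet r s y t)) * (cb r s 0 0 1).x) + ((jet r s y t).x * (dD (jet r s y t) (cb r s 0 0 1))))) := h.hS.mul' h102 (by norm_num)
  have h104 : In (146591571706362443751/400000000000000000000) (916197393957163023333/2500000000000000000000) (((fS (jet r s y t)) * (((fD (jet r s y t)) * (cb r s 0 0 1).x) + ((jet r s y t).x * (dD (jet r s y t) (cb r s 0 0 1))))) / (1 + ((jet r s y t).x * (fD (jet r s y t))))) := h103.div' h92 (by norm_num)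
  have h105 : In (183221580854981238625293/10000000000000000000000) (91610794700367971497829/5000000000000000000000) ((((((fD (jet r s y t)) ^ 2) * (cb r s 0 0 1).x) + (((2 * (jet r s y t).x) * (fD (jet r s y t))) * (dD (jet r s y t) (cb r s 0 0 1)))) / (1 + ((jet r s y t).x * (fD (jet r s y t))))) - (((fS (jet r s y t)) * (((fD (jet r s y t)) * (cb r s 0 0 1).x) + ((jet r s y t).x * (dD (jet r s y t) (cb r s 0 0 1))))) / (1 + ((jet r s y t).x * (fD (jet r s y t)))))) := h99.sub' h104 (by norm_num)
  have h106 : In (183221580854981238625293/10000000000000000000000) (91610794700367971497829/5000000000000000000000) (dS (jet r s y t) (cb r s 0 0 1)) := In.congr h105 (by unfold dS; ring)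
  have h107 : In (21881894936465585100827/5000000000000000000000) (21881895658230110693721/5000000000000000000000) ((1 + (fD (jet r s y t))) ^ 2) := h62.pow' 2 (by norm_num)
  have h108 : In (0) (0) (((1 + (fD (jet r s y t))) ^ 2) * (cb r s 0 0 1).x) := h107.mul' h20 (by norm_num)
  have h109 : In (37382006738494476657/500000000000000000000) (93455016866136459679/1250000000000000000000) (2 * (jet r s y t).x) := (In.const (c := 2) (le_refl _) (le_refl _)).mul' h.hx (by norm_num)
  have h110 : In (782023985460187372239/5000000000000000000000) (1564047997048133866973/10000000000000000000000) ((2 * (jet r s y t).x) * (1 + (fD (jet r s y t)))) := h109.mul' h62 (by norm_num)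
  have h111 : In (18632294131717456899353/500000000000000000000) (372645893016714140260933/10000000000000000000000) (((2 * (jet r s y t).x) * (1 + (fD (jet r s y t)))) * (dD (jet r s y t) (cb r s 0 0 1))) := h110.mul' h61 (by norm_num)
  have h112 : In (18632294131717456899353/500000000000000000000) (372645893016714140260933/10000000000000000000000) ((((1 + (fD (jet r s y t))) ^ 2) * (cb r s 0 0 1).x) + (((2 * (jet r s y t).x) * (1 + (fD (jet r s y t)))) * (dD (jet r s y t) (cb r s 0 0 1)))) := h108.add' h111 (by norm_num)
  have h113 : In (18632294131717456899353/500000000000000000000) (372645893016714140260933/10000000000000000000000) (dP (jet r s y t) (cb r s 0 0 1)) := In.congr h112 (by unfold dP; ring)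
  have h114 : In (7376009803714297329/1000000000000000000000) (7376009825712203819/1000000000000000000000) (2 * (fT (jet r s y t))) := (In.const (c := 2) (le_refl _) (le_refl _)).mul' h.hT (by norm_num)
  have h115 : In (136013801561223567/10000000000000000000000) (136013802372507439/10000000000000000000000) ((fT (jet r s y t)) ^ 2) := h.hT.pow' 2 (by norm_num)
  have h116 : In (73896111838704196857/10000000000000000000000) (73896112059494545629/10000000000000000000000) ((2 * (fT (jet r s y t))) + ((fT (jet r s y t)) ^ 2)) := h114.add' h115 (by norm_num)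
  have h117 : In (544416550436071076477367/10000000000000000000000) (544416574466915311435033/10000000000000000000000) ((dD (jet r s y t) (cb r s 0 0 1)) / ((1 + (fD (jet r s y t))) ^ 2)) := h61.div' h107 (by norm_num)
  have h118 : In (308686472681479130856763/10000000000000000000000) (308686496901224708314319/10000000000000000000000) (((dD (jet r s y t) (cb r s 0 0 1)) / ((1 + (fD (jet r s y t))) ^ 2)) - (dY (jet r s y t) (cb r s 0 0 1))) := h117.sub' h46 (by norm_num)
  have h119 : In (25092976656148637572221/2000000000000000000000) (62732458023121734844513/5000000000000000000000) ((((dD (jet r s y t) (cb r s 0 0 1)) / ((1 + (fD (jet r s y t))) ^ 2)) - (dY (jet r s y t) (cb r s 0 0 1))) - (dS (jet r s y t) (cb r s 0 0 1))) := h118.sub' h106 (by norm_num)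
  have h120 : In (550741636387610040407/2000000000000000000000) (22029666135098819253/80000000000000000000) (((2 * (fT (jet r s y t))) + ((fT (jet r s y t)) ^ 2)) * (dP (jet r s y t) (cb r s 0 0 1))) := h116.mul' h113 (by norm_num)
  have h121 : In (1533889687673197943181/125000000000000000000) (122711207864305419486991/10000000000000000000000) (((((dD (jet r s y t) (cb r s 0 0 1)) / ((1 + (fD (jet r s y t))) ^ 2)) - (dY (jet r s y t) (cb r s 0 0 1))) - (dS (jet r s y t) (cb r s 0 0 1))) - (((2 * (fT (jet r s y t))) + ((fT (jet r s y t)) ^ 2)) * (dP (jet r s y t) (cb r s 0 0 1)))) := h119.sub' h120 (by norm_num)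
  have h122 : In (817989143965984670401/5000000000000000000000) (1635978342242346530439/10000000000000000000000) ((jet r s y t).x * ((1 + (fD (jet r s y t))) ^ 2)) := h.hx.mul' h107 (by norm_num)
  have h123 : In (7376009803714297329/1000000000000000000000) (7376009825712203819/1000000000000000000000) (2 * (fT (jet r s y t))) := (In.const (c := 2) (le_refl _) (le_refl _)).mul' h.hT (by norm_num)
  have h124 : In (2007376009803714297329/1000000000000000000000) (2007376009825712203819/1000000000000000000000) (2 + (2 * (fT (jet r s y t)))) := (In.const (c := 2) (le_refl _) (le_refl _)).add' h123 (by norm_num)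
  have h125 : In (36316498737693911614841/5000000000000000000000) (3631649878229321584829/500000000000000000000) ((2 + (2 * (fT (jet r s y t)))) * (dT (jet r s y t) (cb r s 0 0 1))) := h124.mul' h38 (by norm_num)
  have h126 : In (2970650171428800562139/2500000000000000000000) (11882601094780450339783/10000000000000000000000) (((jet r s y t).x * ((1 + (fD (jet r s y t))) ^ 2)) * ((2 + (2 * (fT (jet r s y t)))) * (dT (jet r s y t) (cb r s 0 0 1)))) := h122.mul' h125 (by norm_num)
  have h127 : In (110828573919075385114697/10000000000000000000000) (22165721435718043447687/2000000000000000000000) ((((((dD (jet r s y t) (cb r s 0 0 1)) / ((1 + (fD (jet r s y t))) ^ 2)) - (dY (jet r s y t) (cb r s 0 0 1))) - (dS (jet r s y t) (cb r s 0 0 1))) - (((2 * (fT (jet r s y t))) + ((fT (jet r s y t)) ^ 2)) * (dP (jet r s y t) (cb r s 0 0 1)))) - (((jet r s y t).x * ((1 + (fD (jet r s y t))) ^ 2)) * ((2 + (2 * (fT (jet r s y t)))) * (dT (jet r s y t) (cb r s 0 0 1))))) := h121.sub' h126 (by norm_num)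
  have h128 : In (13853571739884423139337/2500000000000000000000) (27707151794647554309609/5000000000000000000000) (((((((dD (jet r s y t) (cb r s 0 0 1)) / ((1 + (fD (jet r s y t))) ^ 2)) - (dY (jet r s y t) (cb r s 0 0 1))) - (dS (jet r s y t) (cb r s 0 0 1))) - (((2 * (fT (jet r s y t))) + ((fT (jet r s y t)) ^ 2)) * (dP (jet r s y t) (cb r s 0 0 1)))) - (((jet r s y t).x * ((1 + (fD (jet r s y t))) ^ 2)) * ((2 + (2 * (fT (jet r s y t)))) * (dT (jet r s y t) (cb r s 0 0 1))))) / 2) := h127.div' (In.const (c := 2) (le_refl _) (le_refl _)) (by norm_num)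
  have h129 : In (13853571739884423139337/2500000000000000000000) (27707151794647554309609/5000000000000000000000) (dK (jet r s y t) (cb r s 0 0 1)) := In.congr h128 (by unfold dK; ring)
  have h130 : In (441797413091071314977/5000000000000000000000) (441800242246410442649/5000000000000000000000) ((Real.exp (fA (jet r s y t))) - 1) := h.heA.sub' (In.const (c := 1) (le_refl _) (le_refl _)) (by norm_num)
  have h131 : In (26742890567345545653171/2000000000000000000000) (133715536909624415665521/10000000000000000000000) (((Real.exp (fA (jet r s y t))) - 1) * (dA (jet r s y t) (cb r s 0 0 1))) := h130.mul' h90 (by norm_num)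
  have h132 : In (780251178726923181371/80000000000000000000) (19506496291560199568531/2000000000000000000000) ((((Real.exp (fA (jet r s y t))) - 1) * (dA (jet r s y t) (cb r s 0 0 1))) - (dT (jet r s y t) (cb r s 0 0 1))) := h131.sub' h38 (by norm_num)
  have h133 : In (780251178726923181371/80000000000000000000) (19506496291560199568531/2000000000000000000000) (dM (jet r s y t) (cb r s 0 0 1)) := In.congr h132 (by unfold dM; ring)
  have h134 : In (-821523383829476017/10000000000000000000000) (102690437098037391/1250000000000000000000) ((fM (jet r s y t)) * (dA (jet r s y t) (cb r s 0 0 1))) := h.hM.mulG' h90 (by norm_num)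
  have h135 : In (3063673604280885283219/10000000000000000000000) (612738483868353220041/2000000000000000000000) ((fA (jet r s y t)) * (dT (jet r s y t) (cb r s 0 0 1))) := h.hA.mul' h38 (by norm_num)
  have h136 : In (-1532256971362797788111/5000000000000000000000) (-3062852080784100984091/10000000000000000000000) (((fM (jet r s y t)) * (dA (jet r s y t) (cb r s 0 0 1))) - ((fA (jet r s y t)) * (dT (jet r s y t) (cb r s 0 0 1)))) := h134.sub' h135 (by norm_num)
  have h137 : In (-1532256971362797788111/5000000000000000000000) (-3062852080784100984091/10000000000000000000000) (dG (jet r s y t) (cb r s 0 0 1)) := In.congr h136 (by unfold dG; ring)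
  have h138 : In (-39031735127595682929/5000000000000000000000) (-77641758497819780497/10000000000000000000000) ((fG (jet r s y t)) * (dP (jet r s y t) (cb r s 0 0 1))) := h.hG.mulG' h113 (by norm_num)
  have h139 : In (5533622348928250119149/1000000000000000000000) (55336661830797288838721/10000000000000000000000) ((dK (jet r s y t) (cb r s 0 0 1)) + ((fG (jet r s y t)) * (dP (jet r s y t) (cb r s 0 0 1)))) := h129.add' h138 (by norm_num)
  have h140 : In (817989143965984670401/5000000000000000000000) (1635978342242346530439/10000000000000000000000) ((jet r s y t).x * ((1 + (fD (jet r s y t))) ^ 2)) := h.hx.mul' h107 (by norm_num)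
  have h141 : In (-250673921989938856663/5000000000000000000000) (-501075950331004337949/10000000000000000000000) (((jet r s y t).x * ((1 + (fD (jet r s y t))) ^ 2)) * (dG (jet r s y t) (cb r s 0 0 1))) := h140.mulN' h137 (by norm_num)
  have h142 : In (13708718911325655869541/2500000000000000000000) (13708896470116571125193/2500000000000000000000) (((dK (jet r s y t) (cb r s 0 0 1)) + ((fG (jet r s y t)) * (dP (jet r s y t) (cb r s 0 0 1)))) + (((jet r s y t).x * ((1 + (fD (jet r s y t))) ^ 2)) * (dG (jet r s y t) (cb r s 0 0 1)))) := h139.add' h141 (by norm_num)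
  have h143 : In (72998352255969/1000000000000000000000) (364991761668451/5000000000000000000000) ((jet r s y t).x ^ 5) := h.hx.pow' 5 (by norm_num)
  have h144 : In (656985170303721/1000000000000000000000) (3284925855016059/5000000000000000000000) (9 * ((jet r s y t).x ^ 5)) := (In.const (c := 9) (le_refl _) (le_refl _)).mul' h143 (by norm_num)
  have h145 : In (5264900012508923752989/2000000000000000000000) (3290563651450366383381/1250000000000000000000) ((fD (jet r s y t)) ^ 11) := h.hD.pow' 11 (by norm_num)
  have h146 : In (1729480615675119/1000000000000000000000) (135115720202817/78125000000000000000) ((9 * ((jet r s y t).x ^ 5)) * ((fD (jet r s y t)) ^ 11)) := h144.mul' h145 (by norm_num)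
  have h147 : In (0) (0) (((9 * ((jet r s y t).x ^ 5)) * ((fD (jet r s y t)) ^ 11)) * (cb r s 0 0 1).x) := h146.mul' h20 (by norm_num)
  have h148 : In (6822062239829/2500000000000000000000) (27288248994181/10000000000000000000000) ((jet r s y t).x ^ 6) := h.hx.pow' 6 (by norm_num)
  have h149 : In (225128053914357/5000000000000000000000) (450256108403987/10000000000000000000000) ((33/2) * ((jet r s y t).x ^ 6)) := (In.const (c := (33/2)) (le_refl _) (le_refl _)).mul' h148 (by norm_num)
  have h150 : In (12053566797761025608167/5000000000000000000000) (4821428242452463125659/2000000000000000000000) ((fD (jet r s y t)) ^ 10) := h.hD.pow' 10 (by norm_num)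
  have h151 : In (1085438414362659/10000000000000000000000) (1085438758697861/10000000000000000000000) (((33/2) * ((jet r s y t).x ^ 6)) * ((fD (jet r s y t)) ^ 10)) := h149.mul' h150 (by norm_num)
  have h152 : In (129306825457335551/5000000000000000000000) (258613735840147639/10000000000000000000000) ((((33/2) * ((jet r s y t).x ^ 6)) * ((fD (jet r s y t)) ^ 10)) * (dD (jet r s y t) (cb r s 0 0 1))) := h151.mul' h61 (by norm_num)
  have h153 : In (129306825457335551/5000000000000000000000) (258613735840147639/10000000000000000000000) ((((9 * ((jet r s y t).x ^ 5)) * ((fD (jet r s y t)) ^ 11)) * (cb r s 0 0 1).x) + ((((33/2) * ((jet r s y t).x ^ 6)) * ((fD (jet r s y t)) ^ 10)) * (dD (jet r s y t) (cb r s 0 0 1)))) := h147.add' h152 (by norm_num)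
  have h154 : In (4043397659582986401187/2000000000000000000000) (505424835200551417951/250000000000000000000) ((fD (jet r s y t)) ^ 8) := h.hD.pow' 8 (by norm_num)
  have h155 : In (66006136224238423/625000000000000000000) (211219689441008201/2000000000000000000000) (((jet r s y t).x ^ 3) * ((fD (jet r s y t)) ^ 8)) := h48.mul' h154 (by norm_num)
  have h156 : In (0) (0) ((((jet r s y t).x ^ 3) * ((fD (jet r s y t)) ^ 8)) * (cb r s 0 0 1).x) := h155.mul' h20 (by norm_num)
  have h157 : In (9763835415073939/5000000000000000000000) (19527670846780731/10000000000000000000000) ((jet r s y t).x ^ 4) := h.hx.pow' 4 (by norm_num)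
  have h158 : In (9763835415073939/2500000000000000000000) (19527670846780731/5000000000000000000000) (2 * ((jet r s y t).x ^ 4)) := (In.const (c := 2) (le_refl _) (le_refl _)).mul' h157 (by norm_num)
  have h159 : In (9257035017549920739447/5000000000000000000000) (18514074129813085455059/10000000000000000000000) ((fD (jet r s y t)) ^ 7) := h.hD.pow' 7 (by norm_num)
  have h160 : In (36153666537173407/5000000000000000000000) (1129802330124651/156250000000000000000) ((2 * ((jet r s y t).x ^ 4)) * ((fD (jet r s y t)) ^ 7)) := h158.mul' h159 (by norm_num)
  have h161 : In (3445550322675825217/2000000000000000000000) (8613877815233481151/5000000000000000000000) (((2 * ((jet r s y t).x ^ 4)) * ((fD (jet r s y t)) ^ 7)) * (dD (jet r s y t) (cb r s 0 0 1))) := h160.mul' h61 (by norm_num)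
  have h162 : In (3445550322675825217/2000000000000000000000) (8613877815233481151/5000000000000000000000) (((((jet r s y t).x ^ 3) * ((fD (jet r s y t)) ^ 8)) * (cb r s 0 0 1).x) + (((2 * ((jet r s y t).x ^ 4)) * ((fD (jet r s y t)) ^ 7)) * (dD (jet r s y t) (cb r s 0 0 1)))) := h156.add' h161 (by norm_num)
  have h163 : In (27417567129476769074633/5000000000000000000000) (54835844494202124648411/10000000000000000000000) ((((dK (jet r s y t) (cb r s 0 0 1)) + ((fG (jet r s y t)) * (dP (jet r s y t) (cb r s 0 0 1)))) + (((jet r s y t).x * ((1 + (fD (jet r s y t))) ^ 2)) * (dG (jet r s y t) (cb r s 0 0 1)))) + ((((9 * ((jet r s y t).x ^ 5)) * ((fD (jet r s y t)) ^ 11)) * (cb r s 0 0 1).x) + ((((33/2) * ((jet r s y t).x ^ 6)) * ((fD (jet r s y t)) ^ 10)) * (dD (jet r s y t) (cb r s 0 0 1))))) := h142.add' h153 (by norm_num)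
  have h164 : In (13704476625830767796741/2500000000000000000000) (27409308371294372761163/5000000000000000000000) (((((dK (jet r s y t) (cb r s 0 0 1)) + ((fG (jet r s y t)) * (dP (jet r s y t) (cb r s 0 0 1)))) + (((jet r s y t).x * ((1 + (fD (jet r s y t))) ^ 2)) * (dG (jet r s y t) (cb r s 0 0 1)))) + ((((9 * ((jet r s y t).x ^ 5)) * ((fD (jet r s y t)) ^ 11)) * (cb r s 0 0 1).x) + ((((33/2) * ((jet r s y t).x ^ 6)) * ((fD (jet r s y t)) ^ 10)) * (dD (jet r s y t) (cb r s 0 0 1))))) - (((((jet r s y t).x ^ 3) * ((fD (jet r s y t)) ^ 8)) * (cb r s 0 0 1).x) + (((2 * ((jet r s y t).x ^ 4)) * ((fD (jet r s y t)) ^ 7)) * (dD (jet r s y t) (cb r s 0 0 1))))) := h163.sub' h162 (by norm_num)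
  have h165 : In (13704476625830767796741/2500000000000000000000) (27409308371294372761163/5000000000000000000000) (dT0 (jet r s y t) (cb r s 0 0 1)) := In.congr h164 (by unfold dT0; ring)
  have h166 : In (1138908380500666139800667/10000000000000000000000) (1138908411989512490551983/10000000000000000000000) ((dD (jet r s y t) (cb r s 0 0 1)) / (1 + (fD (jet r s y t)))) := h61.div' h62 (by norm_num)
  have h167 : In (955686791099930196805009/10000000000000000000000) (95568683113453125192669/1000000000000000000000) (((dD (jet r s y t) (cb r s 0 0 1)) / (1 + (fD (jet r s y t)))) - (dS (jet r s y t) (cb r s 0 0 1))) := h166.sub' h106 (by norm_num)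
  have h168 : In (900868174357341451282683/10000000000000000000000) (450434462315604090369863/5000000000000000000000) ((((dD (jet r s y t) (cb r s 0 0 1)) / (1 + (fD (jet r s y t)))) - (dS (jet r s y t) (cb r s 0 0 1))) - (dT0 (jet r s y t) (cb r s 0 0 1))) := h167.sub' h165 (by norm_num)
  have h169 : In (900868174357341451282683/10000000000000000000000) (450434462315604090369863/5000000000000000000000) (dNet (jet r s y t) (cb r s 0 0 1)) := In.congr h168 (by unfold dNet; ring)
  exact ⟨h133, h169⟩

end K5L
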