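import Pool.Agent.Lib.K5L.NwB

/-!
# K5L.NwX : differentials of the equations on the box of the critical point

Generated file.
-/

set_option autoImplicit false

namespace K5L

open K5N K5C K5S


theorem nw_x {r s y t : ℝ} (h : NwB r s y t) :
    In (32798262439242630645069/10000000000000000000000) (8199651591084644814027/2500000000000000000000) (dM (jet r s y t) (cb r s 1 0 0)) ∧
    In (89973899250171570351909/5000000000000000000000) (35989608188757126345889/2000000000000000000000) (dNet (jet r s y t) (cb r s 1 0 0)) := by
  have h1 : In (939642792602331227/500000000000000000) (939642792604331227/500000000000000000) (r + s) := h.hr.add' h.hs (by norm_num)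
  have h2 : In (4165194048945482963/16000000000000000000) (130162314031425628179/500000000000000000000) (r * s) := h.hr.mul' h.hs (by norm_num)
  have h3 : In (35317143107580306242277/10000000000000000000000) (17658571553865324544547/5000000000000000000000) ((r + s) ^ 2) := h1.pow' 2 (by norm_num)
  have h4 : In (15059022804758943/50000000000000000) (15059022804958943/50000000000000000) (2 * r) := (In.const (c := 2) (le_refl _) (le_refl _)).mul' h.hr (by norm_num)
  have h5 : In (507468953313062971/250000000000000000) (507468953314562971/250000000000000000) (s + (2 * r)) := h.hs.add' h4 (by norm_num)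
  have h6 : In (8772592234936514084993/2500000000000000000000) (8772592234972593894417/2500000000000000000000) (s * (s + (2 * r))) := h.hs.mul' h5 (by norm_num)
  have h7 : In (29883876378564202636221/10000000000000000000000) (29883876378633350450509/10000000000000000000000) (s ^ 2) := h.hs.pow' 2 (by norm_num)
  have h8 : In (45177068414276829/50000000000000000) (45177068414876829/50000000000000000) (6 * r) := (In.const (c := 6) (le_refl _) (le_refl _)).mul' h.hr (by norm_num)
  have h9 : In (15619477683545561111253/10000000000000000000000) (15619477683771075381479/10000000000000000000000) ((6 * r) * s) := h8.mul' h.hs (by norm_num)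
  have h10 : In (22751677031054881873737/5000000000000000000000) (11375838515601106457997/2500000000000000000000) ((s ^ 2) + ((6 * r) * s)) := h7.add' h9 (by norm_num)
  have h11 : In (7086692744820309447/312500000000000000000) (226774167840273511427/10000000000000000000000) (r ^ 2) := h.hr.pow' 2 (by norm_num)
  have h12 : In (21260078234460928341/312500000000000000000) (680322503520820534281/10000000000000000000000) (3 * (r ^ 2)) := (In.const (c := 3) (le_refl _) (le_refl _)).mul' h11 (by norm_num)
  have h13 : In (23091838282806256727193/5000000000000000000000) (46183676565925246366269/10000000000000000000000) (((s ^ 2) + ((6 * r) * s)) + (3 * (r ^ 2))) := h10.add' h12 (by norm_num)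
  have h14 : In (15967501451083653521459/2000000000000000000000) (79837507256051254893231/10000000000000000000000) (s * (((s ^ 2) + ((6 * r) * s)) + (3 * (r ^ 2)))) := h.hs.mul' h13 (by norm_num)
  have h15 : In (1) (1) ((cb r s 1 0 0).x) := In.congr (In.const (c := 1) (le_refl _) (le_refl _)) (by first | rfl | (simp only [cb, a1, a2, a3, c1, c2, c3, e1, e2, e3]; ring))
  have h16 : In (0) (0) ((cb r s 1 0 0).y) := In.congr (In.const (c := 0) (le_refl _) (le_refl _)) (by first | rfl | (simp only [cb, a1, a2, a3, c1, c2, c3, e1, e2, e3]; ring))
  have h17 : In (0) (0) ((cb r s 1 0 0).t) := In.congr (In.const (c := 0) (le_refl _) (le_refl _)) (by first | rfl | (simp only [cb, a1, a2, a3, c1, c2, c3, e1, e2, e3]; ring))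
  have h18 : In (13505432477789633/7812500000000000) (6752716238902629/3906250000000000) ((cb r s 1 0 0).u) := In.congr h.hs (by first | rfl | (simp only [cb, a1, a2, a3, c1, c2, c3, e1, e2, e3]; ring))
  have h19 : In (8772592234936514084993/2500000000000000000000) (8772592234972593894417/2500000000000000000000) ((cb r s 1 0 0).v) := In.congr h6 (by first | rfl | (simp only [cb, a1, a2, a3, c1, c2, c3, e1, e2, e3]; ring))
  have h20 : In (15967501451083653521459/2000000000000000000000) (79837507256051254893231/10000000000000000000000) ((cb r s 1 0 0).w) := In.congr h14 (by first | rfl | (simp only [cb, a1, a2, a3, c1, c2, c3, e1, e2, e3]; ring))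
  have h21 : In (1419957436771832172479/625000000000000000000) (22719319005392968638219/10000000000000000000000) ((fk (jet r s y t)) ^ 2) := h.hk.pow' 2 (by norm_num)
  have h22 : In (8561167074440449891377/2500000000000000000000) (8561167084074116850019/2500000000000000000000) ((fk (jet r s y t)) ^ 3) := h.hk.pow' 3 (by norm_num)
  have h23 : In (2580837276471848655241/500000000000000000000) (25808372803440507486323/5000000000000000000000) ((fk (jet r s y t)) ^ 4) := h.hk.pow' 4 (by norm_num)
  have h24 : In (753646452064051628407/500000000000000000000) (15072929046934762453247/10000000000000000000000) ((fk (jet r s y t)) * (cb r s 1 0 0).x) := h.hk.mul' h15 (by norm_num)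
  have h25 : In (2214024524635967786753/10000000000000000000000) (110701226515484883593/500000000000000000000) ((cb r s 1 0 0).u - ((fk (jet r s y t)) * (cb r s 1 0 0).x)) := h18.sub' h24 (by norm_num)
  have h26 : In (14806752749074607844429/2500000000000000000000) (462711024692868997919/78125000000000000000) (((cb r s 1 0 0).u - ((fk (jet r s y t)) * (cb r s 1 0 0).x)) / (jet r s y t).x) := h25.div' h.hx (by norm_num)
  have h27 : In (14806752749074607844429/2500000000000000000000) (462711024692868997919/78125000000000000000) (dk (jet r s y t) (cb r s 1 0 0)) := In.congr h26 (by unfold dk; ring)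
  have h28 : In (0) (0) (((fk (jet r s y t)) ^ 3) * (cb r s 1 0 0).t) := h22.mul' h17 (by norm_num)
  have h29 : In (1615436103712323/500000000000000000) (1615436106712323/500000000000000000) (3 * (jet r s y t).t) := (In.const (c := 3) (le_refl _) (le_refl _)).mul' h.ht (by norm_num)
  have h30 : In (14680643258214565159/2000000000000000000000) (36701608241227303729/5000000000000000000000) ((3 * (jet r s y t).t) * ((fk (jet r s y t)) ^ 2)) := h29.mul' h21 (by norm_num)
  have h31 : In (27171581865219015081/625000000000000000000) (434745312183667999983/10000000000000000000000) (((3 * (jet r s y t).t) * ((fk (jet r s y t)) ^ 2)) * (dk (jet r s y t) (cb r s 1 0 0))) := h30.mul' h27 (by norm_num)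
  have h32 : In (27171581865219015081/625000000000000000000) (434745312183667999983/10000000000000000000000) ((((fk (jet r s y t)) ^ 3) * (cb r s 1 0 0).t) + (((3 * (jet r s y t).t) * ((fk (jet r s y t)) ^ 2)) * (dk (jet r s y t) (cb r s 1 0 0)))) := h28.add' h31 (by norm_num)
  have h33 : In (27171581865219015081/625000000000000000000) (434745312183667999983/10000000000000000000000) (dT (jet r s y t) (cb r s 1 0 0)) := In.congr h32 (by unfold dT; ring)
  have h34 : In (0) (0) (((fk (jet r s y t)) ^ 2) * (cb r s 1 0 0).y) := h21.mul' h16 (by norm_num)
  have h35 : In (205212204789913531/500000000000000000) (205212204791913531/500000000000000000) (2 * (jet r s y t).y) := (In.const (c := 2) (le_refl _) (le_refl _)).mul' h.hy (by norm_num)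
  have h36 : In (6186298002406396556429/10000000000000000000000) (1546574501196779255659/2500000000000000000000) ((2 * (jet r s y t).y) * (fk (jet r s y t))) := h35.mul' h.hk (by norm_num)
  have h37 : In (36639593981490266874417/10000000000000000000000) (36639594097286373362649/10000000000000000000000) (((2 * (jet r s y t).y) * (fk (jet r s y t))) * (dk (jet r s y t) (cb r s 1 0 0))) := h36.mul' h27 (by norm_num)
  have h38 : In (36639593981490266874417/10000000000000000000000) (36639594097286373362649/10000000000000000000000) ((((fk (jet r s y t)) ^ 2) * (cb r s 1 0 0).y) + (((2 * (jet r s y t).y) * (fk (jet r s y t))) * (dk (jet r s y t) (cb r s 1 0 0)))) := h34.add' h37 (by norm_num)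
  have h39 : In (27171581865219015081/312500000000000000000) (434745312183667999983/5000000000000000000000) (2 * (dT (jet r s y t) (cb r s 1 0 0))) := (In.const (c := 2) (le_refl _) (le_refl _)).mul' h33 (by norm_num)
  have h40 : In (37509084601177275357009/10000000000000000000000) (7501816944330741872523/2000000000000000000000) (((((fk (jet r s y t)) ^ 2) * (cb r s 1 0 0).y) + (((2 * (jet r s y t).y) * (fk (jet r s y t))) * (dk (jet r s y t) (cb r s 1 0 0)))) + (2 * (dT (jet r s y t) (cb r s 1 0 0)))) := h38.add' h39 (by norm_num)
  have h41 : In (37509084601177275357009/10000000000000000000000) (7501816944330741872523/2000000000000000000000) (dY (jet r s y t) (cb r s 1 0 0)) := In.congr h40 (by unfold dY; ring)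
  have h42 : In (69870721389842323/50000000000000000000) (13974144283919760233/10000000000000000000000) ((jet r s y t).x ^ 2) := h.hx.pow' 2 (by norm_num)
  have h43 : In (65297694445463897/1250000000000000000000) (522381555897418237/10000000000000000000000) ((jet r s y t).x ^ 3) := h.hx.pow' 3 (by norm_num)
  have h44 : In (10459898406883688538349/5000000000000000000000) (20919797158782448717417/10000000000000000000000) ((fD (jet r s y t)) + 1) := h.hD.add' (In.const (c := 1) (le_refl _) (le_refl _)) (by norm_num)
  have h45 : In (1930645947806387039019/1250000000000000000000) (965322974631332870001/625000000000000000000) ((cb r s 1 0 0).v / ((fk (jet r s y t)) ^ 2)) := h19.div' h21 (by norm_num)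
  have h46 : In (915710543600060874839/5000000000000000000000) (228927635949835177477/1250000000000000000000) (2 * (jet r s y t).v) := (In.const (c := 2) (le_refl _) (le_refl _)).mul' h.hv (by norm_num)
  have h47 : In (106960947567944144837/2000000000000000000000) (106960947711581802043/2000000000000000000000) ((2 * (jet r s y t).v) / ((fk (jet r s y t)) ^ 3)) := h46.div' h22 (by norm_num)
  have h48 : In (3167488608890563913159/10000000000000000000000) (3167488621935769404191/10000000000000000000000) (((2 * (jet r s y t).v) / ((fk (jet r s y t)) ^ 3)) * (dk (jet r s y t) (cb r s 1 0 0))) := h47.mul' h27 (by norm_num)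
  have h49 : In (12277678960515326907961/10000000000000000000000) (12277678985210762006857/10000000000000000000000) (((cb r s 1 0 0).v / ((fk (jet r s y t)) ^ 2)) - (((2 * (jet r s y t).v) / ((fk (jet r s y t)) ^ 3)) * (dk (jet r s y t) (cb r s 1 0 0)))) := h45.sub' h48 (by norm_num)
  have h50 : In (2277678960515326907961/10000000000000000000000) (2277678985210762006857/10000000000000000000000) ((((cb r s 1 0 0).v / ((fk (jet r s y t)) ^ 2)) - (((2 * (jet r s y t).v) / ((fk (jet r s y t)) ^ 3)) * (dk (jet r s y t) (cb r s 1 0 0)))) - (cb r s 1 0 0).x) := h49.sub' h15 (by norm_num)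
  have h51 : In (1629923746483914133117851/10000000000000000000000) (814961882425149395128639/5000000000000000000000) (((((cb r s 1 0 0).v / ((fk (jet r s y t)) ^ 2)) - (((2 * (jet r s y t).v) / ((fk (jet r s y t)) ^ 3)) * (dk (jet r s y t) (cb r s 1 0 0)))) - (cb r s 1 0 0).x) / ((jet r s y t).x ^ 2)) := h50.div' h42 (by norm_num)
  have h52 : In (10459898406883688538349/2500000000000000000000) (20919797158782448717417/5000000000000000000000) (2 * ((fD (jet r s y t)) + 1)) := (In.const (c := 2) (le_refl _) (le_refl _)).mul' h44 (by norm_num)
  have h53 : In (10459898406883688538349/2500000000000000000000) (20919797158782448717417/5000000000000000000000) ((2 * ((fD (jet r s y t)) + 1)) * (cb r s 1 0 0).x) := h52.mul' h15 (by norm_num)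
  have h54 : In (1790790693985541716657/16000000000000000000) (1119244202438179371750927/10000000000000000000000) (((2 * ((fD (jet r s y t)) + 1)) * (cb r s 1 0 0).x) / (jet r s y t).x) := h53.div' h.hx (by norm_num)
  have h55 : In (127669886011433690341731/2500000000000000000000) (510679581109335217346653/10000000000000000000000) ((((((cb r s 1 0 0).v / ((fk (jet r s y t)) ^ 2)) - (((2 * (jet r s y t).v) / ((fk (jet r s y t)) ^ 3)) * (dk (jet r s y t) (cb r s 1 0 0)))) - (cb r s 1 0 0).x) / ((jet r s y t).x ^ 2)) - (((2 * ((fD (jet r s y t)) + 1)) * (cb r s 1 0 0).x) / (jet r s y t).x)) := h51.sub' h54 (by norm_num)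
  have h56 : In (127669886011433690341731/2500000000000000000000) (510679581109335217346653/10000000000000000000000) (dD (jet r s y t) (cb r s 1 0 0)) := In.congr h55 (by unfold dD; ring)
  have h57 : In (10459898406883688538349/5000000000000000000000) (20919797158782448717417/10000000000000000000000) (1 + (fD (jet r s y t))) := (In.const (c := 1) (le_refl _) (le_refl _)).add' h.hD (by norm_num)
  have h58 : In (11656925170274933970041/5000000000000000000000) (4662770073393840517669/2000000000000000000000) ((cb r s 1 0 0).w / ((fk (jet r s y t)) ^ 3)) := h20.div' h22 (by norm_num)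
  have h59 : In (479486403704012686047/1000000000000000000000) (47948640384473281047/100000000000000000000) (3 * (jet r s y t).w) := (In.const (c := 3) (le_refl _) (le_refl _)).mul' h.hw (by norm_num)
  have h60 : In (928935751501722878669/10000000000000000000000) (464467876584046007559/5000000000000000000000) ((3 * (jet r s y t).w) / ((fk (jet r s y t)) ^ 4)) := h59.div' h23 (by norm_num)
  have h61 : In (6877260996130911003/12500000000000000000) (5501808822044798526339/10000000000000000000000) (((3 * (jet r s y t).w) / ((fk (jet r s y t)) ^ 4)) * (dk (jet r s y t) (cb r s 1 0 0))) := h60.mul' h27 (by norm_num)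
  have h62 : In (17812041518505069413743/10000000000000000000000) (3562408314012894757189/2000000000000000000000) (((cb r s 1 0 0).w / ((fk (jet r s y t)) ^ 3)) - (((3 * (jet r s y t).w) / ((fk (jet r s y t)) ^ 4)) * (dk (jet r s y t) (cb r s 1 0 0)))) := h58.sub' h61 (by norm_num)
  have h63 : In (209612164169526969/50000000000000000000) (41922432851759280699/10000000000000000000000) (3 * ((jet r s y t).x ^ 2)) := (In.const (c := 3) (le_refl _) (le_refl _)).mul' h42 (by norm_num)
  have h64 : In (42817857769813493413/200000000000000000000) (1070446522391033144389/5000000000000000000000) ((3 * ((jet r s y t).x ^ 2)) * (dD (jet r s y t) (cb r s 1 0 0))) := h63.mul' h56 (by norm_num)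
  have h65 : In (3134229694744600624993/2000000000000000000000) (3134229736314759823059/2000000000000000000000) ((((cb r s 1 0 0).w / ((fk (jet r s y t)) ^ 3)) - (((3 * (jet r s y t).w) / ((fk (jet r s y t)) ^ 4)) * (dk (jet r s y t) (cb r s 1 0 0)))) - ((3 * ((jet r s y t).x ^ 2)) * (dD (jet r s y t) (cb r s 1 0 0)))) := h62.sub' h64 (by norm_num)
  have h66 : In (112146020215483429971/500000000000000000000) (280365050598409379037/1250000000000000000000) (6 * (jet r s y t).x) := (In.const (c := 6) (le_refl _) (le_refl _)).mul' h.hx (by norm_num)
  have h67 : In (938428782552224846687/2000000000000000000000) (4692143991144401600919/10000000000000000000000) ((6 * (jet r s y t).x) * (1 + (fD (jet r s y t)))) := h66.mul' h57 (by norm_num)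
  have h68 : In (938428782552224846687/2000000000000000000000) (4692143991144401600919/10000000000000000000000) (((6 * (jet r s y t).x) * (1 + (fD (jet r s y t)))) * (cb r s 1 0 0).x) := h67.mul' h15 (by norm_num)
  have h69 : In (5489502241289300762023/5000000000000000000000) (548950238440633744093/500000000000000000000) (((((cb r s 1 0 0).w / ((fk (jet r s y t)) ^ 3)) - (((3 * (jet r s y t).w) / ((fk (jet r s y t)) ^ 4)) * (dk (jet r s y t) (cb r s 1 0 0)))) - ((3 * ((jet r s y t).x ^ 2)) * (dD (jet r s y t) (cb r s 1 0 0)))) - (((6 * (jet r s y t).x) * (1 + (fD (jet r s y t)))) * (cb r s 1 0 0).x)) := h65.sub' h68 (by norm_num)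
  have h70 : In (489502241289300762023/5000000000000000000000) (48950238440633744093/500000000000000000000) ((((((cb r s 1 0 0).w / ((fk (jet r s y t)) ^ 3)) - (((3 * (jet r s y t).w) / ((fk (jet r s y t)) ^ 4)) * (dk (jet r s y t) (cb r s 1 0 0)))) - ((3 * ((jet r s y t).x ^ 2)) * (dD (jet r s y t) (cb r s 1 0 0)))) - (((6 * (jet r s y t).x) * (1 + (fD (jet r s y t)))) * (cb r s 1 0 0).x)) - (cb r s 1 0 0).x) := h69.sub' h15 (by norm_num)
  have h71 : In (18741176282472955733930739/10000000000000000000000) (73207741304106900615613/39062500000000000000) (((((((cb r s 1 0 0).w / ((fk (jet r s y t)) ^ 3)) - (((3 * (jet r s y t).w) / ((fk (jet r s y t)) ^ 4)) * (dk (jet r s y t) (cb r s 1 0 0)))) - ((3 * ((jet r s y t).x ^ 2)) * (dD (jet r s y t) (cb r s 1 0 0)))) - (((6 * (jet r s y t).x) * (1 + (fD (jet r s y t)))) * (cb r s 1 0 0).x)) - (cb r s 1 0 0).x) / ((jet r s y t).x ^ 3)) := h70.div' h43 (by norm_num)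
  have h72 : In (298927615002423919263207/10000000000000000000000) (29892774300275283342057/1000000000000000000000) (3 * (fN (jet r s y t))) := (In.const (c := 3) (le_refl _) (le_refl _)).mul' h.hN (by norm_num)
  have h73 : In (298927615002423919263207/10000000000000000000000) (29892774300275283342057/1000000000000000000000) ((3 * (fN (jet r s y t))) * (cb r s 1 0 0).x) := h72.mul' h15 (by norm_num)
  have h74 : In (3998282074982171292506599/5000000000000000000000) (499785473486448009388267/625000000000000000000) (((3 * (fN (jet r s y t))) * (cb r s 1 0 0).x) / (jet r s y t).x) := h73.div' h.hx (by norm_num)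
  have h75 : In (10744608706689787583718467/10000000000000000000000) (1074461762388702397258373/1000000000000000000000) ((((((((cb r s 1 0 0).w / ((fk (jet r s y t)) ^ 3)) - (((3 * (jet r s y t).w) / ((fk (jet r s y t)) ^ 4)) * (dk (jet r s y t) (cb r s 1 0 0)))) - ((3 * ((jet r s y t).x ^ 2)) * (dD (jet r s y t) (cb r s 1 0 0)))) - (((6 * (jet r s y t).x) * (1 + (fD (jet r s y t)))) * (cb r s 1 0 0).x)) - (cb r s 1 0 0).x) / ((jet r s y t).x ^ 3)) - (((3 * (fN (jet r s y t))) * (cb r s 1 0 0).x) / (jet r s y t).x)) := h71.sub' h74 (by norm_num)
  have h76 : In (10744608706689787583718467/10000000000000000000000) (1074461762388702397258373/1000000000000000000000) (dN (jet r s y t) (cb r s 1 0 0)) := In.congr h75 (by unfold dN; ring)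
  have h77 : In (91552959194213049849083/10000000000000000000000) (1430515058186925844353/156250000000000000000) ((1 + (fD (jet r s y t))) ^ 3) := h57.pow' 3 (by norm_num)
  have h78 : In (1173594853694230809698251/10000000000000000000000) (586797942876661165388159/5000000000000000000000) ((dN (jet r s y t) (cb r s 1 0 0)) / ((1 + (fD (jet r s y t))) ^ 3)) := h76.div' h77 (by norm_num)
  have h79 : In (298927615002423919263207/10000000000000000000000) (29892774300275283342057/1000000000000000000000) (3 * (fN (jet r s y t))) := (In.const (c := 3) (le_refl _) (le_refl _)).mul' h.hN (by norm_num)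
  have h80 : In (3053124362642335782442939/2000000000000000000000) (1526562945786048285699299/1000000000000000000000) ((3 * (fN (jet r s y t))) * (dD (jet r s y t) (cb r s 1 0 0))) := h79.mul' h56 (by norm_num)
  have h81 : In (95763465202103642523269/5000000000000000000000) (191526943039067907737451/10000000000000000000000) ((1 + (fD (jet r s y t))) ^ 4) := h57.pow' 4 (by norm_num)
  have h82 : In (797048267517002978241539/10000000000000000000000) (398524359619902876624681/5000000000000000000000) (((3 * (fN (jet r s y t))) * (dD (jet r s y t) (cb r s 1 0 0))) / ((1 + (fD (jet r s y t))) ^ 4)) := h80.div' h81 (by norm_num)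
  have h83 : In (376546134454425056448889/10000000000000000000000) (376547618236319352534779/10000000000000000000000) (((dN (jet r s y t) (cb r s 1 0 0)) / ((1 + (fD (jet r s y t))) ^ 3)) - (((3 * (fN (jet r s y t))) * (dD (jet r s y t) (cb r s 1 0 0))) / ((1 + (fD (jet r s y t))) ^ 4))) := h78.sub' h82 (by norm_num)
  have h84 : In (188055694571120694224453/5000000000000000000000) (376112872926475848293483/10000000000000000000000) ((((dN (jet r s y t) (cb r s 1 0 0)) / ((1 + (fD (jet r s y t))) ^ 3)) - (((3 * (fN (jet r s y t))) * (dD (jet r s y t) (cb r s 1 0 0))) / ((1 + (fD (jet r s y t))) ^ 4))) - (dT (jet r s y t) (cb r s 1 0 0))) := h83.sub' h33 (by norm_num)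
  have h85 : In (188055694571120694224453/5000000000000000000000) (376112872926475848293483/10000000000000000000000) (dA (jet r s y t) (cb r s 1 0 0)) := In.congr h84 (by unfold dA; ring)
  have h86 : In (408203918075242605669/10000000000000000000000) (408203931059521094771/10000000000000000000000) ((jet r s y t).x * (fD (jet r s y t))) := h.hx.mul' h.hD (by norm_num)
  have h87 : In (10408203918075242605669/10000000000000000000000) (10408203931059521094771/10000000000000000000000) (1 + ((jet r s y t).x * (fD (jet r s y t)))) := (In.const (c := 1) (le_refl _) (le_refl _)).add' h86 (by norm_num)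
  have h88 : In (5962098122698208024129/5000000000000000000000) (372631156215478873519/312500000000000000000) ((fD (jet r s y t)) ^ 2) := h.hD.pow' 2 (by norm_num)
  have h89 : In (5962098122698208024129/5000000000000000000000) (372631156215478873519/312500000000000000000) (((fD (jet r s y t)) ^ 2) * (cb r s 1 0 0).x) := h88.mul' h15 (by norm_num)
  have h90 : In (37382006738494476657/500000000000000000000) (93455016866136459679/1250000000000000000000) (2 * (jet r s y t).x) := (In.const (c := 2) (le_refl _) (le_refl _)).mul' h.hx (by norm_num)
  have h91 : In (408203918075242605669/5000000000000000000000) (816407862119042189541/10000000000000000000000) ((2 * (jet r s y t).x) * (fD (jet r s y t))) := h90.mul' h.hD (by norm_num)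
  have h92 : In (20846139076034736033463/5000000000000000000000) (41692282504132036852443/10000000000000000000000) (((2 * (jet r s y t).x) * (fD (jet r s y t))) * (dD (jet r s y t) (cb r s 1 0 0))) := h91.mul' h56 (by norm_num)
  have h93 : In (3351029649841618007199/625000000000000000000) (53616479503027360805051/10000000000000000000000) ((((fD (jet r s y t)) ^ 2) * (cb r s 1 0 0).x) + (((2 * (jet r s y t).x) * (fD (jet r s y t))) * (dD (jet r s y t) (cb r s 1 0 0)))) := h89.add' h92 (by norm_num)
  have h94 : In (51513666289211443712501/10000000000000000000000) (51513671258799176920337/10000000000000000000000) (((((fD (jet r s y t)) ^ 2) * (cb r s 1 0 0).x) + (((2 * (jet r s y t).x) * (fD (jet r s y t))) * (dD (jet r s y t) (cb r s 1 0 0)))) / (1 + ((jet r s y t).x * (fD (jet r s y t))))) := h93.div' h87 (by norm_num)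
  have h95 : In (5459898406883688538349/5000000000000000000000) (10919797158782448717417/10000000000000000000000) ((fD (jet r s y t)) * (cb r s 1 0 0).x) := h.hD.mul' h15 (by norm_num)
  have h96 : In (19090226156728943743317/10000000000000000000000) (4772556886576442489889/2500000000000000000000) ((jet r s y t).x * (dD (jet r s y t) (cb r s 1 0 0))) := h.hx.mul' h56 (by norm_num)
  have h97 : In (6002004594099264164003/2000000000000000000000) (30010024705088218676973/10000000000000000000000) (((fD (jet r s y t)) * (cb r s 1 0 0).x) + ((jet r s y t).x * (dD (jet r s y t) (cb r s 1 0 0)))) := h95.add' h96 (by norm_num)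
  have h98 : In (1285234163689755678823/10000000000000000000000) (1285234321068756996427/10000000000000000000000) ((fS (jet r s y t)) * (((fD (jet r s y t)) * (cb r s 1 0 0).x) + ((jet r s y t).x * (dD (jet r s y t) (cb r s 1 0 0))))) := h.hS.mul' h97 (by norm_num)
  have h99 : In (1234827999338520884891/10000000000000000000000) (617414076042829615349/5000000000000000000000) (((fS (jet r s y t)) * (((fD (jet r s y t)) * (cb r s 1 0 0).x) + ((jet r s y t).x * (dD (jet r s y t) (cb r s 1 0 0))))) / (1 + ((jet r s y t).x * (fD (jet r s y t))))) := h98.div' h87 (by norm_num)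
  have h100 : In (50278838137125784481803/10000000000000000000000) (25139421629730328017723/5000000000000000000000) ((((((fD (jet r s y t)) ^ 2) * (cb r s 1 0 0).x) + (((2 * (jet r s y t).x) * (fD (jet r s y t))) * (dD (jet r s y t) (cb r s 1 0 0)))) / (1 + ((jet r s y t).x * (fD (jet r s y t))))) - (((fS (jet r s y t)) * (((fD (jet r s y t)) * (cb r s 1 0 0).x) + ((jet r s y t).x * (dD (jet r s y t) (cb r s 1 0 0))))) / (1 + ((jet r s y t).x * (fD (jet r s y t)))))) := h94.sub' h99 (by norm_num)
  have h101 : In (50278838137125784481803/10000000000000000000000) (25139421629730328017723/5000000000000000000000) (dS (jet r s y t) (cb r s 1 0 0)) := In.congr h100 (by unfold dS; ring)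
  have h102 : In (21881894936465585100827/5000000000000000000000) (21881895658230110693721/5000000000000000000000) ((1 + (fD (jet r s y t))) ^ 2) := h57.pow' 2 (by norm_num)
  have h103 : In (21881894936465585100827/5000000000000000000000) (21881895658230110693721/5000000000000000000000) (((1 + (fD (jet r s y t))) ^ 2) * (cb r s 1 0 0).x) := h102.mul' h15 (by norm_num)
  have h104 : In (37382006738494476657/500000000000000000000) (93455016866136459679/1250000000000000000000) (2 * (jet r s y t).x) := (In.const (c := 2) (le_refl _) (le_refl _)).mul' h.hx (by norm_num)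
  have h105 : In (782023985460187372239/5000000000000000000000) (1564047997048133866973/10000000000000000000000) ((2 * (jet r s y t).x) * (1 + (fD (jet r s y t)))) := h104.mul' h57 (by norm_num)
  have h106 : In (1996818261638183988839/250000000000000000000) (39936368798371788385777/5000000000000000000000) (((2 * (jet r s y t).x) * (1 + (fD (jet r s y t)))) * (dD (jet r s y t) (cb r s 1 0 0))) := h105.mul' h56 (by norm_num)
  have h107 : In (61818260169229264877607/5000000000000000000000) (30909132228300949539749/2500000000000000000000) ((((1 + (fD (jet r s y t))) ^ 2) * (cb r s 1 0 0).x) + (((2 * (jet r s y t).x) * (1 + (fD (jet r s y t)))) * (dD (jet r s y t) (cb r s 1 0 0)))) := h103.add' h106 (by norm_num)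
  have h108 : In (61818260169229264877607/5000000000000000000000) (30909132228300949539749/2500000000000000000000) (dP (jet r s y t) (cb r s 1 0 0)) := In.congr h107 (by unfold dP; ring)
  have h109 : In (7376009803714297329/1000000000000000000000) (7376009825712203819/1000000000000000000000) (2 * (fT (jet r s y t))) := (In.const (c := 2) (le_refl _) (le_refl _)).mul' h.hT (by norm_num)
  have h110 : In (136013801561223567/10000000000000000000000) (136013802372507439/10000000000000000000000) ((fT (jet r s y t)) ^ 2) := h.hT.pow' 2 (by norm_num)
  have h111 : In (73896111838704196857/10000000000000000000000) (73896112059494545629/10000000000000000000000) ((2 * (fT (jet r s y t))) + ((fT (jet r s y t)) ^ 2)) := h109.add' h110 (by norm_num)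
  have h112 : In (116689968735332235591571/10000000000000000000000) (116689981053309402935663/10000000000000000000000) ((dD (jet r s y t) (cb r s 1 0 0)) / ((1 + (fD (jet r s y t))) ^ 2)) := h56.div' h102 (by norm_num)
  have h113 : In (19795221003419631557239/2500000000000000000000) (39590448226066063789327/5000000000000000000000) (((dD (jet r s y t) (cb r s 1 0 0)) / ((1 + (fD (jet r s y t))) ^ 2)) - (dY (jet r s y t) (cb r s 1 0 0))) := h112.sub' h41 (by norm_num)
  have h114 : In (2890204075421787019351/1000000000000000000000) (28902058315006343096851/10000000000000000000000) ((((dD (jet r s y t) (cb r s 1 0 0)) / ((1 + (fD (jet r s y t))) ^ 2)) - (dY (jet r s y t) (cb r s 1 0 0))) - (dS (jet r s y t) (cb r s 1 0 0))) := h113.sub' h101 (by norm_num)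
  have h115 : In (456812906713947878817/5000000000000000000000) (913625879521704525843/10000000000000000000000) (((2 * (fT (jet r s y t))) + ((fT (jet r s y t)) ^ 2)) * (dP (jet r s y t) (cb r s 1 0 0))) := h111.mul' h108 (by norm_num)
  have h116 : In (27988414874696165667667/10000000000000000000000) (27988432501578447339217/10000000000000000000000) (((((dD (jet r s y t) (cb r s 1 0 0)) / ((1 + (fD (jet r s y t))) ^ 2)) - (dY (jet r s y t) (cb r s 1 0 0))) - (dS (jet r s y t) (cb r s 1 0 0))) - (((2 * (fT (jet r s y t))) + ((fT (jet r s y t)) ^ 2)) * (dP (jet r s y t) (cb r s 1 0 0)))) := h114.sub' h115 (by norm_num)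
  have h117 : In (817989143965984670401/5000000000000000000000) (1635978342242346530439/10000000000000000000000) ((jet r s y t).x * ((1 + (fD (jet r s y t))) ^ 2)) := h.hx.mul' h102 (by norm_num)
  have h118 : In (7376009803714297329/1000000000000000000000) (7376009825712203819/1000000000000000000000) (2 * (fT (jet r s y t))) := (In.const (c := 2) (le_refl _) (le_refl _)).mul' h.hT (by norm_num)
  have h119 : In (2007376009803714297329/1000000000000000000000) (2007376009825712203819/1000000000000000000000) (2 + (2 * (fT (jet r s y t)))) := (In.const (c := 2) (le_refl _) (le_refl _)).add' h118 (by norm_num)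
  have h120 : In (174539461070906595937/2000000000000000000000) (872697310061685054611/10000000000000000000000) ((2 + (2 * (fT (jet r s y t)))) * (dT (jet r s y t) (cb r s 1 0 0))) := h119.mul' h33 (by norm_num)
  have h121 : In (71385692174837596209/5000000000000000000000) (142771389859407059859/10000000000000000000000) (((jet r s y t).x * ((1 + (fD (jet r s y t))) ^ 2)) * ((2 + (2 * (fT (jet r s y t)))) * (dT (jet r s y t) (cb r s 1 0 0)))) := h117.mul' h120 (by norm_num)
  have h122 : In (435088179450574353247/156250000000000000000) (27845661117228772146799/10000000000000000000000) ((((((dD (jet r s y t) (cb r s 1 0 0)) / ((1 + (fD (jet r s y t))) ^ 2)) - (dY (jet r s y t) (cb r s 1 0 0))) - (dS (jet r s y t) (cb r s 1 0 0))) - (((2 * (fT (jet r s y t))) + ((fT (jet r s y t)) ^ 2)) * (dP (jet r s y t) (cb r s 1 0 0)))) - (((jet r s y t).x * ((1 + (fD (jet r s y t))) ^ 2)) * ((2 + (2 * (fT (jet r s y t)))) * (dT (jet r s y t) (cb r s 1 0 0))))) := h116.sub' h121 (by norm_num)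
  have h123 : In (435088179450574353247/312500000000000000000) (69614152793071930367/50000000000000000000) (((((((dD (jet r s y t) (cb r s 1 0 0)) / ((1 + (fD (jet r s y t))) ^ 2)) - (dY (jet r s y t) (cb r s 1 0 0))) - (dS (jet r s y t) (cb r s 1 0 0))) - (((2 * (fT (jet r s y t))) + ((fT (jet r s y t)) ^ 2)) * (dP (jet r s y t) (cb r s 1 0 0)))) - (((jet r s y t).x * ((1 + (fD (jet r s y t))) ^ 2)) * ((2 + (2 * (fT (jet r s y t)))) * (dT (jet r s y t) (cb r s 1 0 0))))) / 2) := h122.div' (In.const (c := 2) (le_refl _) (le_refl _)) (by norm_num)
  have h124 : In (435088179450574353247/312500000000000000000) (69614152793071930367/50000000000000000000) (dK (jet r s y t) (cb r s 1 0 0)) := In.congr h123 (by unfold dK; ring)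
  have h125 : In (441797413091071314977/5000000000000000000000) (441800242246410442649/5000000000000000000000) ((Real.exp (fA (jet r s y t))) - 1) := h.heA.sub' (In.const (c := 1) (le_refl _) (le_refl _)) (by norm_num)
  have h126 : In (8308251937856574661263/2500000000000000000000) (8308337918545520874351/2500000000000000000000) (((Real.exp (fA (jet r s y t))) - 1) * (dA (jet r s y t) (cb r s 1 0 0))) := h125.mul' h85 (by norm_num)
  have h127 : In (32798262439242630645069/10000000000000000000000) (8199651591084644814027/2500000000000000000000) ((((Real.exp (fA (jet r s y t))) - 1) * (dA (jet r s y t) (cb r s 1 0 0))) - (dT (jet r s y t) (cb r s 1 0 0))) := h126.sub' h33 (by norm_num)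
  have h128 : In (32798262439242630645069/10000000000000000000000) (8199651591084644814027/2500000000000000000000) (dM (jet r s y t) (cb r s 1 0 0)) := In.congr h127 (by unfold dM; ring)
  have h129 : In (-102089765162525173/5000000000000000000000) (204179558398582013/10000000000000000000000) ((fM (jet r s y t)) * (dA (jet r s y t) (cb r s 1 0 0))) := h.hM.mulG' h85 (by norm_num)
  have h130 : In (18405268898944490379/5000000000000000000000) (18405382008628098989/5000000000000000000000) ((fA (jet r s y t)) * (dT (jet r s y t) (cb r s 1 0 0))) := h.hA.mul' h33 (by norm_num)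
  have h131 : In (-9253735886895312081/2500000000000000000000) (-7321271647898079749/2000000000000000000000) (((fM (jet r s y t)) * (dA (jet r s y t) (cb r s 1 0 0))) - ((fA (jet r s y t)) * (dT (jet r s y t) (cb r s 1 0 0)))) := h129.sub' h130 (by norm_num)
  have h132 : In (-9253735886895312081/2500000000000000000000) (-7321271647898079749/2000000000000000000000) (dG (jet r s y t) (cb r s 1 0 0)) := In.congr h131 (by unfold dG; ring)
  have h133 : In (-6474978443434835597/2500000000000000000000) (-25759997093671220887/10000000000000000000000) ((fG (jet r s y t)) * (dP (jet r s y t) (cb r s 1 0 0))) := h.hG.mulG' h108 (by norm_num)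
  have h134 : In (3474230457161159990379/2500000000000000000000) (13897070561520714852513/10000000000000000000000) ((dK (jet r s y t) (cb r s 1 0 0)) + ((fG (jet r s y t)) * (dP (jet r s y t) (cb r s 1 0 0)))) := h124.add' h133 (by norm_num)
  have h135 : In (817989143965984670401/5000000000000000000000) (1635978342242346530439/10000000000000000000000) ((jet r s y t).x * ((1 + (fD (jet r s y t))) ^ 2)) := h.hx.mul' h102 (by norm_num)
  have h136 : In (-6055564598316601189/10000000000000000000000) (-748590091000823023/1250000000000000000000) (((jet r s y t).x * ((1 + (fD (jet r s y t))) ^ 2)) * (dG (jet r s y t) (cb r s 1 0 0))) := h135.mulN' h132 (by norm_num)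
  have h137 : In (13890866264046323360327/10000000000000000000000) (13891081840792708268329/10000000000000000000000) (((dK (jet r s y t) (cb r s 1 0 0)) + ((fG (jet r s y t)) * (dP (jet r s y t) (cb r s 1 0 0)))) + (((jet r s y t).x * ((1 + (fD (jet r s y t))) ^ 2)) * (dG (jet r s y t) (cb r s 1 0 0)))) := h134.add' h136 (by norm_num)
  have h138 : In (72998352255969/1000000000000000000000) (364991761668451/5000000000000000000000) ((jet r s y t).x ^ 5) := h.hx.pow' 5 (by norm_num)
  have h139 : In (656985170303721/1000000000000000000000) (3284925855016059/5000000000000000000000) (9 * ((jet r s y t).x ^ 5)) := (In.const (c := 9) (le_refl _) (le_refl _)).mul' h138 (by norm_num)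
  have h140 : In (5264900012508923752989/2000000000000000000000) (3290563651450366383381/1250000000000000000000) ((fD (jet r s y t)) ^ 11) := h.hD.pow' 11 (by norm_num)
  have h141 : In (1729480615675119/1000000000000000000000) (135115720202817/78125000000000000000) ((9 * ((jet r s y t).x ^ 5)) * ((fD (jet r s y t)) ^ 11)) := h139.mul' h140 (by norm_num)
  have h142 : In (1729480615675119/1000000000000000000000) (135115720202817/78125000000000000000) (((9 * ((jet r s y t).x ^ 5)) * ((fD (jet r s y t)) ^ 11)) * (cb r s 1 0 0).x) := h141.mul' h15 (by norm_num)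
  have h143 : In (6822062239829/2500000000000000000000) (27288248994181/10000000000000000000000) ((jet r s y t).x ^ 6) := h.hx.pow' 6 (by norm_num)
  have h144 : In (225128053914357/5000000000000000000000) (450256108403987/10000000000000000000000) ((33/2) * ((jet r s y t).x ^ 6)) := (In.const (c := (33/2)) (le_refl _) (le_refl _)).mul' h143 (by norm_num)
  have h145 : In (12053566797761025608167/5000000000000000000000) (4821428242452463125659/2000000000000000000000) ((fD (jet r s y t)) ^ 10) := h.hD.pow' 10 (by norm_num)
  have h146 : In (1085438414362659/10000000000000000000000) (1085438758697861/10000000000000000000000) (((33/2) * ((jet r s y t).x ^ 6)) * ((fD (jet r s y t)) ^ 10)) := h144.mul' h145 (by norm_num)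
  have h147 : In (55431119453644801/10000000000000000000000) (11086228212233209/2000000000000000000000) ((((33/2) * ((jet r s y t).x ^ 6)) * ((fD (jet r s y t)) ^ 10)) * (dD (jet r s y t) (cb r s 1 0 0))) := h146.mul' h56 (by norm_num)
  have h148 : In (72725925610395991/10000000000000000000000) (72725953247126621/10000000000000000000000) ((((9 * ((jet r s y t).x ^ 5)) * ((fD (jet r s y t)) ^ 11)) * (cb r s 1 0 0).x) + ((((33/2) * ((jet r s y t).x ^ 6)) * ((fD (jet r s y t)) ^ 10)) * (dD (jet r s y t) (cb r s 1 0 0)))) := h142.add' h147 (by norm_num)
  have h149 : In (4043397659582986401187/2000000000000000000000) (505424835200551417951/250000000000000000000) ((fD (jet r s y t)) ^ 8) := h.hD.pow' 8 (by norm_num)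
  have h150 : In (66006136224238423/625000000000000000000) (211219689441008201/2000000000000000000000) (((jet r s y t).x ^ 3) * ((fD (jet r s y t)) ^ 8)) := h43.mul' h149 (by norm_num)
  have h151 : In (66006136224238423/625000000000000000000) (211219689441008201/2000000000000000000000) ((((jet r s y t).x ^ 3) * ((fD (jet r s y t)) ^ 8)) * (cb r s 1 0 0).x) := h150.mul' h15 (by norm_num)
  have h152 : In (9763835415073939/5000000000000000000000) (19527670846780731/10000000000000000000000) ((jet r s y t).x ^ 4) := h.hx.pow' 4 (by norm_num)
  have h153 : In (9763835415073939/2500000000000000000000) (19527670846780731/5000000000000000000000) (2 * ((jet r s y t).x ^ 4)) := (In.const (c := 2) (le_refl _) (le_refl _)).mul' h152 (by norm_num)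
  have h154 : In (9257035017549920739447/5000000000000000000000) (18514074129813085455059/10000000000000000000000) ((fD (jet r s y t)) ^ 7) := h.hD.pow' 7 (by norm_num)
  have h155 : In (36153666537173407/5000000000000000000000) (1129802330124651/156250000000000000000) ((2 * ((jet r s y t).x ^ 4)) * ((fD (jet r s y t)) ^ 7)) := h153.mul' h154 (by norm_num)
  have h156 : In (3692587588557050769/10000000000000000000000) (3692588676380208857/10000000000000000000000) (((2 * ((jet r s y t).x ^ 4)) * ((fD (jet r s y t)) ^ 7)) * (dD (jet r s y t) (cb r s 1 0 0))) := h155.mul' h56 (by norm_num)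
  have h157 : In (4748685768144865537/10000000000000000000000) (2374343561792624931/5000000000000000000000) (((((jet r s y t).x ^ 3) * ((fD (jet r s y t)) ^ 8)) * (cb r s 1 0 0).x) + (((2 * ((jet r s y t).x ^ 4)) * ((fD (jet r s y t)) ^ 7)) * (dD (jet r s y t) (cb r s 1 0 0)))) := h151.add' h156 (by norm_num)
  have h158 : In (6945469494985966878159/5000000000000000000000) (277823091334919107899/200000000000000000000) ((((dK (jet r s y t) (cb r s 1 0 0)) + ((fG (jet r s y t)) * (dP (jet r s y t) (cb r s 1 0 0)))) + (((jet r s y t).x * ((1 + (fD (jet r s y t))) ^ 2)) * (dG (jet r s y t) (cb r s 1 0 0)))) + ((((9 * ((jet r s y t).x ^ 5)) * ((fD (jet r s y t)) ^ 11)) * (cb r s 1 0 0).x) + ((((33/2) * ((jet r s y t).x ^ 6)) * ((fD (jet r s y t)) ^ 10)) * (dD (jet r s y t) (cb r s 1 0 0))))) := h137.add' h148 (by norm_num)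
  have h159 : In (1735773787856043563307/1250000000000000000000) (13886405880977810529413/10000000000000000000000) (((((dK (jet r s y t) (cb r s 1 0 0)) + ((fG (jet r s y t)) * (dP (jet r s y t) (cb r s 1 0 0)))) + (((jet r s y t).x * ((1 + (fD (jet r s y t))) ^ 2)) * (dG (jet r s y t) (cb r s 1 0 0)))) + ((((9 * ((jet r s y t).x ^ 5)) * ((fD (jet r s y t)) ^ 11)) * (cb r s 1 0 0).x) + ((((33/2) * ((jet r s y t).x ^ 6)) * ((fD (jet r s y t)) ^ 10)) * (dD (jet r s y t) (cb r s 1 0 0))))) - (((((jet r s y t).x ^ 3) * ((fD (jet r s y t)) ^ 8)) * (cb r s 1 0 0).x) + (((2 * ((jet r s y t).x ^ 4)) * ((fD (jet r s y t)) ^ 7)) * (dD (jet r s y t) (cb r s 1 0 0))))) := h158.sub' h157 (by norm_num)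
  have h160 : In (1735773787856043563307/1250000000000000000000) (13886405880977810529413/10000000000000000000000) (dT0 (jet r s y t) (cb r s 1 0 0)) := In.congr h159 (by unfold dT0; ring)
  have h161 : In (244113047640781607268677/10000000000000000000000) (30514133672969970589713/1250000000000000000000) ((dD (jet r s y t) (cb r s 1 0 0)) / (1 + (fD (jet r s y t)))) := h56.div' h57 (by norm_num)
  have h162 : In (193834204381320951233231/10000000000000000000000) (193834231246633980235901/10000000000000000000000) (((dD (jet r s y t) (cb r s 1 0 0)) / (1 + (fD (jet r s y t)))) - (dS (jet r s y t) (cb r s 1 0 0))) := h161.sub' h101 (by norm_num)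
  have h163 : In (89973899250171570351909/5000000000000000000000) (35989608188757126345889/2000000000000000000000) ((((dD (jet r s y t) (cb r s 1 0 0)) / (1 + (fD (jet r s y t)))) - (dS (jet r s y t) (cb r s 1 0 0))) - (dT0 (jet r s y t) (cb r s 1 0 0))) := h162.sub' h160 (by norm_num)
  have h164 : In (89973899250171570351909/5000000000000000000000) (35989608188757126345889/2000000000000000000000) (dNet (jet r s y t) (cb r s 1 0 0)) := In.congr h163 (by unfold dNet; ring)
  exact ⟨h128, h164⟩

end K5L
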