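import Pool.Agent.Lib.K5L.NwB

/-!
# K5L.NwY : differentials of the equations on the box of the critical point

Generated file.
-/

set_option autoImplicit false

namespace K5L

open K5N K5C K5S


theorem nw_y {r s y t : ℝ} (h : NwB r s y t) :
    In (52284480383602622503433/10000000000000000000000) (418279353428462386649/80000000000000000000) (dM (jet r s y t) (cb r s 0 1 0)) ∧
    In (377804955041557826294921/10000000000000000000000) (377805263465244988182167/10000000000000000000000) (dNet (jet r s y t) (cb r s 0 1 0)) := by
  have h1 : In (939642792602331227/500000000000000000) (939642792604331227/500000000000000000) (r + s) := h.hr.add' h.hs (by norm_num)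
  have h2 : In (4165194048945482963/16000000000000000000) (130162314031425628179/500000000000000000000) (r * s) := h.hr.mul' h.hs (by norm_num)
  have h3 : In (35317143107580306242277/10000000000000000000000) (17658571553865324544547/5000000000000000000000) ((r + s) ^ 2) := h1.pow' 2 (by norm_num)
  have h4 : In (489224320985218088667/1000000000000000000000) (489224320993322815801/1000000000000000000000) ((r * s) * (r + s)) := h2.mul' h1 (by norm_num)
  have h5 : In (35317143107580306242277/5000000000000000000000) (17658571553865324544547/2500000000000000000000) (2 * ((r + s) ^ 2)) := (In.const (c := 2) (le_refl _) (le_refl _)).mul' h3 (by norm_num)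
  have h6 : In (73237532495751539336429/10000000000000000000000) (9154691562011226342721/1250000000000000000000) ((2 * ((r + s) ^ 2)) + (r * s)) := h5.add' h2 (by norm_num)
  have h7 : In (19065533406922233509863/10000000000000000000000) (19065533407285562365881/10000000000000000000000) ((r * s) * ((2 * ((r + s) ^ 2)) + (r * s))) := h2.mul' h6 (by norm_num)
  have h8 : In (12495582146836448889/16000000000000000000) (390486942094276884537/500000000000000000000) (3 * (r * s)) := (In.const (c := 3) (le_refl _) (le_refl _)).mul' h2 (by norm_num)
  have h9 : In (1467672962955654266001/1000000000000000000000) (14676729629799684474029/10000000000000000000000) ((3 * (r * s)) * (r + s)) := h8.mul' h1 (by norm_num)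
  have h10 : In (4165194048945482963/8000000000000000000) (130162314031425628179/250000000000000000000) (2 * (r * s)) := (In.const (c := 2) (le_refl _) (le_refl _)).mul' h2 (by norm_num)
  have h11 : In (40523635668762159946027/10000000000000000000000) (20261817834493837108127/5000000000000000000000) (((r + s) ^ 2) + (2 * (r * s))) := h3.add' h10 (by norm_num)
  have h12 : In (29737722215853797731113/5000000000000000000000) (1486886110825596892203/250000000000000000000) (((3 * (r * s)) * (r + s)) * (((r + s) ^ 2) + (2 * (r * s)))) := h9.mul' h11 (by norm_num)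
  have h13 : In (0) (0) ((cb r s 0 1 0).x) := In.congr (In.const (c := 0) (le_refl _) (le_refl _)) (by first | rfl | (simp only [cb, a1, a2, a3, c1, c2, c3, e1, e2, e3]; ring))
  have h14 : In (1) (1) ((cb r s 0 1 0).y) := In.congr (In.const (c := 1) (le_refl _) (le_refl _)) (by first | rfl | (simp only [cb, a1, a2, a3, c1, c2, c3, e1, e2, e3]; ring))
  have h15 : In (0) (0) ((cb r s 0 1 0).t) := In.congr (In.const (c := 0) (le_refl _) (le_refl _)) (by first | rfl | (simp only [cb, a1, a2, a3, c1, c2, c3, e1, e2, e3]; ring))
  have h16 : In (489224320985218088667/1000000000000000000000) (489224320993322815801/1000000000000000000000) ((cb r s 0 1 0).u) := In.congr h4 (by first | rfl | (simp only [cb, a1, a2, a3, c1, c2, c3, e1, e2, e3]; ring))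
  have h17 : In (19065533406922233509863/10000000000000000000000) (19065533407285562365881/10000000000000000000000) ((cb r s 0 1 0).v) := In.congr h7 (by first | rfl | (simp only [cb, a1, a2, a3, c1, c2, c3, e1, e2, e3]; ring))
  have h18 : In (29737722215853797731113/5000000000000000000000) (1486886110825596892203/250000000000000000000) ((cb r s 0 1 0).w) := In.congr h12 (by first | rfl | (simp only [cb, a1, a2, a3, c1, c2, c3, e1, e2, e3]; ring))
  have h19 : In (1419957436771832172479/625000000000000000000) (22719319005392968638219/10000000000000000000000) ((fk (jet r s y t)) ^ 2) := h.hk.pow' 2 (by norm_num)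
  have h20 : In (8561167074440449891377/2500000000000000000000) (8561167084074116850019/2500000000000000000000) ((fk (jet r s y t)) ^ 3) := h.hk.pow' 3 (by norm_num)
  have h21 : In (2580837276471848655241/500000000000000000000) (25808372803440507486323/5000000000000000000000) ((fk (jet r s y t)) ^ 4) := h.hk.pow' 4 (by norm_num)
  have h22 : In (0) (0) ((fk (jet r s y t)) * (cb r s 0 1 0).x) := h.hk.mul' h13 (by norm_num)
  have h23 : In (489224320985218088667/1000000000000000000000) (489224320993322815801/1000000000000000000000) ((cb r s 0 1 0).u - ((fk (jet r s y t)) * (cb r s 0 1 0).x)) := h16.sub' h22 (by norm_num)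
  have h24 : In (8179475293812602744913/625000000000000000000) (65435802365518732634369/5000000000000000000000) (((cb r s 0 1 0).u - ((fk (jet r s y t)) * (cb r s 0 1 0).x)) / (jet r s y t).x) := h23.div' h.hx (by norm_num)
  have h25 : In (8179475293812602744913/625000000000000000000) (65435802365518732634369/5000000000000000000000) (dk (jet r s y t) (cb r s 0 1 0)) := In.congr h24 (by unfold dk; ring)
  have h26 : In (0) (0) (((fk (jet r s y t)) ^ 3) * (cb r s 0 1 0).t) := h20.mul' h15 (by norm_num)
  have h27 : In (1615436103712323/500000000000000000) (1615436106712323/500000000000000000) (3 * (jet r s y t).t) := (In.const (c := 3) (le_refl _) (le_refl _)).mul' h.ht (by norm_num)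
  have h28 : In (14680643258214565159/2000000000000000000000) (36701608241227303729/5000000000000000000000) ((3 * (jet r s y t).t) * ((fk (jet r s y t)) ^ 2)) := h27.mul' h19 (by norm_num)
  have h29 : In (192127934124548137631/2000000000000000000000) (960639673347857365513/10000000000000000000000) (((3 * (jet r s y t).t) * ((fk (jet r s y t)) ^ 2)) * (dk (jet r s y t) (cb r s 0 1 0))) := h28.mul' h25 (by norm_num)
  have h30 : In (192127934124548137631/2000000000000000000000) (960639673347857365513/10000000000000000000000) ((((fk (jet r s y t)) ^ 3) * (cb r s 0 1 0).t) + (((3 * (jet r s y t).t) * ((fk (jet r s y t)) ^ 2)) * (dk (jet r s y t) (cb r s 0 1 0)))) := h26.add' h29 (by norm_num)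
  have h31 : In (192127934124548137631/2000000000000000000000) (960639673347857365513/10000000000000000000000) (dT (jet r s y t) (cb r s 0 1 0)) := In.congr h30 (by unfold dT; ring)
  have h32 : In (1419957436771832172479/625000000000000000000) (22719319005392968638219/10000000000000000000000) (((fk (jet r s y t)) ^ 2) * (cb r s 0 1 0).y) := h19.mul' h14 (by norm_num)
  have h33 : In (205212204789913531/500000000000000000) (205212204791913531/500000000000000000) (2 * (jet r s y t).y) := (In.const (c := 2) (le_refl _) (le_refl _)).mul' h.hy (by norm_num)
  have h34 : In (6186298002406396556429/10000000000000000000000) (1546574501196779255659/2500000000000000000000) ((2 * (jet r s y t).y) * (fk (jet r s y t))) := h33.mul' h.hk (by norm_num)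
  have h35 : In (40480537336676302332861/5000000000000000000000) (80961074723090529610471/10000000000000000000000) (((2 * (jet r s y t).y) * (fk (jet r s y t))) * (dk (jet r s y t) (cb r s 0 1 0))) := h34.mul' h25 (by norm_num)
  have h36 : In (51840196830850959712693/5000000000000000000000) (10368039372848349824869/1000000000000000000000) ((((fk (jet r s y t)) ^ 2) * (cb r s 0 1 0).y) + (((2 * (jet r s y t).y) * (fk (jet r s y t))) * (dk (jet r s y t) (cb r s 0 1 0)))) := h32.add' h35 (by norm_num)
  have h37 : In (192127934124548137631/1000000000000000000000) (960639673347857365513/5000000000000000000000) (2 * (dT (jet r s y t) (cb r s 0 1 0))) := (In.const (c := 2) (le_refl _) (le_refl _)).mul' h31 (by norm_num)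
  have h38 : In (3300052281342106275053/312500000000000000000) (26400418268794803244929/2500000000000000000000) (((((fk (jet r s y t)) ^ 2) * (cb r s 0 1 0).y) + (((2 * (jet r s y t).y) * (fk (jet r s y t))) * (dk (jet r s y t) (cb r s 0 1 0)))) + (2 * (dT (jet r s y t) (cb r s 0 1 0)))) := h36.add' h37 (by norm_num)
  have h39 : In (3300052281342106275053/312500000000000000000) (26400418268794803244929/2500000000000000000000) (dY (jet r s y t) (cb r s 0 1 0)) := In.congr h38 (by unfold dY; ring)
  have h40 : In (69870721389842323/50000000000000000000) (13974144283919760233/10000000000000000000000) ((jet r s y t).x ^ 2) := h.hx.pow' 2 (by norm_num)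
  have h41 : In (65297694445463897/1250000000000000000000) (522381555897418237/10000000000000000000000) ((jet r s y t).x ^ 3) := h.hx.pow' 3 (by norm_num)
  have h42 : In (10459898406883688538349/5000000000000000000000) (20919797158782448717417/10000000000000000000000) ((fD (jet r s y t)) + 1) := h.hD.add' (In.const (c := 1) (le_refl _) (le_refl _)) (by norm_num)
  have h43 : In (4195885757490481437829/5000000000000000000000) (4195885760718125227783/5000000000000000000000) ((cb r s 0 1 0).v / ((fk (jet r s y t)) ^ 2)) := h17.div' h19 (by norm_num)
  have h44 : In (915710543600060874839/5000000000000000000000) (228927635949835177477/1250000000000000000000) (2 * (jet r s y t).v) := (In.const (c := 2) (le_refl _) (le_refl _)).mul' h.hv (by norm_num)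
  have h45 : In (106960947567944144837/2000000000000000000000) (106960947711581802043/2000000000000000000000) ((2 * (jet r s y t).v) / ((fk (jet r s y t)) ^ 3)) := h44.div' h20 (by norm_num)
  have h46 : In (6999075424278274648723/10000000000000000000000) (3499537717641824977099/5000000000000000000000) (((2 * (jet r s y t).v) / ((fk (jet r s y t)) ^ 3)) * (dk (jet r s y t) (cb r s 0 1 0))) := h45.mul' h25 (by norm_num)
  have h47 : In (69634803984865646073/500000000000000000000) (1392696097157975806843/10000000000000000000000) (((cb r s 0 1 0).v / ((fk (jet r s y t)) ^ 2)) - (((2 * (jet r s y t).v) / ((fk (jet r s y t)) ^ 3)) * (dk (jet r s y t) (cb r s 0 1 0)))) := h43.sub' h46 (by norm_num)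
  have h48 : In (69634803984865646073/500000000000000000000) (1392696097157975806843/10000000000000000000000) ((((cb r s 0 1 0).v / ((fk (jet r s y t)) ^ 2)) - (((2 * (jet r s y t).v) / ((fk (jet r s y t)) ^ 3)) * (dk (jet r s y t) (cb r s 0 1 0)))) - (cb r s 0 1 0).x) := h47.sub' h13 (by norm_num)
  have h49 : In (249155878778908027575787/2500000000000000000000) (996623528035051463352009/10000000000000000000000) (((((cb r s 0 1 0).v / ((fk (jet r s y t)) ^ 2)) - (((2 * (jet r s y t).v) / ((fk (jet r s y t)) ^ 3)) * (dk (jet r s y t) (cb r s 0 1 0)))) - (cb r s 0 1 0).x) / ((jet r s y t).x ^ 2)) := h48.div' h40 (by norm_num)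
  have h50 : In (10459898406883688538349/2500000000000000000000) (20919797158782448717417/5000000000000000000000) (2 * ((fD (jet r s y t)) + 1)) := (In.const (c := 2) (le_refl _) (le_refl _)).mul' h42 (by norm_num)
  have h51 : In (0) (0) ((2 * ((fD (jet r s y t)) + 1)) * (cb r s 0 1 0).x) := h50.mul' h13 (by norm_num)
  have h52 : In (0) (0) (((2 * ((fD (jet r s y t)) + 1)) * (cb r s 0 1 0).x) / (jet r s y t).x) := h51.div' h.hx (by norm_num)
  have h53 : In (249155878778908027575787/2500000000000000000000) (996623528035051463352009/10000000000000000000000) ((((((cb r s 0 1 0).v / ((fk (jet r s y t)) ^ 2)) - (((2 * (jet r s y t).v) / ((fk (jet r s y t)) ^ 3)) * (dk (jet r s y t) (cb r s 0 1 0)))) - (cb r s 0 1 0).x) / ((jet r s y t).x ^ 2)) - (((2 * ((fD (jet r s y t)) + 1)) * (cb r s 0 1 0).x) / (jet r s y t).x)) := h49.sub' h52 (by norm_num)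
  have h54 : In (249155878778908027575787/2500000000000000000000) (996623528035051463352009/10000000000000000000000) (dD (jet r s y t) (cb r s 0 1 0)) := In.congr h53 (by unfold dD; ring)
  have h55 : In (10459898406883688538349/5000000000000000000000) (20919797158782448717417/10000000000000000000000) (1 + (fD (jet r s y t))) := (In.const (c := 1) (le_refl _) (le_refl _)).add' h.hD (by norm_num)
  have h56 : In (17367796892536590313569/10000000000000000000000) (17367796912464512540683/10000000000000000000000) ((cb r s 0 1 0).w / ((fk (jet r s y t)) ^ 3)) := h18.div' h20 (by norm_num)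
  have h57 : In (479486403704012686047/1000000000000000000000) (47948640384473281047/100000000000000000000) (3 * (jet r s y t).w) := (In.const (c := 3) (le_refl _) (le_refl _)).mul' h.hw (by norm_num)
  have h58 : In (928935751501722878669/10000000000000000000000) (464467876584046007559/5000000000000000000000) ((3 * (jet r s y t).w) / ((fk (jet r s y t)) ^ 4)) := h57.div' h21 (by norm_num)
  have h59 : In (6078565623158068539619/5000000000000000000000) (303928281772857805079/250000000000000000000) (((3 * (jet r s y t).w) / ((fk (jet r s y t)) ^ 4)) * (dk (jet r s y t) (cb r s 0 1 0))) := h58.mul' h25 (by norm_num)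
  have h60 : In (5210665621622278110409/10000000000000000000000) (1042133133229675092289/2000000000000000000000) (((cb r s 0 1 0).w / ((fk (jet r s y t)) ^ 3)) - (((3 * (jet r s y t).w) / ((fk (jet r s y t)) ^ 4)) * (dk (jet r s y t) (cb r s 0 1 0)))) := h56.sub' h59 (by norm_num)
  have h61 : In (209612164169526969/50000000000000000000) (41922432851759280699/10000000000000000000000) (3 * ((jet r s y t).x ^ 2)) := (In.const (c := 3) (le_refl _) (le_refl _)).mul' h40 (by norm_num)
  have h62 : In (1044522059328144603101/2500000000000000000000) (1044522073313321948893/2500000000000000000000) ((3 * ((jet r s y t).x ^ 2)) * (dD (jet r s y t) (cb r s 0 1 0))) := h61.mul' h54 (by norm_num)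
  have h63 : In (1032577328368990314837/10000000000000000000000) (1032577428835797049041/10000000000000000000000) ((((cb r s 0 1 0).w / ((fk (jet r s y t)) ^ 3)) - (((3 * (jet r s y t).w) / ((fk (jet r s y t)) ^ 4)) * (dk (jet r s y t) (cb r s 0 1 0)))) - ((3 * ((jet r s y t).x ^ 2)) * (dD (jet r s y t) (cb r s 0 1 0)))) := h60.sub' h62 (by norm_num)
  have h64 : In (112146020215483429971/500000000000000000000) (280365050598409379037/1250000000000000000000) (6 * (jet r s y t).x) := (In.const (c := 6) (le_refl _) (le_refl _)).mul' h.hx (by norm_num)
  have h65 : In (938428782552224846687/2000000000000000000000) (4692143991144401600919/10000000000000000000000) ((6 * (jet r s y t).x) * (1 + (fD (jet r s y t)))) := h64.mul' h55 (by norm_num)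
  have h66 : In (0) (0) (((6 * (jet r s y t).x) * (1 + (fD (jet r s y t)))) * (cb r s 0 1 0).x) := h65.mul' h13 (by norm_num)
  have h67 : In (1032577328368990314837/10000000000000000000000) (1032577428835797049041/10000000000000000000000) (((((cb r s 0 1 0).w / ((fk (jet r s y t)) ^ 3)) - (((3 * (jet r s y t).w) / ((fk (jet r s y t)) ^ 4)) * (dk (jet r s y t) (cb r s 0 1 0)))) - ((3 * ((jet r s y t).x ^ 2)) * (dD (jet r s y t) (cb r s 0 1 0)))) - (((6 * (jet r s y t).x) * (1 + (fD (jet r s y t)))) * (cb r s 0 1 0).x)) := h63.sub' h66 (by norm_num)
  have h68 : In (1032577328368990314837/10000000000000000000000) (1032577428835797049041/10000000000000000000000) ((((((cb r s 0 1 0).w / ((fk (jet r s y t)) ^ 3)) - (((3 * (jet r s y t).w) / ((fk (jet r s y t)) ^ 4)) * (dk (jet r s y t) (cb r s 0 1 0)))) - ((3 * ((jet r s y t).x ^ 2)) * (dD (jet r s y t) (cb r s 0 1 0)))) - (((6 * (jet r s y t).x) * (1 + (fD (jet r s y t)))) * (cb r s 0 1 0).x)) - (cb r s 0 1 0).x) := h67.sub' h13 (by norm_num)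
  have h69 : In (790669055376649537727709/400000000000000000000) (19766728320289266000801337/10000000000000000000000) (((((((cb r s 0 1 0).w / ((fk (jet r s y t)) ^ 3)) - (((3 * (jet r s y t).w) / ((fk (jet r s y t)) ^ 4)) * (dk (jet r s y t) (cb r s 0 1 0)))) - ((3 * ((jet r s y t).x ^ 2)) * (dD (jet r s y t) (cb r s 0 1 0)))) - (((6 * (jet r s y t).x) * (1 + (fD (jet r s y t)))) * (cb r s 0 1 0).x)) - (cb r s 0 1 0).x) / ((jet r s y t).x ^ 3)) := h68.div' h41 (by norm_num)
  have h70 : In (298927615002423919263207/10000000000000000000000) (29892774300275283342057/1000000000000000000000) (3 * (fN (jet r s y t))) := (In.const (c := 3) (le_refl _) (le_refl _)).mul' h.hN (by norm_num)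
  have h71 : In (0) (0) ((3 * (fN (jet r s y t))) * (cb r s 0 1 0).x) := h70.mul' h13 (by norm_num)
  have h72 : In (0) (0) (((3 * (fN (jet r s y t))) * (cb r s 0 1 0).x) / (jet r s y t).x) := h71.div' h.hx (by norm_num)
  have h73 : In (790669055376649537727709/400000000000000000000) (19766728320289266000801337/10000000000000000000000) ((((((((cb r s 0 1 0).w / ((fk (jet r s y t)) ^ 3)) - (((3 * (jet r s y t).w) / ((fk (jet r s y t)) ^ 4)) * (dk (jet r s y t) (cb r s 0 1 0)))) - ((3 * ((jet r s y t).x ^ 2)) * (dD (jet r s y t) (cb r s 0 1 0)))) - (((6 * (jet r s y t).x) * (1 + (fD (jet r s y t)))) * (cb r s 0 1 0).x)) - (cb r s 0 1 0).x) / ((jet r s y t).x ^ 3)) - (((3 * (fN (jet r s y t))) * (cb r s 0 1 0).x) / (jet r s y t).x)) := h69.sub' h72 (by norm_num)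
  have h74 : In (790669055376649537727709/400000000000000000000) (19766728320289266000801337/10000000000000000000000) (dN (jet r s y t) (cb r s 0 1 0)) := In.congr h73 (by unfold dN; ring)
  have h75 : In (91552959194213049849083/10000000000000000000000) (1430515058186925844353/156250000000000000000) ((1 + (fD (jet r s y t))) ^ 3) := h55.pow' 3 (by norm_num)
  have h76 : In (107952411262260734072121/500000000000000000000) (2159048543516515480394799/10000000000000000000000) ((dN (jet r s y t) (cb r s 0 1 0)) / ((1 + (fD (jet r s y t))) ^ 3)) := h74.div' h75 (by norm_num)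
  have h77 : In (298927615002423919263207/10000000000000000000000) (29892774300275283342057/1000000000000000000000) (3 * (fN (jet r s y t))) := (In.const (c := 3) (le_refl _) (le_refl _)).mul' h.hN (by norm_num)
  have h78 : In (29791829042884809088679081/10000000000000000000000) (14895921092947934869218227/5000000000000000000000) ((3 * (fN (jet r s y t))) * (dD (jet r s y t) (cb r s 0 1 0))) := h77.mul' h54 (by norm_num)
  have h79 : In (95763465202103642523269/5000000000000000000000) (191526943039067907737451/10000000000000000000000) ((1 + (fD (jet r s y t))) ^ 4) := h55.pow' 4 (by norm_num)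
  have h80 : In (1555490239136111214064099/10000000000000000000000) (1555491027973026519315791/10000000000000000000000) (((3 * (fN (jet r s y t))) * (dD (jet r s y t) (cb r s 0 1 0))) / ((1 + (fD (jet r s y t))) ^ 4)) := h78.div' h79 (by norm_num)
  have h81 : In (603557197272188162126629/10000000000000000000000) (6035583043804042663307/100000000000000000000) (((dN (jet r s y t) (cb r s 0 1 0)) / ((1 + (fD (jet r s y t))) ^ 3)) - (((3 * (fN (jet r s y t))) * (dD (jet r s y t) (cb r s 0 1 0))) / ((1 + (fD (jet r s y t))) ^ 4))) := h76.sub' h80 (by norm_num)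
  have h82 : In (150649139399710076190279/2500000000000000000000) (120519532941956305128509/2000000000000000000000) ((((dN (jet r s y t) (cb r s 0 1 0)) / ((1 + (fD (jet r s y t))) ^ 3)) - (((3 * (fN (jet r s y t))) * (dD (jet r s y t) (cb r s 0 1 0))) / ((1 + (fD (jet r s y t))) ^ 4))) - (dT (jet r s y t) (cb r s 0 1 0))) := h81.sub' h31 (by norm_num)
  have h83 : In (150649139399710076190279/2500000000000000000000) (120519532941956305128509/2000000000000000000000) (dA (jet r s y t) (cb r s 0 1 0)) := In.congr h82 (by unfold dA; ring)
  have h84 : In (408203918075242605669/10000000000000000000000) (408203931059521094771/10000000000000000000000) ((jet r s y t).x * (fD (jet r s y t))) := h.hx.mul' h.hD (by norm_num)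
  have h85 : In (10408203918075242605669/10000000000000000000000) (10408203931059521094771/10000000000000000000000) (1 + ((jet r s y t).x * (fD (jet r s y t)))) := (In.const (c := 1) (le_refl _) (le_refl _)).add' h84 (by norm_num)
  have h86 : In (5962098122698208024129/5000000000000000000000) (372631156215478873519/312500000000000000000) ((fD (jet r s y t)) ^ 2) := h.hD.pow' 2 (by norm_num)
  have h87 : In (0) (0) (((fD (jet r s y t)) ^ 2) * (cb r s 0 1 0).x) := h86.mul' h13 (by norm_num)
  have h88 : In (37382006738494476657/500000000000000000000) (93455016866136459679/1250000000000000000000) (2 * (jet r s y t).x) := (In.const (c := 2) (le_refl _) (le_refl _)).mul' h.hx (by norm_num)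
  have h89 : In (408203918075242605669/5000000000000000000000) (816407862119042189541/10000000000000000000000) ((2 * (jet r s y t).x) * (fD (jet r s y t))) := h88.mul' h.hD (by norm_num)
  have h90 : In (8136512474322436012413/1000000000000000000000) (10170641048257920914757/1250000000000000000000) (((2 * (jet r s y t).x) * (fD (jet r s y t))) * (dD (jet r s y t) (cb r s 0 1 0))) := h89.mul' h54 (by norm_num)
  have h91 : In (8136512474322436012413/1000000000000000000000) (10170641048257920914757/1250000000000000000000) ((((fD (jet r s y t)) ^ 2) * (cb r s 0 1 0).x) + (((2 * (jet r s y t).x) * (fD (jet r s y t))) * (dD (jet r s y t) (cb r s 0 1 0)))) := h87.add' h90 (by norm_num)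
  have h92 : In (78174030103714211841269/10000000000000000000000) (78174033701205550802817/10000000000000000000000) (((((fD (jet r s y t)) ^ 2) * (cb r s 0 1 0).x) + (((2 * (jet r s y t).x) * (fD (jet r s y t))) * (dD (jet r s y t) (cb r s 0 1 0)))) / (1 + ((jet r s y t).x * (fD (jet r s y t))))) := h91.div' h85 (by norm_num)
  have h93 : In (0) (0) ((fD (jet r s y t)) * (cb r s 0 1 0).x) := h.hD.mul' h13 (by norm_num)
  have h94 : In (37255786957794611460523/10000000000000000000000) (4656973431085207863673/1250000000000000000000) ((jet r s y t).x * (dD (jet r s y t) (cb r s 0 1 0))) := h.hx.mul' h54 (by norm_num)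
  have h95 : In (37255786957794611460523/10000000000000000000000) (4656973431085207863673/1250000000000000000000) (((fD (jet r s y t)) * (cb r s 0 1 0).x) + ((jet r s y t).x * (dD (jet r s y t) (cb r s 0 1 0)))) := h93.add' h94 (by norm_num)
  have h96 : In (398886817250851316831/2500000000000000000000) (1595547393180579467267/10000000000000000000000) ((fS (jet r s y t)) * (((fD (jet r s y t)) * (cb r s 0 1 0).x) + ((jet r s y t).x * (dD (jet r s y t) (cb r s 0 1 0))))) := h.hS.mul' h95 (by norm_num)
  have h97 : In (766485399196527742067/5000000000000000000000) (1532970919612458148831/10000000000000000000000) (((fS (jet r s y t)) * (((fD (jet r s y t)) * (cb r s 0 1 0).x) + ((jet r s y t).x * (dD (jet r s y t) (cb r s 0 1 0))))) / (1 + ((jet r s y t).x * (fD (jet r s y t))))) := h96.div' h85 (by norm_num)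
  have h98 : In (38320529592050876846219/5000000000000000000000) (76641062902812495318683/10000000000000000000000) ((((((fD (jet r s y t)) ^ 2) * (cb r s 0 1 0).x) + (((2 * (jet r s y t).x) * (fD (jet r s y t))) * (dD (jet r s y t) (cb r s 0 1 0)))) / (1 + ((jet r s y t).x * (fD (jet r s y t))))) - (((fS (jet r s y t)) * (((fD (jet r s y t)) * (cb r s 0 1 0).x) + ((jet r s y t).x * (dD (jet r s y t) (cb r s 0 1 0))))) / (1 + ((jet r s y t).x * (fD (jet r s y t)))))) := h92.sub' h97 (by norm_num)
  have h99 : In (38320529592050876846219/5000000000000000000000) (76641062902812495318683/10000000000000000000000) (dS (jet r s y t) (cb r s 0 1 0)) := In.congr h98 (by unfold dS; ring)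
  have h100 : In (21881894936465585100827/5000000000000000000000) (21881895658230110693721/5000000000000000000000) ((1 + (fD (jet r s y t))) ^ 2) := h55.pow' 2 (by norm_num)
  have h101 : In (0) (0) (((1 + (fD (jet r s y t))) ^ 2) * (cb r s 0 1 0).x) := h100.mul' h13 (by norm_num)
  have h102 : In (37382006738494476657/500000000000000000000) (93455016866136459679/1250000000000000000000) (2 * (jet r s y t).x) := (In.const (c := 2) (le_refl _) (le_refl _)).mul' h.hx (by norm_num)
  have h103 : In (782023985460187372239/5000000000000000000000) (1564047997048133866973/10000000000000000000000) ((2 * (jet r s y t).x) * (1 + (fD (jet r s y t)))) := h102.mul' h55 (by norm_num)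
  have h104 : In (155876698658813583045177/10000000000000000000000) (155876703283426693136823/10000000000000000000000) (((2 * (jet r s y t).x) * (1 + (fD (jet r s y t)))) * (dD (jet r s y t) (cb r s 0 1 0))) := h103.mul' h54 (by norm_num)
  have h105 : In (155876698658813583045177/10000000000000000000000) (155876703283426693136823/10000000000000000000000) ((((1 + (fD (jet r s y t))) ^ 2) * (cb r s 0 1 0).x) + (((2 * (jet r s y t).x) * (1 + (fD (jet r s y t)))) * (dD (jet r s y t) (cb r s 0 1 0)))) := h101.add' h104 (by norm_num)
  have h106 : In (155876698658813583045177/10000000000000000000000) (155876703283426693136823/10000000000000000000000) (dP (jet r s y t) (cb r s 0 1 0)) := In.congr h105 (by unfold dP; ring)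
  have h107 : In (7376009803714297329/1000000000000000000000) (7376009825712203819/1000000000000000000000) (2 * (fT (jet r s y t))) := (In.const (c := 2) (le_refl _) (le_refl _)).mul' h.hT (by norm_num)
  have h108 : In (136013801561223567/10000000000000000000000) (136013802372507439/10000000000000000000000) ((fT (jet r s y t)) ^ 2) := h.hT.pow' 2 (by norm_num)
  have h109 : In (73896111838704196857/10000000000000000000000) (73896112059494545629/10000000000000000000000) ((2 * (fT (jet r s y t))) + ((fT (jet r s y t)) ^ 2)) := h107.add' h108 (by norm_num)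
  have h110 : In (227727873919549330321027/10000000000000000000000) (7116496386972847883017/312500000000000000000) ((dD (jet r s y t) (cb r s 0 1 0)) / ((1 + (fD (jet r s y t))) ^ 2)) := h54.div' h100 (by norm_num)
  have h111 : In (122126200844370117341311/10000000000000000000000) (954111026407685401991/78125000000000000000) (((dD (jet r s y t) (cb r s 0 1 0)) / ((1 + (fD (jet r s y t))) ^ 2)) - (dY (jet r s y t) (cb r s 0 1 0))) := h110.sub' h39 (by norm_num)
  have h112 : In (11371284485389405505657/2500000000000000000000) (4548515219608197776241/1000000000000000000000) ((((dD (jet r s y t) (cb r s 0 1 0)) / ((1 + (fD (jet r s y t))) ^ 2)) - (dY (jet r s y t) (cb r s 0 1 0))) - (dS (jet r s y t) (cb r s 0 1 0))) := h111.sub' h99 (by norm_num)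
  have h113 : In (1151868195713968101837/10000000000000000000000) (1151868233329668029583/10000000000000000000000) (((2 * (fT (jet r s y t))) + ((fT (jet r s y t)) ^ 2)) * (dP (jet r s y t) (cb r s 0 1 0))) := h109.mul' h106 (by norm_num)
  have h114 : In (8866653941645590798609/2000000000000000000000) (44333284000368009660573/10000000000000000000000) (((((dD (jet r s y t) (cb r s 0 1 0)) / ((1 + (fD (jet r s y t))) ^ 2)) - (dY (jet r s y t) (cb r s 0 1 0))) - (dS (jet r s y t) (cb r s 0 1 0))) - (((2 * (fT (jet r s y t))) + ((fT (jet r s y t)) ^ 2)) * (dP (jet r s y t) (cb r s 0 1 0)))) := h112.sub' h113 (by norm_num)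
  have h115 : In (817989143965984670401/5000000000000000000000) (1635978342242346530439/10000000000000000000000) ((jet r s y t).x * ((1 + (fD (jet r s y t))) ^ 2)) := h.hx.mul' h100 (by norm_num)
  have h116 : In (7376009803714297329/1000000000000000000000) (7376009825712203819/1000000000000000000000) (2 * (fT (jet r s y t))) := (In.const (c := 2) (le_refl _) (le_refl _)).mul' h.hT (by norm_num)
  have h117 : In (2007376009803714297329/1000000000000000000000) (2007376009825712203819/1000000000000000000000) (2 + (2 * (fT (jet r s y t)))) := (In.const (c := 2) (le_refl _) (le_refl _)).add' h116 (by norm_num)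
  have h118 : In (1928365028873831585091/10000000000000000000000) (1928365034365297488841/10000000000000000000000) ((2 + (2 * (fT (jet r s y t)))) * (dT (jet r s y t) (cb r s 0 1 0))) := h117.mul' h31 (by norm_num)
  have h119 : In (2464658842535073141/78125000000000000000) (315476343215904498363/10000000000000000000000) (((jet r s y t).x * ((1 + (fD (jet r s y t))) ^ 2)) * ((2 + (2 * (fT (jet r s y t)))) * (dT (jet r s y t) (cb r s 0 1 0)))) := h115.mul' h118 (by norm_num)
  have h120 : In (22008896682506024747341/5000000000000000000000) (1760712306740940811941/400000000000000000000) ((((((dD (jet r s y t) (cb r s 0 1 0)) / ((1 + (fD (jet r s y t))) ^ 2)) - (dY (jet r s y t) (cb r s 0 1 0))) - (dS (jet r s y t) (cb r s 0 1 0))) - (((2 * (fT (jet r s y t))) + ((fT (jet r s y t)) ^ 2)) * (dP (jet r s y t) (cb r s 0 1 0)))) - (((jet r s y t).x * ((1 + (fD (jet r s y t))) ^ 2)) * ((2 + (2 * (fT (jet r s y t)))) * (dT (jet r s y t) (cb r s 0 1 0))))) := h114.sub' h119 (by norm_num)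
  have h121 : In (22008896682506024747341/10000000000000000000000) (22008903834261760149263/10000000000000000000000) (((((((dD (jet r s y t) (cb r s 0 1 0)) / ((1 + (fD (jet r s y t))) ^ 2)) - (dY (jet r s y t) (cb r s 0 1 0))) - (dS (jet r s y t) (cb r s 0 1 0))) - (((2 * (fT (jet r s y t))) + ((fT (jet r s y t)) ^ 2)) * (dP (jet r s y t) (cb r s 0 1 0)))) - (((jet r s y t).x * ((1 + (fD (jet r s y t))) ^ 2)) * ((2 + (2 * (fT (jet r s y t)))) * (dT (jet r s y t) (cb r s 0 1 0))))) / 2) := h120.div' (In.const (c := 2) (le_refl _) (le_refl _)) (by norm_num)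
  have h122 : In (22008896682506024747341/10000000000000000000000) (22008903834261760149263/10000000000000000000000) (dK (jet r s y t) (cb r s 0 1 0)) := In.congr h121 (by unfold dK; ring)
  have h123 : In (441797413091071314977/5000000000000000000000) (441800242246410442649/5000000000000000000000) ((Real.exp (fA (jet r s y t))) - 1) := h.heA.sub' (In.const (c := 1) (le_refl _) (le_refl _)) (by norm_num)
  have h124 : In (26622560028475239934473/5000000000000000000000) (665569485614756737741/125000000000000000000) (((Real.exp (fA (jet r s y t))) - 1) * (dA (jet r s y t) (cb r s 0 1 0))) := h123.mul' h83 (by norm_num)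
  have h125 : In (52284480383602622503433/10000000000000000000000) (418279353428462386649/80000000000000000000) ((((Real.exp (fA (jet r s y t))) - 1) * (dA (jet r s y t) (cb r s 0 1 0))) - (dT (jet r s y t) (cb r s 0 1 0))) := h124.sub' h31 (by norm_num)
  have h126 : In (52284480383602622503433/10000000000000000000000) (418279353428462386649/80000000000000000000) (dM (jet r s y t) (cb r s 0 1 0)) := In.congr h125 (by unfold dM; ring)
  have h127 : In (-10222837761281187/312500000000000000000) (163565426669817811/5000000000000000000000) ((fM (jet r s y t)) * (dA (jet r s y t) (cb r s 0 1 0))) := h.hM.mulG' h83 (by norm_num)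
  have h128 : In (81338802524032276333/10000000000000000000000) (81339302185005801337/10000000000000000000000) ((fA (jet r s y t)) * (dT (jet r s y t) (cb r s 0 1 0))) := h.hA.mul' h31 (by norm_num)
  have h129 : In (-81666432993366799321/10000000000000000000000) (-81011671670692640711/10000000000000000000000) (((fM (jet r s y t)) * (dA (jet r s y t) (cb r s 0 1 0))) - ((fA (jet r s y t)) * (dT (jet r s y t) (cb r s 0 1 0)))) := h127.sub' h128 (by norm_num)
  have h130 : In (-81666432993366799321/10000000000000000000000) (-81011671670692640711/10000000000000000000000) (dG (jet r s y t) (cb r s 0 1 0)) := In.congr h129 (by unfold dG; ring)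
  have h131 : In (-16326862335360946859/5000000000000000000000) (-8119330949766855559/2500000000000000000000) ((fG (jet r s y t)) * (dP (jet r s y t) (cb r s 0 1 0))) := h.hG.mulG' h106 (by norm_num)
  have h132 : In (21976242957835302853623/10000000000000000000000) (21976426510462692727027/10000000000000000000000) ((dK (jet r s y t) (cb r s 0 1 0)) + ((fG (jet r s y t)) * (dP (jet r s y t) (cb r s 0 1 0)))) := h122.add' h131 (by norm_num)
  have h133 : In (817989143965984670401/5000000000000000000000) (1635978342242346530439/10000000000000000000000) ((jet r s y t).x * ((1 + (fD (jet r s y t))) ^ 2)) := h.hx.mul' h100 (by norm_num)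
  have h134 : In (-2672090313306677801/2000000000000000000000) (-13253333592232656869/10000000000000000000000) (((jet r s y t).x * ((1 + (fD (jet r s y t))) ^ 2)) * (dG (jet r s y t) (cb r s 0 1 0))) := h133.mulN' h130 (by norm_num)
  have h135 : In (10981441253134384732309/5000000000000000000000) (10981586588435230035079/5000000000000000000000) (((dK (jet r s y t) (cb r s 0 1 0)) + ((fG (jet r s y t)) * (dP (jet r s y t) (cb r s 0 1 0)))) + (((jet r s y t).x * ((1 + (fD (jet r s y t))) ^ 2)) * (dG (jet r s y t) (cb r s 0 1 0)))) := h132.add' h134 (by norm_num)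
  have h136 : In (72998352255969/1000000000000000000000) (364991761668451/5000000000000000000000) ((jet r s y t).x ^ 5) := h.hx.pow' 5 (by norm_num)
  have h137 : In (656985170303721/1000000000000000000000) (3284925855016059/5000000000000000000000) (9 * ((jet r s y t).x ^ 5)) := (In.const (c := 9) (le_refl _) (le_refl _)).mul' h136 (by norm_num)
  have h138 : In (5264900012508923752989/2000000000000000000000) (3290563651450366383381/1250000000000000000000) ((fD (jet r s y t)) ^ 11) := h.hD.pow' 11 (by norm_num)
  have h139 : In (1729480615675119/1000000000000000000000) (135115720202817/78125000000000000000) ((9 * ((jet r s y t).x ^ 5)) * ((fD (jet r s y t)) ^ 11)) := h137.mul' h138 (by norm_num)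
  have h140 : In (0) (0) (((9 * ((jet r s y t).x ^ 5)) * ((fD (jet r s y t)) ^ 11)) * (cb r s 0 1 0).x) := h139.mul' h13 (by norm_num)
  have h141 : In (6822062239829/2500000000000000000000) (27288248994181/10000000000000000000000) ((jet r s y t).x ^ 6) := h.hx.pow' 6 (by norm_num)
  have h142 : In (225128053914357/5000000000000000000000) (450256108403987/10000000000000000000000) ((33/2) * ((jet r s y t).x ^ 6)) := (In.const (c := (33/2)) (le_refl _) (le_refl _)).mul' h141 (by norm_num)
  have h143 : In (12053566797761025608167/5000000000000000000000) (4821428242452463125659/2000000000000000000000) ((fD (jet r s y t)) ^ 10) := h.hD.pow' 10 (by norm_num)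
  have h144 : In (1085438414362659/10000000000000000000000) (1085438758697861/10000000000000000000000) (((33/2) * ((jet r s y t).x ^ 6)) * ((fD (jet r s y t)) ^ 10)) := h142.mul' h143 (by norm_num)
  have h145 : In (108177344796365123/10000000000000000000000) (54088690257972457/5000000000000000000000) ((((33/2) * ((jet r s y t).x ^ 6)) * ((fD (jet r s y t)) ^ 10)) * (dD (jet r s y t) (cb r s 0 1 0))) := h144.mul' h54 (by norm_num)
  have h146 : In (108177344796365123/10000000000000000000000) (54088690257972457/5000000000000000000000) ((((9 * ((jet r s y t).x ^ 5)) * ((fD (jet r s y t)) ^ 11)) * (cb r s 0 1 0).x) + ((((33/2) * ((jet r s y t).x ^ 6)) * ((fD (jet r s y t)) ^ 10)) * (dD (jet r s y t) (cb r s 0 1 0)))) := h140.add' h145 (by norm_num)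
  have h147 : In (4043397659582986401187/2000000000000000000000) (505424835200551417951/250000000000000000000) ((fD (jet r s y t)) ^ 8) := h.hD.pow' 8 (by norm_num)
  have h148 : In (66006136224238423/625000000000000000000) (211219689441008201/2000000000000000000000) (((jet r s y t).x ^ 3) * ((fD (jet r s y t)) ^ 8)) := h41.mul' h147 (by norm_num)
  have h149 : In (0) (0) ((((jet r s y t).x ^ 3) * ((fD (jet r s y t)) ^ 8)) * (cb r s 0 1 0).x) := h148.mul' h13 (by norm_num)
  have h150 : In (9763835415073939/5000000000000000000000) (19527670846780731/10000000000000000000000) ((jet r s y t).x ^ 4) := h.hx.pow' 4 (by norm_num)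
  have h151 : In (9763835415073939/2500000000000000000000) (19527670846780731/5000000000000000000000) (2 * ((jet r s y t).x ^ 4)) := (In.const (c := 2) (le_refl _) (le_refl _)).mul' h150 (by norm_num)
  have h152 : In (9257035017549920739447/5000000000000000000000) (18514074129813085455059/10000000000000000000000) ((fD (jet r s y t)) ^ 7) := h.hD.pow' 7 (by norm_num)
  have h153 : In (36153666537173407/5000000000000000000000) (1129802330124651/156250000000000000000) ((2 * ((jet r s y t).x ^ 4)) * ((fD (jet r s y t)) ^ 7)) := h151.mul' h152 (by norm_num)
  have h154 : In (7206318845719232761/10000000000000000000000) (360316026953936507/500000000000000000000) (((2 * ((jet r s y t).x ^ 4)) * ((fD (jet r s y t)) ^ 7)) * (dD (jet r s y t) (cb r s 0 1 0))) := h153.mul' h54 (by norm_num)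
  have h155 : In (7206318845719232761/10000000000000000000000) (360316026953936507/500000000000000000000) (((((jet r s y t).x ^ 3) * ((fD (jet r s y t)) ^ 8)) * (cb r s 0 1 0).x) + (((2 * ((jet r s y t).x ^ 4)) * ((fD (jet r s y t)) ^ 7)) * (dD (jet r s y t) (cb r s 0 1 0)))) := h149.add' h154 (by norm_num)
  have h156 : In (21962990683613565829741/10000000000000000000000) (686352542320343000471/312500000000000000000) ((((dK (jet r s y t) (cb r s 0 1 0)) + ((fG (jet r s y t)) * (dP (jet r s y t) (cb r s 0 1 0)))) + (((jet r s y t).x * ((1 + (fD (jet r s y t))) ^ 2)) * (dG (jet r s y t) (cb r s 0 1 0)))) + ((((9 * ((jet r s y t).x ^ 5)) * ((fD (jet r s y t)) ^ 11)) * (cb r s 0 1 0).x) + ((((33/2) * ((jet r s y t).x ^ 6)) * ((fD (jet r s y t)) ^ 10)) * (dD (jet r s y t) (cb r s 0 1 0))))) := h135.add' h146 (by norm_num)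
  have h157 : In (21955784363074487099601/10000000000000000000000) (21956075035405256782311/10000000000000000000000) (((((dK (jet r s y t) (cb r s 0 1 0)) + ((fG (jet r s y t)) * (dP (jet r s y t) (cb r s 0 1 0)))) + (((jet r s y t).x * ((1 + (fD (jet r s y t))) ^ 2)) * (dG (jet r s y t) (cb r s 0 1 0)))) + ((((9 * ((jet r s y t).x ^ 5)) * ((fD (jet r s y t)) ^ 11)) * (cb r s 0 1 0).x) + ((((33/2) * ((jet r s y t).x ^ 6)) * ((fD (jet r s y t)) ^ 10)) * (dD (jet r s y t) (cb r s 0 1 0))))) - (((((jet r s y t).x ^ 3) * ((fD (jet r s y t)) ^ 8)) * (cb r s 0 1 0).x) + (((2 * ((jet r s y t).x ^ 4)) * ((fD (jet r s y t)) ^ 7)) * (dD (jet r s y t) (cb r s 0 1 0))))) := h156.sub' h155 (by norm_num)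
  have h158 : In (21955784363074487099601/10000000000000000000000) (21956075035405256782311/10000000000000000000000) (dT0 (jet r s y t) (cb r s 0 1 0)) := In.congr h157 (by unfold dT0; ring)
  have h159 : In (95280418595955115679183/2000000000000000000000) (238201053506210614487103/5000000000000000000000) ((dD (jet r s y t) (cb r s 0 1 0)) / (1 + (fD (jet r s y t)))) := h54.div' h55 (by norm_num)
  have h160 : In (24985064379810192692327/625000000000000000000) (49970130978539934410221/1250000000000000000000) (((dD (jet r s y t) (cb r s 0 1 0)) / (1 + (fD (jet r s y t)))) - (dS (jet r s y t) (cb r s 0 1 0))) := h159.sub' h99 (by norm_num)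
  have h161 : In (377804955041557826294921/10000000000000000000000) (377805263465244988182167/10000000000000000000000) ((((dD (jet r s y t) (cb r s 0 1 0)) / (1 + (fD (jet r s y t)))) - (dS (jet r s y t) (cb r s 0 1 0))) - (dT0 (jet r s y t) (cb r s 0 1 0))) := h160.sub' h158 (by norm_num)
  have h162 : In (377804955041557826294921/10000000000000000000000) (377805263465244988182167/10000000000000000000000) (dNet (jet r s y t) (cb r s 0 1 0)) := In.congr h161 (by unfold dNet; ring)
  exact ⟨h126, h162⟩

end K5L
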