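import Pool.Agent.Lib.K5L.Smooth

/-!
# K5L.Pc: the conditions at the critical point
-/

set_option autoImplicit false

namespace K5L

open K5N K5C

noncomputable section

/-- Partial derivatives at `pb = 1` in the coordinates `(x, y, t)`. -/
def gX (f : J → J → ℝ) (r s y t : ℝ) : ℝ := f (jet r s y t) (cb r s 1 0 0)
def gY (f : J → J → ℝ) (r s y t : ℝ) : ℝ := f (jet r s y t) (cb r s 0 1 0)
def gT (f : J → J → ℝ) (r s y t : ℝ) : ℝ := f (jet r s y t) (cb r s 0 0 1)

/-- The Jacobian determinant of `(M, Net)` in `(y, t)`. -/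
def Del (r s y t : ℝ) : ℝ := gY dM r s y t * gT dNet r s y t - gT dM r s y t * gY dNet r s y t

/-- `dy/dx` and `dt/dx` along `M = Net = 0`. -/
def Yx (r s y t : ℝ) : ℝ :=
  (gT dM r s y t * gX dNet r s y t - gX dM r s y t * gT dNet r s y t) / Del r s y t
def Tx (r s y t : ℝ) : ℝ :=
  (gX dM r s y t * gY dNet r s y t - gY dM r s y t * gX dNet r s y t) / Del r s y t

/-- The determinant of the mobile Jacobian. -/
def chi (r s y t : ℝ) : ℝ := pj r s y t ^ 2 - 4 * r * s * (y + 3 * t * (r + s)) ^ 2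

/-- `dx/dr = chi / om` along the curve. -/
def om (r s y t : ℝ) : ℝ :=
  pj r s y t * (1 + r * (r + 2 * s) * Yx r s y t
      + r * (r ^ 2 + 6 * r * s + 3 * s ^ 2) * Tx r s y t)
    + 2 * r * (y + 3 * t * (r + s)) * (s * (s + 2 * r) * Yx r s y t
      + s * (s ^ 2 + 6 * r * s + 3 * r ^ 2) * Tx r s y t)

/-- `df/dx` along the curve. -/
def HH (f : J → J → ℝ) (r s y t : ℝ) : ℝ :=
  gX f r s y t + gY f r s y t * Yx r s y t + gT f r s y t * Tx r s y t

/-- The derivative of `cb r s x y t` in the direction `(r', s')`. -/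
def dcb (r s r' s' x y t : ℝ) : J :=
  ⟨0, 0, 0,
    s' * x + ((r' * s + r * s') * (r + s) + r * s * (r' + s')) * y
      + ((r' * s + r * s') * ((r + s) ^ 2 + r * s)
        + r * s * (2 * (r + s) * (r' + s') + (r' * s + r * s'))) * t,
    (s' * (s + 2 * r) + s * (s' + 2 * r')) * x
      + ((r' * s + r * s') * (2 * (r + s) ^ 2 + r * s)
        + r * s * (4 * (r + s) * (r' + s') + (r' * s + r * s'))) * y
      + (2 * (r' * s + r * s') * (r + s) * ((r + s) ^ 2 + 2 * (r * s))
        + 2 * (r * s) * (r' + s') * ((r + s) ^ 2 + 2 * (r * s))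
        + 2 * (r * s) * (r + s) * (2 * (r + s) * (r' + s') + 2 * (r' * s + r * s'))) * t,
    (s' * (s ^ 2 + 6 * r * s + 3 * r ^ 2)
        + s * (2 * s * s' + 6 * (r' * s + r * s') + 6 * r * r')) * x
      + (3 * (r' * s + r * s') * (r + s) * ((r + s) ^ 2 + 2 * (r * s))
        + 3 * (r * s) * (r' + s') * ((r + s) ^ 2 + 2 * (r * s))
        + 3 * (r * s) * (r + s) * (2 * (r + s) * (r' + s') + 2 * (r' * s + r * s'))) * y
      + ((r' * s + r * s') * (3 * (r + s) ^ 4 + 12 * (r + s) ^ 2 * (r * s) + 4 * (r * s) ^ 2)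
        + r * s * (12 * (r + s) ^ 3 * (r' + s')
          + 12 * (2 * (r + s) * (r' + s') * (r * s) + (r + s) ^ 2 * (r' * s + r * s'))
          + 8 * (r * s) * (r' * s + r * s'))) * t⟩

/-- `ds/dr` along the curve at the critical point. -/
def sl (r s y t : ℝ) : ℝ := 2 * s * (y + 3 * t * (r + s)) / pj r s y t

/-- The derivative of `(a, c, e)` along the curve. -/
def del (r s y t : ℝ) : J := dcb r s 1 (sl r s y t) 1 (Yx r s y t) (Tx r s y t)

/-- `Del * d(dD/dx)/dr` at the critical point. -/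
def Third (r s y t : ℝ) : ℝ :=
  dD (jet r s y t) (del r s y t) *
      (gY dM r s y t * gT dNet r s y t - gT dM r s y t * gY dNet r s y t)
    - dM (jet r s y t) (del r s y t) *
      (gY dD r s y t * gT dNet r s y t - gT dD r s y t * gY dNet r s y t)
    + dNet (jet r s y t) (del r s y t) *
      (gY dD r s y t * gT dM r s y t - gT dD r s y t * gY dM r s y t)

/-- The conditions at the critical point. -/
structure PC (r s y t : ℝ) : Prop where
  crit : K5N.Crit r s y t
  M : fM (jet r s y t) = 0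
  Net : fNet (jet r s y t) = 0
  D : 1 < fD (jet r s y t)
  A : 0 < fA (jet r s y t)
  u : 0 < K5N.pw1 r s y t
  j : 0 < pj r s y t
  del : Del r s y t ≠ 0
  om : 0 < om r s y t
  hd : 0 < HH dD r s y t
  ha : 0 < HH dA r s y t
  third : Third r s y t ≠ 0

theorem PC.reg {r s y t : ℝ} (h : PC r s y t) : Reg (jet r s y t) :=
  ⟨h.crit.x_pos, h.u, zero_lt_one.trans h.D⟩

end

end K5L
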