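import Pool.Agent.Lib.K5L.Dir

/-!
# K5L.Stat: the differentials along a curve at a stationary point

If all six coordinates of `β` are stationary at `q` then the derivative of `w ↦ dD (β w) (δ w)` at `q` is
`dD (β q) δ'`; the same for `dM`, `dNet`.
-/

set_option autoImplicit false

namespace K5L

noncomputable section

/-- The zero vector. -/
def J0 : J := ⟨0, 0, 0, 0, 0, 0⟩

variable {β δ : ℝ → J} {d : J} {q : ℝ}

namespace Stat

theorem z0 (b : J) : dk b J0 = 0 ∧ dT b J0 = 0 ∧ dY b J0 = 0 ∧ dD b J0 = 0 ∧ dN b J0 = 0 ∧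
    dA b J0 = 0 ∧ dS b J0 = 0 ∧ dM b J0 = 0 ∧ dG b J0 = 0 := by
  have h1 : dk b J0 = 0 := by simp [dk, J0]
  have h2 : dT b J0 = 0 := by unfold dT; rw [h1]; simp [J0]
  have h3 : dY b J0 = 0 := by unfold dY; rw [h1, h2]; simp [J0]
  have h4 : dD b J0 = 0 := by unfold dD; rw [h1]; simp [J0]
  have h5 : dN b J0 = 0 := by unfold dN; rw [h1, h4]; simp [J0]
  have h6 : dA b J0 = 0 := by unfold dA; rw [h5, h4, h2]; simp
  have h7 : dS b J0 = 0 := by unfold dS; rw [h4]; simp [J0]
  have h8 : dM b J0 = 0 := by unfold dM; rw [h6, h2]; simp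
  have h9 : dG b J0 = 0 := by unfold dG; rw [h6, h2]; simp
  exact ⟨h1, h2, h3, h4, h5, h6, h7, h8, h9⟩

variable (h : HasJ β J0 q) (hb : Reg (β q)) (hd : HasJ δ d q)
include h hb

theorem k : HasDerivAt (fun w => fk (β w)) 0 q := (h.k hb).congr_deriv (z0 _).1
theorem T : HasDerivAt (fun w => fT (β w)) 0 q := (h.T hb).congr_deriv (z0 _).2.1
theorem D : HasDerivAt (fun w => fD (β w)) 0 q := (h.D hb).congr_deriv (z0 _).2.2.2.1
theorem N : HasDerivAt (fun w => fN (β w)) 0 q := (h.N hb).congr_deriv (z0 _).2.2.2.2.1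
theorem A : HasDerivAt (fun w => fA (β w)) 0 q := (h.A hb).congr_deriv (z0 _).2.2.2.2.2.1
theorem S : HasDerivAt (fun w => fS (β w)) 0 q := (h.S hb).congr_deriv (z0 _).2.2.2.2.2.2.1
theorem M : HasDerivAt (fun w => fM (β w)) 0 q := (h.M hb).congr_deriv (z0 _).2.2.2.2.2.2.2.1
theorem G : HasDerivAt (fun w => fG (β w)) 0 q := (h.G hb).congr_deriv (z0 _).2.2.2.2.2.2.2.2

include hd

theorem dk' : HasDerivAt (fun w => dk (β w) (δ w)) (dk (β q) d) q := by
  have hx := hb.x.ne'
  unfold dk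
  refine ((hd.u.sub ((k h hb).mul hd.x)).div h.x hx).congr_deriv ?_
  simp only [Pi.sub_apply, Pi.mul_apply, J0]
  field_simp
  ring

theorem dT' : HasDerivAt (fun w => dT (β w) (δ w)) (dT (β q) d) q := by
  unfold dT
  refine ((hd.t.mul ((k h hb).pow 3)).add (((h.t.const_mul 3).mul ((k h hb).pow 2)).mul
    (dk' h hb hd))).congr_deriv ?_
  push_cast
  simp only [Pi.pow_apply, Pi.mul_apply, J0]
  ring

theorem dY' : HasDerivAt (fun w => dY (β w) (δ w)) (dY (β q) d) q := by
  unfold dY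
  refine (((hd.y.mul ((k h hb).pow 2)).add (((h.y.const_mul 2).mul (k h hb)).mul
    (dk' h hb hd))).add ((dT' h hb hd).const_mul 2)).congr_deriv ?_
  push_cast
  simp only [Pi.pow_apply, Pi.mul_apply, J0]
  ring

theorem dD' : HasDerivAt (fun w => dD (β w) (δ w)) (dD (β q) d) q := by
  have hx := hb.x.ne'
  have hk := hb.k.ne'
  unfold dD
  refine (((((hd.v.div ((k h hb).pow 2) (pow_ne_zero 2 hk)).sub
    (((h.v.const_mul 2).div ((k h hb).pow 3) (pow_ne_zero 3 hk)).mul (dk' h hb hd))).sub hd.x).div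
    (h.x.pow 2) (pow_ne_zero 2 hx)).sub
    (((((D h hb).add_const 1).const_mul 2).mul hd.x).div h.x hx)).congr_deriv ?_
  push_cast
  simp only [Pi.pow_apply, Pi.mul_apply, Pi.sub_apply, Pi.div_apply, J0]
  field_simp
  ring

theorem dN' : HasDerivAt (fun w => dN (β w) (δ w)) (dN (β q) d) q := by
  have hx := hb.x.ne'
  have hk := hb.k.ne'
  unfold dN
  refine ((((((hd.w.div ((k h hb).pow 3) (pow_ne_zero 3 hk)).sub
    (((h.w.const_mul 3).div ((k h hb).pow 4) (pow_ne_zero 4 hk)).mul (dk' h hb hd))).sub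
    (((h.x.pow 2).const_mul 3).mul (dD' h hb hd))).sub
    ((((h.x.const_mul 6).mul ((D h hb).const_add 1)).mul hd.x))).sub hd.x).div (h.x.pow 3)
    (pow_ne_zero 3 hx)).sub ((((N h hb).const_mul 3).mul hd.x).div h.x hx) |>.congr_deriv ?_
  push_cast
  simp only [Pi.pow_apply, Pi.mul_apply, Pi.sub_apply, Pi.div_apply, J0]
  field_simp
  ring

theorem dA' : HasDerivAt (fun w => dA (β w) (δ w)) (dA (β q) d) q := by
  have hD : 1 + fD (β q) ≠ 0 := by
    have := hb.D
    positivity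
  unfold dA
  refine ((((dN' h hb hd).div (((D h hb).const_add 1).pow 3) (pow_ne_zero 3 hD)).sub
    ((((N h hb).const_mul 3).mul (dD' h hb hd)).div (((D h hb).const_add 1).pow 4)
    (pow_ne_zero 4 hD))).sub (dT' h hb hd)).congr_deriv ?_
  push_cast
  simp only [Pi.pow_apply, Pi.mul_apply]
  field_simp
  ring

theorem dM' : HasDerivAt (fun w => dM (β w) (δ w)) (dM (β q) d) q := by
  unfold dM
  refine (((((A h hb).exp).sub_const 1).mul (dA' h hb hd)).sub (dT' h hb hd)).congr_deriv ?_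
  ring

theorem dS' : HasDerivAt (fun w => dS (β w) (δ w)) (dS (β q) d) q := by
  have hD := hb.D
  have hx := hb.x
  have h1 : 1 + (β q).x * fD (β q) ≠ 0 := by positivity
  unfold dS
  refine ((((hd.x.mul ((D h hb).pow 2)).add (((h.x.const_mul 2).mul (D h hb)).mul
    (dD' h hb hd))).div ((h.x.mul (D h hb)).const_add 1) h1).sub
    (((S h hb).mul ((hd.x.mul (D h hb)).add (h.x.mul (dD' h hb hd)))).div
      ((h.x.mul (D h hb)).const_add 1) h1)).congr_deriv ?_
  push_cast
  simp only [Pi.pow_apply, Pi.mul_apply, Pi.add_apply, J0]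
  field_simp
  ring

theorem dP' : HasDerivAt (fun w => dP (β w) (δ w)) (dP (β q) d) q := by
  unfold dP
  refine ((hd.x.mul (((D h hb).const_add 1).pow 2)).add (((h.x.const_mul 2).mul
    ((D h hb).const_add 1)).mul (dD' h hb hd))).congr_deriv ?_
  push_cast
  simp only [Pi.pow_apply, Pi.mul_apply, J0]
  ring

theorem dK' : HasDerivAt (fun w => dK (β w) (δ w)) (dK (β q) d) q := by
  have hD : 1 + fD (β q) ≠ 0 := by
    have := hb.D
    positivity
  unfold dK
  refine (((((((dD' h hb hd).div (((D h hb).const_add 1).pow 2) (pow_ne_zero 2 hD)).sub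
    (dY' h hb hd)).sub (dS' h hb hd)).sub ((dP' h hb hd).mul (((T h hb).const_mul 2).add
      ((T h hb).pow 2)))).sub ((h.x.mul (((D h hb).const_add 1).pow 2)).mul
      ((((T h hb).const_mul 2).const_add 2).mul (dT' h hb hd)))).div_const 2).congr_deriv ?_
  push_cast
  simp only [Pi.pow_apply, Pi.mul_apply, Pi.add_apply, J0]
  field_simp
  ring

theorem dG' : HasDerivAt (fun w => dG (β w) (δ w)) (dG (β q) d) q := by
  unfold dG
  refine (((M h hb).mul (dA' h hb hd)).sub ((A h hb).mul (dT' h hb hd))).congr_deriv ?_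
  ring

theorem dT0' : HasDerivAt (fun w => dT0 (β w) (δ w)) (dT0 (β q) d) q := by
  unfold dT0
  refine (((((dK' h hb hd).add ((dP' h hb hd).mul (G h hb))).add
    ((h.x.mul (((D h hb).const_add 1).pow 2)).mul (dG' h hb hd))).add
    (((((h.x.pow 5).const_mul 9).mul ((D h hb).pow 11)).mul hd.x).add
      ((((h.x.pow 6).const_mul (33 / 2)).mul ((D h hb).pow 10)).mul (dD' h hb hd)))).sub
    ((((h.x.pow 3).mul ((D h hb).pow 8)).mul hd.x).add
      ((((h.x.pow 4).const_mul 2).mul ((D h hb).pow 7)).mul (dD' h hb hd)))).congr_deriv ?_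
  push_cast
  simp only [Pi.pow_apply, Pi.mul_apply, J0]
  ring

theorem dNet' : HasDerivAt (fun w => dNet (β w) (δ w)) (dNet (β q) d) q := by
  have hD : 1 + fD (β q) ≠ 0 := by
    have := hb.D
    positivity
  unfold dNet
  refine ((((dD' h hb hd).div ((D h hb).const_add 1) hD).sub (dS' h hb hd)).sub
    (dT0' h hb hd)).congr_deriv ?_
  field_simp
  ring

end Stat

end

end K5L
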