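import Pool.Agent.Lib.K5L.Mono
import Pool.Agent.Lib.K5L.Stat

/-!
# K5L.Third: the second derivative of `D` along the curve, divided by `x'`
-/

set_option autoImplicit false

namespace K5L

open K5N K5C Filter Topology
open scoped ContDiff

noncomputable section

/-- Nine coefficients. -/
structure C9 where
  p1 : ℝ
  p2 : ℝ
  p3 : ℝ
  q1 : ℝ
  q2 : ℝ
  q3 : ℝ
  w1 : ℝ
  w2 : ℝ
  w3 : ℝ

/-- A direction without `x, y, t` components, linear in `(x, y, t)`. -/
def gn (c : C9) (x y t : ℝ) : J :=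
  ⟨0, 0, 0, c.p1 * x + c.p2 * y + c.p3 * t, c.q1 * x + c.q2 * y + c.q3 * t,
    c.w1 * x + c.w2 * y + c.w3 * t⟩

theorem dk_gn (b : J) (c : C9) (x y t : ℝ) : dk b (gn c x y t) =
    x * dk b (gn c 1 0 0) + y * dk b (gn c 0 1 0) + t * dk b (gn c 0 0 1) := by
  unfold dk gn
  ring

theorem dT_gn (b : J) (c : C9) (x y t : ℝ) : dT b (gn c x y t) =
    x * dT b (gn c 1 0 0) + y * dT b (gn c 0 1 0) + t * dT b (gn c 0 0 1) := by
  unfold dT
  rw [dk_gn]
  unfold gn
  ring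

theorem dY_gn (b : J) (c : C9) (x y t : ℝ) : dY b (gn c x y t) =
    x * dY b (gn c 1 0 0) + y * dY b (gn c 0 1 0) + t * dY b (gn c 0 0 1) := by
  unfold dY
  rw [dk_gn, dT_gn]
  unfold gn
  ring

theorem dD_gn (b : J) (c : C9) (x y t : ℝ) : dD b (gn c x y t) =
    x * dD b (gn c 1 0 0) + y * dD b (gn c 0 1 0) + t * dD b (gn c 0 0 1) := by
  unfold dD
  rw [dk_gn]
  unfold gn
  ring

theorem dN_gn (b : J) (c : C9) (x y t : ℝ) : dN b (gn c x y t) =
    x * dN b (gn c 1 0 0) + y * dN b (gn c 0 1 0) + t * dN b (gn c 0 0 1) := by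
  unfold dN
  rw [dk_gn, dD_gn]
  unfold gn
  ring

theorem dA_gn (b : J) (c : C9) (x y t : ℝ) : dA b (gn c x y t) =
    x * dA b (gn c 1 0 0) + y * dA b (gn c 0 1 0) + t * dA b (gn c 0 0 1) := by
  unfold dA
  rw [dN_gn, dD_gn, dT_gn]
  ring

theorem dM_gn (b : J) (c : C9) (x y t : ℝ) : dM b (gn c x y t) =
    x * dM b (gn c 1 0 0) + y * dM b (gn c 0 1 0) + t * dM b (gn c 0 0 1) := by
  unfold dM
  rw [dA_gn, dT_gn]
  ring

theorem dS_gn (b : J) (c : C9) (x y t : ℝ) : dS b (gn c x y t) =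
    x * dS b (gn c 1 0 0) + y * dS b (gn c 0 1 0) + t * dS b (gn c 0 0 1) := by
  unfold dS
  rw [dD_gn]
  simp only [gn]
  ring

theorem dP_gn (b : J) (c : C9) (x y t : ℝ) : dP b (gn c x y t) =
    x * dP b (gn c 1 0 0) + y * dP b (gn c 0 1 0) + t * dP b (gn c 0 0 1) := by
  unfold dP
  rw [dD_gn]
  simp only [gn]
  ring

theorem dK_gn (b : J) (c : C9) (x y t : ℝ) : dK b (gn c x y t) =
    x * dK b (gn c 1 0 0) + y * dK b (gn c 0 1 0) + t * dK b (gn c 0 0 1) := by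
  unfold dK
  rw [dD_gn, dY_gn, dS_gn, dP_gn, dT_gn]
  ring

theorem dG_gn (b : J) (c : C9) (x y t : ℝ) : dG b (gn c x y t) =
    x * dG b (gn c 1 0 0) + y * dG b (gn c 0 1 0) + t * dG b (gn c 0 0 1) := by
  unfold dG
  rw [dA_gn, dT_gn]
  ring

theorem dT0_gn (b : J) (c : C9) (x y t : ℝ) : dT0 b (gn c x y t) =
    x * dT0 b (gn c 1 0 0) + y * dT0 b (gn c 0 1 0) + t * dT0 b (gn c 0 0 1) := by
  unfold dT0
  rw [dK_gn, dP_gn, dG_gn, dD_gn]
  simp only [gn]
  ring

theorem dNet_gn (b : J) (c : C9) (x y t : ℝ) : dNet b (gn c x y t) =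
    x * dNet b (gn c 1 0 0) + y * dNet b (gn c 0 1 0) + t * dNet b (gn c 0 0 1) := by
  unfold dNet
  rw [dD_gn, dS_gn, dT0_gn]
  ring


/-- The coefficients of `dcb`. -/
def cc (r s r' s' : ℝ) : C9 :=
  ⟨s', (r' * s + r * s') * (r + s) + r * s * (r' + s'),
    (r' * s + r * s') * ((r + s) ^ 2 + r * s)
        + r * s * (2 * (r + s) * (r' + s') + (r' * s + r * s')),
    s' * (s + 2 * r) + s * (s' + 2 * r'),
    (r' * s + r * s') * (2 * (r + s) ^ 2 + r * s)
        + r * s * (4 * (r + s) * (r' + s') + (r' * s + r * s')),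
    2 * (r' * s + r * s') * (r + s) * ((r + s) ^ 2 + 2 * (r * s))
        + 2 * (r * s) * (r' + s') * ((r + s) ^ 2 + 2 * (r * s))
        + 2 * (r * s) * (r + s) * (2 * (r + s) * (r' + s') + 2 * (r' * s + r * s')),
    s' * (s ^ 2 + 6 * r * s + 3 * r ^ 2)
        + s * (2 * s * s' + 6 * (r' * s + r * s') + 6 * r * r'),
    3 * (r' * s + r * s') * (r + s) * ((r + s) ^ 2 + 2 * (r * s))
        + 3 * (r * s) * (r' + s') * ((r + s) ^ 2 + 2 * (r * s))
        + 3 * (r * s) * (r + s) * (2 * (r + s) * (r' + s') + 2 * (r' * s + r * s')),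
    (r' * s + r * s') * (3 * (r + s) ^ 4 + 12 * (r + s) ^ 2 * (r * s) + 4 * (r * s) ^ 2)
        + r * s * (12 * (r + s) ^ 3 * (r' + s')
          + 12 * (2 * (r + s) * (r' + s') * (r * s) + (r + s) ^ 2 * (r' * s + r * s'))
          + 8 * (r * s) * (r' * s + r * s'))⟩

theorem dcb_eq (r s r' s' x y t : ℝ) : dcb r s r' s' x y t = gn (cc r s r' s') x y t := rfl

variable {S Y T : ℝ → ℝ} {q : ℝ}

/-- The derivative of a direction along the curve. -/
theorem hasJ_cb {s' : ℝ} (hs : HasDerivAt S s' q) (x y t : ℝ) :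
    HasJ (fun w => cb w (S w) x y t) (gn (cc q (S q) 1 s') x y t) q := by
  have hi := hasDerivAt_id' q
  refine ⟨hasDerivAt_const _ _, hasDerivAt_const _ _, hasDerivAt_const _ _, ?_, ?_, ?_⟩
  · refine ((hs.mul_const x).add ((((hi.mul hs).mul (hi.add hs)).mul_const y)) |>.add
      ((((hi.mul hs).mul (((hi.add hs).pow 2).add (hi.mul hs)))).mul_const t)).congr_deriv ?_
    simp only [gn, cc, Pi.mul_apply, Pi.add_apply, Pi.pow_apply]
    push_cast
    ring
  · refine (((hs.mul (hs.add (hi.const_mul 2))).mul_const x).add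
      ((((hi.mul hs).mul ((((hi.add hs).pow 2).const_mul 2).add (hi.mul hs))).mul_const y)) |>.add
      ((((((hi.mul hs).const_mul 2).mul (hi.add hs)).mul
        (((hi.add hs).pow 2).add ((hi.mul hs).const_mul 2)))).mul_const t)).congr_deriv ?_
    simp only [gn, cc, Pi.mul_apply, Pi.add_apply, Pi.pow_apply]
    push_cast
    ring
  · refine (((hs.mul (((hs.pow 2).add ((hi.const_mul 6).mul hs)).add
      ((hi.pow 2).const_mul 3))).mul_const x).add
      (((((((hi.mul hs).const_mul 3).mul (hi.add hs)).mul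
        (((hi.add hs).pow 2).add ((hi.mul hs).const_mul 2)))).mul_const y)) |>.add
      (((hi.mul hs).mul (((((hi.add hs).pow 4).const_mul 3).add
        ((((hi.add hs).pow 2).const_mul 12).mul (hi.mul hs))).add
          (((hi.mul hs).pow 2).const_mul 4))).mul_const t)).congr_deriv ?_
    simp only [gn, cc, Pi.mul_apply, Pi.add_apply, Pi.pow_apply]
    push_cast
    ring

/-- The derivative of `chi` along the curve at the critical point. -/
theorem Loc.chi' (h : Loc S Y T q) (hc : chi q (S q) (Y q) (T q) = 0) :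
    ∃ c < 0, HasDerivAt (fun w => chi w (S w) (Y w) (T w)) c q := by
  obtain ⟨e1, e2, e3, -⟩ := h.slope hc
  have dS := h.dS
  have dY := h.dY
  have dT := h.dT
  rw [e1] at dS
  rw [e2] at dY
  rw [e3] at dT
  have hi := hasDerivAt_id' q
  set σ := sl q (S q) (Y q) (T q) with hσ
  have hq := h.q0
  have hS := h.S0
  have hY := h.Y0
  have hT := h.T0
  have hj := h.j
  have hσ0 : 0 < σ := by
    rw [hσ]
    unfold sl
    positivity
  have hpj : HasDerivAt (fun w => pj w (S w) (Y w) (T w))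
      (-2 * Y q * (1 + σ) - 3 * T q * (2 * q + 4 * (S q + q * σ) + 2 * S q * σ)) q := by
    unfold K5N.pj
    refine ((((dY.const_mul 2).mul (hi.add dS)).const_sub 1).sub ((dT.const_mul 3).mul
      (((hi.pow 2).add ((hi.const_mul 4).mul dS)).add (dS.pow 2)))).congr_deriv ?_
    simp only [Pi.mul_apply, Pi.add_apply, Pi.pow_apply]
    push_cast
    ring
  have hchi : HasDerivAt (fun w => chi w (S w) (Y w) (T w))
      (2 * pj q (S q) (Y q) (T q) * (-2 * Y q * (1 + σ)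
        - 3 * T q * (2 * q + 4 * (S q + q * σ) + 2 * S q * σ))
        - 4 * (S q + q * σ) * (Y q + 3 * T q * (q + S q)) ^ 2
        - 4 * q * S q * (2 * (Y q + 3 * T q * (q + S q)) * (3 * T q * (1 + σ)))) q := by
    unfold chi
    refine ((hpj.pow 2).sub (((hi.const_mul 4).mul dS).mul ((dY.add ((dT.const_mul 3).mul
      (hi.add dS))).pow 2))).congr_deriv ?_
    simp only [Pi.mul_apply, Pi.add_apply, Pi.pow_apply]
    push_cast
    ring
  refine ⟨_, ?_, hchi⟩
  have h1 : 0 < 2 * pj q (S q) (Y q) (T q) * (2 * Y q * (1 + σ)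
        + 3 * T q * (2 * q + 4 * (S q + q * σ) + 2 * S q * σ)) := by positivity
  have h2 : 0 < 4 * (S q + q * σ) * (Y q + 3 * T q * (q + S q)) ^ 2 := by positivity
  have h3 : 0 < 4 * q * S q * (2 * (Y q + 3 * T q * (q + S q)) * (3 * T q * (1 + σ))) := by
    positivity
  linarith

/-- The derivative of `dD/dx` along the curve at the critical point. -/
theorem Loc.hd' (h : Loc S Y T q) (hc : chi q (S q) (Y q) (T q) = 0) :
    ∃ d : ℝ, HasDerivAt (fun w => HH dD w (S w) (Y w) (T w)) d q ∧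
      d * Del q (S q) (Y q) (T q) = Third q (S q) (Y q) (T q) := by
  obtain ⟨e1, e2, e3, e4⟩ := h.slope hc
  have dS := h.dS
  rw [e1] at dS
  have hj : HasJ (fun w => jet w (S w) (Y w) (T w)) J0 q := by
    have h1 := h.jet'
    rw [h.x', e4, e2, e3] at h1
    have h2 : cb q (S q) 0 0 0 = J0 := by
      simp [cb, J0]
    rw [h2] at h1
    exact h1
  have D1 := Stat.dD' hj h.reg (hasJ_cb dS 1 0 0)
  have D2 := Stat.dD' hj h.reg (hasJ_cb dS 0 1 0)
  have D3 := Stat.dD' hj h.reg (hasJ_cb dS 0 0 1)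
  have M1 := Stat.dM' hj h.reg (hasJ_cb dS 1 0 0)
  have M2 := Stat.dM' hj h.reg (hasJ_cb dS 0 1 0)
  have M3 := Stat.dM' hj h.reg (hasJ_cb dS 0 0 1)
  have N1 := Stat.dNet' hj h.reg (hasJ_cb dS 1 0 0)
  have N2 := Stat.dNet' hj h.reg (hasJ_cb dS 0 1 0)
  have N3 := Stat.dNet' hj h.reg (hasJ_cb dS 0 0 1)
  have hYx := ((sm_Yx h.sS h.sY h.sT h.reg h.del).differentiableAt (by simp)).hasDerivAt
  have hTx := ((sm_Tx h.sS h.sY h.sT h.reg h.del).differentiableAt (by simp)).hasDerivAt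
  set Y' := deriv (fun w => Yx w (S w) (Y w) (T w)) q with hY'
  set T' := deriv (fun w => Tx w (S w) (Y w) (T w)) q with hT'
  have hDel : ∀ᶠ w in 𝓝 q, Del w (S w) (Y w) (T w) ≠ 0 :=
    (sm_Del h.sS h.sY h.sT h.reg).continuousAt.eventually (isOpen_ne.mem_nhds h.del)
  have HM : ∀ᶠ w in 𝓝 q, HH dM w (S w) (Y w) (T w) = 0 := by
    filter_upwards [hDel] with w hw
    unfold HH Yx Tx
    field_simp
    unfold Del
    ring
  have HN : ∀ᶠ w in 𝓝 q, HH dNet w (S w) (Y w) (T w) = 0 := by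
    filter_upwards [hDel] with w hw
    unfold HH Yx Tx
    field_simp
    unfold Del
    ring
  have hHD := (D1.add (D2.mul hYx)).add (D3.mul hTx)
  have hHM := (M1.add (M2.mul hYx)).add (M3.mul hTx)
  have hHN := (N1.add (N2.mul hYx)).add (N3.mul hTx)
  have zM := hHM.unique ((hasDerivAt_const q (0 : ℝ)).congr_of_eventuallyEq HM)
  have zN := hHN.unique ((hasDerivAt_const q (0 : ℝ)).congr_of_eventuallyEq HN)
  refine ⟨_, hHD, ?_⟩
  have eD : dD (jet q (S q) (Y q) (T q)) (K5L.del q (S q) (Y q) (T q)) =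
      dD (jet q (S q) (Y q) (T q)) (gn (cc q (S q) 1 (sl q (S q) (Y q) (T q))) 1 0 0)
      + Yx q (S q) (Y q) (T q) *
        dD (jet q (S q) (Y q) (T q)) (gn (cc q (S q) 1 (sl q (S q) (Y q) (T q))) 0 1 0)
      + Tx q (S q) (Y q) (T q) *
        dD (jet q (S q) (Y q) (T q)) (gn (cc q (S q) 1 (sl q (S q) (Y q) (T q))) 0 0 1) := by
    unfold K5L.del
    rw [dcb_eq, dD_gn]
    ring
  have eM : dM (jet q (S q) (Y q) (T q)) (K5L.del q (S q) (Y q) (T q)) =
      dM (jet q (S q) (Y q) (T q)) (gn (cc q (S q) 1 (sl q (S q) (Y q) (T q))) 1 0 0)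
      + Yx q (S q) (Y q) (T q) *
        dM (jet q (S q) (Y q) (T q)) (gn (cc q (S q) 1 (sl q (S q) (Y q) (T q))) 0 1 0)
      + Tx q (S q) (Y q) (T q) *
        dM (jet q (S q) (Y q) (T q)) (gn (cc q (S q) 1 (sl q (S q) (Y q) (T q))) 0 0 1) := by
    unfold K5L.del
    rw [dcb_eq, dM_gn]
    ring
  have eN : dNet (jet q (S q) (Y q) (T q)) (K5L.del q (S q) (Y q) (T q)) =
      dNet (jet q (S q) (Y q) (T q)) (gn (cc q (S q) 1 (sl q (S q) (Y q) (T q))) 1 0 0)
      + Yx q (S q) (Y q) (T q) *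
        dNet (jet q (S q) (Y q) (T q)) (gn (cc q (S q) 1 (sl q (S q) (Y q) (T q))) 0 1 0)
      + Tx q (S q) (Y q) (T q) *
        dNet (jet q (S q) (Y q) (T q)) (gn (cc q (S q) 1 (sl q (S q) (Y q) (T q))) 0 0 1) := by
    unfold K5L.del
    rw [dcb_eq, dNet_gn]
    ring
  unfold Third Del
  rw [eD, eM, eN]
  simp only [gY, gT] at zM zN ⊢
  linear_combination (dNet (jet q (S q) (Y q) (T q)) (cb q (S q) 0 1 0) *
      dD (jet q (S q) (Y q) (T q)) (cb q (S q) 0 0 1)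
      - dNet (jet q (S q) (Y q) (T q)) (cb q (S q) 0 0 1) *
      dD (jet q (S q) (Y q) (T q)) (cb q (S q) 0 1 0)) * (-zM)
    + (dM (jet q (S q) (Y q) (T q)) (cb q (S q) 0 1 0) *
      dD (jet q (S q) (Y q) (T q)) (cb q (S q) 0 0 1)
      - dM (jet q (S q) (Y q) (T q)) (cb q (S q) 0 0 1) *
      dD (jet q (S q) (Y q) (T q)) (cb q (S q) 0 1 0)) * zN

end

end K5L
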